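import Pool.Agent.Lib_helper80.KSY.Defs

/-! Block AA of project KSY: `FM_ext`, `TL_ord`. -/

set_option autoImplicit false

namespace Pool.Agent.KSYP.AA

open MvPolynomial Pool.Agent.KSS Pool.Agent.KSX Pool.Agent.Lib_helper56.KSS Filter Topology
open Pool.Agent.Lib_helper80.KSX (subJ)
open Pool.Agent.KSY

theorem aa_step {k F F0 V : Type} [Field k] [Field F] [Algebra k F] [Field F0] [Algebra k F0]
    {L : ℕ} (w ω : V → ℕ) (x : V → Fin L → F) (x0 : V → Fin L → F0) (hx : TL k w ω x x0)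
    (M : Set (V →₀ ℕ)) [Finite M] (D : ℕ) (hM : ∀ d ∈ M, Finsupp.weight w d = D) (l : ℕ)
    (hl : l ≤ L) (N : ℕ) :
    Module.finrank k (FM k x {d | d ∈ M ∧ N ≤ Finsupp.weight ω d} l) ≤
      Module.finrank k (FM k x0 {d | d ∈ M ∧ Finsupp.weight ω d = N} l) +
        Module.finrank k (FM k x {d | d ∈ M ∧ N + 1 ≤ Finsupp.weight ω d} l) := by
  classical
  have hfin : ∀ S : Set (V →₀ ℕ), S ⊆ M → Finite S := fun S hS =>
    (Set.Finite.subset (Set.toFinite M) hS)
  have i1 : Finite {d | d ∈ M ∧ N ≤ Finsupp.weight ω d} := hfin _ (fun d hd => hd.1)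
  have i2 : Finite {d | d ∈ M ∧ N + 1 ≤ Finsupp.weight ω d} := hfin _ (fun d hd => hd.1)
  have i3 : Finite {d | d ∈ M ∧ Finsupp.weight ω d = N} := hfin _ (fun d hd => hd.1)
  have j1 := FM_finite (k := k) x {d | d ∈ M ∧ N ≤ Finsupp.weight ω d} l
  have j2 := FM_finite (k := k) x {d | d ∈ M ∧ N + 1 ≤ Finsupp.weight ω d} l
  have j3 := FM_finite (k := k) x0 {d | d ∈ M ∧ Finsupp.weight ω d = N} l
  have hr := slc_rank (weightedHomogeneousComponent ω N) (FM k x {d | d ∈ M ∧ N ≤ Finsupp.weight ω d} l)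
  have h1 : Module.finrank k ((FM k x {d | d ∈ M ∧ N ≤ Finsupp.weight ω d} l).map
      (weightedHomogeneousComponent ω N)) ≤
        Module.finrank k (FM k x0 {d | d ∈ M ∧ Finsupp.weight ω d = N} l) := by
    apply Submodule.finrank_mono
    rintro _ ⟨P, hP, rfl⟩
    have hP' := mem_FM.1 hP
    rw [mem_FM]
    refine ⟨?_, ?_⟩
    · intro d hd
      rw [mem_support_iff, coeff_weightedHomogeneousComponent] at hd
      split_ifs at hd with h
      · exact ⟨(hP'.1 d (mem_support_iff.2 hd)).1, h⟩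
      · exact absurd rfl hd
    · apply hx P D N _ _ l hl hP'.2
      · intro d hd
        exact hM d (hP'.1 d (mem_support_iff.2 hd)).1
      · intro d hd
        exact (hP'.1 d hd).2
  have h2 : Module.finrank k (FM k x {d | d ∈ M ∧ N ≤ Finsupp.weight ω d} l ⊓
      LinearMap.ker (weightedHomogeneousComponent ω N) : Submodule k (MvPolynomial V k)) ≤
      Module.finrank k (FM k x {d | d ∈ M ∧ N + 1 ≤ Finsupp.weight ω d} l) := by
    apply Submodule.finrank_mono
    rintro P ⟨hP, hP2⟩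
    have hP' := mem_FM.1 hP
    rw [mem_FM]
    refine ⟨?_, hP'.2⟩
    intro d hd
    refine ⟨(hP'.1 d hd).1, ?_⟩
    have h3 := (hP'.1 d hd).2
    have h4 : Finsupp.weight ω d ≠ N := by
      intro h5
      have h6 := congrArg (coeff d) (LinearMap.mem_ker.1 hP2)
      rw [coeff_weightedHomogeneousComponent, if_pos h5, coeff_zero] at h6
      exact (mem_support_iff.1 hd) h6
    omega
  omega

/-- (AA) one-sided version of `FM_initial` -/
theorem FM_ext_pr {k F F0 V : Type} [Field k] [Field F] [Algebra k F] [Field F0] [Algebra k F0]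
    {L : ℕ} (w ω : V → ℕ) (x : V → Fin L → F) (x0 : V → Fin L → F0) (hx : TL k w ω x x0)
    (M : Set (V →₀ ℕ)) [Finite M] (D : ℕ) (hM : ∀ d ∈ M, Finsupp.weight w d = D) (l : ℕ)
    (hl : l ≤ L) (T : ℕ) (S : Finset ℕ)
    (hS : ∀ d ∈ M, Finsupp.weight ω d < T → Finsupp.weight ω d ∈ S) :
    Module.finrank k (FM k x M l) ≤
      Module.finrank k (FM k x {d | d ∈ M ∧ T ≤ Finsupp.weight ω d} l)
      + ∑ χ ∈ S, Module.finrank k (FM k x0 {d | d ∈ M ∧ Finsupp.weight ω d = χ} l) := by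
  classical
  have key : ∀ N, Module.finrank k (FM k x M l) ≤
      Module.finrank k (FM k x {d | d ∈ M ∧ N ≤ Finsupp.weight ω d} l)
      + ∑ χ ∈ Finset.range N,
        Module.finrank k (FM k x0 {d | d ∈ M ∧ Finsupp.weight ω d = χ} l) := by
    intro N
    induction N with
    | zero =>
      have h2 : {d | d ∈ M ∧ 0 ≤ Finsupp.weight ω d} = M := by
        ext d
        exact ⟨fun h => h.1, fun h => ⟨h, Nat.zero_le _⟩⟩
      rw [h2, Finset.range_zero, Finset.sum_empty, add_zero]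
    | succ N ih =>
      have h1 := aa_step w ω x x0 hx M D hM l hl N
      rw [Finset.sum_range_succ]
      omega
  refine (key T).trans (Nat.add_le_add_left ?_ _)
  have h3 : ∀ χ ∈ Finset.range T, χ ∉ S →
      Module.finrank k (FM k x0 {d | d ∈ M ∧ Finsupp.weight ω d = χ} l) = 0 := by
    intro χ hχT hχ
    have h4 : FM k x0 {d | d ∈ M ∧ Finsupp.weight ω d = χ} l = ⊥ := by
      rw [eq_bot_iff]
      intro P hP
      have hP' := mem_FM.1 hP
      rw [Submodule.mem_bot]
      by_contra h0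
      obtain ⟨d, hd⟩ := Finset.nonempty_iff_ne_empty.2 (fun h => h0 (support_eq_empty.1 h))
      have h2 := hP'.1 d hd
      exact hχ (h2.2 ▸ hS d h2.1 (by rw [h2.2]; exact Finset.mem_range.1 hχT))
    rw [h4, finrank_bot]
  have h4 : ∑ χ ∈ Finset.range T,
      Module.finrank k (FM k x0 {d | d ∈ M ∧ Finsupp.weight ω d = χ} l) =
      ∑ χ ∈ Finset.range T ∩ S,
        Module.finrank k (FM k x0 {d | d ∈ M ∧ Finsupp.weight ω d = χ} l) := by
    symm
    apply Finset.sum_subset Finset.inter_subset_left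
    intro χ hχ1 hχ2
    apply h3 χ hχ1
    intro hT'
    exact hχ2 (Finset.mem_inter.2 ⟨hχ1, hT'⟩)
  rw [h4]
  exact Finset.sum_le_sum_of_subset Finset.inter_subset_right

/-- (AH) orders do not drop -/
theorem TL_ord_pr {k F F0 V : Type} [Field k] [Field F] [Algebra k F] [Field F0] [Algebra k F0]
    {L : ℕ} (w ω : V → ℕ) (x : V → Fin L → F) (x0 : V → Fin L → F0) (hx : TL k w ω x x0) (i : V) :
    ordL L (arc (x i)) ≤ ordL L (arc (x0 i)) := by
  classical
  have h1 : IsWeightedHomogeneous ω (X i : MvPolynomial V k) (ω i) := isWeightedHomogeneous_X k ω i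
  have h2 : weightedHomogeneousComponent ω (ω i) (X i : MvPolynomial V k) = X i := by
    rw [weightedHomogeneousComponent_of_mem h1, if_pos rfl]
  have h3 := hx (X i) (w i) (ω i) (isWeightedHomogeneous_X k w i) (fun d hd => by
    rw [h1 (mem_support_iff.1 hd)]) (ordL L (arc (x i))) (ordL_le _ _) (by
      rw [ev_X]
      exact ordL_dvd _ _)
  rw [h2, ev_X] at h3
  exact (dvd_iff_le_ordL (ordL_le _ _) _).1 h3

end Pool.Agent.KSYP.AA

alias Pool.Agent.KSY.FM_ext := Pool.Agent.KSYP.AA.FM_ext_pr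

alias Pool.Agent.KSY.TL_ord := Pool.Agent.KSYP.AA.TL_ord_pr
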