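import Pool.Agent.Lib_helper80.KSY.Defs

/-! # Project KSY, block AB (helper26): shift and substitution -/

set_option autoImplicit false

namespace Pool.Agent.KSYP.AB

open MvPolynomial Pool.Agent.KSS Pool.Agent.KSX Pool.Agent.Lib_helper56.KSS Filter Topology
open Pool.Agent.Lib_helper80.KSX (subJ ev_subJ)
open Pool.Agent.KSY

/-- (AB) shift and substitution -/
theorem FM_sub_pr {k κ V T : Type} [Field k] [Field κ] [Algebra k κ] [Fintype V] {L : ℕ}
    (x : V → Fin L → κ) (Ψ : T → MvPolynomial V k) (α : V →₀ ℕ) (M : Set (V →₀ ℕ))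
    (MB : Set (T →₀ ℕ)) [Finite MB] (l : ℕ) (hl : l ≤ L)
    (hM : ∀ δ ∈ M, ∃ β ∈ MB, (monomial δ 1 : MvPolynomial V k) =
      monomial α 1 * bind₁ Ψ (monomial β 1)) :
    Module.finrank k (FM k x M l) ≤
      Module.finrank k (FM k (subJ Ψ x) MB (l - ∑ i, α i * ordL L (arc (x i)))) := by
  classical
  have hfd := FM_finite (k := k) (subJ Ψ x) MB (l - ∑ i, α i * ordL L (arc (x i)))
  let f : MvPolynomial T k →ₗ[k] MvPolynomial V k :=
    (LinearMap.mulLeft k (monomial α (1 : k))).comp (bind₁ Ψ).toLinearMap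
  apply slc_map_le f
  intro P hP
  have hP' := mem_FM.1 hP
  choose! β hβ1 hβ2 using hM
  obtain ⟨E, hEdef⟩ : ∃ E : MvPolynomial T k, E = ∑ d ∈ P.support, monomial (β d) (coeff d P) :=
    ⟨_, rfl⟩
  have hmon : ∀ (U : Type) (d : U →₀ ℕ) (c : k), (monomial d c : MvPolynomial U k) =
      C c * monomial d 1 := by
    intro U d c
    rw [C_mul_monomial, mul_one]
  have hE : monomial α 1 * bind₁ Ψ E = P := by
    rw [hEdef]
    simp only [map_sum]
    conv_rhs => rw [P.as_sum]
    rw [Finset.mul_sum]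
    apply Finset.sum_congr rfl
    intro d hd
    rw [hmon T, hmon V d, map_mul, bind₁_C_right, hβ2 d (hP'.1 d hd)]
    ring
  have hsupp : ∀ d ∈ E.support, d ∈ MB := by
    intro d hd
    rw [hEdef] at hd
    have h2 := (MvPolynomial.support_sum (s := P.support)
      (f := fun d => monomial (β d) (coeff d P))) hd
    rw [Finset.mem_biUnion] at h2
    obtain ⟨d', hd', h3⟩ := h2
    have h4 := support_monomial_subset h3
    rw [Finset.mem_singleton] at h4
    rw [h4]
    exact hβ1 d' (hP'.1 d' hd')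
  have h5 : ev x P = ev x (monomial α 1 : MvPolynomial V k) * ev x (bind₁ Ψ E) := by
    rw [← hE, ev_mul]
  have h6 : ev x (monomial α 1 : MvPolynomial V k) = ∏ i, arc (x i) ^ α i := by
    unfold ev
    rw [aeval_monomial, map_one, one_mul, Finsupp.prod_fintype _ _ (by intro i; rw [pow_zero])]
  have h7 : (PowerSeries.X : PowerSeries κ) ^ (l - ∑ i, α i * ordL L (arc (x i))) ∣
      ev x (bind₁ Ψ E) := by
    apply dvd_of_mul_prod Finset.univ (fun i => arc (x i)) (fun i => α i) _ hl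
    have h8 := hP'.2
    rw [h5, h6] at h8
    exact h8
  have h9 : (PowerSeries.X : PowerSeries κ) ^ (l - ∑ i, α i * ordL L (arc (x i))) ∣
      ev (subJ Ψ x) E := by
    have h10 := (pow_dvd_pow (PowerSeries.X : PowerSeries κ)
      ((Nat.sub_le l (∑ i, α i * ordL L (arc (x i)))).trans hl)).trans (ev_subJ Ψ x E)
    have h11 := dvd_add h10 h7
    rwa [sub_add_cancel] at h11
  exact ⟨E, mem_FM.2 ⟨hsupp, h9⟩, hE⟩


end Pool.Agent.KSYP.AB

alias Pool.Agent.KSY.FM_sub := Pool.Agent.KSYP.AB.FM_sub_pr
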