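import Pool.Agent.Lib_helper80.KSY.Defs

/-! KSY, block AC: setting variables equal to zero in a generic form -/

set_option autoImplicit false
set_option linter.unusedVariables false

namespace Pool.Agent.KSYP.AC

open Pool.Agent.KSY
open MvPolynomial Pool.Agent.KSS Pool.Agent.KSX Pool.Agent.Lib_helper56.KSS Filter Topology

theorem ac_coeff {k V W : Type} [Field k] {f : W → V} (hf : Function.Injective f)
    (G : MvPolynomial V k) (β : W →₀ ℕ) :
    coeff β (killCompl hf G) = coeff (Finsupp.mapDomain f β) G := by
  classical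
  conv_lhs => rw [← support_sum_monomial_coeff G]
  conv_rhs => rw [← support_sum_monomial_coeff G]
  rw [map_sum, coeff_sum, coeff_sum]
  refine Finset.sum_congr rfl fun δ _ => ?_
  by_cases h : (δ.support : Set V) ⊆ Set.range f
  · rw [killCompl_monomial_eq_monomial_comapDomain_of_subset _ _ h, coeff_monomial, coeff_monomial]
    refine if_congr ⟨?_, ?_⟩ rfl rfl
    · rintro rfl
      rw [Finsupp.mapDomain_comapDomain _ hf _ h]
    · intro h1
      subst h1
      rw [Finsupp.comapDomain_mapDomain _ hf]
  · rw [killCompl_monomial_eq_zero_of_not_subset hf _ h, coeff_zero, coeff_monomial, if_neg]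
    rintro rfl
    apply h
    intro v hv
    by_contra hno
    rw [Finset.mem_coe, Finsupp.mem_support_iff] at hv
    exact hv (Finsupp.mapDomain_of_notMem_range _ _ hno)

/-- (AC) setting variables equal to zero in a generic form -/
theorem gen_kill_pr {p : ℕ} {V W k : Type} [Finite V] [Finite W] [Field k] [CharZero k]
    (d : Fin p → ℕ) (G : Fin p → MvPolynomial V k) (hG : Gen d G) (f : W → V)
    (hf : Function.Injective f) : Gen d (fun i => killCompl hf (G i)) := by
  classical
  have hdeg : ∀ β : W →₀ ℕ, (Finsupp.mapDomain f β).degree = β.degree := by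
    intro β
    exact degree_mapDomain' f β
  refine ⟨fun i β hβ => ?_, ?_⟩
  · dsimp only at hβ
    rw [ac_coeff] at hβ
    have h1 := hG.1 i hβ
    rw [Finsupp.weight_apply, Finsupp.sum_mapDomain_index (by intro; rw [zero_smul])
      (by intro _ m n; rw [add_smul])] at h1
    rw [← h1, Finsupp.weight_apply]
    rfl
  · have h1 := hG.2.comp (fun c : Σ i : Fin p, {α : W →₀ ℕ // α.degree = d i} =>
      (⟨c.1, Finsupp.mapDomain f c.2.1, by rw [hdeg]; exact c.2.2⟩ :
        Σ i : Fin p, {α : V →₀ ℕ // α.degree = d i})) (by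
      rintro ⟨i, α, hα⟩ ⟨j, β, hβ⟩ h
      have hij : i = j := congrArg Sigma.fst h
      subst hij
      have h2 := eq_of_heq (Sigma.mk.inj h).2
      have h3 := Finsupp.mapDomain_injective hf (congrArg Subtype.val h2)
      subst h3
      rfl)
    have h2 : (fun c : Σ i : Fin p, {α : W →₀ ℕ // α.degree = d i} =>
        coeff c.2.1 (killCompl hf (G c.1))) =
        (fun c : Σ i : Fin p, {α : V →₀ ℕ // α.degree = d i} => (G c.1).coeff c.2.1) ∘
        (fun c : Σ i : Fin p, {α : W →₀ ℕ // α.degree = d i} =>
          (⟨c.1, Finsupp.mapDomain f c.2.1, by rw [hdeg]; exact c.2.2⟩ :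
            Σ i : Fin p, {α : V →₀ ℕ // α.degree = d i})) := by
      funext c
      exact ac_coeff hf _ _
    rw [← h2] at h1
    exact h1

end Pool.Agent.KSYP.AC

alias Pool.Agent.KSY.gen_kill := Pool.Agent.KSYP.AC.gen_kill_pr
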