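import Pool.Agent.Lib_helper80.KSY.Defs
import Pool.Agent.Lib_helper80.KSYF.AC

/-! KSY, block AD: the record of a jet, any index type -/

set_option autoImplicit false
set_option linter.unusedVariables false

namespace Pool.Agent.KSYP.AD

open Pool.Agent.KSY
open MvPolynomial Pool.Agent.KSS Pool.Agent.KSX Pool.Agent.Lib_helper56.KSS Filter Topology

/-- (AD) the record of a jet, any index type -/
theorem rec_of_pr {p : ℕ} (d : Fin p → ℕ) {V : Type} [Fintype V] {n : ℕ} (e : V ≃ Fin n)
    {k κ : Type} [Field k] [CharZero k] [Field κ] [Algebra k κ] (G : Fin p → MvPolynomial V k)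
    (hG : Gen d G) {L : ℕ} (x : V → Fin L → κ) :
    ∃ R : Rec p, R.Of d n ∧ R.L = L ∧ R.τ = tauJ k x ∧
      (∀ m l, R.fil m l = Module.finrank k (Fil k x m l)) ∧
      ∀ i, R.g i = ordL L (ev x (G i)) := by
  classical
  have hback : ∀ P : MvPolynomial V k, rename e.symm (rename e P) = P := by
    intro P
    rw [rename_rename]
    have : (e.symm ∘ e : V → V) = id := by
      funext v
      simp
    rw [this, rename_id_apply]
  have hK : ∀ P : MvPolynomial V k, killCompl e.symm.injective P = rename e P := by
    intro P
    conv_lhs => rw [← hback P]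
    exact killCompl_rename_app _ _
  have hev : ∀ P : MvPolynomial V k, ev (fun q => x (e.symm q)) (rename e P) = ev x P := by
    intro P
    rw [← ev_rename x (fun q => e.symm q) (rename e P)]
    congr 1
    exact hback P
  refine ⟨{ L := L, τ := tauJ k x, fil := fun m l => Module.finrank k (Fil k x m l),
            g := fun i => ordL L (ev x (G i)), c0 := c0J (fun q => x (e.symm q)) },
    ⟨k, inferInstance, inferInstance, fun i => rename e (G i), κ, inferInstance, inferInstance,
      fun q => x (e.symm q), ?_, ?_, ?_, ?_, rfl⟩, rfl, rfl, fun _ _ => rfl, fun _ => rfl⟩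
  · have h1 := gen_kill d G hG (fun q : Fin n => e.symm q) e.symm.injective
    have h2 : (fun i => killCompl e.symm.injective (G i)) = fun i => rename e (G i) := by
      funext i
      exact hK (G i)
    rw [h2] at h1
    exact h1
  · show tauJ k (fun q => x (e.symm q)) = tauJ k x
    unfold tauJ
    rw [tau_eq, tau_eq]
    refine le_antisymm ?_ ?_
    · exact tau_comp_le (K := k) (fun p : V × Fin L => x p.1 p.2)
        (fun p : Fin n × Fin L => (e.symm p.1, p.2))
    · have h1 := tau_comp_le (K := k) (fun p : Fin n × Fin L => x (e.symm p.1) p.2)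
        (fun p : V × Fin L => (e p.1, p.2))
      simpa only [Equiv.symm_apply_apply] using h1
  · intro m l _
    show Module.finrank k (Fil k (fun q => x (e.symm q)) m l) = Module.finrank k (Fil k x m l)
    have h1 : Fil k (fun q => x (e.symm q)) m l =
        (Fil k x m l).map ((renameEquiv k e).toLinearEquiv : MvPolynomial V k →ₗ[k] _) := by
      ext F
      rw [Submodule.mem_map]
      constructor
      · rintro ⟨hF1, hF2⟩
        refine ⟨rename e.symm F, ⟨hF1.rename_isHomogeneous, ?_⟩, ?_⟩
        · rw [ev_rename]
          exact hF2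
        · show rename e (rename e.symm F) = F
          rw [rename_rename]
          have : (e ∘ e.symm : Fin n → Fin n) = id := by
            funext v
            simp
          rw [this, rename_id_apply]
      · rintro ⟨P, ⟨hP1, hP2⟩, rfl⟩
        refine ⟨?_, ?_⟩
        · exact hP1.rename_isHomogeneous
        · show _ ∣ ev (fun q => x (e.symm q)) (rename e P)
          rw [hev]
          exact hP2
    rw [h1]
    exact LinearEquiv.finrank_map_eq _ _
  · intro i
    show ordL L (ev (fun q => x (e.symm q)) (rename e (G i))) = ordL L (ev x (G i))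
    rw [hev]

end Pool.Agent.KSYP.AD

alias Pool.Agent.KSY.rec_of := Pool.Agent.KSYP.AD.rec_of_pr
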