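import Pool.Agent.Lib_helper80.KSY.Defs

/-! KSY, block AE: the relations after the first one-parameter degeneration -/

set_option autoImplicit false
set_option linter.unusedVariables false

namespace Pool.Agent.KSYP.AE

open Pool.Agent.KSY
open MvPolynomial Pool.Agent.KSS Pool.Agent.KSX Pool.Agent.Lib_helper56.KSS Filter Topology
open Pool.Agent.Lib_helper80.KSX (subJ arc_subJ ev_subJ)

theorem ae_weight_map {V W : Type} (w : W → ℕ) (f : V → W) (δ : V →₀ ℕ) :
    Finsupp.weight w (Finsupp.mapDomain f δ) = Finsupp.weight (fun i => w (f i)) δ := by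
  rw [Finsupp.weight_apply, Finsupp.weight_apply,
    Finsupp.sum_mapDomain_index (by intro; rw [zero_smul]) (by intro _ m n; rw [add_smul])]

theorem ae_wt {a b : ℕ} (r : Fin 2) (δ : (Fin b ⊕ Fin 2) →₀ ℕ) :
    Finsupp.weight (om2 a b r) (Finsupp.mapDomain some δ) =
      Finsupp.weight (fun _ => 1 : Fin b ⊕ Fin 2 → ℕ) δ + δ (Sum.inr r) := by
  classical
  rw [ae_weight_map, Finsupp.weight_apply, Finsupp.weight_apply,
    Finsupp.sum_fintype _ _ (by intro; rw [zero_smul]),
    Finsupp.sum_fintype _ _ (by intro; rw [zero_smul])]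
  have h1 : ∀ i : Fin b ⊕ Fin 2, δ i • om2 a b r (some i) =
      δ i • 1 + if i = Sum.inr r then δ i else 0 := by
    intro i
    rcases i with i | s
    · simp [om2]
    · by_cases hs : s = r
      · simp [om2, hs]
        ring
      · simp [om2, hs]
  rw [Finset.sum_congr rfl fun i _ => h1 i, Finset.sum_add_distrib, Finset.sum_ite_eq',
    if_pos (Finset.mem_univ _)]

theorem ae_range {b : ℕ} (r : Fin 2) : Sum.inr r ∉ Set.range (jr b r) := by
  rintro ⟨o, ho⟩
  cases o with
  | none =>
    simp only [jr, Option.elim] at ho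
    have h1 := Sum.inr.inj ho
    revert h1
    fin_cases r <;> decide
  | some i => simp [jr] at ho

theorem ae_sub {b : ℕ} (r : Fin 2) (δ : (Fin b ⊕ Fin 2) →₀ ℕ) (h : δ (Sum.inr r) = 0) :
    (δ.support : Set (Fin b ⊕ Fin 2)) ⊆ Set.range (jr b r) := by
  intro i hi
  rcases i with i | s
  · exact ⟨some i, rfl⟩
  · have hs : s ≠ r := by
      rintro rfl
      rw [Finset.mem_coe, Finsupp.mem_support_iff] at hi
      exact hi h
    refine ⟨none, ?_⟩
    show Sum.inr (Fin.rev r) = Sum.inr s
    congr 1
    revert hs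
    fin_cases r <;> fin_cases s <;> decide

theorem ae_comp {k : Type} [Field k] {a b : ℕ} (r : Fin 2) (δ : (Fin b ⊕ Fin 2) →₀ ℕ) (c : k)
    (hδ : Finsupp.weight (fun _ => 1 : Fin b ⊕ Fin 2 → ℕ) δ = a + 3) :
    weightedHomogeneousComponent (om2 a b r) (a + 3) (rename some (monomial δ c)) =
      rename some (rename (jr b r) (killCompl (jr_inj b r) (monomial δ c))) := by
  classical
  have hw := ae_wt (a := a) r δ
  rw [hδ] at hw
  rw [rename_monomial]
  by_cases h : δ (Sum.inr r) = 0
  · rw [killCompl_monomial_eq_monomial_comapDomain_of_subset _ c (ae_sub r δ h), rename_monomial,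
      Finsupp.mapDomain_comapDomain _ (jr_inj b r) _ (ae_sub r δ h), rename_monomial]
    rw [h, add_zero] at hw
    rw [weightedHomogeneousComponent_of_mem (n := a + 3), if_pos rfl]
    exact isWeightedHomogeneous_monomial _ _ _ hw
  · rw [killCompl_monomial_eq_zero_of_notMem_range (jr_inj b r) c (a := Sum.inr r)
      (Finsupp.mem_support_iff.2 h) (ae_range r), map_zero, map_zero]
    refine weightedHomogeneousComponent_eq_zero' _ _ fun d hd => ?_
    have h1 := support_monomial_subset hd
    rw [Finset.mem_singleton] at h1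
    rw [h1, hw]
    omega

theorem ae_comp_G {k : Type} [Field k] {a b : ℕ} (r : Fin 2) (G : MvPolynomial (Fin b ⊕ Fin 2) k)
    (hG : G.IsHomogeneous (a + 3)) :
    weightedHomogeneousComponent (om2 a b r) (a + 3) (rename some G) =
      rename some (rename (jr b r) (killCompl (jr_inj b r) G)) := by
  have h1 : ∀ δ ∈ G.support,
      weightedHomogeneousComponent (om2 a b r) (a + 3) (rename some (monomial δ (coeff δ G))) =
      rename some (rename (jr b r) (killCompl (jr_inj b r) (monomial δ (coeff δ G)))) :=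
    fun δ hδ => ae_comp r δ _ (hG (mem_support_iff.1 hδ))
  conv_lhs => rw [← support_sum_monomial_coeff G]
  conv_rhs => rw [← support_sum_monomial_coeff G]
  simp only [map_sum]
  exact Finset.sum_congr rfl h1

theorem ae_XXX {k : Type} [Field k] {b : ℕ} (w : W2 b → ℕ) {n : ℕ}
    (h : w (some (Sum.inr 0)) + w (some (Sum.inr 1)) + w none = n) :
    IsWeightedHomogeneous w (X (some (Sum.inr 0)) * X (some (Sum.inr 1)) * X none :
      MvPolynomial (W2 b) k) n := by
  rw [← h]
  exact ((isWeightedHomogeneous_X k w _).mul (isWeightedHomogeneous_X k w _)).mul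
    (isWeightedHomogeneous_X k w _)

/-- (AE) -/
theorem rel2_pr {a b L : ℕ} (r : Fin 2) {k F F0 : Type} [Field k] [Field F] [Algebra k F] [Field F0]
    [Algebra k F0] (y : W2 b → Fin L → F) (y3 : W2 b → Fin L → F0)
    (hT : TL k (w2 a b) (om2 a b r) y y3) (G : MvPolynomial (Fin b ⊕ Fin 2) k)
    (hG : G.IsHomogeneous (a + 3)) (h : Rel2 k y G) :
    (PowerSeries.X : PowerSeries F0) ^ L ∣
      arc (y3 (some (Sum.inr 0))) * arc (y3 (some (Sum.inr 1))) * arc (y3 none)
        + ev (fun i => y3 (some (jr b r i))) (killCompl (jr_inj b r) G) := by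
  classical
  set Q : MvPolynomial (W2 b) k := X (some (Sum.inr 0)) * X (some (Sum.inr 1)) * X none with hQ
  have hom2 : om2 a b r (some (Sum.inr 0)) + om2 a b r (some (Sum.inr 1)) + om2 a b r none =
      a + 3 := by
    simp only [om2]
    fin_cases r <;> simp <;> ring
  have hQw : IsWeightedHomogeneous (w2 a b) Q (a + 3) := ae_XXX _ (by simp [w2]; ring)
  have hQo : IsWeightedHomogeneous (om2 a b r) Q (a + 3) := ae_XXX _ hom2
  have hGw : IsWeightedHomogeneous (w2 a b) (rename some G : MvPolynomial (W2 b) k) (a + 3) := by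
    intro d hd
    have h1 : d ∈ (rename some G : MvPolynomial (W2 b) k).support := mem_support_iff.2 hd
    rw [support_rename_of_injective (Option.some_injective _), Finset.mem_image] at h1
    obtain ⟨u, hu, rfl⟩ := h1
    rw [ae_weight_map]
    exact hG (mem_support_iff.1 hu)
  have h1 := hT (Q + rename some G) (a + 3) (a + 3) (hQw.add hGw) (by
    intro d hd
    rw [mem_support_iff, coeff_add] at hd
    by_cases hd1 : coeff d Q = 0
    · rw [hd1, zero_add] at hd
      have h1 : d ∈ (rename some G : MvPolynomial (W2 b) k).support := mem_support_iff.2 hd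
      rw [support_rename_of_injective (Option.some_injective _), Finset.mem_image] at h1
      obtain ⟨u, hu, rfl⟩ := h1
      have h2 : Finsupp.weight (fun _ => 1 : Fin b ⊕ Fin 2 → ℕ) u = a + 3 :=
        hG (mem_support_iff.1 hu)
      rw [ae_wt, h2]
      omega
    · rw [hQo hd1]) L le_rfl (by
    rw [ev_add, ev_mul, ev_mul, ev_X, ev_X, ev_X, ev_rename]
    exact h)
  rw [map_add, ae_comp_G r G hG, weightedHomogeneousComponent_of_mem (n := a + 3) hQo,
    if_pos rfl, ev_add, ev_rename, ev_rename, hQ, ev_mul, ev_mul, ev_X, ev_X, ev_X] at h1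
  exact h1

/-- (AE) the same for `(x', u, Z)` with `Z = u_r Y` -/
theorem rel2z_pr {a b L : ℕ} (r : Fin 2) {k F F0 : Type} [Field k] [Field F] [Algebra k F] [Field F0]
    [Algebra k F0] (y : W2 b → Fin L → F) (y3 : W2 b → Fin L → F0)
    (hT : TL k (w2 a b) (om2 a b r) y y3) (G : MvPolynomial (Fin b ⊕ Fin 2) k)
    (hG : G.IsHomogeneous (a + 3)) (h : Rel2 k y G) :
    Rel3 k (subJ (psi k b r) y3) (killCompl (jr_inj b r) G) := by
  have h1 := rel2_pr r y y3 hT G hG h
  set K := killCompl (jr_inj b r) G with hK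
  set z := subJ (psi k b r) y3 with hz
  have e1 : (PowerSeries.X : PowerSeries F0) ^ L ∣ arc (z (some none)) -
      arc (y3 (some (Sum.inr (Fin.rev r)))) := by
    have h2 := arc_subJ (psi k b r) y3 (some none)
    have h3 : ev y3 (psi k b r (some none)) = arc (y3 (some (Sum.inr (Fin.rev r)))) := by
      show ev y3 (X (some (jr b r none))) = _
      rw [ev_X]
      rfl
    rw [h3] at h2
    exact h2
  have e2 : (PowerSeries.X : PowerSeries F0) ^ L ∣ arc (z none) -
      arc (y3 (some (Sum.inr r))) * arc (y3 none) := by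
    have h2 := arc_subJ (psi k b r) y3 none
    have h3 : ev y3 (psi k b r none) = arc (y3 (some (Sum.inr r))) * arc (y3 none) := by
      show ev y3 (X (some (Sum.inr r)) * X none) = _
      rw [ev_mul, ev_X, ev_X]
    rw [h3] at h2
    exact h2
  have e3 : (PowerSeries.X : PowerSeries F0) ^ L ∣ ev (fun i => z (some i)) K -
      ev (fun i => y3 (some (jr b r i))) K := by
    have h2 := ev_subJ (psi k b r) y3 (rename some K)
    have h3 : bind₁ (psi k b r) (rename some K) = rename some (rename (jr b r) K) := by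
      rw [bind₁_rename, rename_rename]
      have h4 : (bind₁ (psi k b r ∘ some) : MvPolynomial (Option (Fin b)) k →ₐ[k] _) =
          rename (some ∘ jr b r) := by
        refine algHom_ext fun i => ?_
        rw [bind₁_X_right, rename_X]
        rfl
      rw [h4]
    rw [h3, ev_rename, ev_rename, ev_rename] at h2
    exact h2
  have e4 : arc (y3 (some (Sum.inr 0))) * arc (y3 (some (Sum.inr 1))) =
      arc (y3 (some (Sum.inr (Fin.rev r)))) * arc (y3 (some (Sum.inr r))) := by
    fin_cases r
    · exact mul_comm _ _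
    · rfl
  rw [e4] at h1
  unfold Rel3
  obtain ⟨c1, h5⟩ := e1
  obtain ⟨c2, h6⟩ := e2
  obtain ⟨c3, h7⟩ := e3
  obtain ⟨c4, h8⟩ := h1
  rw [sub_eq_iff_eq_add] at h5 h6 h7
  rw [h5, h6, h7]
  refine ⟨c1 * ((PowerSeries.X : PowerSeries F0) ^ L * c2 +
    arc (y3 (some (Sum.inr r))) * arc (y3 none)) +
    arc (y3 (some (Sum.inr (Fin.rev r)))) * c2 + c3 + c4, ?_⟩
  linear_combination h8

end Pool.Agent.KSYP.AE

alias Pool.Agent.KSY.rel2 := Pool.Agent.KSYP.AE.rel2_pr

alias Pool.Agent.KSY.rel2z := Pool.Agent.KSYP.AE.rel2z_pr
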