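import Pool.Agent.Lib_helper80.KSY.Defs

/-!
# KSY block AF: the relation after the second one-parameter degeneration
-/

set_option autoImplicit false

namespace Pool.Agent.KSYP.AF

open MvPolynomial Pool.Agent.KSS Pool.Agent.KSX Pool.Agent.KSY Filter Topology

/-- weight of a monomial in `x', u` -/
theorem wt_some (a b : ℕ) (s : Option (Fin b) →₀ ℕ) :
    Finsupp.weight (om3 a b) (s.mapDomain some) = s.degree + s none := by
  rw [Finsupp.weight_apply, Finsupp.sum_mapDomain_index (by simp) (by intros; simp [add_mul]),
    Finsupp.sum_fintype _ _ (by simp), Finsupp.degree_eq_sum, Fintype.sum_option,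
    Fintype.sum_option]
  simp only [om3, smul_eq_mul, mul_one]
  ring

theorem wtw_some (a b : ℕ) (s : Option (Fin b) →₀ ℕ) :
    Finsupp.weight (w3 a b) (s.mapDomain some) = s.degree := by
  rw [Finsupp.weight_apply, Finsupp.sum_mapDomain_index (by simp) (by intros; simp [add_mul]),
    Finsupp.sum_fintype _ _ (by simp), Finsupp.degree_eq_sum]
  simp [w3]

/-- the component of a monomial -/
theorem comp_mono {k : Type} [Field k] (a b : ℕ) (s : Option (Fin b) →₀ ℕ) (c : k)
    (hs : s.degree = a + 3) :
    weightedHomogeneousComponent (om3 a b) (a + 3) (rename some (monomial s c)) =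
      rename (fun i => some (some i)) (killCompl (Option.some_injective (Fin b))
        (monomial s c)) := by
  have hm : (rename (some : Option (Fin b) → W3 b) (monomial s c) : MvPolynomial (W3 b) k) =
      monomial (s.mapDomain some) c := rename_monomial _ _ _
  have hw : IsWeightedHomogeneous (om3 a b) (monomial (s.mapDomain some) c : MvPolynomial (W3 b) k)
      (a + 3 + s none) := by
    refine isWeightedHomogeneous_monomial _ _ _ ?_
    rw [wt_some, hs]
  rw [hm]
  by_cases h0 : s none = 0
  · rw [h0, add_zero] at hw
    rw [hw.weightedHomogeneousComponent_same]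
    have hsub : (s.support : Set (Option (Fin b))) ⊆ Set.range some := by
      intro i hi
      cases i with
      | none =>
        rw [Finset.mem_coe, Finsupp.mem_support_iff] at hi
        exact absurd h0 hi
      | some i => exact ⟨i, rfl⟩
    have h1 : s = (s.comapDomain some (Option.some_injective _).injOn).mapDomain some := by
      rw [Finsupp.mapDomain_comapDomain _ (Option.some_injective _) _ hsub]
    have h2 : killCompl (Option.some_injective (Fin b)) (monomial s c : MvPolynomial _ k) =
        monomial (s.comapDomain some (Option.some_injective _).injOn) c := by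
      conv_lhs => rw [h1]
      rw [killCompl_monomial_mapDomain]
    rw [h2, rename_monomial]
    congr 1
    conv_lhs => rw [h1]
    rw [← Finsupp.mapDomain_comp]
    rfl
  · rw [weightedHomogeneousComponent_eq_zero']
    · rw [killCompl_monomial_eq_zero_of_not_subset, map_zero]
      intro hsub
      have h1 : (none : Option (Fin b)) ∈ (s.support : Set (Option (Fin b))) := by
        rw [Finset.mem_coe, Finsupp.mem_support_iff]
        exact h0
      obtain ⟨i, hi⟩ := hsub h1
      exact Option.some_ne_none i hi
    · intro d hd hd2
      classical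
      rw [mem_support_iff, coeff_monomial] at hd
      split_ifs at hd with h1
      · rw [← h1, wt_some, hs] at hd2
        omega
      · exact hd rfl

theorem comp_G {k : Type} [Field k] (a b : ℕ) (G : MvPolynomial (Option (Fin b)) k)
    (hG : G.IsHomogeneous (a + 3)) :
    weightedHomogeneousComponent (om3 a b) (a + 3) (rename some G) =
      rename (fun i => some (some i)) (killCompl (Option.some_injective (Fin b)) G) := by
  conv_lhs => rw [G.as_sum]
  conv_rhs => rw [G.as_sum]
  rw [map_sum, map_sum, map_sum, map_sum]
  refine Finset.sum_congr rfl fun s hs => ?_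
  refine comp_mono a b s _ ?_
  have := hG (mem_support_iff.1 hs)
  rwa [Finsupp.degree_eq_weight_one]

/-- (AF) -/
theorem rel3_pr {a b L : ℕ} {k F F0 : Type} [Field k] [Field F] [Algebra k F] [Field F0]
    [Algebra k F0] (z : W3 b → Fin L → F) (z4 : W3 b → Fin L → F0)
    (hT : TL k (w3 a b) (om3 a b) z z4) (G : MvPolynomial (Option (Fin b)) k)
    (hG : G.IsHomogeneous (a + 3)) (h : Rel3 k z G) :
    (PowerSeries.X : PowerSeries F0) ^ L ∣
      arc (z4 (some none)) * arc (z4 none)
        + ev (fun i => z4 (some (some i))) (killCompl (Option.some_injective (Fin b)) G) := by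
  have hM1 : (X (some none) * X none : MvPolynomial (W3 b) k) =
      monomial (Finsupp.single (some none) 1 + Finsupp.single none 1) 1 := by
    rw [X, X, monomial_mul, one_mul]
  have hwM : Finsupp.weight (w3 a b) (Finsupp.single (some none) 1 + Finsupp.single none 1) =
      a + 3 := by
    rw [map_add, Finsupp.weight_single, Finsupp.weight_single]
    simp [w3]
    ring
  have homM : Finsupp.weight (om3 a b) (Finsupp.single (some none) 1 + Finsupp.single none 1) =
      a + 3 := by
    rw [map_add, Finsupp.weight_single, Finsupp.weight_single]
    simp [om3]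
    ring
  have hdeg : ∀ s ∈ G.support, s.degree = a + 3 := fun s hs => by
    have := hG (mem_support_iff.1 hs)
    rwa [Finsupp.degree_eq_weight_one]
  have hsupp : ∀ d ∈ (rename (some : Option (Fin b) → W3 b) G).support,
      ∃ s ∈ G.support, d = s.mapDomain some := by
    intro d hd
    rw [mem_support_iff] at hd
    obtain ⟨s, hs1, hs2⟩ := coeff_rename_ne_zero _ _ _ hd
    exact ⟨s, mem_support_iff.2 hs2, hs1.symm⟩
  have h1 := hT (X (some none) * X none + rename some G) (a + 3) (a + 3) (by
      refine IsWeightedHomogeneous.add ?_ ?_
      · rw [hM1]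
        exact isWeightedHomogeneous_monomial _ _ _ hwM
      · intro d hd
        obtain ⟨s, hs1, hs2⟩ := hsupp d (mem_support_iff.2 hd)
        rw [hs2, wtw_some, hdeg s hs1]) (by
      intro d hd
      have h2 := support_add hd
      rw [Finset.mem_union] at h2
      rcases h2 with h2 | h2
      · rw [hM1] at h2
        have h3 := support_monomial_subset h2
        rw [Finset.mem_singleton] at h3
        rw [h3, homM]
      · obtain ⟨s, hs1, hs2⟩ := hsupp d h2
        rw [hs2, wt_some, hdeg s hs1]
        omega) L le_rfl (by
      unfold Rel3 at h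
      unfold ev at h ⊢
      rw [map_add, map_mul, aeval_X, aeval_X, aeval_rename]
      exact h)
  rw [map_add, comp_G a b G hG, hM1,
    (isWeightedHomogeneous_monomial _ _ _ homM).weightedHomogeneousComponent_same, ← hM1] at h1
  unfold ev at h1 ⊢
  rw [map_add, map_mul, aeval_X, aeval_X, aeval_rename] at h1
  exact h1


end Pool.Agent.KSYP.AF

alias Pool.Agent.KSY.rel3 := Pool.Agent.KSYP.AF.rel3_pr
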