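import Pool.Agent.Lib_helper80.KSY.Defs

/-!
# One form of degree `D >= 3` (project KSY): block AG
-/

set_option autoImplicit false

namespace Pool.Agent.KSYP.AG

open Pool.Agent.KSY
open MvPolynomial Pool.Agent.KSS Pool.Agent.KSX Pool.Agent.Lib_helper56.KSS Filter Topology
open Pool.Agent.Lib_helper80.KSX (subJ)

/-- (AG) a coordinate determined by a linear equation -/
theorem tau_last_pr {k κ A : Type} [Field k] [Field κ] [Algebra k κ] [Fintype A] {L : ℕ}
    (y : Option A → Fin L → κ) (U G : MvPolynomial A k)
    (h : (PowerSeries.X : PowerSeries κ) ^ L ∣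
      ev (fun i => y (some i)) U * arc (y none) + ev (fun i => y (some i)) G) :
    tauJ k y ≤ tauJ k (fun i => y (some i)) + ordL L (ev (fun i => y (some i)) U) := by
  classical
  obtain ⟨E, hE⟩ : ∃ E, E = ordL L (ev (fun i => y (some i)) U) := ⟨_, rfl⟩
  have hEL : E ≤ L := by rw [hE]; exact ordL_le _ _
  have key := tauJ_threshold (k := k) y (fun _ : Unit => y none) (fun i => y (some i))
    (fun _ => L - E) (fun i => by
      cases i with
      | none => exact Or.inl ⟨(), rfl⟩
      | some b => exact Or.inr ⟨b, rfl⟩) (by
    intro o μ hμ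
    have hlt : E < L := by
      have := μ.2
      omega
    let K0 : IntermediateField k κ := IntermediateField.adjoin k
      (Set.range fun p : A × Fin L => y (some p.1) p.2)
    have hK : ∀ i μ, y (some i) μ ∈ K0 := fun i μ =>
      IntermediateField.subset_adjoin k _ ⟨(i, μ), rfl⟩
    have hord : (ev (fun i => y (some i)) U).order = (E : ℕ∞) := by
      rw [order_eq_of_ordL_lt (L := L) (by rw [← hE]; exact hlt), ← hE]
    have h2 := last_coeff_mem (K0 := K0) (ev (fun i => y (some i)) U) (ev (fun i => y (some i)) G)
      (y none) (CoefIn.ev _ hK U) (CoefIn.ev _ hK G) hord h μ μ.2 (by omega)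
    have h3 := mem_closure_of_field (K := k) h2
    exact (AlgebraicIndependent.matroid k κ).closure_subset_closure Set.subset_union_left h3)
  have hs : ∑ _o : Unit, (L - (L - E)) = E := by
    rw [Finset.sum_const, Finset.card_univ, Fintype.card_unit, one_smul]
    omega
  rw [hs, hE] at key
  exact key

end Pool.Agent.KSYP.AG

alias Pool.Agent.KSY.tau_last := Pool.Agent.KSYP.AG.tau_last_pr
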