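import Pool.Agent.Lib_helper80.KSY.Defs
import Pool.Agent.Lib_helper77.KSZ.R2
import Pool.Agent.Lib_helper80.KSYF.AB

/-! KSY, block AI: the classes of monomials along the first one-parameter degeneration -/

set_option autoImplicit false
set_option linter.unusedVariables false
set_option linter.unusedSectionVars false

namespace Pool.Agent.KSYP.AI

open Pool.Agent.KSY
open MvPolynomial Pool.Agent.KSS Pool.Agent.KSX Pool.Agent.Lib_helper56.KSS Filter Topology
open Pool.Agent.Lib_helper80.KSX (subJ)

theorem ai_mon {k V : Type} [Field k] [Fintype V] (δ : V →₀ ℕ) :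
    (monomial δ 1 : MvPolynomial V k) = ∏ v, X v ^ δ v := by
  rw [monomial_eq, C_1, one_mul, Finsupp.prod_fintype _ _ (fun i => pow_zero _)]

theorem ai_weight {V : Type} [Fintype V] (w : V → ℕ) (δ : V →₀ ℕ) :
    Finsupp.weight w δ = ∑ v, δ v * w v := by
  rw [Finsupp.weight_apply, Finsupp.sum_fintype _ _ (by intro; rw [zero_smul])]
  rfl

/-- the other index -/
theorem ai_rev (r : Fin 2) : Fin.rev r ≠ r := by
  fin_cases r <;> decide

theorem ai_sum2 (r : Fin 2) (f : Fin 2 → ℕ) : ∑ s, f s = f r + f (Fin.rev r) := by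
  rw [Fin.sum_univ_two]
  fin_cases r
  · rfl
  · simp only [Fin.mk_one, Fin.isValue]
    exact Nat.add_comm _ _

theorem ai_w2 {a b : ℕ} (r : Fin 2) (δ : W2 b →₀ ℕ) :
    Finsupp.weight (w2 a b) δ = δ none * (a + 1) + (∑ i, δ (some (Sum.inl i)) +
      (δ (some (Sum.inr r)) + δ (some (Sum.inr (Fin.rev r))))) := by
  rw [ai_weight, Fintype.sum_option, Fintype.sum_sum_type]
  simp only [w2, Option.elim, mul_one]
  rw [ai_sum2 r]

theorem ai_om2 {a b : ℕ} (r : Fin 2) (δ : W2 b →₀ ℕ) :
    Finsupp.weight (om2 a b r) δ = δ none * a + (∑ i, δ (some (Sum.inl i)) +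
      (δ (some (Sum.inr r)) * 2 + δ (some (Sum.inr (Fin.rev r))))) := by
  rw [ai_weight, Fintype.sum_option, Fintype.sum_sum_type]
  simp only [om2, mul_one]
  rw [ai_sum2 r]
  rw [if_pos rfl, if_neg (ai_rev r), mul_one]

theorem ai_w3 {a b : ℕ} (β : W3 b →₀ ℕ) :
    Finsupp.weight (w3 a b) β = β none * (a + 2) + (β (some none) +
      ∑ i, β (some (some i))) := by
  rw [ai_weight, Fintype.sum_option, Fintype.sum_option]
  simp only [w3, Option.elim, mul_one]

/-- the exponent in `(x', u, Z)` -/
noncomputable def bet3 {b : ℕ} (r : Fin 2) (δ : W2 b →₀ ℕ) (z : ℕ) : W3 b →₀ ℕ :=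
  Finsupp.equivFunOnFinite.symm fun t => t.elim z fun o => δ (some (jr b r o))

theorem bet3_none {b : ℕ} (r : Fin 2) (δ : W2 b →₀ ℕ) (z : ℕ) : bet3 r δ z none = z := rfl

theorem bet3_u {b : ℕ} (r : Fin 2) (δ : W2 b →₀ ℕ) (z : ℕ) :
    bet3 r δ z (some none) = δ (some (Sum.inr (Fin.rev r))) := rfl

theorem bet3_x {b : ℕ} (r : Fin 2) (δ : W2 b →₀ ℕ) (z : ℕ) (i : Fin b) :
    bet3 r δ z (some (some i)) = δ (some (Sum.inl i)) := rfl

theorem ai_prod2 {k : Type} [Field k] (r : Fin 2) {b : ℕ} (f : Fin 2 → MvPolynomial (W2 b) k) :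
    ∏ s, f s = f r * f (Fin.rev r) := by
  rw [Fin.prod_univ_two]
  fin_cases r
  · rfl
  · simp only [Fin.mk_one, Fin.isValue]
    exact mul_comm _ _

theorem ai_bind {k : Type} [Field k] {b : ℕ} (r : Fin 2) (δ : W2 b →₀ ℕ) (z : ℕ) :
    bind₁ (psi k b r) (monomial (bet3 r δ z) 1) =
      (X (some (Sum.inr r)) * X none) ^ z * (X (some (Sum.inr (Fin.rev r))) ^
        δ (some (Sum.inr (Fin.rev r))) * ∏ i, X (some (Sum.inl i)) ^ δ (some (Sum.inl i))) := by
  rw [ai_mon, map_prod, Fintype.prod_option, Fintype.prod_option]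
  simp only [map_pow, bind₁_X_right, bet3_none, bet3_u, bet3_x]
  rfl

theorem ai_delta {k : Type} [Field k] {b : ℕ} (r : Fin 2) (δ : W2 b →₀ ℕ) :
    (monomial δ 1 : MvPolynomial (W2 b) k) =
      X none ^ δ none * ((∏ i, X (some (Sum.inl i)) ^ δ (some (Sum.inl i))) *
        (X (some (Sum.inr r)) ^ δ (some (Sum.inr r)) *
          X (some (Sum.inr (Fin.rev r))) ^ δ (some (Sum.inr (Fin.rev r))))) := by
  rw [ai_mon, Fintype.prod_option, Fintype.prod_sum_type, ai_prod2 r]

theorem ai_N2 {a b m : ℕ} (r : Fin 2) {δ : W2 b →₀ ℕ} (h : δ ∈ N2 a b m) :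
    δ none * (a + 1) + (∑ i, δ (some (Sum.inl i)) +
      (δ (some (Sum.inr r)) + δ (some (Sum.inr (Fin.rev r))))) = m ∧
    (δ none = 0 ∨ δ (some (Sum.inr r)) = 0 ∨ δ (some (Sum.inr (Fin.rev r))) = 0) := by
  obtain ⟨h1, h2⟩ := h
  refine ⟨by rw [← ai_w2 r]; exact h1, ?_⟩
  fin_cases r
  · exact h2
  · rcases h2 with h | h | h
    · exact Or.inl h
    · exact Or.inr (Or.inr h)
    · exact Or.inr (Or.inl h)

theorem ai_N3 {a b m : ℕ} {β : W3 b →₀ ℕ} (h1 : β none * (a + 2) + (β (some none) +
      ∑ i, β (some (some i))) = m) (h2 : β none = 0 ∨ β (some none) = 0) : β ∈ N3 a b m :=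
  ⟨by rw [ai_w3]; exact h1, h2⟩

theorem ai_fin2 (a b m : ℕ) : Finite (N2 a b m) := by
  have h := Pool.Agent.Lib_helper80.KSX.wfin (T := W2 b) (w2 a b) (by
    intro t
    cases t with
    | none => exact Nat.succ_pos _
    | some _ => exact Nat.one_pos) m
  exact (h.subset fun d hd => hd.1)

theorem ai_fin3 (a b m : ℕ) : Finite (N3 a b m) := by
  have h := Pool.Agent.Lib_helper80.KSX.wfin (T := W3 b) (w3 a b) (by
    intro t
    cases t with
    | none => exact Nat.succ_pos _
    | some _ => exact Nat.one_pos) m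
  exact (h.subset fun d hd => hd.1)

/-- (AI) first step: classes `u_r^c (u_r Y)^k ..` and `Y^c (u_r Y)^k ..` -/
theorem F2_le_pr {a b L : ℕ} (r : Fin 2) {k F F0 : Type} [Field k] [Field F] [Algebra k F] [Field F0]
    [Algebra k F0] (y : W2 b → Fin L → F) (y3 : W2 b → Fin L → F0)
    (hT : TL k (w2 a b) (om2 a b r) y y3) (m l : ℕ) (hl : l ≤ L) :
    Module.finrank k (FM k y (N2 a b m) l) ≤
      ∑ c ∈ Finset.range (m + 1), Module.finrank k (FM k (subJ (psi k b r) y3) (N3 a b (m - c))
        (l - c * ordL L (arc (y3 (some (Sum.inr r))))))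
      + ∑ c ∈ (Finset.Icc 1 m).filter (fun c => (a + 1) * c ≤ m),
        Module.finrank k (FM k (subJ (psi k b r) y3) (N3 a b (m - (a + 1) * c))
          (l - c * ordL L (arc (y3 none)))) := by
  classical
  have i1 : Finite (N2 a b m) := ai_fin2 a b m
  set S1 : Finset ℕ := (Finset.range (m + 1)).image (fun c => m + c) with hS1
  set S2 : Finset ℕ := ((Finset.Icc 1 m).filter (fun c => (a + 1) * c ≤ m)).image
    (fun c => m - c) with hS2
  -- the weights
  have hw : ∀ d ∈ N2 a b m, Finsupp.weight (om2 a b r) d + d none =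
      m + d (some (Sum.inr r)) := by
    intro d hd
    have h1 := (ai_N2 r hd).1
    rw [ai_om2]
    have h2 : d none * (a + 1) = d none * a + d none := by ring
    omega
  have hT2 : ∀ d ∈ N2 a b m, Finsupp.weight (om2 a b r) d ∈ S1 ∪ S2 := by
    intro d hd
    have h1 := (ai_N2 r hd).1
    have h2 := hw d hd
    have h3 : d none * (a + 1) = d none * a + d none := by ring
    rw [Finset.mem_union]
    rcases le_or_gt (d none) (d (some (Sum.inr r))) with h | h
    · left
      rw [hS1, Finset.mem_image]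
      refine ⟨d (some (Sum.inr r)) - d none, ?_, ?_⟩
      · rw [Finset.mem_range]
        omega
      · omega
    · right
      rw [hS2, Finset.mem_image]
      have h4 : (a + 1) * (d none - d (some (Sum.inr r))) ≤ d none * (a + 1) := by
        rw [Nat.mul_comm]
        exact Nat.mul_le_mul_right _ (Nat.sub_le _ _)
      refine ⟨d none - d (some (Sum.inr r)), ?_, ?_⟩
      · rw [Finset.mem_filter, Finset.mem_Icc]
        refine ⟨⟨by omega, ?_⟩, by omega⟩
        have : d none ≤ d none * (a + 1) := Nat.le_mul_of_pos_right _ (Nat.succ_pos _)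
        omega
      · have : d none ≤ d none * (a + 1) := Nat.le_mul_of_pos_right _ (Nat.succ_pos _)
        omega
  have h1 := FM_initial (w2 a b) (om2 a b r) y y3 hT (N2 a b m) m (fun d hd => hd.1) l hl
    (S1 ∪ S2) hT2
  refine h1.trans ?_
  have hdisj : Disjoint S1 S2 := by
    rw [Finset.disjoint_left]
    intro x hx hx'
    rw [hS1, Finset.mem_image] at hx
    rw [hS2, Finset.mem_image] at hx'
    obtain ⟨c, -, rfl⟩ := hx
    obtain ⟨c', hc', hcc⟩ := hx'
    rw [Finset.mem_filter, Finset.mem_Icc] at hc'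
    omega
  rw [Finset.sum_union hdisj]
  refine add_le_add ?_ ?_
  · rw [hS1, Finset.sum_image (by
      intro x _ x' _ h
      simp only at h
      omega)]
    refine Finset.sum_le_sum fun c hc => ?_
    have i3 : Finite (N3 a b (m - c)) := ai_fin3 a b (m - c)
    have hsub := FM_sub (k := k) y3 (psi k b r) (Finsupp.single (some (Sum.inr r)) c)
      {d | d ∈ N2 a b m ∧ Finsupp.weight (om2 a b r) d = m + c} (N3 a b (m - c)) l hl (by
        rintro d ⟨hd, hdw⟩
        have h2 := ai_N2 r hd
        have h3 := hw d hd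
        refine ⟨bet3 r d (d none), ?_, ?_⟩
        · refine ai_N3 ?_ ?_
          · rw [bet3_none, bet3_u]
            simp only [bet3_x]
            have h4 : d none * (a + 2) = d none * (a + 1) + d none := by ring
            omega
          · rw [bet3_none, bet3_u]
            rcases h2.2 with h | h | h
            · exact Or.inl h
            · left
              omega
            · exact Or.inr h
        · rw [ai_bind, ai_delta r]
          have h5 : d (some (Sum.inr r)) = c + d none := by omega
          rw [h5, ← X_pow_eq_monomial]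
          ring)
    have hs : ∑ i, (Finsupp.single (some (Sum.inr r)) c : W2 b →₀ ℕ) i * ordL L (arc (y3 i)) =
        c * ordL L (arc (y3 (some (Sum.inr r)))) := by
      rw [Finset.sum_eq_single (some (Sum.inr r))]
      · rw [Finsupp.single_eq_same]
      · intro i _ hi
        rw [Finsupp.single_eq_of_ne hi, zero_mul]
      · intro h
        exact absurd (Finset.mem_univ _) h
    rw [hs] at hsub
    exact hsub
  · rw [hS2, Finset.sum_image (by
      intro x hx x' hx' h
      rw [Finset.mem_coe, Finset.mem_filter, Finset.mem_Icc] at hx hx'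
      simp only at h
      omega)]
    refine Finset.sum_le_sum fun c hc => ?_
    rw [Finset.mem_filter, Finset.mem_Icc] at hc
    have i3 : Finite (N3 a b (m - (a + 1) * c)) := ai_fin3 a b _
    have hsub := FM_sub (k := k) y3 (psi k b r) (Finsupp.single none c)
      {d | d ∈ N2 a b m ∧ Finsupp.weight (om2 a b r) d = m - c} (N3 a b (m - (a + 1) * c)) l hl (by
        rintro d ⟨hd, hdw⟩
        have h2 := ai_N2 r hd
        have h3 := hw d hd
        have h6 : d none = d (some (Sum.inr r)) + c := by omega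
        refine ⟨bet3 r d (d (some (Sum.inr r))), ?_, ?_⟩
        · refine ai_N3 ?_ ?_
          · rw [bet3_none, bet3_u]
            simp only [bet3_x]
            have h7 := h2.1
            rw [h6] at h7
            have h4 : d (some (Sum.inr r)) * (a + 2) =
              d (some (Sum.inr r)) * (a + 1) + d (some (Sum.inr r)) := by ring
            have h8 : (d (some (Sum.inr r)) + c) * (a + 1) =
              d (some (Sum.inr r)) * (a + 1) + (a + 1) * c := by ring
            omega
          · rw [bet3_none, bet3_u]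
            rcases h2.2 with h | h | h
            · left
              omega
            · exact Or.inl h
            · exact Or.inr h
        · rw [ai_bind, ai_delta r, h6, ← X_pow_eq_monomial]
          ring)
    have hs : ∑ i, (Finsupp.single none c : W2 b →₀ ℕ) i * ordL L (arc (y3 i)) =
        c * ordL L (arc (y3 none)) := by
      rw [Finset.sum_eq_single none]
      · rw [Finsupp.single_eq_same]
      · intro i _ hi
        rw [Finsupp.single_eq_of_ne hi, zero_mul]
      · intro h
        exact absurd (Finset.mem_univ _) h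
    rw [hs] at hsub
    exact hsub

end Pool.Agent.KSYP.AI

alias Pool.Agent.KSY.F2_le := Pool.Agent.KSYP.AI.F2_le_pr
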