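import Pool.Agent.Lib_helper80.KSY.Defs
import Pool.Agent.Lib_helper80.KSYF.AA

/-!
# One form of degree `D >= 3` (project KSY), block AJ: the second step of a path
-/

set_option autoImplicit false

namespace Pool.Agent.KSYP.AJ

open MvPolynomial Pool.Agent.KSS Pool.Agent.KSX Pool.Agent.KSY Pool.Agent.Lib_helper56.KSS

section comb

theorem aj_weight {b : ℕ} (w : W3 b → ℕ) (δ : W3 b →₀ ℕ) :
    Finsupp.weight w δ = δ none * w none + (δ (some none) * w (some none) +
      ∑ i : Fin b, δ (some (some i)) * w (some (some i))) := by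
  rw [Finsupp.weight_apply, Finsupp.sum_fintype _ _ (fun i => by rw [zero_smul]),
    Fintype.sum_option, Fintype.sum_option]
  simp only [smul_eq_mul]

theorem aj_w3 {a b : ℕ} (δ : W3 b →₀ ℕ) :
    Finsupp.weight (w3 a b) δ = δ none * (a + 2) + (δ (some none) +
      ∑ i : Fin b, δ (some (some i))) := by
  rw [aj_weight]
  simp [w3]

theorem aj_om3 {a b : ℕ} (δ : W3 b →₀ ℕ) :
    Finsupp.weight (om3 a b) δ = δ none * (a + 1) + (δ (some none) * 2 +
      ∑ i : Fin b, δ (some (some i))) := by
  rw [aj_weight]
  simp [om3]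

theorem aj_fin {a b : ℕ} (m : ℕ) : {δ : W3 b →₀ ℕ | Finsupp.weight (w3 a b) δ ≤ m}.Finite := by
  apply Finsupp.finite_of_nat_weight_le
  intro x
  cases x <;> simp [w3]

theorem aj_fin' (b m : ℕ) : Finite {β : Fin b →₀ ℕ | β.degree = m} := by
  have h := Finsupp.finite_of_nat_weight_le (fun _ : Fin b => 1) (fun _ => one_ne_zero) m
  refine (h.subset ?_).to_subtype
  intro β hβ
  have hβ' : β.degree = m := hβ
  change Finsupp.weight (fun _ : Fin b => 1) β ≤ m
  rw [← hβ', Finsupp.degree_eq_weight_one]

theorem aj_fin'' (b m : ℕ) : Finite {β : Option (Fin b) →₀ ℕ | β.degree = m} := by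
  have h := Finsupp.finite_of_nat_weight_le (fun _ : Option (Fin b) => 1) (fun _ => one_ne_zero) m
  refine (h.subset ?_).to_subtype
  intro β hβ
  have hβ' : β.degree = m := hβ
  change Finsupp.weight (fun _ : Option (Fin b) => 1) β ≤ m
  rw [← hβ', Finsupp.degree_eq_weight_one]

theorem aj_some {b : ℕ} : Function.Injective (fun i : Fin b => (some (some i) : W3 b)) := by
  intro i j h
  simpa using h

/-- a monomial in the `x'` times a power of one variable -/
theorem aj_split {b : ℕ} (δ : W3 b →₀ ℕ) (v v' : W3 b) (hv : (v = none ∧ v' = some none) ∨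
    (v = some none ∧ v' = none)) (c n : ℕ) (h1 : δ v = c) (h2 : δ v' = 0)
    (h3 : ∑ i : Fin b, δ (some (some i)) = n) :
    ∃ β ∈ {β : Fin b →₀ ℕ | β.degree = n},
      δ = Finsupp.single v c + Finsupp.mapDomain (fun i : Fin b => (some (some i) : W3 b)) β := by
  classical
  refine ⟨Finsupp.equivFunOnFinite.symm (fun i => δ (some (some i))), ?_, ?_⟩
  · change Finsupp.degree _ = n
    rw [Finsupp.degree_eq_sum]
    simpa using h3
  · ext x
    rw [Finsupp.add_apply]
    have hn : ∀ x : W3 b, (∀ i : Fin b, x ≠ some (some i)) →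
        Finsupp.mapDomain (fun i : Fin b => (some (some i) : W3 b))
          (Finsupp.equivFunOnFinite.symm (fun i => δ (some (some i)))) x = 0 := by
      intro x hx
      apply Finsupp.mapDomain_of_notMem_range
      rintro ⟨i, hi⟩
      exact hx i hi.symm
    rcases x with _ | _ | i
    · rw [hn none (fun i => by simp)]
      rcases hv with ⟨rfl, rfl⟩ | ⟨rfl, rfl⟩
      · simp [h1]
      · simp [h2]
    · rw [hn (some none) (fun i => by simp)]
      rcases hv with ⟨rfl, rfl⟩ | ⟨rfl, rfl⟩
      · simp [h2]
      · simp [h1]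
    · rw [Finsupp.mapDomain_apply aj_some]
      have : Finsupp.single v c (some (some i)) = 0 := by
        rcases hv with ⟨rfl, rfl⟩ | ⟨rfl, rfl⟩ <;> simp
      rw [this, zero_add]
      rfl

end comb

section main

variable {k F : Type} [Field k] [Field F] [Algebra k F]

/-- a class of monomials `v ^ c * (monomials in x')` -/
theorem aj_class {b L : ℕ} (z : W3 b → Fin L → F) (v v' : W3 b)
    (hv : (v = none ∧ v' = some none) ∨ (v = some none ∧ v' = none)) (M : Set (W3 b →₀ ℕ))
    (c n l : ℕ) (hl : l ≤ L)
    (hM : ∀ δ ∈ M, δ v = c ∧ δ v' = 0 ∧ ∑ i : Fin b, δ (some (some i)) = n) :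
    Module.finrank k (FM k z M l) ≤
      Module.finrank k (Fil k (fun i => z (some (some i))) n (l - c * ordL L (arc (z v)))) := by
  classical
  have hf := aj_fin' b n
  rw [Fil_eq]
  refine FM_shift (k := k) z (fun i : Fin b => (some (some i) : W3 b)) (Finsupp.single v c) M
    {β : Fin b →₀ ℕ | β.degree = n} l (l - c * ordL L (arc (z v))) ?_ ?_
  · intro δ hδ
    obtain ⟨h1, h2, h3⟩ := hM δ hδ
    exact aj_split δ v v' hv c n h1 h2 h3
  · intro E hE
    have h1 : ev z (monomial (Finsupp.single v c) 1 : MvPolynomial (W3 b) k) =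
        ∏ i ∈ {v}, (fun i => arc (z i)) i ^ (fun _ : W3 b => c) i := by
      rw [Finset.prod_singleton]
      simp only
      unfold ev
      rw [aeval_monomial, map_one, one_mul, Finsupp.prod_single_index (by rw [pow_zero])]
    rw [h1] at hE
    have h2 := dvd_of_mul_prod _ _ _ _ hl hE
    rwa [Finset.sum_singleton] at h2

end main

/-- (AJ) second step: classes `Z^c` and the polynomials in `x', u` -/
theorem F3_le_pr {a b L : ℕ} {k F F0 : Type} [Field k] [Field F] [Algebra k F] [Field F0]
    [Algebra k F0] (z : W3 b → Fin L → F) (z4 : W3 b → Fin L → F0)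
    (hT : TL k (w3 a b) (om3 a b) z z4) (m l : ℕ) (hl : l ≤ L) :
    Module.finrank k (FM k z (N3 a b m) l) ≤
      Module.finrank k (Fil k (fun i => z (some i)) m l)
      + ∑ c ∈ (Finset.Icc 1 m).filter (fun c => (a + 2) * c ≤ m),
        Module.finrank k (Fil k (fun i => z4 (some (some i))) (m - (a + 2) * c)
          (l - c * ordL L (arc (z4 none)))) := by
  classical
  have hfin : Finite (N3 a b m) := by
    refine ((aj_fin (a := a) (b := b) m).subset ?_).to_subtype
    intro δ hδ
    exact (hδ.1).le
  have h1 := FM_ext (w3 a b) (om3 a b) z z4 hT (N3 a b m) m (fun d hd => hd.1) l hl m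
    (((Finset.Icc 1 m).filter (fun c => (a + 2) * c ≤ m)).image (fun c => m - c)) (by
      intro δ hδ hlt
      obtain ⟨h2, h3⟩ := hδ
      rw [aj_w3] at h2
      rw [aj_om3] at hlt ⊢
      rw [Finset.mem_image]
      refine ⟨δ none, ?_, ?_⟩
      · rw [Finset.mem_filter, Finset.mem_Icc]
        rcases h3 with h3 | h3
        · rw [h3] at h2 hlt
          omega
        · rw [h3] at h2 hlt
          have h4 : δ none * (a + 1) + δ none = δ none * (a + 2) := by ring
          have h5 : (a + 2) * δ none = δ none * (a + 2) := by ring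
          omega
      · rcases h3 with h3 | h3
        · rw [h3] at h2 hlt
          omega
        · rw [h3] at h2 hlt ⊢
          have h4 : δ none * (a + 1) + δ none = δ none * (a + 2) := by ring
          omega)
  refine h1.trans (Nat.add_le_add ?_ ?_)
  · -- the polynomials in `x', u`
    have hf := aj_fin'' b m
    rw [Fil_eq]
    refine FM_shift (k := k) z (fun i : Option (Fin b) => (some i : W3 b)) 0 _
      {β : Option (Fin b) →₀ ℕ | β.degree = m} l l ?_ ?_
    · rintro δ ⟨⟨h2, h3⟩, h4⟩
      rw [aj_w3] at h2
      rw [aj_om3] at h4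
      have h0 : δ none = 0 := by
        rcases h3 with h3 | h3
        · exact h3
        · rw [h3] at h2 h4
          have h5 : δ none * (a + 1) + δ none = δ none * (a + 2) := by ring
          omega
      rw [h0] at h2
      refine ⟨Finsupp.equivFunOnFinite.symm (fun i => δ (some i)), ?_, ?_⟩
      · change Finsupp.degree _ = m
        rw [Finsupp.degree_eq_sum]
        simp only [Finsupp.equivFunOnFinite_symm_apply_apply]
        rw [Fintype.sum_option]
        omega
      · ext x
        rw [zero_add]
        rcases x with _ | x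
        · rw [Finsupp.mapDomain_of_notMem_range, h0]
          rintro ⟨i, hi⟩
          simp at hi
        · rw [Finsupp.mapDomain_apply (Option.some_injective _)]
          rfl
    · intro E hE
      have h2 : ev z (monomial 0 1 : MvPolynomial (W3 b) k) = 1 := by
        unfold ev
        rw [monomial_zero', map_one, map_one]
      rwa [h2, one_mul] at hE
  · rw [Finset.sum_image]
    · refine Finset.sum_le_sum fun c hc => ?_
      rw [Finset.mem_filter, Finset.mem_Icc] at hc
      refine aj_class z4 none (some none) (Or.inl ⟨rfl, rfl⟩) _ c (m - (a + 2) * c) l hl ?_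
      rintro δ ⟨⟨h2, h3⟩, h4⟩
      rw [aj_w3] at h2
      rw [aj_om3] at h4
      have h5 : δ none * (a + 1) + δ none = δ none * (a + 2) := by ring
      have h6 : (a + 2) * δ none = δ none * (a + 2) := by ring
      have h7 : δ (some none) = 0 := by
        rcases h3 with h3 | h3
        · rw [h3] at h2 h4
          omega
        · exact h3
      have h8 : δ none = c := by omega
      rw [h8] at h2 h6
      exact ⟨h8, h7, by omega⟩
    · intro c hc c' hc' h
      simp only [Finset.coe_filter, Finset.mem_Icc, Set.mem_ofPred_eq] at hc hc' h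
      omega

/-- (AJ) the polynomials in `x', u`: classes `u^c` -/
theorem Fb_le_pr {a b L : ℕ} {k F F0 : Type} [Field k] [Field F] [Algebra k F] [Field F0]
    [Algebra k F0] (z : W3 b → Fin L → F) (z4 : W3 b → Fin L → F0)
    (hT : TL k (w3 a b) (om3 a b) z z4) (m l : ℕ) (hl : l ≤ L) :
    Module.finrank k (Fil k (fun i => z (some i)) m l) ≤
      ∑ c ∈ Finset.range (m + 1), Module.finrank k (Fil k (fun i => z4 (some (some i))) (m - c)
        (l - c * ordL L (arc (z4 (some none))))) := by
  classical
  let M : Set (W3 b →₀ ℕ) := {δ | Finsupp.weight (w3 a b) δ = m ∧ δ none = 0}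
  have hfin : Finite M := by
    refine ((aj_fin (a := a) (b := b) m).subset ?_).to_subtype
    intro δ hδ
    exact (hδ.1).le
  have hfd := FM_finite (k := k) z M l
  have hinj : Function.Injective
      (rename (fun i : Option (Fin b) => (some i : W3 b)) : MvPolynomial _ k →ₐ[k] _) :=
    rename_injective _ (Option.some_injective _)
  have hmem : ∀ P ∈ Fil k (fun i => z (some i)) m l,
      (rename (fun i : Option (Fin b) => (some i : W3 b)) : MvPolynomial _ k →ₐ[k] _).toLinearMap P
        ∈ FM k z M l := by
    intro P hP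
    rw [Fil_eq, mem_FM] at hP
    obtain ⟨h1, h2⟩ := hP
    rw [mem_FM]
    refine ⟨?_, ?_⟩
    · intro δ hδ
      rw [AlgHom.toLinearMap_apply, support_rename_of_injective (Option.some_injective _),
        Finset.mem_image] at hδ
      obtain ⟨β, hβ, rfl⟩ := hδ
      have h3 : β.degree = m := h1 β hβ
      have h4 : (Finsupp.mapDomain (fun i : Option (Fin b) => (some i : W3 b)) β) none = 0 := by
        rw [Finsupp.mapDomain_of_notMem_range]
        rintro ⟨i, hi⟩
        simp at hi
      refine ⟨?_, h4⟩
      rw [aj_w3, h4, Finsupp.mapDomain_apply (Option.some_injective _)]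
      simp only [Finsupp.mapDomain_apply (Option.some_injective _)]
      rw [← h3, Finsupp.degree_eq_sum, Fintype.sum_option]
      omega
    · rw [AlgHom.toLinearMap_apply, ev_rename]
      exact h2
  have hstep1 : Module.finrank k (Fil k (fun i => z (some i)) m l) ≤
      Module.finrank k (FM k z M l) := by
    refine LinearMap.finrank_le_finrank_of_injective
      (f := LinearMap.restrict _ hmem) ?_
    intro x y hxy
    apply Subtype.ext
    apply hinj
    exact congrArg Subtype.val hxy
  refine hstep1.trans ?_
  have hstep2 := FM_initial (w3 a b) (om3 a b) z z4 hT M m (fun d hd => hd.1) l hl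
    ((Finset.range (m + 1)).image (fun c => m + c)) (by
      rintro δ ⟨h2, h3⟩
      rw [aj_w3, h3] at h2
      rw [aj_om3, h3, Finset.mem_image]
      refine ⟨δ (some none), ?_, ?_⟩
      · rw [Finset.mem_range]
        omega
      · omega)
  refine hstep2.trans ?_
  rw [Finset.sum_image (fun c _ c' _ h => by simpa using h)]
  refine Finset.sum_le_sum fun c hc => ?_
  refine aj_class z4 (some none) none (Or.inr ⟨rfl, rfl⟩) _ c (m - c) l hl ?_
  rintro δ ⟨⟨h2, h3⟩, h4⟩
  rw [aj_w3, h3] at h2
  rw [aj_om3, h3] at h4
  exact ⟨by omega, h3, by omega⟩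

end Pool.Agent.KSYP.AJ

alias Pool.Agent.KSY.F3_le := Pool.Agent.KSYP.AJ.F3_le_pr

alias Pool.Agent.KSY.Fb_le := Pool.Agent.KSYP.AJ.Fb_le_pr
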