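import Pool.Agent.Lib_helper80.KSY.Defs
import Pool.Agent.Lib_helper77.KSZ.R2
import Pool.Agent.Lib_helper80.KSYF.AA
import Pool.Agent.Lib_helper80.KSYF.AB

/-! KSY, block AK: the inequality with both paths -/

set_option autoImplicit false
set_option linter.unusedVariables false
set_option linter.unusedSectionVars false

namespace Pool.Agent.KSYP.AK

open Pool.Agent.KSY
open MvPolynomial Pool.Agent.KSS Pool.Agent.KSX Pool.Agent.Lib_helper56.KSS Filter Topology
open Pool.Agent.Lib_helper80.KSX (subJ)

theorem ak_mon {k V : Type} [Field k] [Fintype V] (δ : V →₀ ℕ) :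
    (monomial δ 1 : MvPolynomial V k) = ∏ v, X v ^ δ v := by
  rw [monomial_eq, C_1, one_mul, Finsupp.prod_fintype _ _ (fun i => pow_zero _)]

theorem ak_weight {V : Type} [Fintype V] (w : V → ℕ) (δ : V →₀ ℕ) :
    Finsupp.weight w δ = ∑ v, δ v * w v := by
  rw [Finsupp.weight_apply, Finsupp.sum_fintype _ _ (by intro; rw [zero_smul])]
  rfl

theorem ak_degree {V : Type} [Fintype V] (δ : V →₀ ℕ) : δ.degree = ∑ v, δ v := by
  rw [Finsupp.degree_eq_weight_one, ak_weight]
  simp only [mul_one]

theorem ak_w2 {a b : ℕ} (δ : W2 b →₀ ℕ) :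
    Finsupp.weight (w2 a b) δ = δ none * (a + 1) + (∑ i, δ (some (Sum.inl i)) +
      (δ (some (Sum.inr 0)) + δ (some (Sum.inr 1)))) := by
  rw [ak_weight, Fintype.sum_option, Fintype.sum_sum_type, Fin.sum_univ_two]
  simp only [w2, Option.elim, mul_one]

theorem ak_om0 {a b : ℕ} (δ : W2 b →₀ ℕ) :
    Finsupp.weight (om2 a b 0) δ = δ none * a + (∑ i, δ (some (Sum.inl i)) +
      (δ (some (Sum.inr 0)) * 2 + δ (some (Sum.inr 1)))) := by
  rw [ak_weight, Fintype.sum_option, Fintype.sum_sum_type, Fin.sum_univ_two]
  simp only [om2, mul_one]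
  rw [if_pos trivial, if_neg (by decide), mul_one]

theorem ak_om1 {a b : ℕ} (δ : W2 b →₀ ℕ) :
    Finsupp.weight (om2 a b 1) δ = δ none * a + (∑ i, δ (some (Sum.inl i)) +
      (δ (some (Sum.inr 0)) + δ (some (Sum.inr 1)) * 2)) := by
  rw [ak_weight, Fintype.sum_option, Fintype.sum_sum_type, Fin.sum_univ_two]
  simp only [om2, mul_one]
  rw [if_neg (by decide), if_pos trivial, mul_one]

theorem ak_w3 {a b : ℕ} (β : W3 b →₀ ℕ) :
    Finsupp.weight (w3 a b) β = β none * (a + 2) + (β (some none) +
      ∑ i, β (some (some i))) := by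
  rw [ak_weight, Fintype.sum_option, Fintype.sum_option]
  simp only [w3, Option.elim, mul_one]

/-- the exponent in `(x', u, Z)` -/
noncomputable def ak_bet {b : ℕ} (δ : W2 b →₀ ℕ) : W3 b →₀ ℕ :=
  Finsupp.equivFunOnFinite.symm fun t => t.elim (δ (some (Sum.inr 0))) fun o =>
    δ (some (jr b 0 o))

/-- the exponent in `(x', u)` -/
noncomputable def ak_gam {b : ℕ} (δ : W2 b →₀ ℕ) (c : ℕ) : Option (Fin b) →₀ ℕ :=
  Finsupp.equivFunOnFinite.symm fun t => t.elim (δ (some (Sum.inr 0)) - c) fun i =>
    δ (some (Sum.inl i))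

theorem ak_fin2 (a b m : ℕ) : Finite (N2 a b m) := by
  have h := Pool.Agent.Lib_helper80.KSX.wfin (T := W2 b) (w2 a b) (by
    intro t
    cases t with
    | none => exact Nat.succ_pos _
    | some _ => exact Nat.one_pos) m
  exact (h.subset fun d hd => hd.1)

theorem ak_fin3 (a b m : ℕ) : Finite (N3 a b m) := by
  have h := Pool.Agent.Lib_helper80.KSX.wfin (T := W3 b) (w3 a b) (by
    intro t
    cases t with
    | none => exact Nat.succ_pos _
    | some _ => exact Nat.one_pos) m
  exact (h.subset fun d hd => hd.1)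

theorem ak_find (V : Type) [Finite V] (m : ℕ) : Finite {d : V →₀ ℕ | d.degree = m} := by
  have h : Set.Finite {d : V →₀ ℕ | d.degree ≤ m} := Finsupp.finite_of_degree_le m
  exact (h.subset fun d hd => le_of_eq hd)

theorem ak_subJ {k κ V T : Type} [Field k] [Field κ] [Algebra k κ] {L : ℕ} (f : T → V)
    (x : V → Fin L → κ) :
    subJ (fun t => (X (f t) : MvPolynomial V k)) x = fun t => x (f t) := by
  funext t μ
  unfold subJ
  rw [ev_X]
  unfold arc
  rw [PowerSeries.coeff_mk, dif_pos μ.2]

/-- (AK) the inequality with both paths: `y3` is the degeneration for `r = 1`, `y3'` for `r = 0` -/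
theorem F2_star_pr {a b L : ℕ} {k F F1 F0 : Type} [Field k] [Field F] [Algebra k F] [Field F1]
    [Algebra k F1] [Field F0] [Algebra k F0] (y : W2 b → Fin L → F) (y3 : W2 b → Fin L → F1)
    (y3' : W2 b → Fin L → F0) (h1 : TL k (w2 a b) (om2 a b 1) y y3)
    (h0 : TL k (w2 a b) (om2 a b 0) y y3') (m l : ℕ) (hl : l ≤ L) :
    Module.finrank k (FM k y (N2 a b m) l) ≤
      Module.finrank k (Fil k (fun i => y (some i)) m l)
      + ∑ c ∈ (Finset.Icc 1 m).filter (fun c => (a + 2) * c ≤ m),
        Module.finrank k (Fil k (fun i => y3 (some (jr b 1 i))) (m - (a + 2) * c)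
          (l - c * (ordL L (arc (y3 none)) + ordL L (arc (y3 (some (Sum.inr 0)))))))
      + ∑ c ∈ (Finset.Icc 1 m).filter (fun c => (a + 1) * c ≤ m),
        Module.finrank k (FM k (subJ (psi k b 0) y3') (N3 a b (m - (a + 1) * c))
          (l - c * ordL L (arc (y3' none)))) := by
  classical
  have i1 : Finite (N2 a b m) := ak_fin2 a b m
  set S0 : Finset ℕ := ((Finset.Icc 1 m).filter (fun c => (a + 1) * c ≤ m)).image
    (fun c => m - c) with hS0
  set S1 : Finset ℕ := ((Finset.Icc 1 m).filter (fun c => (a + 2) * c ≤ m)).image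
    (fun c => m - c) with hS1
  -- the weights
  have hdeg : ∀ d ∈ N2 a b m, d none * (a + 1) + (∑ i, d (some (Sum.inl i)) +
      (d (some (Sum.inr 0)) + d (some (Sum.inr 1)))) = m := by
    intro d hd
    rw [← ak_w2]
    exact hd.1
  have hw0 : ∀ d ∈ N2 a b m, Finsupp.weight (om2 a b 0) d + d none =
      m + d (some (Sum.inr 0)) := by
    intro d hd
    have h2 := hdeg d hd
    rw [ak_om0]
    have h3 : d none * (a + 1) = d none * a + d none := by ring
    omega
  have hw1 : ∀ d ∈ N2 a b m, Finsupp.weight (om2 a b 1) d + d none =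
      m + d (some (Sum.inr 1)) := by
    intro d hd
    have h2 := hdeg d hd
    rw [ak_om1]
    have h3 : d none * (a + 1) = d none * a + d none := by ring
    omega
  -- first step
  have e0 := FM_ext (w2 a b) (om2 a b 0) y y3' h0 (N2 a b m) m (fun d hd => hd.1) l hl m S0 (by
    intro d hd hlt
    have h2 := hdeg d hd
    have h3 := hw0 d hd
    have h4 : (a + 1) * (d none - d (some (Sum.inr 0))) ≤ d none * (a + 1) := by
      rw [Nat.mul_comm]
      exact Nat.mul_le_mul_right _ (Nat.sub_le _ _)
    have h5 : d none ≤ d none * (a + 1) := Nat.le_mul_of_pos_right _ (Nat.succ_pos _)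
    rw [hS0, Finset.mem_image]
    refine ⟨d none - d (some (Sum.inr 0)), ?_, by omega⟩
    rw [Finset.mem_filter, Finset.mem_Icc]
    refine ⟨⟨by omega, by omega⟩, by omega⟩)
  -- second step
  set M1 : Set (W2 b →₀ ℕ) := {d | d ∈ N2 a b m ∧ m ≤ Finsupp.weight (om2 a b 0) d} with hM1
  have i2 : Finite M1 := Set.Finite.subset (Set.toFinite (N2 a b m)) fun d hd => hd.1
  have hM1le : ∀ d ∈ M1, d ∈ N2 a b m ∧ d none ≤ d (some (Sum.inr 0)) := by
    rintro d ⟨hd, hd2⟩
    have h3 := hw0 d hd
    exact ⟨hd, by omega⟩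
  have e1 := FM_ext (w2 a b) (om2 a b 1) y y3 h1 M1 m (fun d hd => hd.1.1) l hl m S1 (by
    intro d hd hlt
    obtain ⟨hd1, hd2⟩ := hM1le d hd
    have h2 := hdeg d hd1
    have h3 := hw1 d hd1
    have h4 : d (some (Sum.inr 1)) = 0 := by
      rcases hd1.2 with h | h | h
      · omega
      · omega
      · exact h
    have h5 : (a + 2) * d none = d none * (a + 1) + d none := by ring
    have h6 : d none ≤ d none * (a + 1) := Nat.le_mul_of_pos_right _ (Nat.succ_pos _)
    rw [hS1, Finset.mem_image]
    refine ⟨d none, ?_, by omega⟩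
    rw [Finset.mem_filter, Finset.mem_Icc]
    refine ⟨⟨by omega, by omega⟩, by omega⟩)
  -- the rest
  have hrest : Module.finrank k (FM k y {d | d ∈ M1 ∧ m ≤ Finsupp.weight (om2 a b 1) d} l) ≤
      Module.finrank k (Fil k (fun i => y (some i)) m l) := by
    have i3 : Finite {d : (Fin b ⊕ Fin 2) →₀ ℕ | d.degree = m} := ak_find _ m
    have hsub := FM_sub (k := k) y (fun i : Fin b ⊕ Fin 2 => (X (some i) : MvPolynomial (W2 b) k))
      0 {d | d ∈ M1 ∧ m ≤ Finsupp.weight (om2 a b 1) d}
      {d : (Fin b ⊕ Fin 2) →₀ ℕ | d.degree = m} l hl (by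
        rintro d ⟨hd, hd2⟩
        obtain ⟨hd1, hd3⟩ := hM1le d hd
        have h2 := hdeg d hd1
        have h3 := hw1 d hd1
        have h4 : d none = 0 := by
          rcases hd1.2 with h | h | h <;> omega
        refine ⟨Finsupp.equivFunOnFinite.symm fun i => d (some i), ?_, ?_⟩
        · show Finsupp.degree _ = m
          rw [ak_degree, Fintype.sum_sum_type, Fin.sum_univ_two]
          simp only [Finsupp.equivFunOnFinite_symm_apply_apply]
          rw [h4] at h2
          omega
        · rw [ak_mon d, ak_mon (Finsupp.equivFunOnFinite.symm fun i => d (some i)), map_prod,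
            Fintype.prod_option, h4, pow_zero, one_mul]
          simp only [map_pow, bind₁_X_right]
          rw [show (monomial (0 : W2 b →₀ ℕ) (1 : k)) = 1 from rfl, one_mul]
          rfl)
    have hz : ∑ i, (0 : W2 b →₀ ℕ) i * ordL L (arc (y i)) = 0 :=
      Finset.sum_eq_zero fun i _ => by rw [Finsupp.zero_apply, zero_mul]
    rw [hz, Nat.sub_zero, ak_subJ, ← Fil_eq] at hsub
    exact hsub
  -- the classes of the second step
  have hcl1 : ∑ χ ∈ S1, Module.finrank k
      (FM k y3 {d | d ∈ M1 ∧ Finsupp.weight (om2 a b 1) d = χ} l) ≤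
      ∑ c ∈ (Finset.Icc 1 m).filter (fun c => (a + 2) * c ≤ m),
        Module.finrank k (Fil k (fun i => y3 (some (jr b 1 i))) (m - (a + 2) * c)
          (l - c * (ordL L (arc (y3 none)) + ordL L (arc (y3 (some (Sum.inr 0))))))) := by
    rw [hS1, Finset.sum_image (by
      intro x hx x' hx' h
      rw [Finset.mem_coe, Finset.mem_filter, Finset.mem_Icc] at hx hx'
      simp only at h
      omega)]
    refine Finset.sum_le_sum fun c hc => ?_
    rw [Finset.mem_filter, Finset.mem_Icc] at hc
    have i3 : Finite {d : (Option (Fin b)) →₀ ℕ | d.degree = m - (a + 2) * c} := ak_find _ _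
    have hsub := FM_sub (k := k) y3
      (fun i : Option (Fin b) => (X (some (jr b 1 i)) : MvPolynomial (W2 b) k))
      (Finsupp.single none c + Finsupp.single (some (Sum.inr 0)) c)
      {d | d ∈ M1 ∧ Finsupp.weight (om2 a b 1) d = m - c}
      {d : (Option (Fin b)) →₀ ℕ | d.degree = m - (a + 2) * c} l hl (by
        rintro d ⟨hd, hd2⟩
        obtain ⟨hd1, hd3⟩ := hM1le d hd
        have h2 := hdeg d hd1
        have h3 := hw1 d hd1
        have h4 : d (some (Sum.inr 1)) = 0 := by
          rcases hd1.2 with h | h | h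
          · omega
          · omega
          · exact h
        have h5 : d none = c := by omega
        refine ⟨ak_gam d c, ?_, ?_⟩
        · show Finsupp.degree _ = m - (a + 2) * c
          rw [ak_degree, Fintype.sum_option]
          show d (some (Sum.inr 0)) - c + ∑ i, d (some (Sum.inl i)) = m - (a + 2) * c
          rw [h5] at h2
          have h6 : (a + 2) * c = c * (a + 1) + c := by ring
          omega
        · rw [ak_mon d, ak_mon (ak_gam d c), map_prod, Fintype.prod_option,
            Fintype.prod_sum_type, Fin.prod_univ_two, Fintype.prod_option, h4, h5]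
          simp only [map_pow, bind₁_X_right]
          have h7 : d (some (Sum.inr 0)) = c + (d (some (Sum.inr 0)) - c) := by omega
          have h8 : (monomial (Finsupp.single none c + Finsupp.single (some (Sum.inr 0)) c)
              (1 : k) : MvPolynomial (W2 b) k) = X none ^ c * X (some (Sum.inr 0)) ^ c := by
            rw [X_pow_eq_monomial, X_pow_eq_monomial, monomial_mul, one_mul]
          rw [h8]
          show X none ^ c * ((∏ i, X (some (Sum.inl i)) ^ d (some (Sum.inl i))) *
            (X (some (Sum.inr 0)) ^ d (some (Sum.inr 0)) * X (some (Sum.inr 1)) ^ 0)) =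
            X none ^ c * X (some (Sum.inr 0)) ^ c *
            (X (some (Sum.inr 0)) ^ (d (some (Sum.inr 0)) - c) *
              ∏ i, X (some (Sum.inl i)) ^ d (some (Sum.inl i)))
          nth_rewrite 1 [h7]
          rw [pow_add]
          ring)
    have hs : ∑ i, (Finsupp.single none c + Finsupp.single (some (Sum.inr 0)) c : W2 b →₀ ℕ) i *
        ordL L (arc (y3 i)) =
        c * (ordL L (arc (y3 none)) + ordL L (arc (y3 (some (Sum.inr 0))))) := by
      simp only [Finsupp.add_apply, add_mul]
      rw [Finset.sum_add_distrib, Finset.sum_eq_single none, Finset.sum_eq_single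
        (some (Sum.inr 0))]
      · rw [Finsupp.single_eq_same, Finsupp.single_eq_same, mul_add]
      · intro i _ hi
        rw [Finsupp.single_eq_of_ne hi, zero_mul]
      · intro h
        exact absurd (Finset.mem_univ _) h
      · intro i _ hi
        rw [Finsupp.single_eq_of_ne hi, zero_mul]
      · intro h
        exact absurd (Finset.mem_univ _) h
    rw [hs, ak_subJ, ← Fil_eq] at hsub
    exact hsub
  -- the classes of the first step
  have hcl0 : ∑ χ ∈ S0, Module.finrank k
      (FM k y3' {d | d ∈ N2 a b m ∧ Finsupp.weight (om2 a b 0) d = χ} l) ≤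
      ∑ c ∈ (Finset.Icc 1 m).filter (fun c => (a + 1) * c ≤ m),
        Module.finrank k (FM k (subJ (psi k b 0) y3') (N3 a b (m - (a + 1) * c))
          (l - c * ordL L (arc (y3' none)))) := by
    rw [hS0, Finset.sum_image (by
      intro x hx x' hx' h
      rw [Finset.mem_coe, Finset.mem_filter, Finset.mem_Icc] at hx hx'
      simp only at h
      omega)]
    refine Finset.sum_le_sum fun c hc => ?_
    rw [Finset.mem_filter, Finset.mem_Icc] at hc
    have i3 : Finite (N3 a b (m - (a + 1) * c)) := ak_fin3 a b _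
    have hsub := FM_sub (k := k) y3' (psi k b 0) (Finsupp.single none c)
      {d | d ∈ N2 a b m ∧ Finsupp.weight (om2 a b 0) d = m - c} (N3 a b (m - (a + 1) * c)) l hl (by
        rintro d ⟨hd, hdw⟩
        have h2 := hdeg d hd
        have h3 := hw0 d hd
        have h6 : d none = d (some (Sum.inr 0)) + c := by omega
        refine ⟨ak_bet d, ⟨?_, ?_⟩, ?_⟩
        · rw [ak_w3]
          show d (some (Sum.inr 0)) * (a + 2) + (d (some (Sum.inr 1)) +
            ∑ i, d (some (Sum.inl i))) = m - (a + 1) * c
          rw [h6] at h2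
          have h4 : d (some (Sum.inr 0)) * (a + 2) =
            d (some (Sum.inr 0)) * (a + 1) + d (some (Sum.inr 0)) := by ring
          have h8 : (d (some (Sum.inr 0)) + c) * (a + 1) =
            d (some (Sum.inr 0)) * (a + 1) + (a + 1) * c := by ring
          omega
        · show d (some (Sum.inr 0)) = 0 ∨ d (some (Sum.inr 1)) = 0
          rcases hd.2 with h | h | h
          · left
            omega
          · exact Or.inl h
          · exact Or.inr h
        · rw [ak_mon d, ak_mon (ak_bet d), map_prod, Fintype.prod_option,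
            Fintype.prod_sum_type, Fin.prod_univ_two, Fintype.prod_option, Fintype.prod_option]
          simp only [map_pow, bind₁_X_right]
          show X none ^ d none * ((∏ i, X (some (Sum.inl i)) ^ d (some (Sum.inl i))) *
            (X (some (Sum.inr 0)) ^ d (some (Sum.inr 0)) *
              X (some (Sum.inr 1)) ^ d (some (Sum.inr 1)))) =
            monomial (Finsupp.single none c) 1 *
            ((X (some (Sum.inr 0)) * X none) ^ d (some (Sum.inr 0)) *
              (X (some (Sum.inr 1)) ^ d (some (Sum.inr 1)) *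
                ∏ i, X (some (Sum.inl i)) ^ d (some (Sum.inl i))))
          rw [h6, ← X_pow_eq_monomial, pow_add]
          ring)
    have hs : ∑ i, (Finsupp.single none c : W2 b →₀ ℕ) i * ordL L (arc (y3' i)) =
        c * ordL L (arc (y3' none)) := by
      rw [Finset.sum_eq_single none]
      · rw [Finsupp.single_eq_same]
      · intro i _ hi
        rw [Finsupp.single_eq_of_ne hi, zero_mul]
      · intro h
        exact absurd (Finset.mem_univ _) h
    rw [hs] at hsub
    exact hsub
  have e2 := le_trans e1 (add_le_add hrest hcl1)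
  exact le_trans e0 (add_le_add e2 hcl0)

end Pool.Agent.KSYP.AK

alias Pool.Agent.KSY.F2_star := Pool.Agent.KSYP.AK.F2_star_pr
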