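import Pool.Agent.Lib_helper80.KSY.Defs
import Pool.Agent.Lib_helper80.KSYF.AC
import Pool.Agent.Lib_helper80.KSYF.AD
import Pool.Agent.Lib_helper80.KSYF.AG
import Pool.Agent.Lib_helper80.KSYF.AA
import Pool.Agent.Lib_helper80.KSYF.AE
import Pool.Agent.Lib_helper80.KSYF.AF
import Pool.Agent.Lib_helper80.KSYF.AI
import Pool.Agent.Lib_helper80.KSYF.AJ

set_option autoImplicit false

namespace Pool.Agent.KSYP.AL

open Pool.Agent.KSY
open MvPolynomial Pool.Agent.KSS Pool.Agent.KSX Pool.Agent.Lib_helper56.KSS Filter Topology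
open Pool.Agent.Lib_helper80.KSX (subJ arc_subJ ordL_subJ ordL_congr)

theorem al_ordL_mul {κ : Type} [Field κ] (L : ℕ) (f g : PowerSeries κ) :
    ordL L (f * g) = min L (ordL L f + ordL L g) := by
  have h := ordL_prod (Finset.univ : Finset (Fin 2)) L (fun i => if i = 0 then f else g)
  simpa [Fin.prod_univ_two, Fin.sum_univ_two] using h

theorem al_ordL_zero {κ : Type} [Field κ] (L : ℕ) (c : Fin L → κ) (h : ∀ μ, c μ = 0) :
    ordL L (arc c) = L := by
  have h1 : arc c = 0 := by
    ext n
    unfold arc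
    rw [PowerSeries.coeff_mk]
    split_ifs
    · simp [h]
    · simp
  rw [h1]
  apply le_antisymm (ordL_le _ _)
  rw [← dvd_iff_le_ordL le_rfl]
  exact dvd_zero _

theorem al_subJ_X {k κ V T : Type} [Field k] [Field κ] [Algebra k κ] {L : ℕ}
    (Ψ : T → MvPolynomial V k) (x : V → Fin L → κ) (t : T) (i : V) (h : Ψ t = X i) :
    subJ Ψ x t = x i := by
  funext μ
  show PowerSeries.coeff (μ : ℕ) (ev x (Ψ t)) = x i μ
  rw [h, ev_X]
  unfold arc
  rw [PowerSeries.coeff_mk, dif_pos μ.2]

/-- (AL) a path from the jet `(x', u, u', Y)` -/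
theorem path_core_pr (d : Fin 1 → ℕ) {a b L : ℕ} (ha : d 0 = a + 3) {k κ : Type}
    [Field k] [CharZero k] [Field κ] [Algebra k κ] (y : W2 b → Fin L → κ)
    (G : MvPolynomial (Fin b ⊕ Fin 2) k) (hG : Gen d (fun _ => G)) (hrel : Rel2 k y G)
    (r : Fin 2) :
    ∃ (F : Type) (_ : Field F) (_ : Algebra k F) (y3 : W2 b → Fin L → F) (R1 Pb : Rec 1)
      (eu eo eY eZ : ℕ), TL k (w2 a b) (om2 a b r) y y3 ∧
      Path d a b L (tauJ k y) (ordL L (arc (y none))) (ordL L (arc (y (some (Sum.inr r)))))
        (fun m l => Module.finrank k (FM k y (N2 a b m) l))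
        (fun m l => Module.finrank k (FM k (subJ (psi k b r) y3) (N3 a b m) l)) R1 Pb eu eo eY eZ ∧
      eY = ordL L (arc (y3 none)) ∧ ordL L (arc (y3 (some (Sum.inr (Fin.rev r))))) ≤ eu ∧
      ∀ m l, Pb.fil m l = Module.finrank k (Fil k (fun i => y3 (some (jr b r i))) m l) := by
  have hGh : G.IsHomogeneous (a + 3) := by
    rw [← ha]
    exact hG.1 0
  -- the first degeneration
  obtain ⟨F, i1, i2, y3, ht3, hT3⟩ := TIJ (k := k) (w2 a b) (om2 a b r)
    (fun i => by cases i <;> simp [w2]) y
  have hTL3 : TL k (w2 a b) (om2 a b r) y y3 := hT3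
  obtain ⟨z, hz⟩ : ∃ z, z = subJ (psi k b r) y3 := ⟨_, rfl⟩
  have hrel3 : Rel3 k z (killCompl (jr_inj b r) G) := by
    rw [hz]
    exact rel2z r y y3 hTL3 G hGh hrel
  obtain ⟨G1, hG1⟩ : ∃ G1, G1 = killCompl (jr_inj b r) G := ⟨_, rfl⟩
  rw [← hG1] at hrel3
  have hG1g : Gen d (fun _ => G1) := by
    have := gen_kill d (fun _ => G) hG (jr b r) (jr_inj b r)
    rw [hG1]
    exact this
  have hG1h : G1.IsHomogeneous (a + 3) := by
    rw [← ha]
    exact hG1g.1 0
  -- the second degeneration
  obtain ⟨F', j1, j2, z4, ht4, hT4⟩ := TIJ (k := k) (w3 a b) (om3 a b)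
    (fun i => by cases i <;> simp [w3]) z
  have hTL4 : TL k (w3 a b) (om3 a b) z z4 := hT4
  have hrel4 := rel3 z z4 hTL4 G1 hG1h hrel3
  obtain ⟨G2, hG2⟩ : ∃ G2, G2 = killCompl (Option.some_injective (Fin b)) G1 := ⟨_, rfl⟩
  rw [← hG2] at hrel4
  have hG2g : Gen d (fun _ => G2) := by
    have := gen_kill d (fun _ => G1) hG1g (some : Fin b → Option (Fin b))
      (Option.some_injective (Fin b))
    rw [hG2]
    exact this
  -- the coordinates of z
  have hzs : ∀ i : Option (Fin b), z (some i) = y3 (some (jr b r i)) := by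
    intro i
    rw [hz]
    exact al_subJ_X _ _ _ _ rfl
  have hzn : (PowerSeries.X : PowerSeries F) ^ L ∣
      arc (z none) - arc (y3 (some (Sum.inr r))) * arc (y3 none) := by
    have h1 := arc_subJ (psi k b r) y3 none
    rw [← hz] at h1
    have h2 : ev y3 (psi k b r none) = arc (y3 (some (Sum.inr r))) * arc (y3 none) := by
      show ev y3 (X (some (Sum.inr r)) * X none) = _
      rw [ev_mul, ev_X, ev_X]
    rw [h2] at h1
    exact h1
  have hznord : ordL L (arc (z none)) =
      min L (ordL L (arc (y3 (some (Sum.inr r)))) + ordL L (arc (y3 none))) := by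
    rw [ordL_congr hzn, al_ordL_mul]
  -- the records
  let eb : Option (Fin b) ≃ Fin (b + 1) := (finSuccEquiv b).symm
  obtain ⟨Pb, hPof, hPL, hPτ, hPf, hPg⟩ := rec_of d eb (fun _ => G1) hG1g
    (fun i => z (some i))
  obtain ⟨R1, hRof, hRL, hRτ, hRf, hRg⟩ := rec_of d (Equiv.refl (Fin b)) (fun _ => G2) hG2g
    (fun i => z4 (some (some i)))
  -- transcendence degrees
  have htau1 : tauJ k y3 +
      (ordL L (arc (y3 (some (Sum.inr r)))) + ordL L (arc (y3 none)) - L) ≤ tauJ k z + L := by
    let yy : Option (Fin (1 + 1)) → Fin L → F := fun o => o.elim (fun _ => 0)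
      (fun l => if l = 0 then y3 (some (Sum.inr r)) else y3 none)
    have h1 := tau_torus (k := k) (a := 1) y3 yy z (by
      intro i
      rcases i with _ | (i | s)
      · left
        exact ⟨some 1, rfl⟩
      · right
        exact ⟨some (some i), (hzs (some i)).symm⟩
      · by_cases hs : s = r
        · left
          refine ⟨some 0, ?_⟩
          rw [hs]
          rfl
        · right
          refine ⟨some none, ?_⟩
          rw [hzs none]
          have h2 : s = Fin.rev r := by
            revert hs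
            fin_cases s <;> fin_cases r <;> simp
          rw [h2]
          rfl) (-(X none)) (by
      rw [Fin.prod_univ_two]
      have h3 : ev z (-(X none : MvPolynomial (W3 b) k)) = -arc (z none) := by
        unfold ev
        rw [map_neg, aeval_X]
      rw [h3]
      show (PowerSeries.X : PowerSeries F) ^ L ∣
        arc (y3 (some (Sum.inr r))) * arc (y3 none) + -arc (z none)
      have h4 := (dvd_neg (α := PowerSeries F)).2 hzn
      have h5 : -(arc (z none) - arc (y3 (some (Sum.inr r))) * arc (y3 none)) =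
        arc (y3 (some (Sum.inr r))) * arc (y3 none) + -arc (z none) := by ring
      rwa [h5] at h4)
    have h6 : ordL L (arc (yy none)) = L := al_ordL_zero L _ (fun μ => rfl)
    rw [h6, Fin.sum_univ_two] at h1
    have h7 : ordL L (arc (yy (some 0))) = ordL L (arc (y3 (some (Sum.inr r)))) := rfl
    have h8 : ordL L (arc (yy (some 1))) = ordL L (arc (y3 none)) := rfl
    rw [h7, h8] at h1
    omega
  have htau2 : tauJ k z4 +
      (ordL L (arc (z4 (some none))) + ordL L (arc (z4 none)) - L) ≤ R1.τ + L := by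
    let yy : Option (Fin (1 + 1)) → Fin L → F' := fun o => o.elim (fun _ => 0)
      (fun l => if l = 0 then z4 (some none) else z4 none)
    have h1 := tau_torus (k := k) (a := 1) z4 yy (fun i => z4 (some (some i))) (by
      intro i
      rcases i with _ | (_ | i)
      · left
        exact ⟨some 1, rfl⟩
      · left
        exact ⟨some 0, rfl⟩
      · right
        exact ⟨i, rfl⟩) G2 (by
      rw [Fin.prod_univ_two]
      exact hrel4)
    have h6 : ordL L (arc (yy none)) = L := al_ordL_zero L _ (fun μ => rfl)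
    rw [h6, Fin.sum_univ_two] at h1
    have h7 : ordL L (arc (yy (some 0))) = ordL L (arc (z4 (some none))) := rfl
    have h8 : ordL L (arc (yy (some 1))) = ordL L (arc (z4 none)) := rfl
    rw [h7, h8] at h1
    rw [hRτ]
    omega
  have htau3 : tauJ k z ≤ Pb.τ + ordL L (arc (z (some none))) := by
    have h1 := tau_last (k := k) z (X none) G1 (by
      rw [ev_X]
      exact hrel3)
    rw [ev_X] at h1
    rw [hPτ]
    exact h1
  have ho1 : ordL L (arc (z (some none))) ≤ ordL L (arc (z4 (some none))) :=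
    TL_ord _ _ z z4 hTL4 _
  have ho2 : ordL L (arc (z none)) ≤ ordL L (arc (z4 none)) := TL_ord _ _ z z4 hTL4 _
  refine ⟨F, i1, i2, y3, R1, Pb, ordL L (arc (z4 (some none))),
    ordL L (arc (y3 (some (Sum.inr r)))), ordL L (arc (y3 none)), ordL L (arc (z4 none)), hTL3,
    ?_, rfl, ?_, ?_⟩
  · refine
      { ofR := hRof
        LR := hRL
        gR := ?_
        ofP := hPof
        LP := hPL
        gP := ?_
        eu_le := ordL_le _ _
        eo_le := ordL_le _ _
        eY_le := ordL_le _ _
        eZ_le := ordL_le _ _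
        Zge := ?_
        oY_le := TL_ord _ _ y y3 hTL3 _
        oo_le := TL_ord _ _ y y3 hTL3 _
        tauR := ?_
        tauP := ?_
        F2_le := ?_
        F3_le := ?_
        Pb_le := ?_ }
    · rw [hRg 0, ← ordL_eq_of_dvd_add hrel4, al_ordL_mul]
    · rw [hPg 0, ← ordL_eq_of_dvd_add hrel3, al_ordL_mul, hznord]
      have := ordL_le L (arc (z (some none)))
      omega
    · rw [← hznord]
      exact ho2
    · omega
    · omega
    · intro m l hl
      rw [← hz]
      have h1 := F2_le r y y3 hTL3 m l hl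
      rw [← hz] at h1
      exact h1
    · intro m l hl
      rw [← hz, hPf]
      simp only [hRf]
      exact F3_le z z4 hTL4 m l hl
    · intro m l hl
      rw [hPf]
      simp only [hRf]
      exact Fb_le z z4 hTL4 m l hl
  · have h1 := hzs none
    have h2 : y3 (some (Sum.inr (Fin.rev r))) = z (some none) := h1.symm
    rw [h2]
    exact ho1
  · intro m l
    rw [hPf]
    have h1 : (fun i => z (some i)) = fun i => y3 (some (jr b r i)) := funext hzs
    rw [h1]


end Pool.Agent.KSYP.AL

alias Pool.Agent.KSY.path_core := Pool.Agent.KSYP.AL.path_core_pr
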