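import Pool.Agent.Lib_helper80.KSY.Defs

/-!
# KSY block AM: the special fibre of a generic form
-/

set_option autoImplicit false

namespace Pool.Agent.KSYP.AM

open MvPolynomial Pool.Agent.KSS Pool.Agent.KSX Pool.Agent.Lib_helper56.KSS Filter Topology
open Pool.Agent.KSY

set_option linter.unusedSectionVars false

section aux

variable {V : Type} [Fintype V] {a b : ℕ} (e : Fin (a + 2 + 1) ⊕ Fin b ≃ V)

theorem emS_inj : Function.Injective (emS e) := by
  intro o o' h
  have h1 := e.injective h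
  cases o with
  | inl i =>
    cases o' with
    | inl j =>
      simp only [Sum.elim_inl] at h1
      rw [Sum.inr_injective h1]
    | inr t => simp at h1
  | inr s =>
    cases o' with
    | inl j => simp at h1
    | inr t =>
      simp only [Sum.elim_inr] at h1
      have h2 := congrArg Fin.val (Sum.inl_injective h1)
      change a + 1 + (s : ℕ) = a + 1 + (t : ℕ) at h2
      have h3 : s = t := Fin.ext (by omega)
      rw [h3]

theorem yexp_ne_em (β : Fin b ⊕ Fin 2 →₀ ℕ) : Finsupp.mapDomain (emS e) β ≠ yexp e := by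
  intro h
  have h1 := congrArg (fun u => u (e (Sum.inl (il 0)))) h
  simp only [yexp_inl] at h1
  rw [Finsupp.mapDomain_of_notMem_range] at h1
  · exact zero_ne_one h1
  · rintro ⟨o, ho⟩
    have h2 := e.injective ho
    cases o with
    | inl i => simp at h2
    | inr s =>
      simp only [Sum.elim_inr] at h2
      have h3 := congrArg Fin.val (Sum.inl_injective h2)
      change a + 1 + (s : ℕ) = 0 at h3
      omega

open Classical in
/-- the prescribed special values of the coefficients -/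
noncomputable def qS (d : Fin 1 → ℕ) (c : CI V d) :
    MvPolynomial (CI (Fin b ⊕ Fin 2) d) ℤ :=
  if h : ∃ β : Fin b ⊕ Fin 2 →₀ ℕ, Finsupp.mapDomain (emS e) β = c.2.1 then
    X ⟨c.1, h.choose, by rw [← degree_mapDomain' (emS e), h.choose_spec]; exact c.2.2⟩
  else if c.2.1 = yexp e then 1 else 0

theorem qS_emb (d : Fin 1 → ℕ) (i : Fin 1) (β : Fin b ⊕ Fin 2 →₀ ℕ)
    (h1 : (Finsupp.mapDomain (emS e) β).degree = d i) (h2 : β.degree = d i) :
    qS e d ⟨i, Finsupp.mapDomain (emS e) β, h1⟩ = X ⟨i, β, h2⟩ := by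
  unfold qS
  have h : ∃ β' : Fin b ⊕ Fin 2 →₀ ℕ, Finsupp.mapDomain (emS e) β' =
      (⟨i, Finsupp.mapDomain (emS e) β, h1⟩ : CI V d).2.1 := ⟨β, rfl⟩
  rw [dif_pos h]
  congr 1
  have h3 : h.choose = β := Finsupp.mapDomain_injective (emS_inj e) h.choose_spec
  have h4 : (⟨h.choose, by rw [← degree_mapDomain' (emS e), h.choose_spec]; exact h1⟩ :
      {α : Fin b ⊕ Fin 2 →₀ ℕ // α.degree = d i}) = ⟨β, h2⟩ := Subtype.ext h3
  rw [h4]

/-- the special fibre -/
theorem special (d : Fin 1 → ℕ) (ha : d 0 = a + 3) {k1 : Type} [Field k1]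
    (g : CI (Fin b ⊕ Fin 2) d → k1) (F : MvPolynomial V k1) (hF : F.IsHomogeneous (d 0))
    (hc : ∀ (α : V →₀ ℕ) (h : α.degree = d 0), coeff α F = aeval g (qS e d ⟨0, α, h⟩)) :
    F = rename (emS e) (formOf (d 0) (fun β => g ⟨0, β⟩)) + monomial (yexp e) 1 := by
  classical
  apply hom_ext_coeff hF
  · apply IsHomogeneous.add
    · exact (formOf_homog _ _).rename_isHomogeneous
    · have h1 : d 0 = a + 2 + 1 := ha
      rw [h1, ← yexp_degree e]
      exact isHomogeneous_monomial _ rfl
  · intro α hα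
    rw [hc α hα, coeff_add]
    by_cases h : ∃ β : Fin b ⊕ Fin 2 →₀ ℕ, Finsupp.mapDomain (emS e) β = α
    · obtain ⟨β, rfl⟩ := h
      have hβ : β.degree = d 0 := by rw [← degree_mapDomain' (emS e), hα]
      rw [qS_emb e d 0 β hα hβ, aeval_X, coeff_rename_mapDomain _ (emS_inj e),
        coeff_formOf _ _ β hβ, coeff_monomial, if_neg (yexp_ne_em e β).symm, add_zero]
    · have h1 : coeff α (rename (emS e) (formOf (d 0) (fun β => g ⟨0, β⟩))) = 0 := by
        apply coeff_rename_eq_zero
        intro u hu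
        exact absurd ⟨u, hu⟩ h
      rw [h1, zero_add]
      unfold qS
      rw [dif_neg h, coeff_monomial]
      by_cases hy : yexp e = α
      · rw [if_pos hy.symm, if_pos hy, map_one]
      · rw [if_neg (fun h => hy h.symm), if_neg hy, map_zero]

end aux

theorem spec_form_pr (d : Fin 1 → ℕ) {a b : ℕ} (ha : d 0 = a + 3) {V : Type} [Fintype V]
    (e : Fin (a + 2 + 1) ⊕ Fin b ≃ V) {k : Type} [Field k] [CharZero k]
    (G : Fin 1 → MvPolynomial V k) (hG : Gen d G) :
    ∃ (O : ValuationSubring k) (GO : MvPolynomial V O) (_ : CharZero (IsLocalRing.ResidueField O))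
      (G' : MvPolynomial (Fin b ⊕ Fin 2) (IsLocalRing.ResidueField O)),
      Gen d (fun _ => G') ∧ MvPolynomial.map (algebraMap O k) GO = G 0 ∧
      GO.IsHomogeneous (a + 3) ∧
      MvPolynomial.map (IsLocalRing.residue O) GO =
        rename (emS e) G' + monomial (yexp e) 1 := by
  classical
  obtain ⟨O, GO, g, hch, hg, hGO1, hGO2, hGO3⟩ := gen_special d G hG (qS e d)
    (fun c => ⟨c.1, Finsupp.mapDomain (emS e) c.2.1, by rw [degree_mapDomain']; exact c.2.2⟩)
    (fun c => qS_emb e d c.1 c.2.1 _ c.2.2)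
  refine ⟨O, GO 0, hch, formOf (V := Fin b ⊕ Fin 2) (d 0) (fun β => g ⟨0, β⟩), ?_, hGO1 0, ?_, ?_⟩
  · have h1 := gen_of_algInd (V := Fin b ⊕ Fin 2) d g hg
    have h2 : (fun i => formOf (V := Fin b ⊕ Fin 2) (d i) (fun β => g ⟨i, β⟩)) =
        fun _ : Fin 1 => formOf (V := Fin b ⊕ Fin 2) (d 0) (fun β => g ⟨0, β⟩) := by
      funext i
      have h3 : i = 0 := Subsingleton.elim _ _
      subst h3
      rfl
    rw [h2] at h1
    exact h1
  · have h1 := hGO2 0
    rw [ha] at h1
    exact h1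
  · exact special e d ha g _ (homog_map _ (hGO2 0)) (hGO3 0)


end Pool.Agent.KSYP.AM

alias Pool.Agent.KSY.spec_form := Pool.Agent.KSYP.AM.spec_form_pr
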