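import Pool.Agent.Lib_helper80.KSY.Defs
import Pool.Agent.Lib_helper80.KSYF.AB

/-! # Project KSY, block AN (helper26): the torus and the classes -/

set_option autoImplicit false
set_option linter.unusedSectionVars false

namespace Pool.Agent.KSYP.AN

open MvPolynomial Pool.Agent.KSS Pool.Agent.KSX Pool.Agent.Lib_helper56.KSS Filter Topology
open Pool.Agent.Lib_helper80.KSX (subJ)
open Pool.Agent.KSY

section

variable {V : Type} [Fintype V] {a b : ℕ} (e : Fin (a + 2 + 1) ⊕ Fin b ≃ V)

/-- the separated variables -/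
def yy (l : Fin (a + 1)) : Option V := some (e (Sum.inl (il l)))

/-- sums over `a + 3` indices -/
theorem sum_split {M : Type} [AddCommMonoid M] (f : Fin (a + 2 + 1) → M) :
    ∑ l, f l = ∑ l : Fin (a + 1), f (il l) + f (iu 0) + f (iu 1) := by
  rw [Fin.sum_univ_castSucc, Fin.sum_univ_castSucc]
  congr 1

theorem prod_split {M : Type} [CommMonoid M] (f : Fin (a + 2 + 1) → M) :
    ∏ l, f l = (∏ l : Fin (a + 1), f (il l)) * f (iu 0) * f (iu 1) := by
  rw [Fin.prod_univ_castSucc, Fin.prod_univ_castSucc]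
  congr 1

theorem omS_none (B : ℕ) : omS e B none = B ^ (a + 1) + (a + 3) * CC a B := rfl

theorem omS_y (B : ℕ) (l : Fin (a + 1)) :
    omS e B (yy e l) = B ^ (l : ℕ) + if l = Fin.last a then 0 else CC a B := by
  have hl := l.2
  simp only [omS, yy, Equiv.symm_apply_apply, il]
  by_cases h : (l : ℕ) < a
  · rw [if_pos h, if_neg]
    intro h2
    rw [h2, Fin.val_last] at h
    exact lt_irrefl _ h
  · have h3 : (l : ℕ) = a := by omega
    rw [if_neg h, if_pos h3, if_pos (Fin.ext (by rw [h3, Fin.val_last])), h3, add_zero]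

theorem omS_u (B : ℕ) (s : Fin 2) : omS e B (some (e (Sum.inl (iu s)))) = CC a B := by
  have hs := s.2
  simp only [omS, Equiv.symm_apply_apply, iu]
  rw [if_neg (by omega), if_neg (by omega)]

theorem omS_x (B : ℕ) (i : Fin b) : omS e B (incl e i) = CC a B := by
  simp only [omS, incl, Equiv.symm_apply_apply]

theorem yz_il (l : Fin (a + 1)) : yz e (some (il l)) = yy e l := rfl

theorem wt_wO (d : Option V →₀ ℕ) :
    Finsupp.weight (wO V (a + 2)) d = d none * (a + 3) + (∑ l : Fin (a + 1), d (yy e l) +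
      d (some (e (Sum.inl (iu 0)))) + d (some (e (Sum.inl (iu 1))))) +
      ∑ i : Fin b, d (incl e i) := by
  rw [weight_wO e, sum_split (fun l => d (yz e (some l)))]
  rfl

theorem wt_omS (B : ℕ) (d : Option V →₀ ℕ) :
    Finsupp.weight (omS e B) d = d none * (B ^ (a + 1) + (a + 3) * CC a B) +
      (∑ l : Fin (a + 1), d (yy e l) * (B ^ (l : ℕ) + if l = Fin.last a then 0 else CC a B) +
      d (some (e (Sum.inl (iu 0)))) * CC a B + d (some (e (Sum.inl (iu 1)))) * CC a B) +
      (∑ i : Fin b, d (incl e i)) * CC a B := by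
  rw [weight_split e, Fintype.sum_option,
    sum_split (fun l => d (yz e (some l)) * omS e B (yz e (some l)))]
  have h1 : ∀ l : Fin (a + 1), d (yz e (some (il l))) * omS e B (yz e (some (il l))) =
      d (yy e l) * (B ^ (l : ℕ) + if l = Fin.last a then 0 else CC a B) := by
    intro l
    rw [yz_il, omS_y]
  have h2 : ∀ s : Fin 2, d (yz e (some (iu s))) * omS e B (yz e (some (iu s))) =
      d (some (e (Sum.inl (iu s)))) * CC a B := by
    intro s
    change d (some (e (Sum.inl (iu s)))) * omS e B (some (e (Sum.inl (iu s)))) = _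
    rw [omS_u]
  have h3 : yz e none = none := rfl
  rw [Finset.sum_congr rfl fun l _ => h1 l, h2, h2, h3, omS_none, Finset.sum_mul]
  congr 1
  exact Finset.sum_congr rfl fun i _ => by rw [omS_x]

/-- the weight in terms of balanced digits -/
theorem wt_digits (B m : ℕ) (d : Option V →₀ ℕ) (hd : Finsupp.weight (wO V (a + 2)) d = m) :
    (Finsupp.weight (omS e B) d : ℤ) = ∑ l : Fin (a + 2), (if h : (l : ℕ) < a + 1 then
      ((d (yy e ⟨l, h⟩) : ℤ) - d (yy e (Fin.last a))) else (d none : ℤ)) * (B : ℤ) ^ (l : ℕ)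
      + CC a B * m := by
  rw [wt_omS, Fin.sum_univ_castSucc (n := a + 1)]
  have h2 : ∀ l : Fin (a + 1), (if h : ((l.castSucc : Fin (a + 2)) : ℕ) < a + 1 then
      ((d (yy e ⟨(l.castSucc : Fin (a + 2)), h⟩) : ℤ) - d (yy e (Fin.last a))) else
      (d none : ℤ)) * (B : ℤ) ^ ((l.castSucc : Fin (a + 2)) : ℕ) =
      (d (yy e l) : ℤ) * (B : ℤ) ^ (l : ℕ) - (d (yy e (Fin.last a)) : ℤ) * (B : ℤ) ^ (l : ℕ) := by
    intro l
    rw [Fin.val_castSucc, dif_pos l.2]
    ring
  rw [Finset.sum_congr rfl fun l _ => h2 l]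
  have h3 : ¬ ((Fin.last (a + 1) : Fin (a + 2)) : ℕ) < a + 1 := by
    rw [Fin.val_last]; omega
  rw [dif_neg h3, Fin.val_last, Finset.sum_sub_distrib, ← Finset.mul_sum]
  have h4 : ∑ l : Fin (a + 1), (B : ℤ) ^ (l : ℕ) = (CC a B : ℤ) := by
    unfold CC
    push_cast
    rfl
  rw [h4]
  have h5 : ∑ l : Fin (a + 1), d (yy e l) * (B ^ (l : ℕ) + if l = Fin.last a then 0 else CC a B) =
      ∑ l : Fin (a + 1), d (yy e l) * B ^ (l : ℕ) +
        (∑ l : Fin a, d (yy e l.castSucc)) * CC a B := by
    rw [Fin.sum_univ_castSucc, Fin.sum_univ_castSucc (fun l => d (yy e l) * B ^ (l : ℕ))]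
    rw [if_pos rfl, add_zero]
    have : ∀ l : Fin a, d (yy e l.castSucc) * (B ^ ((l.castSucc : Fin (a + 1)) : ℕ) +
        if l.castSucc = Fin.last a then 0 else CC a B) =
        d (yy e l.castSucc) * B ^ ((l.castSucc : Fin (a + 1)) : ℕ) +
          d (yy e l.castSucc) * CC a B := by
      intro l
      rw [if_neg (Fin.castSucc_lt_last l).ne]
      ring
    rw [Finset.sum_congr rfl fun l _ => this l, Finset.sum_add_distrib, ← Finset.sum_mul]
    ring
  rw [h5]
  rw [wt_wO e, Fin.sum_univ_castSucc] at hd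
  rw [← hd]
  push_cast
  ring

/-- separation of the classes -/
theorem sep3 (M0 m : ℕ) (hm : m ≤ M0) (d d' : Option V →₀ ℕ)
    (hd : Finsupp.weight (wO V (a + 2)) d = m) (hd' : Finsupp.weight (wO V (a + 2)) d' = m)
    (h : Finsupp.weight (omS e (2 * M0 + 1)) d = Finsupp.weight (omS e (2 * M0 + 1)) d') :
    d none = d' none ∧ ∀ l, (d (yy e l) : ℤ) - d (yy e (Fin.last a)) =
      (d' (yy e l) : ℤ) - d' (yy e (Fin.last a)) := by
  have hle : ∀ d : Option V →₀ ℕ, Finsupp.weight (wO V (a + 2)) d = m →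
      d none ≤ m ∧ ∀ l, d (yy e l) ≤ m := by
    intro d hd
    rw [wt_wO e] at hd
    constructor
    · have : d none ≤ d none * (a + 3) := Nat.le_mul_of_pos_right _ (by omega)
      omega
    · intro l
      have := Finset.single_le_sum (f := fun l => d (yy e l)) (fun _ _ => Nat.zero_le _)
        (Finset.mem_univ l)
      omega
  have h1 := wt_digits e (2 * M0 + 1) m d hd
  have h2 := wt_digits e (2 * M0 + 1) m d' hd'
  have h3 := digits_zero ((2 * M0 + 1 : ℕ) : ℤ) (a + 2) (fun l => (if h : (l : ℕ) < a + 1 then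
      ((d (yy e ⟨l, h⟩) : ℤ) - d (yy e (Fin.last a))) else (d none : ℤ)) -
      (if h : (l : ℕ) < a + 1 then
      ((d' (yy e ⟨l, h⟩) : ℤ) - d' (yy e (Fin.last a))) else (d' none : ℤ))) (by
    intro l
    have e1 := (hle d hd).1
    have e2 := (hle d' hd').1
    have e3 := (hle d hd).2 (Fin.last a)
    have e4 := (hle d' hd').2 (Fin.last a)
    rw [abs_lt]
    split_ifs with h
    · have e5 := (hle d hd).2 ⟨l, h⟩
      have e6 := (hle d' hd').2 ⟨l, h⟩
      push_cast
      constructor <;> omega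
    · push_cast
      constructor <;> omega) (by
    simp only [sub_mul, Finset.sum_sub_distrib]
    rw [h] at h1
    linarith)
  have h4 : d none = d' none := by
    have := h3 (Fin.last (a + 1))
    have hn : ¬ ((Fin.last (a + 1) : Fin (a + 2)) : ℕ) < a + 1 := by
      rw [Fin.val_last]; omega
    rw [dif_neg hn, dif_neg hn] at this
    omega
  refine ⟨h4, fun l => ?_⟩
  have := h3 l.castSucc
  have hn : ((l.castSucc : Fin (a + 2)) : ℕ) < a + 1 := by
    rw [Fin.val_castSucc]; exact l.2
  rw [dif_pos hn, dif_pos hn] at this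
  exact sub_eq_zero.1 this

/-- the exponents `γ` of a class -/
noncomputable def gam (d : Option V →₀ ℕ) : Fin (a + 1) → ℕ :=
  fun l => d (yy e l) - mina (fun l => d (yy e l))

theorem mina_le {n : ℕ} (f : Fin n → ℕ) (l : Fin n) : mina f ≤ f l :=
  ciInf_le ⟨0, by rintro _ ⟨i, rfl⟩; exact Nat.zero_le _⟩ l

theorem mina_mem {n : ℕ} (f : Fin (n + 1) → ℕ) : ∃ l, f l = mina f :=
  exists_eq_ciInf_of_finite

theorem gam_mina (d : Option V →₀ ℕ) : mina (gam e d) = 0 := by
  obtain ⟨l, hl⟩ := mina_mem (fun l => d (yy e l))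
  have h1 := mina_le (gam e d) l
  have h2 : gam e d l = 0 := by
    unfold gam
    rw [← hl, Nat.sub_self]
  omega

theorem gam_add (d : Option V →₀ ℕ) (l : Fin (a + 1)) :
    gam e d l + mina (fun l => d (yy e l)) = d (yy e l) :=
  Nat.sub_add_cancel (mina_le (fun l => d (yy e l)) l)

theorem gam_sum (d : Option V →₀ ℕ) :
    ∑ l, gam e d l + (a + 1) * mina (fun l => d (yy e l)) = ∑ l, d (yy e l) := by
  rw [← Finset.sum_congr rfl fun l _ => gam_add e d l, Finset.sum_add_distrib, Finset.sum_const,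
    Finset.card_univ, Fintype.card_fin, smul_eq_mul]

theorem gam_eq {d d' : Option V →₀ ℕ} (h : ∀ l, (d (yy e l) : ℤ) - d (yy e (Fin.last a)) =
      (d' (yy e l) : ℤ) - d' (yy e (Fin.last a))) : gam e d = gam e d' := by
  obtain ⟨l1, hl1⟩ := mina_mem (fun l => d (yy e l))
  obtain ⟨l2, hl2⟩ := mina_mem (fun l => d' (yy e l))
  have h1 := mina_le (fun l => d (yy e l)) l2
  have h2 := mina_le (fun l => d' (yy e l)) l1
  have h3 := h l1
  have h4 := h l2
  funext l
  have h5 := h l
  have h6 := gam_add e d l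
  have h7 := gam_add e d' l
  omega

theorem exp_diff {d d' : Option V →₀ ℕ} (h : gam e d = gam e d') (l : Fin (a + 1)) :
    (d (yy e l) : ℤ) - d (yy e (Fin.last a)) = (d' (yy e l) : ℤ) - d' (yy e (Fin.last a)) := by
  have h1 := gam_add e d l
  have h2 := gam_add e d' l
  have h3 := gam_add e d (Fin.last a)
  have h4 := gam_add e d' (Fin.last a)
  rw [h] at h1 h3
  omega

theorem wt_eq_of_gam (B m : ℕ) {d d' : Option V →₀ ℕ}
    (hd : Finsupp.weight (wO V (a + 2)) d = m) (hd' : Finsupp.weight (wO V (a + 2)) d' = m)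
    (h0 : d none = d' none) (h : gam e d = gam e d') :
    Finsupp.weight (omS e B) d = Finsupp.weight (omS e B) d' := by
  have h1 := wt_digits e B m d hd
  have h2 := wt_digits e B m d' hd'
  have h3 : ∀ l : Fin (a + 2), (if h : (l : ℕ) < a + 1 then
      ((d (yy e ⟨l, h⟩) : ℤ) - d (yy e (Fin.last a))) else (d none : ℤ)) =
      (if h : (l : ℕ) < a + 1 then
      ((d' (yy e ⟨l, h⟩) : ℤ) - d' (yy e (Fin.last a))) else (d' none : ℤ)) := by
    intro l
    split_ifs with h5
    · exact exp_diff e h ⟨l, h5⟩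
    · rw [h0]
  rw [Finset.sum_congr rfl fun l _ => by rw [h3 l], ← h2] at h1
  exact_mod_cast h1

/-- the exponent `α` -/
noncomputable def alp (γ : Fin (a + 1) → ℕ) : Option V →₀ ℕ :=
  ∑ l, Finsupp.single (yy e l) (γ l)

theorem alp_sum (γ : Fin (a + 1) → ℕ) (c : Option V → ℕ) :
    ∑ i, alp e γ i * c i = ∑ l, γ l * c (yy e l) := by
  classical
  unfold alp
  simp only [Finsupp.finsetSum_apply, Finset.sum_mul]
  rw [Finset.sum_comm]
  apply Finset.sum_congr rfl
  intro l _
  rw [Finset.sum_eq_single (yy e l)]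
  · rw [Finsupp.single_eq_same]
  · intro o _ ho
    rw [Finsupp.single_eq_of_ne ho, zero_mul]
  · intro h
    exact absurd (Finset.mem_univ _) h

/-- the exponent `β` -/
noncomputable def bet (d : Option V →₀ ℕ) : W2 b →₀ ℕ :=
  Finsupp.equivFunOnFinite.symm fun o => o.elim (mina (fun l => d (yy e l)))
    (fun i => d (some (emS e i)))

theorem bet_none (d : Option V →₀ ℕ) : bet e d none = mina (fun l => d (yy e l)) := rfl

theorem bet_some (d : Option V →₀ ℕ) (i : Fin b ⊕ Fin 2) :
    bet e d (some i) = d (some (emS e i)) := rfl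

theorem wt_w2 (a : ℕ) (β : W2 b →₀ ℕ) : Finsupp.weight (w2 a b) β =
    β none * (a + 1) + (∑ i : Fin b, β (some (Sum.inl i)) +
      (β (some (Sum.inr 0)) + β (some (Sum.inr 1)))) := by
  rw [Finsupp.weight_apply, Finsupp.sum_fintype _ _ (by intro i; rw [zero_smul]),
    Fintype.sum_option, Fintype.sum_sum_type, Fin.sum_univ_two]
  simp only [w2, smul_eq_mul, Option.elim_none, Option.elim_some, mul_one]

theorem N2_finite (a b m : ℕ) : Finite (N2 a b m) := by
  apply Set.Finite.subset (slc_finite (w2 a b) (by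
    intro o
    cases o with
    | none => exact Nat.succ_pos a
    | some i => exact one_pos) m)
  intro d hd
  exact le_of_eq hd.1

theorem bet_mem {m : ℕ} {d : Option V →₀ ℕ} (hd : d ∈ Nset e m) (h0 : d none = 0) :
    bet e d ∈ N2 a b (m - ∑ l, gam e d l) := by
  obtain ⟨hd1, l, hl⟩ := hd
  have h1 := gam_sum e d
  have h2 := wt_wO e d
  rw [hd1, h0, zero_mul, zero_add] at h2
  refine ⟨?_, ?_⟩
  · rw [wt_w2, bet_none]
    simp only [bet_some]
    change mina (fun l => d (yy e l)) * (a + 1) + (∑ i : Fin b, d (incl e i) +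
      (d (some (e (Sum.inl (iu 0)))) + d (some (e (Sum.inl (iu 1)))))) = _
    have h3 : mina (fun l => d (yy e l)) * (a + 1) = (a + 1) * mina (fun l => d (yy e l)) :=
      Nat.mul_comm _ _
    omega
  · rw [bet_none, bet_some, bet_some]
    change _ ∨ d (some (e (Sum.inl (iu 0)))) = 0 ∨ d (some (e (Sum.inl (iu 1)))) = 0
    rcases lt_trichotomy (l : ℕ) (a + 1) with h | h | h
    · left
      have h3 := mina_le (fun l => d (yy e l)) ⟨l, h⟩
      have h4 : d (yy e ⟨l, h⟩) = 0 := hl
      omega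
    · right; left
      have h4 : l = iu 0 := Fin.ext (by simp [iu, h])
      rw [h4] at hl
      exact hl
    · right; right
      have h4 : l = iu 1 := Fin.ext (by
        have := l.2
        simp only [iu, Fin.val_one]
        omega)
      rw [h4] at hl
      exact hl

variable {k : Type} [Field k]

theorem mon_eq (d : Option V →₀ ℕ) (h0 : d none = 0) :
    (monomial d 1 : MvPolynomial (Option V) k) =
      monomial (alp e (gam e d)) 1 * bind₁ (psiY e k) (monomial (bet e d) 1) := by
  classical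
  have h1 : (monomial d 1 : MvPolynomial (Option V) k) =
      (∏ l : Fin (a + 1), X (yy e l) ^ (d (yy e l))) *
        X (some (e (Sum.inl (iu 0)))) ^ (d (some (e (Sum.inl (iu 0))))) *
        X (some (e (Sum.inl (iu 1)))) ^ (d (some (e (Sum.inl (iu 1))))) *
        ∏ i : Fin b, X (incl e i) ^ (d (incl e i)) := by
    rw [monomial_eq, C_1, one_mul, Finsupp.prod_fintype _ _ (by intro i; rw [pow_zero]),
      Fintype.prod_option, h0, pow_zero, one_mul, ← e.prod_comp, Fintype.prod_sum_type,
      prod_split]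
    rfl
  have h2 : (monomial (alp e (gam e d)) 1 : MvPolynomial (Option V) k) =
      ∏ l : Fin (a + 1), X (yy e l) ^ (gam e d l) := by
    unfold alp
    rw [monomial_sum_one]
    apply Finset.prod_congr rfl
    intro l _
    rw [X_pow_eq_monomial]
  have h3 : (bind₁ (psiY e k) (monomial (bet e d) 1) : MvPolynomial (Option V) k) =
      (∏ l : Fin (a + 1), X (yy e l)) ^ (mina (fun l => d (yy e l))) *
        ((∏ i : Fin b, X (incl e i) ^ (d (incl e i))) *
        (X (some (e (Sum.inl (iu 0)))) ^ (d (some (e (Sum.inl (iu 0))))) *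
        X (some (e (Sum.inl (iu 1)))) ^ (d (some (e (Sum.inl (iu 1))))))) := by
    change aeval (psiY e k) (monomial (bet e d) 1) = _
    rw [aeval_monomial, map_one, one_mul, Finsupp.prod_fintype _ _ (by intro i; rw [pow_zero]),
      Fintype.prod_option, Fintype.prod_sum_type, Fin.prod_univ_two]
    rfl
  rw [h1, h2, h3, ← Finset.prod_pow]
  have h4 : (∏ l : Fin (a + 1), (X (yy e l) : MvPolynomial (Option V) k) ^ (d (yy e l))) =
      (∏ l : Fin (a + 1), X (yy e l) ^ (gam e d l)) *
        ∏ l : Fin (a + 1), X (yy e l) ^ (mina (fun l => d (yy e l))) := by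
    rw [← Finset.prod_mul_distrib]
    apply Finset.prod_congr rfl
    intro l _
    rw [← pow_add, gam_add]
  rw [h4]
  ring

end

theorem FM_le_card {k κ V : Type} [Field k] [Field κ] [Algebra k κ] {L : ℕ}
    (x : V → Fin L → κ) (M : Set (V →₀ ℕ)) [Finite M] (l : ℕ) :
    Module.finrank k (FM k x M l) ≤ Nat.card M := by
  have h1 : Module.Finite k (restrictSupport k M) := Module.Finite.of_basis (basisRestrictSupport k M)
  have h2 : Module.finrank k (restrictSupport k M) = Nat.card M :=
    Module.finrank_eq_nat_card_basis (basisRestrictSupport k M)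
  rw [← h2]
  exact Submodule.finrank_mono inf_le_left

/-- (AN) the torus and the classes -/
theorem class_le_pr {V : Type} [Fintype V] {a b : ℕ} (e : Fin (a + 2 + 1) ⊕ Fin b ≃ V) (M0 : ℕ)
    {k F1 F2 : Type} [Field k] [Field F1] [Algebra k F1] [Field F2] [Algebra k F2] {L : ℕ}
    (x1 : Option V → Fin L → F1) (x2 : Option V → Fin L → F2)
    (hT : TL k (wO V (a + 2)) (omS e (2 * M0 + 1)) x1 x2) (m l : ℕ) (hm : m ≤ M0) (hl : l ≤ L) :
    Module.finrank k (FM k x1 (Nset e m) l) ≤
      Nat.card {δ : Option V →₀ ℕ // δ ∈ Nset e m ∧ 1 ≤ δ none} +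
      ∑ γ ∈ (Exps (a + 1) m).filter (fun γ => mina γ = 0),
        Module.finrank k (FM k (subJ (psiY e k) x2) (N2 a b (m - ∑ i, γ i))
          (l - ∑ i, γ i * ordL L (arc (x2 (some (e (Sum.inl (il i)))))))) := by
  classical
  have i3 : Finite (Nset e m) := Nset_finite e m
  have hNf : (Nset e m).Finite := i3
  obtain ⟨T, hT0⟩ : ∃ T : Finset ℕ,
      T = hNf.toFinset.image (Finsupp.weight (omS e (2 * M0 + 1))) := ⟨_, rfl⟩
  have h1 := FM_initial (wO V (a + 2)) (omS e (2 * M0 + 1)) x1 x2 hT (Nset e m) m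
    (fun d hd => hd.1) l hl T
    (by
      intro d hd
      rw [hT0]
      exact Finset.mem_image_of_mem _ (hNf.mem_toFinset.2 hd))
  apply h1.trans
  -- representatives
  have hrep : ∀ χ, ∃ d, χ ∈ T → d ∈ Nset e m ∧
      Finsupp.weight (omS e (2 * M0 + 1)) d = χ := by
    intro χ
    by_cases h : χ ∈ T
    · rw [hT0, Finset.mem_image] at h
      obtain ⟨d, hd, rfl⟩ := h
      exact ⟨d, fun _ => ⟨hNf.mem_toFinset.1 hd, rfl⟩⟩
    · exact ⟨0, fun h' => absurd h' h⟩
  choose D hD using hrep
  rw [← Finset.sum_filter_add_sum_filter_not T (fun χ => 1 ≤ D χ none)]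
  apply add_le_add
  · -- the classes divisible by `z`
    have h2 : ∀ χ ∈ T.filter (fun χ => 1 ≤ D χ none), Module.finrank k (FM k x2
        {d | d ∈ Nset e m ∧ Finsupp.weight (omS e (2 * M0 + 1)) d = χ} l) ≤
        ((hNf.toFinset.filter (fun d => 1 ≤ d none)).filter
          (fun d => Finsupp.weight (omS e (2 * M0 + 1)) d = χ)).card := by
      intro χ hχ
      rw [Finset.mem_filter] at hχ
      have h3 := hD χ hχ.1
      have i4 : Finite {d | d ∈ Nset e m ∧ Finsupp.weight (omS e (2 * M0 + 1)) d = χ} :=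
        Set.Finite.subset hNf (fun d hd => hd.1)
      refine (FM_le_card x2 _ l).trans (le_of_eq ?_)
      apply Nat.subtype_card
      intro d
      rw [Finset.mem_filter, Finset.mem_filter, hNf.mem_toFinset]
      constructor
      · rintro ⟨⟨h5, -⟩, h6⟩
        exact ⟨h5, h6⟩
      · rintro ⟨h5, h6⟩
        refine ⟨⟨h5, ?_⟩, h6⟩
        rw [(sep3 e M0 m hm d (D χ) h5.1 h3.1.1 (h6.trans h3.2.symm)).1]
        exact hχ.2
    refine (Finset.sum_le_sum h2).trans ?_
    refine (Finset.sum_le_sum_of_subset (Finset.filter_subset _ T)).trans ?_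
    rw [← Finset.card_eq_sum_card_fiberwise (f := Finsupp.weight (omS e (2 * M0 + 1)))
      (s := hNf.toFinset.filter (fun d => 1 ≤ d none)) (t := T) (by
        intro d hd
        rw [Finset.mem_coe, Finset.mem_filter] at hd
        rw [Finset.mem_coe, hT0]
        exact Finset.mem_image_of_mem _ hd.1)]
    refine le_of_eq (Nat.subtype_card _ ?_).symm
    intro d
    rw [Finset.mem_filter, hNf.mem_toFinset]
  · -- the others
    have hc : ∀ χ ∈ T.filter (fun χ => ¬ 1 ≤ D χ none), Module.finrank k (FM k x2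
        {d | d ∈ Nset e m ∧ Finsupp.weight (omS e (2 * M0 + 1)) d = χ} l) ≤
        Module.finrank k (FM k (subJ (psiY e k) x2) (N2 a b (m - ∑ i, gam e (D χ) i))
          (l - ∑ i, gam e (D χ) i * ordL L (arc (x2 (yy e i))))) := by
      intro χ hχ
      rw [Finset.mem_filter] at hχ
      have h3 := hD χ hχ.1
      have h4 : D χ none = 0 := by omega
      have i5 := N2_finite a b (m - ∑ i, gam e (D χ) i)
      have h5 := FM_sub x2 (psiY e k) (alp e (gam e (D χ)))
        {d | d ∈ Nset e m ∧ Finsupp.weight (omS e (2 * M0 + 1)) d = χ}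
        (N2 a b (m - ∑ i, gam e (D χ) i)) l hl (by
          rintro d ⟨hd1, hd2⟩
          have h6 := sep3 e M0 m hm d (D χ) hd1.1 h3.1.1 (hd2.trans h3.2.symm)
          have h7 := gam_eq e h6.2
          refine ⟨bet e d, ?_, ?_⟩
          · rw [← h7]
            exact bet_mem e hd1 (h6.1.trans h4)
          · rw [← h7]
            exact mon_eq e d (h6.1.trans h4))
      rw [alp_sum e (gam e (D χ)) (fun o => ordL L (arc (x2 o)))] at h5
      exact h5
    have hinj : ∀ χ ∈ T.filter (fun χ => ¬ 1 ≤ D χ none),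
        ∀ χ' ∈ T.filter (fun χ => ¬ 1 ≤ D χ none), gam e (D χ) = gam e (D χ') → χ = χ' := by
      intro χ hχ χ' hχ' h
      rw [Finset.mem_filter] at hχ hχ'
      have h3 := hD χ hχ.1
      have h3' := hD χ' hχ'.1
      rw [← h3.2, ← h3'.2]
      exact wt_eq_of_gam e _ m h3.1.1 h3'.1.1 (by omega) h
    calc _ ≤ ∑ χ ∈ T.filter (fun χ => ¬ 1 ≤ D χ none),
          Module.finrank k (FM k (subJ (psiY e k) x2) (N2 a b (m - ∑ i, gam e (D χ) i))
          (l - ∑ i, gam e (D χ) i * ordL L (arc (x2 (yy e i))))) := Finset.sum_le_sum hc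
      _ = ∑ γ ∈ (T.filter (fun χ => ¬ 1 ≤ D χ none)).image (fun χ => gam e (D χ)),
          Module.finrank k (FM k (subJ (psiY e k) x2) (N2 a b (m - ∑ i, γ i))
          (l - ∑ i, γ i * ordL L (arc (x2 (yy e i))))) := by
          rw [Finset.sum_image hinj]
      _ ≤ _ := by
          apply Finset.sum_le_sum_of_subset
          intro γ hγ
          rw [Finset.mem_image] at hγ
          obtain ⟨χ, hχ, rfl⟩ := hγ
          rw [Finset.mem_filter] at hχ
          have h3 := (hD χ hχ.1).1.1
          rw [wt_wO e] at h3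
          have h4 := gam_sum e (D χ)
          rw [Finset.mem_filter]
          refine ⟨?_, gam_mina e _⟩
          unfold Exps
          rw [Finset.mem_filter, Fintype.mem_piFinset]
          have h5 : ∑ i, gam e (D χ) i ≤ m := by omega
          refine ⟨fun i => ?_, h5⟩
          rw [Finset.mem_range]
          have := Finset.single_le_sum (f := fun i => gam e (D χ) i) (fun _ _ => Nat.zero_le _)
            (Finset.mem_univ i)
          omega


end Pool.Agent.KSYP.AN

alias Pool.Agent.KSY.class_le := Pool.Agent.KSYP.AN.class_le_pr
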