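import Pool.Agent.Lib_helper80.KSY.Defs
import Pool.Agent.Lib_helper77.KSSP.Hilb

/-!
# KSY block AO: the number of monomials divisible by `z`
-/

set_option autoImplicit false

namespace Pool.Agent.KSYP.AO

open MvPolynomial Pool.Agent.KSS Pool.Agent.KSX Pool.Agent.Lib_helper56.KSS Filter Topology
open Pool.Agent.KSY

set_option linter.unusedSectionVars false

section aux

variable {V : Type} [Fintype V] {a b : ℕ} (e : Fin (a + 2 + 1) ⊕ Fin b ≃ V)

theorem weight_some (δ : Option V →₀ ℕ) :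
    Finsupp.weight (wO V (a + 2)) δ = δ none * (a + 3) + ∑ v : V, δ (some v) := by
  rw [Finsupp.weight_apply, Finsupp.sum_fintype _ _ (by intro i; rw [zero_smul]),
    Fintype.sum_option]
  simp only [wO, Option.elim_none, Option.elim_some, smul_eq_mul, mul_one]

/-- put the exponent of `z` minus one on all `y` -/
noncomputable def push (δ : Option V →₀ ℕ) : V →₀ ℕ :=
  Finsupp.equivFunOnFinite.symm fun v => δ (some v) + (δ none - 1) * yexp e v

theorem push_apply (δ : Option V →₀ ℕ) (v : V) :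
    push e δ v = δ (some v) + (δ none - 1) * yexp e v := by
  simp only [push, Finsupp.equivFunOnFinite_symm_apply_apply]

theorem push_degree (δ : Option V →₀ ℕ) (h : 1 ≤ δ none) :
    (push e δ).degree + (a + 3) = Finsupp.weight (wO V (a + 2)) δ := by
  have h1 := yexp_degree e
  rw [Finsupp.degree_eq_sum] at h1
  rw [Finsupp.degree_eq_sum, weight_some]
  simp only [push_apply]
  rw [Finset.sum_add_distrib, ← Finset.mul_sum, h1]
  obtain ⟨n, hn⟩ : ∃ n, δ none = n + 1 := ⟨δ none - 1, by omega⟩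
  rw [hn, Nat.add_sub_cancel]
  ring

/-- the other direction -/
noncomputable def pull (β : V →₀ ℕ) : Option V →₀ ℕ :=
  Finsupp.equivFunOnFinite.symm fun o => o.elim (mina (fun l => β (e (Sum.inl l))) + 1)
    (fun v => β v - mina (fun l => β (e (Sum.inl l))) * yexp e v)

theorem pull_none (β : V →₀ ℕ) :
    pull e β none = mina (fun l => β (e (Sum.inl l))) + 1 := by
  simp only [pull, Finsupp.equivFunOnFinite_symm_apply_apply, Option.elim_none]

theorem pull_some (β : V →₀ ℕ) (v : V) :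
    pull e β (some v) = β v - mina (fun l => β (e (Sum.inl l))) * yexp e v := by
  simp only [pull, Finsupp.equivFunOnFinite_symm_apply_apply, Option.elim_some]

theorem mina_le (β : V →₀ ℕ) (v : V) :
    mina (fun l => β (e (Sum.inl l))) * yexp e v ≤ β v := by
  obtain ⟨o, rfl⟩ := e.surjective v
  cases o with
  | inl l =>
    rw [yexp_inl, mul_one]
    exact ciInf_le (OrderBot.bddBelow _) l
  | inr i =>
    rw [yexp_inr, mul_zero]
    exact Nat.zero_le _

theorem push_pull (β : V →₀ ℕ) : push e (pull e β) = β := by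
  ext v
  rw [push_apply, pull_none, pull_some, Nat.add_sub_cancel, Nat.sub_add_cancel (mina_le e β v)]

theorem pull_zero (β : V →₀ ℕ) : ∃ l, pull e β (yz e (some l)) = 0 := by
  obtain ⟨l, hl⟩ : ∃ l, β (e (Sum.inl l)) = mina (fun l => β (e (Sum.inl l))) :=
    exists_eq_ciInf_of_finite
  refine ⟨l, ?_⟩
  change pull e β (some (e (Sum.inl l))) = 0
  rw [pull_some, yexp_inl, mul_one, hl, Nat.sub_self]

theorem push_inj (δ δ' : Option V →₀ ℕ) (h1 : 1 ≤ δ none) (h1' : 1 ≤ δ' none)
    (h0 : ∃ l, δ (yz e (some l)) = 0) (h0' : ∃ l, δ' (yz e (some l)) = 0)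
    (h : push e δ = push e δ') : δ = δ' := by
  have key : ∀ δ δ' : Option V →₀ ℕ, (∃ l, δ (yz e (some l)) = 0) → push e δ = push e δ' →
      δ' none - 1 ≤ δ none - 1 := by
    rintro δ δ' ⟨l, hl⟩ h
    have h2 := congrArg (fun u => u (e (Sum.inl l))) h
    simp only [push_apply, yexp_inl, mul_one] at h2
    change δ (some (e (Sum.inl l))) = 0 at hl
    omega
  have h2 := key δ δ' h0 h
  have h3 := key δ' δ h0' h.symm
  have h4 : δ none = δ' none := by omega
  ext o
  cases o with
  | none => exact h4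
  | some v =>
    have h5 := congrArg (fun u => u v) h
    simp only [push_apply, h4] at h5
    exact Nat.add_right_cancel h5

end aux

theorem Nset_card_pr {V : Type} [Fintype V] {a b : ℕ} (e : Fin (a + 2 + 1) ⊕ Fin b ≃ V) (m : ℕ) :
    Nat.card {δ : Option V →₀ ℕ // δ ∈ Nset e m ∧ 1 ≤ δ none} =
      Nat.card {δ : V →₀ ℕ // δ.degree + (a + 3) = m} := by
  refine Nat.card_congr (Equiv.ofBijective
    (fun δ => ⟨push e δ.1, by rw [push_degree e δ.1 δ.2.2]; exact δ.2.1.1⟩) ⟨?_, ?_⟩)
  · rintro ⟨δ, hδ, h1⟩ ⟨δ', hδ', h1'⟩ h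
    exact Subtype.ext (push_inj e δ δ' h1 h1' hδ.2 hδ'.2 (congrArg Subtype.val h))
  · rintro ⟨β, hβ⟩
    have h1 : 1 ≤ pull e β none := by
      rw [pull_none]
      omega
    refine ⟨⟨pull e β, ⟨?_, pull_zero e β⟩, h1⟩, Subtype.ext (push_pull e β)⟩
    rw [← push_degree e _ h1, push_pull]
    exact hβ

theorem Nset_NN_pr (d : Fin 1 → ℕ) {a b : ℕ} (ha : d 0 = a + 3) (m : ℕ) :
    (Nat.card {δ : Fin (b + a + 3) →₀ ℕ // δ.degree + (a + 3) = m} : ℤ) =
      NN d (b + a + 3) ∅ m - NN d (b + a + 3) Finset.univ m := by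
  have h1 := hilb_NN_insert d (b + a + 3) ∅ 0 (Finset.notMem_empty _) m
  have h2 : (insert 0 ∅ : Finset (Fin 1)) = Finset.univ := by decide
  rw [h2, ha] at h1
  rw [h1, sub_sub_cancel]
  by_cases h : a + 3 ≤ m
  · rw [if_pos h, ← finrank_hom_pr ℚ d (b + a + 3) (m - (a + 3)),
      homogeneousSubmodule_eq_finsupp_supported]
    have e1 := basisRestrictSupport ℚ {δ : Fin (b + a + 3) →₀ ℕ | δ.degree = m - (a + 3)}
    have h3 := Module.finrank_eq_nat_card_basis e1
    rw [restrictSupport] at h3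
    rw [h3]
    norm_cast
    refine Nat.card_congr (Equiv.subtypeEquivRight fun δ => ?_)
    change δ.degree + (a + 3) = m ↔ δ.degree = m - (a + 3)
    omega
  · rw [if_neg h]
    have h3 : IsEmpty {δ : Fin (b + a + 3) →₀ ℕ // δ.degree + (a + 3) = m} :=
      ⟨fun δ => h (by have := δ.2; omega)⟩
    rw [Nat.card_of_isEmpty, Nat.cast_zero]


end Pool.Agent.KSYP.AO

alias Pool.Agent.KSY.Nset_card := Pool.Agent.KSYP.AO.Nset_card_pr

alias Pool.Agent.KSY.Nset_NN := Pool.Agent.KSYP.AO.Nset_NN_pr
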