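import Pool.Agent.Lib_helper80.KSY.Defs
import Pool.Agent.Lib_helper80.KSYF.AM
import Pool.Agent.Lib_helper80.KSYF.AN
import Pool.Agent.Lib_helper80.KSYF.AO

/-!
# KSY block AP: stage 1
-/

set_option autoImplicit false

namespace Pool.Agent.KSYP.AP

open MvPolynomial Pool.Agent.KSS Pool.Agent.KSX Pool.Agent.Lib_helper56.KSS Filter Topology
open Pool.Agent.Lib_helper80.KSX (subJ arc_subJ ordL_congr ordL_subJ)
open Pool.Agent.KSY

set_option linter.unusedSectionVars false

section aux

variable {V : Type} [Fintype V] {a b : ℕ} (e : Fin (a + 2 + 1) ⊕ Fin b ≃ V)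

theorem il_eq (l : Fin (a + 1)) : (il l : Fin (a + 2 + 1)) = l.castSucc.castSucc := Fin.ext rfl

theorem iu_zero : (iu 0 : Fin (a + 2 + 1)) = (Fin.last (a + 1)).castSucc := Fin.ext rfl

theorem iu_one : (iu 1 : Fin (a + 2 + 1)) = Fin.last (a + 2) := Fin.ext rfl

theorem sum_split {M : Type} [AddCommMonoid M] (f : Fin (a + 2 + 1) → M) :
    ∑ l, f l = ∑ l : Fin (a + 1), f (il l) + f (iu 0) + f (iu 1) := by
  rw [Fin.sum_univ_castSucc, Fin.sum_univ_castSucc]
  simp only [il_eq, iu_zero, iu_one]

theorem prod_split {M : Type} [CommMonoid M] (f : Fin (a + 2 + 1) → M) :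
    ∏ l, f l = (∏ l : Fin (a + 1), f (il l)) * f (iu 0) * f (iu 1) := by
  rw [Fin.prod_univ_castSucc, Fin.prod_univ_castSucc]
  simp only [il_eq, iu_zero, iu_one]

theorem cases_l (l : Fin (a + 2 + 1)) : (∃ l' : Fin (a + 1), l = il l') ∨ ∃ s : Fin 2, l = iu s := by
  obtain ⟨l, hl⟩ := l
  by_cases h : l < a + 1
  · exact Or.inl ⟨⟨l, h⟩, Fin.ext rfl⟩
  · refine Or.inr ⟨⟨l - (a + 1), by omega⟩, Fin.ext ?_⟩
    change l = a + 1 + (l - (a + 1))
    omega

theorem omS_em (B : ℕ) (o : Fin b ⊕ Fin 2) : omS e B (some (emS e o)) = CC a B := by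
  cases o with
  | inl i => simp only [omS, emS, Sum.elim_inl, Equiv.symm_apply_apply]
  | inr s =>
    simp only [omS, emS, Sum.elim_inr, Equiv.symm_apply_apply]
    have h1 : ((iu s : Fin (a + 2 + 1)) : ℕ) = a + 1 + (s : ℕ) := rfl
    rw [h1, if_neg (by omega), if_neg (by omega)]

theorem omS_y (B : ℕ) (l : Fin (a + 1)) : omS e B (some (e (Sum.inl (il l)))) =
    B ^ (l : ℕ) + if l = Fin.last a then 0 else CC a B := by
  simp only [omS, Equiv.symm_apply_apply]
  have h1 : ((il l : Fin (a + 2 + 1)) : ℕ) = (l : ℕ) := rfl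
  rw [h1]
  by_cases h : l = Fin.last a
  · subst h
    rw [if_pos rfl, Fin.val_last, if_neg (lt_irrefl _), if_pos rfl, add_zero]
  · have h2 : (l : ℕ) < a := by
      have h3 : (l : ℕ) ≠ a := fun h4 => h (Fin.ext h4)
      have := l.2
      omega
    rw [if_pos h2, if_neg h]

theorem emS_inj : Function.Injective (emS e) := by
  intro o o' h
  have h1 := e.injective h
  cases o with
  | inl i =>
    cases o' with
    | inl j =>
      simp only [Sum.elim_inl] at h1
      rw [Sum.inr_injective h1]
    | inr t => simp at h1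
  | inr s =>
    cases o' with
    | inl j => simp at h1
    | inr t =>
      simp only [Sum.elim_inr] at h1
      have h2 := congrArg Fin.val (Sum.inl_injective h1)
      change a + 1 + (s : ℕ) = a + 1 + (t : ℕ) at h2
      have h3 : s = t := Fin.ext (by omega)
      rw [h3]

/-- forms in `x', u, u'` are homogeneous for the torus -/
theorem em_om_homog {k1 : Type} [Field k1] (B : ℕ) {n : ℕ} {G : MvPolynomial (Fin b ⊕ Fin 2) k1}
    (hG : G.IsHomogeneous n) :
    IsWeightedHomogeneous (omS e B) (rename some (rename (emS e) G)) (n * CC a B) := by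
  classical
  rw [rename_rename]
  have hinj : Function.Injective (some ∘ emS e) := (Option.some_injective V).comp (emS_inj e)
  intro d hd
  have h1 : d ∈ (rename (some ∘ emS e) G).support := mem_support_iff.2 hd
  rw [support_rename_of_injective hinj, Finset.mem_image] at h1
  obtain ⟨u, hu, rfl⟩ := h1
  have h2 : Finsupp.weight (fun _ => 1 : Fin b ⊕ Fin 2 → ℕ) u = n := hG (mem_support_iff.1 hu)
  rw [← h2, Finsupp.weight_apply, Finsupp.weight_apply,
    Finsupp.sum_mapDomain_index (by intro; rw [zero_smul]) (by intro _ m n; rw [add_smul]),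
    Finsupp.sum, Finsupp.sum, Finset.sum_mul]
  apply Finset.sum_congr rfl
  intro i _
  rw [Function.comp_apply, omS_em, smul_eq_mul, smul_eq_mul, mul_one]

/-- the product of the `y` is homogeneous for the torus -/
theorem yexp_om (B : ℕ) : Finsupp.weight (omS e B) (Finsupp.mapDomain some (yexp e)) =
    (a + 3) * CC a B := by
  have h0 : ∀ v : V, Finsupp.mapDomain some (yexp e) (some v) = yexp e v := fun v =>
    Finsupp.mapDomain_apply (Option.some_injective V) _ _
  have hn : Finsupp.mapDomain some (yexp e) (none : Option V) = 0 := by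
    apply Finsupp.mapDomain_of_notMem_range
    rintro ⟨v, hv⟩
    simp at hv
  rw [Finsupp.weight_apply, Finsupp.sum_fintype _ _ (by intro i; rw [zero_smul]),
    Fintype.sum_option, hn, zero_smul, zero_add, ← e.sum_comp, Fintype.sum_sum_type, sum_split]
  simp only [h0, yexp_inl, yexp_inr, zero_smul, one_smul, Finset.sum_const_zero, add_zero, omS_y]
  have h1 : omS e B (some (e (Sum.inl (iu 0)))) = CC a B := omS_em e B (Sum.inr 0)
  have h2 : omS e B (some (e (Sum.inl (iu 1)))) = CC a B := omS_em e B (Sum.inr 1)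
  rw [h1, h2, Finset.sum_add_distrib, Fin.sum_univ_castSucc
    (fun l => if l = Fin.last a then 0 else CC a B), if_pos rfl]
  have h5 : ∀ l : Fin a, (if l.castSucc = Fin.last a then 0 else CC a B) = CC a B := fun l =>
    if_neg (Fin.castSucc_lt_last l).ne
  rw [Finset.sum_congr rfl fun l _ => h5 l, Finset.sum_const, Finset.card_univ, Fintype.card_fin,
    smul_eq_mul]
  unfold CC
  ring

theorem yexp_ne_em (β : Fin b ⊕ Fin 2 →₀ ℕ) : Finsupp.mapDomain (emS e) β ≠ yexp e := by
  intro h
  have h1 := congrArg (fun u => u (e (Sum.inl (il 0)))) h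
  simp only [yexp_inl] at h1
  rw [Finsupp.mapDomain_of_notMem_range] at h1
  · exact zero_ne_one h1
  · rintro ⟨o, ho⟩
    have h2 := e.injective ho
    cases o with
    | inl i => simp at h2
    | inr s =>
      simp only [Sum.elim_inr] at h2
      have h3 := congrArg Fin.val (Sum.inl_injective h2)
      change a + 1 + (s : ℕ) = 0 at h3
      omega

/-- the `x', u, u'`-part of the substituted jet -/
theorem subJ_some {k F : Type} [Field k] [Field F] [Algebra k F] {L : ℕ} (x2 : Option V → Fin L → F)
    (i : Fin b ⊕ Fin 2) : subJ (psiY e k) x2 (some i) = x2 (some (emS e i)) := by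
  funext μ
  change PowerSeries.coeff (μ : ℕ) (ev x2 (X (some (emS e i)) : MvPolynomial (Option V) k)) = _
  rw [ev_X]
  exact coeff_arc _ μ

theorem ev_psiY {k F : Type} [Field k] [Field F] [Algebra k F] {L : ℕ} (x2 : Option V → Fin L → F) :
    ev x2 (psiY e k none) = ∏ l : Fin (a + 1), arc (x2 (some (e (Sum.inl (il l))))) := by
  change ev x2 (∏ l : Fin (a + 1), X (some (e (Sum.inl (il l)))) : MvPolynomial (Option V) k) = _
  unfold ev
  rw [map_prod]
  exact Finset.prod_congr rfl fun l _ => aeval_X _ _

end aux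

theorem stage1_pr (d : Fin 1 → ℕ) {a b : ℕ} (ha : d 0 = a + 3) {V : Type} [Fintype V]
    (e : Fin (a + 2 + 1) ⊕ Fin b ≃ V) (M0 : ℕ) {k : Type} [Field k] [CharZero k]
    (G : Fin 1 → MvPolynomial V k) (hG : Gen d G) {κ : Type} [Field κ] [Algebra k κ] {L : ℕ}
    (x : V → Fin L → κ) (hx : ordL L (ev x (G 0)) = L) :
    ∃ (k' : Type) (_ : Field k') (_ : CharZero k') (G' : MvPolynomial (Fin b ⊕ Fin 2) k')
      (κ' : Type) (_ : Field κ') (_ : Algebra k' κ') (y : W2 b → Fin L → κ')
      (ee : Fin (a + 1) → ℕ),
      Gen d (fun _ => G') ∧ Rel2 k' y G' ∧ (∀ l, ee l ≤ L) ∧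
      ordL L (arc (y none)) = min L (∑ l, ee l) ∧
      tauJ k x + L + (∑ l, ee l - L) ≤ tauJ k' y + (a + 1) * L ∧
      ∀ m ≤ M0, ∀ l ≤ L, Module.finrank k (Fil k x m l) ≤
        Nat.card {δ : V →₀ ℕ // δ.degree + (a + 3) = m} +
        ∑ γ ∈ (Exps (a + 1) m).filter (fun γ => mina γ = 0),
          Module.finrank k' (FM k' y (N2 a b (m - ∑ i, γ i)) (l - ∑ i, γ i * ee i)) := by
  classical
  -- the valuation ring and the special fibre
  obtain ⟨O, GO, hch, G', hG'gen, hGO1, hGO2, hspec⟩ := spec_form d ha e G hG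
  have hG'hom : G'.IsHomogeneous (a + 3) := by
    have h := hG'gen.1 0
    rw [ha] at h
    exact h
  -- the element `s`
  have hyd : (yexp e).degree = d 0 := by rw [yexp_degree, ha]
  obtain ⟨s0, hs0⟩ : ∃ s0 : O, s0 = coeff (yexp e) GO - 1 := ⟨_, rfl⟩
  have hs0r : IsLocalRing.residue O s0 = 0 := by
    have h1 := congrArg (coeff (yexp e)) hspec
    rw [coeff_map, coeff_add, coeff_monomial, if_pos rfl] at h1
    have h2 : coeff (yexp e) (rename (emS e) G') = 0 := by
      apply coeff_rename_eq_zero
      intro u hu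
      exact absurd hu (yexp_ne_em e u)
    rw [h2, zero_add] at h1
    rw [hs0, map_sub, h1, map_one, sub_self]
  obtain ⟨s, hs⟩ : ∃ s : k, s = algebraMap O k s0 := ⟨_, rfl⟩
  have hsne : s ≠ 0 := by
    intro h
    rw [hs, hs0, map_sub, map_one, ← coeff_map, hGO1, sub_eq_zero] at h
    have h1 := hG.2.transcendental ⟨0, yexp e, hyd⟩
    simp only at h1
    rw [h] at h1
    exact h1 isAlgebraic_one
  -- the extended jet
  obtain ⟨xt, hxt1, hxt2⟩ : ∃ xt : Option V → Fin L → κ, (∀ i, xt (some i) = x i) ∧
      ∀ μ : Fin L, xt none μ = algebraMap k κ s⁻¹ * PowerSeries.coeff (μ : ℕ) (ev x (G 0)) :=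
    ⟨fun o => o.elim (fun μ => algebraMap k κ s⁻¹ * PowerSeries.coeff (μ : ℕ) (ev x (G 0))) x,
      fun _ => rfl, fun _ => rfl⟩
  have htau0 : tauJ k x ≤ tauJ k xt := by
    unfold tauJ
    rw [tau_eq, tau_eq]
    have h1 : (fun p : V × Fin L => x p.1 p.2) =
        fun p : V × Fin L => (fun q : Option V × Fin L => xt q.1 q.2) (some p.1, p.2) := by
      funext p
      simp only [hxt1]
    rw [h1]
    exact tau_comp_le (K := k) (fun q : Option V × Fin L => xt q.1 q.2)
      (fun p : V × Fin L => ((some p.1, p.2) : Option V × Fin L))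
  -- the two limits
  obtain ⟨F1, i1, i2, x1, h1, h2⟩ := SLJ (K := k) (IsLocalRing.residue O)
    IsLocalRing.residue_surjective (wO V (a + 2)) (wO_pos V (a + 2)) xt
  obtain ⟨F2, i3, i4, x2, h3, h4⟩ := TIJ (k := IsLocalRing.ResidueField O) (wO V (a + 2))
    (omS e (2 * M0 + 1)) (wO_pos V (a + 2)) x1
  have hωhom : ∀ (P : MvPolynomial (Option V) (IsLocalRing.ResidueField O)) (D χ : ℕ),
      IsWeightedHomogeneous (wO V (a + 2)) P D →
      IsWeightedHomogeneous (omS e (2 * M0 + 1)) P χ →
      ∀ l ≤ L, (PowerSeries.X : PowerSeries F1) ^ l ∣ ev x1 P →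
      (PowerSeries.X : PowerSeries F2) ^ l ∣ ev x2 P := by
    intro P D χ hP1 hP2 l hl hd
    have h5 := h4 P D χ hP1 (fun d hd => (hP2 (mem_support_iff.1 hd)).ge) l hl hd
    rwa [weightedHomogeneousComponent_eq_self hP2] at h5
  -- the relation
  have hrel : (PowerSeries.X : PowerSeries F2) ^ L ∣
      (∏ l : Fin (a + 2 + 1), arc (x2 (yz e (some l)))) + ev (fun i => x2 (some (emS e i))) G' := by
    have h5 := h2 (C s0 * X none - rename some GO) (a + 2 + 1) (by
      apply IsWeightedHomogeneous.sub
      · have := (isWeightedHomogeneous_C (wO V (a + 2)) s0).mul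
          (isWeightedHomogeneous_X O (wO V (a + 2)) none)
        rwa [zero_add] at this
      · exact rename_some_homog hGO2) L le_rfl (by
      have h6 : MvPolynomial.map (algebraMap O k) (C s0 * X none - rename some GO) =
          Phi s (G 0) := by
        unfold Phi
        rw [map_sub, map_mul, map_C, map_X, MvPolynomial.map_rename, hGO1, hs]
      rw [h6]
      exact Phi_dvd s hsne (G 0) x xt hxt1 hxt2)
    have h6 : MvPolynomial.map (IsLocalRing.residue O) (C s0 * X none - rename some GO) =
        -(rename some (rename (emS e) G') + rename some (monomial (yexp e) 1)) := by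
      rw [map_sub, map_mul, map_C, map_X, MvPolynomial.map_rename, hs0r, C_0, zero_mul, zero_sub,
        hspec, map_add]
    rw [h6] at h5
    have h7 : (PowerSeries.X : PowerSeries F1) ^ L ∣
        ev x1 (rename some (rename (emS e) G') + rename some (monomial (yexp e) 1)) := by
      have : ev x1 (-(rename some (rename (emS e) G') + rename some (monomial (yexp e) 1))) =
          -ev x1 (rename some (rename (emS e) G') + rename some (monomial (yexp e) 1)) := by
        unfold ev
        rw [map_neg]
      rw [this, dvd_neg] at h5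
      exact h5
    have h8 := hωhom (rename some (rename (emS e) G') + rename some (monomial (yexp e) 1))
      (a + 2 + 1) ((a + 3) * CC a (2 * M0 + 1)) (by
        apply IsWeightedHomogeneous.add
        · exact rename_some_homog hG'hom.rename_isHomogeneous
        · apply rename_some_homog
          rw [← yexp_degree e]
          exact isHomogeneous_monomial _ rfl) (by
        apply IsWeightedHomogeneous.add
        · exact em_om_homog e _ hG'hom
        · rw [rename_monomial]
          apply isWeightedHomogeneous_monomial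
          exact yexp_om e _) L le_rfl h7
    rw [ev_add, ev_yexp, add_comm, ev_rename, ev_rename] at h8
    exact h8
  -- the jet `(x', u, u', Y)`
  obtain ⟨y, hy⟩ : ∃ y : W2 b → Fin L → F2, y = subJ (psiY e (IsLocalRing.ResidueField O)) x2 :=
    ⟨_, rfl⟩
  have hysome : ∀ i, y (some i) = x2 (some (emS e i)) := by
    intro i
    rw [hy]
    exact subJ_some e x2 i
  have hynone : (PowerSeries.X : PowerSeries F2) ^ L ∣
      arc (y none) - ∏ l : Fin (a + 1), arc (x2 (some (e (Sum.inl (il l))))) := by
    rw [hy, ← ev_psiY (k := IsLocalRing.ResidueField O) e x2]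
    exact arc_subJ (psiY e (IsLocalRing.ResidueField O)) x2 none
  have hz : ordL L (arc (x2 none)) = L := by
    apply le_antisymm (ordL_le _ _)
    rw [← dvd_iff_le_ordL le_rfl]
    have h5 := h2 (X none) (a + 2 + 1) (isWeightedHomogeneous_X O (wO V (a + 2)) none) L le_rfl (by
        rw [map_X, ev_X, PowerSeries.X_pow_dvd_iff]
        intro μ hμL
        have h6 := coeff_arc (xt none) ⟨μ, hμL⟩
        simp only at h6
        rw [h6, hxt2]
        have h8 := ordL_dvd L (ev x (G 0))
        rw [hx] at h8
        have h7 := (PowerSeries.X_pow_dvd_iff.1 h8) μ hμL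
        simp only
        rw [h7, mul_zero])
    rw [map_X] at h5
    have h6 := hωhom (X none) (a + 2 + 1) (omS e (2 * M0 + 1) none)
      (isWeightedHomogeneous_X _ (wO V (a + 2)) none) (isWeightedHomogeneous_X _ _ none) L le_rfl h5
    rw [ev_X] at h6
    exact h6
  refine ⟨IsLocalRing.ResidueField O, inferInstance, hch, G', F2, i3, i4, y,
    fun l => ordL L (arc (x2 (some (e (Sum.inl (il l)))))), hG'gen, ?_, fun l => ordL_le _ _,
    ?_, ?_, ?_⟩
  · -- the relation
    unfold Rel2
    rw [prod_split] at hrel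
    have h5 : (fun i => y (some i)) = fun i => x2 (some (emS e i)) := funext hysome
    rw [h5, hysome, hysome]
    have h6 : arc (x2 (yz e (some (iu 0)))) = arc (x2 (some (emS e (Sum.inr 0)))) := rfl
    have h7 : arc (x2 (yz e (some (iu 1)))) = arc (x2 (some (emS e (Sum.inr 1)))) := rfl
    have h8 : (∏ l : Fin (a + 1), arc (x2 (yz e (some (il l))))) =
        ∏ l : Fin (a + 1), arc (x2 (some (e (Sum.inl (il l))))) := rfl
    rw [h6, h7, h8] at hrel
    have h9 := dvd_add (hynone.mul_left (arc (x2 (some (emS e (Sum.inr 0)))) *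
      arc (x2 (some (emS e (Sum.inr 1)))))) hrel
    refine h9.trans (dvd_of_eq ?_)
    ring
  · have h5 := ordL_congr hynone
    rw [h5, ordL_prod]
  · have h5 := tau_torus (k := IsLocalRing.ResidueField O) x2
      (fun o : Option (Fin (a + 1)) => x2 (o.map fun l => e (Sum.inl (il l)))) y (by
        intro o
        cases o with
        | none => exact Or.inl ⟨none, rfl⟩
        | some v =>
          rcases h : e.symm v with l | i
          · rcases cases_l l with ⟨l', rfl⟩ | ⟨s, rfl⟩
            · left
              refine ⟨some l', ?_⟩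
              rw [Option.map_some, ← h, Equiv.apply_symm_apply]
            · right
              refine ⟨some (Sum.inr s), ?_⟩
              rw [hysome]
              unfold emS
              rw [Sum.elim_inr, ← h, Equiv.apply_symm_apply]
          · right
            refine ⟨some (Sum.inl i), ?_⟩
            rw [hysome]
            unfold emS
            rw [Sum.elim_inl, ← h, Equiv.apply_symm_apply]) (-X none) (by
        have h6 : ev y (-X none : MvPolynomial (W2 b) (IsLocalRing.ResidueField O)) =
            -arc (y none) := by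
          have h7 := ev_X (k := IsLocalRing.ResidueField O) y none
          unfold ev at h7 ⊢
          rw [map_neg, h7]
        rw [h6, ← sub_eq_add_neg, ← dvd_neg, neg_sub]
        exact hynone)
    have h7 := htau0.trans (h1.trans h3)
    simp only [Option.map_none, Option.map_some] at h5 ⊢
    rw [hz] at h5
    omega
  · intro m hm l hl
    have i5 : Finite (Mset V (a + 2) m) := Mset_finite m
    have h5 := e1 s hsne (G 0) (by have h := hG.1 0; rw [ha] at h; exact h) x xt hxt1 hxt2 m l hl
    have h6 := FM_special (IsLocalRing.residue O) (wO V (a + 2)) xt x1 h2 (Mset V (a + 2) m) m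
      (fun d hd => hd) l hl
    have h7 := e3 (k := IsLocalRing.ResidueField O) e x1 m l
    have h8 := class_le (k := IsLocalRing.ResidueField O) e M0 x1 x2 h4 m l hm hl
    have h9 := Nset_card e m
    rw [h9, ← hy] at h8
    simp only
    omega


end Pool.Agent.KSYP.AP

alias Pool.Agent.KSY.stage1 := Pool.Agent.KSYP.AP.stage1_pr
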