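import Pool.Agent.Lib_helper80.KSY.Defs
import Pool.Agent.Lib_helper80.KSYF.AD
import Pool.Agent.Lib_helper80.KSYF.AG
import Pool.Agent.Lib_helper80.KSYF.AK
import Pool.Agent.Lib_helper80.KSYF.AL
import Pool.Agent.Lib_helper80.KSYF.AO
import Pool.Agent.Lib_helper80.KSYF.AP

/-!
# Block AQ of project KSY: `two_path`
-/

set_option autoImplicit false

namespace Pool.Agent.KSYP.AQ

open MvPolynomial Pool.Agent.KSS Pool.Agent.KSX Pool.Agent.KSY Pool.Agent.Lib_helper56.KSS Filter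
  Topology
open Pool.Agent.Lib_helper80.KSX (subJ)

theorem ordL_mul_le {κ : Type} [Field κ] (L : ℕ) (f g : PowerSeries κ) :
    ordL L (f * g) ≤ ordL L f + ordL L g := by
  have h := ordL_prod (Finset.univ : Finset (Fin 2)) L (fun i => if i = 0 then f else g)
  simp only [Fin.prod_univ_two, Fin.sum_univ_two] at h
  rw [if_pos trivial, if_neg (by decide)] at h
  rw [h]
  exact min_le_right _ _

theorem fil_anti {k κ V : Type} [Field k] [Field κ] [Algebra k κ] [Finite V] {L : ℕ}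
    (x : V → Fin L → κ) (m : ℕ) {l l' : ℕ} (h : l ≤ l') :
    Module.finrank k (Fil k x m l') ≤ Module.finrank k (Fil k x m l) := by
  have h1 : Module.Finite k (Fil k x m l) := by
    rw [Fil_eq]
    have : Finite {d : V →₀ ℕ | d.degree = m} := degree_finite m
    exact FM_finite x _ l
  apply Submodule.finrank_mono
  rintro F ⟨h2, h3⟩
  exact ⟨h2, (pow_dvd_pow _ h).trans h3⟩

/-- (AQ) both paths, for records -/
theorem two_path_pr (d : Fin 1 → ℕ) (a b : ℕ) (ha : d 0 = a + 3) (M0 : ℕ) (R : Rec 1)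
    (hR : R.Of d (b + a + 3)) (hg : R.g 0 = R.L) :
    ∃ (F2 F31 F32 : ℕ → ℕ → ℕ) (T2 oY o0 o1 : ℕ) (e : Fin (a + 1) → ℕ) (P R1 Pb1 R2 Pb2 : Rec 1)
      (eu1 eo1 eY1 eZ1 eu2 eo2 eY2 eZ2 : ℕ), Stg d a b M0 R F2 T2 oY e ∧
      Path d a b R.L T2 oY o1 F2 F31 R1 Pb1 eu1 eo1 eY1 eZ1 ∧
      Path d a b R.L T2 oY o0 F2 F32 R2 Pb2 eu2 eo2 eY2 eZ2 ∧
      P.Of d (b + 2) ∧ P.L = R.L ∧ T2 ≤ P.τ + o0 + o1 ∧
      Star a R.L F2 F32 P Pb1 (eY1 + eu1) eY2 := by
  classical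
  obtain ⟨k, _, _, G, κ, _, _, x, hG, htau, hfil, hgg, hc0⟩ := hR
  have e0 : Fin (a + 2 + 1) ⊕ Fin b ≃ Fin (b + a + 3) :=
    finSumFinEquiv.trans (finCongr (by omega))
  have hx : ordL R.L (ev x (G 0)) = R.L := by rw [hgg 0, hg]
  obtain ⟨k', _, _, G', κ', _, _, y, ee, hG', hrel, hee, hoY, hta, hfi⟩ :=
    stage1 d ha e0 M0 G hG x hx
  obtain ⟨Fa, _, _, y1, R1, Pb1, eu1, eo1, eY1, eZ1, hT1, hP1, hY1, hu1, hf1⟩ :=
    path_core d ha y G' hG' hrel 1
  obtain ⟨Fb, _, _, y0, R2, Pb2, eu2, eo2, eY2, eZ2, hT2, hP2, hY2, hu2, hf2⟩ :=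
    path_core d ha y G' hG' hrel 0
  obtain ⟨P, hP, hPL, hPτ, hPf, hPg⟩ := rec_of d (finSumFinEquiv : Fin b ⊕ Fin 2 ≃ Fin (b + 2))
    (fun _ => G') hG' (fun i => y (some i))
  refine ⟨fun m l => Module.finrank k' (FM k' y (N2 a b m) l),
    fun m l => Module.finrank k' (FM k' (subJ (psi k' b 1) y1) (N3 a b m) l),
    fun m l => Module.finrank k' (FM k' (subJ (psi k' b 0) y0) (N3 a b m) l),
    tauJ k' y, ordL R.L (arc (y none)), ordL R.L (arc (y (some (Sum.inr 0)))),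
    ordL R.L (arc (y (some (Sum.inr 1)))), ee, P, R1, Pb1, R2, Pb2, eu1, eo1, eY1, eZ1,
    eu2, eo2, eY2, eZ2, ?_, hP1, hP2, hP, hPL, ?_, ?_⟩
  · refine ⟨hee, hoY, ?_, ?_⟩
    · rw [← htau]
      exact hta
    · intro m hm l _ hl
      have h1 := hfi m hm l hl
      rw [hfil m l hl] at h1
      have h2 := Nset_NN d (b := b) ha m
      have h3 : (R.fil m l : ℤ) ≤
          (Nat.card {δ : Fin (b + a + 3) →₀ ℕ // δ.degree + (a + 3) = m} : ℤ) +
          ∑ γ ∈ (Exps (a + 1) m).filter (fun γ => mina γ = 0),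
            (Module.finrank k' (FM k' y (N2 a b (m - ∑ i, γ i)) (l - ∑ i, γ i * ee i)) : ℤ) := by
        exact_mod_cast h1
      rw [h2] at h3
      exact h3
  · rw [hPτ]
    have h1 := tau_last y (X (Sum.inr 0) * X (Sum.inr 1)) G' (by
      rw [ev_mul, ev_X, ev_X]
      exact hrel)
    rw [ev_mul, ev_X, ev_X] at h1
    have h2 := ordL_mul_le R.L (arc (y (some (Sum.inr 0)))) (arc (y (some (Sum.inr 1))))
    omega
  · intro m l hl
    have h1 := F2_star y y1 y0 hT1 hT2 m l hl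
    simp only
    rw [hPf m l]
    refine h1.trans (add_le_add (add_le_add le_rfl ?_) ?_)
    · apply Finset.sum_le_sum
      intro c _
      rw [hf1]
      apply fil_anti
      have h2 : (Fin.rev (1 : Fin 2)) = 0 := by decide
      rw [h2] at hu1
      have h3 : c * (ordL R.L (arc (y1 none)) + ordL R.L (arc (y1 (some (Sum.inr 0))))) ≤
          c * (eY1 + eu1) := by
        apply Nat.mul_le_mul_left
        omega
      omega
    · apply Finset.sum_le_sum
      intro c _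
      rw [hY2]


end Pool.Agent.KSYP.AQ

alias Pool.Agent.KSY.two_path := Pool.Agent.KSYP.AQ.two_path_pr
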