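import Pool.Agent.Lib_helper80.KSY.Defs

/-! KSY, block AR: numbers of `TorusOut` -/

set_option autoImplicit false
set_option linter.unusedVariables false

namespace Pool.Agent.KSYP.AR

open Pool.Agent.KSY

theorem ar_sum (a : ℕ) (e : Fin (a + 1) → ℕ) (eu eo eY eZ t : ℕ) :
    ∑ i ∈ Finset.range (a + 3), eh a e eu eo eY eZ t i =
      eu + (eo + t) + ((eY - ∑ l, e l) + ((eZ - (eo + eY)) - t)) + ∑ l, e l := by
  rw [Finset.sum_range_succ', Finset.sum_range_succ', Finset.sum_range_succ']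
  have h1 : ∀ i ∈ Finset.range a, eh a e eu eo eY eZ t (i + 1 + 1 + 1) =
      if h : i + 1 < a + 1 then e ⟨i + 1, h⟩ else 0 := by
    intro i hi
    rw [Finset.mem_range] at hi
    have h2 : i + 1 + 1 + 1 - 2 = i + 1 := by omega
    unfold eh
    rw [if_neg (by omega), if_neg (by omega), if_neg (by omega)]
    simp only [h2]
  rw [Finset.sum_congr rfl h1]
  have h3 : ∑ i ∈ Finset.range a, (if h : i + 1 < a + 1 then e ⟨i + 1, h⟩ else 0) =
      ∑ i : Fin a, e i.succ := by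
    rw [← Fin.sum_univ_eq_sum_range (fun i => if h : i + 1 < a + 1 then e ⟨i + 1, h⟩ else 0) a]
    refine Finset.sum_congr rfl fun i _ => ?_
    rw [dif_pos (by have := i.2; omega)]
    rfl
  rw [h3, Fin.sum_univ_succ e]
  have h0 : eh a e eu eo eY eZ t 0 = eu := by simp [eh]
  have h4 : eh a e eu eo eY eZ t (0 + 1) = eo + t := by simp [eh]
  have h5 : eh a e eu eo eY eZ t (0 + 1 + 1) = e 0 + (eY - ∑ l, e l) +
      ((eZ - (eo + eY)) - t) := by simp [eh]
  rw [h0, h4, h5, Fin.sum_univ_succ e]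
  omega

/-- (AR) numbers of `TorusOut` -/
theorem eh_facts_pr {a L T2 oY eu eo eY eZ t τ τ1 : ℕ} {e : Fin (a + 1) → ℕ} (he : ∀ l, e l ≤ L)
    (hY : oY = min L (∑ l, e l)) (hτ : τ + L + (∑ l, e l - L) ≤ T2 + (a + 1) * L)
    (h1 : eu ≤ L) (h2 : eo ≤ L) (h3 : eY ≤ L) (h4 : eZ ≤ L) (h5 : min L (eo + eY) ≤ eZ)
    (h6 : oY ≤ eY) (h7 : T2 + (eo + eY - L) + (eu + eZ - L) ≤ τ1 + 2 * L)
    (ht : t ≤ eZ - (eo + eY)) :
    (∀ i < a + 3, eh a e eu eo eY eZ t i ≤ L) ∧
      min L (eu + eZ) = min L (∑ i ∈ Finset.range (a + 3), eh a e eu eo eY eZ t i) ∧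
      τ + L + (∑ i ∈ Finset.range (a + 3), eh a e eu eo eY eZ t i - L) ≤ τ1 + (a + 3) * L := by
  have h0 : e 0 ≤ ∑ l, e l := Finset.single_le_sum (fun l _ => Nat.zero_le _) (Finset.mem_univ _)
  have h00 := he 0
  rw [ar_sum]
  have e1 : (a + 1) * L = a * L + L := by ring
  have e3 : (a + 3) * L = a * L + 3 * L := by ring
  rw [e1] at hτ
  rw [e3]
  refine ⟨fun i hi => ?_, ?_, ?_⟩
  · unfold eh
    split_ifs with c0 c1 c2 c3
    · exact h1
    · omega
    · generalize ∑ l, e l = E at *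
      omega
    · exact he _
    · exact Nat.zero_le _
  · generalize ∑ l, e l = E at *
    omega
  · generalize ∑ l, e l = E at *
    generalize a * L = B at *
    omega

end Pool.Agent.KSYP.AR

alias Pool.Agent.KSY.eh_facts := Pool.Agent.KSYP.AR.eh_facts_pr
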