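import Pool.Agent.Lib_helper80.KSY.Defs
import Pool.Agent.Lib_helper77.KSZ.XNTB
import Pool.Agent.Lib_helper77.KSZ.XNTX

/-!
# Block AS (project KSY): order of a monomial at the end of the path
-/

set_option autoImplicit false

namespace Pool.Agent.KSYP.AS

open Pool.Agent.KSY
open MvPolynomial Pool.Agent.KSS Pool.Agent.KSX Pool.Agent.Lib_helper56.KSS Filter Topology
open Pool.Agent.Lib_helper80.KSX (subJ)

theorem nest {A X : Type} (S : Finset A) (T2 : A → Finset ℕ) (T3 : A → ℕ → Finset ℕ)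
    (T : Finset X) (f : A → ℕ → ℕ → ℕ) (g : X → ℕ) (φ : A → ℕ → ℕ → X)
    (hm : ∀ a ∈ S, ∀ b ∈ T2 a, ∀ c ∈ T3 a b, φ a b c ∈ T)
    (hi : ∀ a ∈ S, ∀ b c, ∀ a' ∈ S, ∀ b' c', φ a b c = φ a' b' c' → a = a' ∧ b = b' ∧ c = c')
    (hf : ∀ a ∈ S, ∀ b ∈ T2 a, ∀ c ∈ T3 a b, f a b c ≤ g (φ a b c)) :
    ∑ a ∈ S, ∑ b ∈ T2 a, ∑ c ∈ T3 a b, f a b c ≤ ∑ x ∈ T, g x := by
  classical
  have e1 : ∑ a ∈ S, ∑ b ∈ T2 a, ∑ c ∈ T3 a b, f a b c =
      ∑ p ∈ S.sigma T2, ∑ c ∈ T3 p.1 p.2, f p.1 p.2 c := by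
    rw [Finset.sum_sigma]
  have e2 : ∑ p ∈ S.sigma T2, ∑ c ∈ T3 p.1 p.2, f p.1 p.2 c =
      ∑ q ∈ (S.sigma T2).sigma (fun p => T3 p.1 p.2), f q.1.1 q.1.2 q.2 :=
    (Finset.sum_sigma (S.sigma T2) (fun p => T3 p.1 p.2) (fun q => f q.1.1 q.1.2 q.2)).symm
  rw [e1, e2]
  calc ∑ q ∈ (S.sigma T2).sigma (fun p => T3 p.1 p.2), f q.1.1 q.1.2 q.2
      ≤ ∑ q ∈ (S.sigma T2).sigma (fun p => T3 p.1 p.2), g (φ q.1.1 q.1.2 q.2) := by
        refine Finset.sum_le_sum fun q hq => ?_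
        rw [Finset.mem_sigma, Finset.mem_sigma] at hq
        exact hf _ hq.1.1 _ hq.1.2 _ hq.2
    _ = ∑ x ∈ ((S.sigma T2).sigma (fun p => T3 p.1 p.2)).image
          (fun q => φ q.1.1 q.1.2 q.2), g x := by
        rw [Finset.sum_image]
        rintro ⟨⟨a, b⟩, c⟩ hq ⟨⟨a', b'⟩, c'⟩ hq' h
        rw [Finset.mem_coe, Finset.mem_sigma, Finset.mem_sigma] at hq hq'
        obtain ⟨h1, h2, h3⟩ := hi a hq.1.1 b c a' hq'.1.1 b' c' h
        subst h1 h2 h3
        rfl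
    _ ≤ ∑ x ∈ T, g x := by
        refine Finset.sum_le_sum_of_subset ?_
        intro x hx
        rw [Finset.mem_image] at hx
        obtain ⟨q, hq, rfl⟩ := hx
        rw [Finset.mem_sigma, Finset.mem_sigma] at hq
        exact hm _ hq.1.1 _ hq.1.2 _ hq.2

theorem mina_zero {n : ℕ} (α : Fin (n + 1) → ℕ) : mina α = 0 ↔ ∃ i, α i = 0 := by
  constructor
  · intro h
    obtain ⟨i, hi⟩ := ntx_mina_mem (Nat.le_add_left 1 n) α
    exact ⟨i, by omega⟩
  · rintro ⟨i, hi⟩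
    have := ntx_mina_le α i
    omega

theorem mina_add {n : ℕ} (γ : Fin (n + 1) → ℕ) (h : mina γ = 0) (k : ℕ) :
    mina (fun i => γ i + k) = k := by
  obtain ⟨i, hi⟩ := (mina_zero γ).1 h
  have h1 : mina (fun i => γ i + k) ≤ γ i + k := ntx_mina_le (fun i => γ i + k) i
  obtain ⟨j, hj⟩ := ntx_mina_mem (Nat.le_add_left 1 n) (fun i => γ i + k)
  omega

theorem add_inj {n : ℕ} {γ γ' : Fin (n + 1) → ℕ} (h : mina γ = 0) (h' : mina γ' = 0) {k k' : ℕ}
    (e : ∀ i, γ i + k = γ' i + k') : γ = γ' ∧ k = k' := by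
  obtain ⟨i, hi⟩ := (mina_zero γ).1 h
  obtain ⟨j, hj⟩ := (mina_zero γ').1 h'
  have h1 := e i
  have h2 := e j
  have h3 : k = k' := by omega
  refine ⟨?_, h3⟩
  funext l
  have h4 := e l
  omega

/-- exponents from the three parts -/
def co {a : ℕ} (x y : ℕ) (z : Fin (a + 1) → ℕ) : Fin (a + 3) → ℕ :=
  Fin.cons (n := a + 2) (α := fun _ => ℕ) x (Fin.cons (n := a + 1) (α := fun _ => ℕ) y z)

theorem co_zero {a : ℕ} (x y : ℕ) (z : Fin (a + 1) → ℕ) : co x y z 0 = x := rfl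

theorem co_one {a : ℕ} (x y : ℕ) (z : Fin (a + 1) → ℕ) : co x y z (Fin.succ 0) = y := rfl

theorem co_succ {a : ℕ} (x y : ℕ) (z : Fin (a + 1) → ℕ) (i : Fin (a + 1)) :
    co x y z i.succ.succ = z i := rfl

theorem co_inj {a x y x' y' : ℕ} {z z' : Fin (a + 1) → ℕ} (h : co x y z = co x' y' z') :
    x = x' ∧ y = y' ∧ z = z' := by
  refine ⟨congrFun h 0, congrFun h (Fin.succ 0), ?_⟩
  funext i
  exact congrFun h i.succ.succ

theorem co_sum {a : ℕ} (x y : ℕ) (z : Fin (a + 1) → ℕ) :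
    ∑ i, co x y z i = x + y + ∑ i, z i := by
  rw [Fin.sum_univ_succ, Fin.sum_univ_succ, ← add_assoc]
  rfl

/-- the minimum of the last part -/
noncomputable def mu {a : ℕ} (α : Fin (a + 3) → ℕ) : ℕ :=
  mina (fun i : Fin (a + 1) => α i.succ.succ)

theorem mu_co {a : ℕ} (x y : ℕ) (z : Fin (a + 1) → ℕ) : mu (co x y z) = mina z := rfl

theorem mina_of_mu {a : ℕ} {α : Fin (a + 3) → ℕ} (h : mu α = 0 ∨ α 0 = 0 ∨ α (Fin.succ 0) = 0) :
    mina α = 0 := by
  rw [mina_zero]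
  rcases h with h | h | h
  · obtain ⟨i, hi⟩ := (mina_zero _).1 h
    exact ⟨i.succ.succ, hi⟩
  · exact ⟨0, h⟩
  · exact ⟨Fin.succ 0, h⟩

theorem eh_add {a : ℕ} (e : Fin (a + 1) → ℕ) (eu eo eY eZ t : ℕ) (i : Fin (a + 1)) :
    eh a e eu eo eY eZ t ((i.succ.succ : Fin (a + 3)) : ℕ) =
      e i + (if i = 0 then (eY - ∑ l, e l) + ((eZ - (eo + eY)) - t) else 0) := by
  have h1 : ((i.succ.succ : Fin (a + 3)) : ℕ) = (i : ℕ) + 2 := by simp
  rw [h1]
  unfold eh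
  rw [if_neg (by omega), if_neg (by omega)]
  by_cases h : (i : ℕ) = 0
  · have h2 : i = 0 := Fin.ext h
    rw [if_pos (by omega), if_pos h2, h2]
    omega
  · have h2 : i ≠ 0 := fun h3 => h (by rw [h3]; rfl)
    have h4 : (i : ℕ) + 2 - 2 < a + 1 := by have := i.2; omega
    rw [if_neg (by omega), dif_pos h4, if_neg h2, add_zero]
    congr 1

theorem wt_co {a : ℕ} (e : Fin (a + 1) → ℕ) (eu eo eY eZ t L x y : ℕ) (z : Fin (a + 1) → ℕ)
    (h : mina (co x y z) = 0) :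
    wt (fun l : Fin (a + 3) => eh a e eu eo eY eZ t (l : ℕ)) L (co x y z) =
      x * eu + y * (eo + t) + ∑ i, z i * e i +
        z 0 * ((eY - ∑ l, e l) + ((eZ - (eo + eY)) - t)) := by
  unfold wt
  rw [h, zero_mul, add_zero, Fin.sum_univ_succ, Fin.sum_univ_succ, Nat.sub_zero, Nat.sub_zero,
    co_zero, co_one]
  have e0 : eh a e eu eo eY eZ t (((0 : Fin (a + 3)) : Fin (a + 3)) : ℕ) = eu := by
    simp [eh]
  have e1 : eh a e eu eo eY eZ t ((Fin.succ 0 : Fin (a + 3)) : ℕ) = eo + t := by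
    simp [eh]
  have e2 : ∑ i : Fin (a + 1), (co x y z i.succ.succ - 0) *
      eh a e eu eo eY eZ t ((i.succ.succ : Fin (a + 3)) : ℕ) =
      ∑ i, z i * e i + z 0 * ((eY - ∑ l, e l) + ((eZ - (eo + eY)) - t)) := by
    have e3 : ∀ i : Fin (a + 1), (co x y z i.succ.succ - 0) *
      eh a e eu eo eY eZ t ((i.succ.succ : Fin (a + 3)) : ℕ) = z i * e i +
        (if i = 0 then z i * ((eY - ∑ l, e l) + ((eZ - (eo + eY)) - t)) else 0) := by
      intro i
      rw [eh_add, co_succ, Nat.sub_zero, mul_add]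
      split_ifs <;> simp
    rw [Finset.sum_congr rfl fun i _ => e3 i, Finset.sum_add_distrib, Finset.sum_ite_eq']
    simp
  dsimp only
  rw [e0, e1, e2]
  ring

theorem fil_path_pr (d : Fin 1 → ℕ) {a b M0 : ℕ} (ha : d 0 = a + 3) (hb : 1 ≤ b) (R : Rec 1)
    {F2 F3 : ℕ → ℕ → ℕ} {T2 oY oo : ℕ} {e : Fin (a + 1) → ℕ} {R1 Pb : Rec 1}
    {eu eo eY eZ t : ℕ} (hS : Stg d a b M0 R F2 T2 oY e)
    (hP : Path d a b R.L T2 oY oo F2 F3 R1 Pb eu eo eY eZ) (ht : t ≤ eZ - (eo + eY)) :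
    ∀ m ≤ M0, ∀ l, 1 ≤ l → l ≤ R.L →
      R.fil m l ≤ ∑ α ∈ Exps (d 0) m, R1.fil (m - ∑ i, α i)
        (l - wt (fun l : Fin (d 0) => eh a e eu eo eY eZ t (l : ℕ)) R.L α) := by
  classical
  intro m hm l hl1 hl
  have hd : ∀ i, 1 ≤ d i := by
    intro i
    rw [Subsingleton.elim i 0, ha]
    omega
  have hBas : Bas d b R1 := bas_rec_pr d hd b hb R1 hP.ofR
  have hanti : ∀ m l l', l ≤ l' → l' ≤ R.L → R1.fil m l' ≤ R1.fil m l := by
    intro m l l' h1 h2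
    exact hBas.anti m l l' h1 (by rw [hP.LR]; exact h2)
  -- the numbers of monomials
  have hNN := ntb_conv_NN d (d 0) (b + a + 3) (by omega) m
  have hNB := ntb_conv_B d hd (b + a + 3) Finset.univ 0 (Finset.mem_univ 0) (by omega) m
  have hb' : b + a + 3 - d 0 = b := by omega
  have herase : (Finset.univ : Finset (Fin 1)).erase 0 = ∅ := by decide
  rw [hb'] at hNN hNB
  rw [herase] at hNB
  rw [ha] at hNN hNB ⊢
  set E := Exps (a + 3) m with hE
  set g : (Fin (a + 3) → ℕ) → ℕ := fun α => R1.fil (m - ∑ i, α i)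
    (l - wt (fun l : Fin (a + 3) => eh a e eu eo eY eZ t (l : ℕ)) R.L α) with hg
  have hNB' : NN d (b + a + 3) Finset.univ m = ∑ α ∈ E, (if mina α = 0 then 1 else 0) *
      NN d b ∅ (m - ∑ i, α i) := by
    have h1 : ((NN d (b + a + 3) Finset.univ m : ℤ) : ℝ) =
      ((∑ α ∈ E, (if mina α = 0 then 1 else 0) * NN d b ∅ (m - ∑ i, α i) : ℤ) : ℝ) := by
      rw [hNB]
      push_cast
      rfl
    exact_mod_cast h1
  have hP0 : (NN d (b + a + 3) ∅ m - NN d (b + a + 3) Finset.univ m : ℤ) =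
      ((∑ α ∈ E.filter (fun α => 1 ≤ mina α), g α : ℕ) : ℤ) := by
    rw [← hNN, hNB', ← Finset.sum_sub_distrib, Finset.sum_filter]
    push_cast
    refine Finset.sum_congr rfl fun α _ => ?_
    by_cases h1 : mina α = 0
    · rw [if_pos h1, if_neg (by omega)]
      ring
    · rw [if_neg h1, if_pos (by omega), zero_mul, sub_zero]
      have h2 : l - wt (fun l : Fin (a + 3) => eh a e eu eo eY eZ t (l : ℕ)) R.L α = 0 := by
        unfold wt
        have h3 : R.L ≤ mina α * R.L := Nat.le_mul_of_pos_left _ (by omega)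
        omega
      rw [hg]
      dsimp only
      rw [h2]
      exact (hBas.full _ 0 (Nat.zero_le _) (Nat.zero_le _)).symm
  -- the four classes
  set S := (Exps (a + 1) m).filter (fun γ => mina γ = 0) with hS'
  have hSm : ∀ γ ∈ S, ∑ i, γ i ≤ m ∧ mina γ = 0 := by
    intro γ hγ
    rw [hS', Finset.mem_filter, ntb_Exps] at hγ
    exact hγ
  set s := ∑ i, e i with hs
  set Kx := (eY - s) + ((eZ - (eo + eY)) - t) with hK
  have hK1 : eY ≤ s + Kx := by omega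
  have hK2 : eZ ≤ eo + t + (s + Kx) := by omega
  have hsum : ∀ (γ : Fin (a + 1) → ℕ) (k : ℕ), ∑ i, (γ i + k) = ∑ i, γ i + (a + 1) * k := by
    intro γ k
    rw [Finset.sum_add_distrib]
    simp
  have hsume : ∀ (γ : Fin (a + 1) → ℕ) (k : ℕ), ∑ i, (γ i + k) * e i = ∑ i, γ i * e i + k * s := by
    intro γ k
    rw [hs, Finset.mul_sum, ← Finset.sum_add_distrib]
    exact Finset.sum_congr rfl fun i _ => by ring
  have key : ∀ (α : Fin (a + 3) → ℕ) (M l' : ℕ), M = m - ∑ i, α i → l' ≤ l →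
      l - wt (fun l : Fin (a + 3) => eh a e eu eo eY eZ t (l : ℕ)) R.L α ≤ l' →
      R1.fil M l' ≤ g α := by
    intro α M l' h1 h2 h3
    rw [h1]
    exact hanti _ _ _ h3 (h2.trans hl)
  have C1 : ∑ γ ∈ S, ∑ c ∈ Finset.range (m - ∑ i, γ i + 1),
      ∑ i ∈ Finset.range (m - ∑ i, γ i - c + 1),
        R1.fil (m - ∑ i, γ i - c - i) (l - ∑ i, γ i * e i - c * eo - i * eu) ≤
      ∑ α ∈ E.filter (fun α => mu α = 0), g α := by
    refine nest S _ _ _ _ _ (fun γ c i => co i c γ) ?_ ?_ ?_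
    · intro γ hγ c hc i hi
      obtain ⟨h1, h2⟩ := hSm γ hγ
      rw [Finset.mem_range] at hc hi
      rw [Finset.mem_filter, hE, ntb_Exps, co_sum, mu_co]
      exact ⟨by omega, h2⟩
    · intro γ _ c i γ' _ c' i' h
      obtain ⟨h1, h2, h3⟩ := co_inj h
      exact ⟨h3, h2, h1⟩
    · intro γ hγ c hc i hi
      obtain ⟨h1, h2⟩ := hSm γ hγ
      have h3 : mina (co i c γ) = 0 := mina_of_mu (Or.inl (by rw [mu_co]; exact h2))
      refine key _ _ _ ?_ (by omega) ?_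
      · rw [co_sum]; omega
      · rw [wt_co e eu eo eY eZ t R.L i c γ h3, ← hs, ← hK]
        have h4 : c * eo ≤ c * (eo + t) := Nat.mul_le_mul_left c (by omega)
        omega
  have C2 : ∑ γ ∈ S, ∑ c ∈ Finset.range (m - ∑ i, γ i + 1),
      ∑ k ∈ (Finset.Icc 1 (m - ∑ i, γ i - c)).filter (fun k => (a + 2) * k ≤ m - ∑ i, γ i - c),
        R1.fil (m - ∑ i, γ i - c - (a + 2) * k) (l - ∑ i, γ i * e i - c * eo - k * eZ) ≤
      ∑ α ∈ E.filter (fun α => 1 ≤ mu α ∧ α 0 = 0 ∧ mu α ≤ α (Fin.succ 0)), g α := by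
    refine nest S _ _ _ _ _ (fun γ c k => co 0 (c + k) (fun i => γ i + k)) ?_ ?_ ?_
    · intro γ hγ c hc k hk
      obtain ⟨h1, h2⟩ := hSm γ hγ
      rw [Finset.mem_range] at hc
      rw [Finset.mem_filter, Finset.mem_Icc] at hk
      have h3 : (a + 2) * k = (a + 1) * k + k := by ring
      rw [Finset.mem_filter, hE, ntb_Exps, co_sum, mu_co, mina_add γ h2, co_zero, co_one, hsum]
      exact ⟨by omega, hk.1.1, rfl, by omega⟩
    · intro γ hγ c k γ' hγ' c' k' h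
      obtain ⟨h1, h2, h3⟩ := co_inj h
      obtain ⟨h4, h5⟩ := add_inj (hSm γ hγ).2 (hSm γ' hγ').2 (fun i => congrFun h3 i)
      exact ⟨h4, by omega, h5⟩
    · intro γ hγ c hc k hk
      obtain ⟨h1, h2⟩ := hSm γ hγ
      have h3 : mina (co 0 (c + k) (fun i => γ i + k)) = 0 := mina_of_mu (Or.inr (Or.inl rfl))
      have h5 : (a + 2) * k = (a + 1) * k + k := by ring
      refine key _ _ _ ?_ (by omega) ?_
      · rw [co_sum, hsum]; omega
      · rw [wt_co e eu eo eY eZ t R.L 0 (c + k) (fun i => γ i + k) h3, ← hs, ← hK]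
        rw [hsume]
        have h6 : k * eZ ≤ k * (eo + t + (s + Kx)) := Nat.mul_le_mul_left k hK2
        have h7 : 0 * eu + (c + k) * (eo + t) + (∑ i, γ i * e i + k * s) + (γ 0 + k) * Kx =
          ∑ i, γ i * e i + c * eo + k * (eo + t + (s + Kx)) + (c * t + γ 0 * Kx) := by ring
        rw [h7]
        omega
  have C3 : ∑ γ ∈ S, ∑ c ∈ (Finset.Icc 1 (m - ∑ i, γ i)).filter
        (fun c => (a + 1) * c ≤ m - ∑ i, γ i),
      ∑ i ∈ Finset.range (m - ∑ i, γ i - (a + 1) * c + 1),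
        R1.fil (m - ∑ i, γ i - (a + 1) * c - i) (l - ∑ i, γ i * e i - c * eY - i * eu) ≤
      ∑ α ∈ E.filter (fun α => 1 ≤ mu α ∧ α (Fin.succ 0) = 0), g α := by
    refine nest S _ _ _ _ _ (fun γ c i => co i 0 (fun j => γ j + c)) ?_ ?_ ?_
    · intro γ hγ c hc i hi
      obtain ⟨h1, h2⟩ := hSm γ hγ
      rw [Finset.mem_range] at hi
      rw [Finset.mem_filter, Finset.mem_Icc] at hc
      rw [Finset.mem_filter, hE, ntb_Exps, co_sum, mu_co, mina_add γ h2, co_one, hsum]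
      exact ⟨by omega, hc.1.1, rfl⟩
    · intro γ hγ c i γ' hγ' c' i' h
      obtain ⟨h1, h2, h3⟩ := co_inj h
      obtain ⟨h4, h5⟩ := add_inj (hSm γ hγ).2 (hSm γ' hγ').2 (fun i => congrFun h3 i)
      exact ⟨h4, h5, h1⟩
    · intro γ hγ c hc i hi
      obtain ⟨h1, h2⟩ := hSm γ hγ
      have h3 : mina (co i 0 (fun j => γ j + c)) = 0 := mina_of_mu (Or.inr (Or.inr rfl))
      refine key _ _ _ ?_ (by omega) ?_
      · rw [co_sum, hsum]; omega
      · rw [wt_co e eu eo eY eZ t R.L i 0 (fun j => γ j + c) h3, ← hs, ← hK]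
        rw [hsume]
        have h6 : c * eY ≤ c * (s + Kx) := Nat.mul_le_mul_left c hK1
        have h7 : i * eu + 0 * (eo + t) + (∑ i, γ i * e i + c * s) + (γ 0 + c) * Kx =
          ∑ i, γ i * e i + c * (s + Kx) + i * eu + γ 0 * Kx := by ring
        rw [h7]
        omega
  have C4 : ∑ γ ∈ S, ∑ c ∈ (Finset.Icc 1 (m - ∑ i, γ i)).filter
        (fun c => (a + 1) * c ≤ m - ∑ i, γ i),
      ∑ k ∈ (Finset.Icc 1 (m - ∑ i, γ i - (a + 1) * c)).filter
        (fun k => (a + 2) * k ≤ m - ∑ i, γ i - (a + 1) * c),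
        R1.fil (m - ∑ i, γ i - (a + 1) * c - (a + 2) * k)
          (l - ∑ i, γ i * e i - c * eY - k * eZ) ≤
      ∑ α ∈ E.filter (fun α => 1 ≤ mu α ∧ α 0 = 0 ∧ 1 ≤ α (Fin.succ 0) ∧
        α (Fin.succ 0) < mu α), g α := by
    refine nest S _ _ _ _ _ (fun γ c k => co 0 k (fun j => γ j + (c + k))) ?_ ?_ ?_
    · intro γ hγ c hc k hk
      obtain ⟨h1, h2⟩ := hSm γ hγ
      rw [Finset.mem_filter, Finset.mem_Icc] at hc hk
      have h3 : (a + 2) * k = (a + 1) * k + k := by ring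
      have h4 : (a + 1) * (c + k) = (a + 1) * c + (a + 1) * k := by ring
      rw [Finset.mem_filter, hE, ntb_Exps, co_sum, mu_co, mina_add γ h2, co_zero, co_one, hsum]
      exact ⟨by omega, by omega, rfl, hk.1.1, by omega⟩
    · intro γ hγ c k γ' hγ' c' k' h
      obtain ⟨h1, h2, h3⟩ := co_inj h
      obtain ⟨h4, h5⟩ := add_inj (hSm γ hγ).2 (hSm γ' hγ').2 (fun i => congrFun h3 i)
      exact ⟨h4, by omega, h2⟩
    · intro γ hγ c hc k hk
      obtain ⟨h1, h2⟩ := hSm γ hγ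
      have h3 : mina (co 0 k (fun j => γ j + (c + k))) = 0 := mina_of_mu (Or.inr (Or.inl rfl))
      have h5 : (a + 2) * k = (a + 1) * k + k := by ring
      have h5' : (a + 1) * (c + k) = (a + 1) * c + (a + 1) * k := by ring
      refine key _ _ _ ?_ (by omega) ?_
      · rw [co_sum, hsum]; omega
      · rw [wt_co e eu eo eY eZ t R.L 0 k (fun j => γ j + (c + k)) h3, ← hs, ← hK]
        rw [hsume]
        have h6 : k * eZ ≤ k * (eo + t + (s + Kx)) := Nat.mul_le_mul_left k hK2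
        have h6' : c * eY ≤ c * (s + Kx) := Nat.mul_le_mul_left c hK1
        have h7 : 0 * eu + k * (eo + t) + (∑ i, γ i * e i + (c + k) * s) +
            (γ 0 + (c + k)) * Kx =
          ∑ i, γ i * e i + c * (s + Kx) + k * (eo + t + (s + Kx)) + γ 0 * Kx := by ring
        rw [h7]
        omega
  -- the chain of inequalities
  have hchain : ∑ γ ∈ S, F2 (m - ∑ i, γ i) (l - ∑ i, γ i * e i) ≤
      (∑ α ∈ E.filter (fun α => mu α = 0), g α +
        ∑ α ∈ E.filter (fun α => 1 ≤ mu α ∧ α 0 = 0 ∧ mu α ≤ α (Fin.succ 0)), g α) +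
      (∑ α ∈ E.filter (fun α => 1 ≤ mu α ∧ α (Fin.succ 0) = 0), g α +
        ∑ α ∈ E.filter (fun α => 1 ≤ mu α ∧ α 0 = 0 ∧ 1 ≤ α (Fin.succ 0) ∧
        α (Fin.succ 0) < mu α), g α) := by
    have hF3 : ∀ M l', l' ≤ R.L → F3 M l' ≤
        ∑ i ∈ Finset.range (M + 1), R1.fil (M - i) (l' - i * eu) +
        ∑ k ∈ (Finset.Icc 1 M).filter (fun k => (a + 2) * k ≤ M),
          R1.fil (M - (a + 2) * k) (l' - k * eZ) := by
      intro M l' h1
      exact (hP.F3_le M l' h1).trans (Nat.add_le_add_right (hP.Pb_le M l' h1) _)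
    have hF2 : ∀ γ ∈ S, F2 (m - ∑ i, γ i) (l - ∑ i, γ i * e i) ≤
        (∑ c ∈ Finset.range (m - ∑ i, γ i + 1),
          ∑ i ∈ Finset.range (m - ∑ i, γ i - c + 1),
            R1.fil (m - ∑ i, γ i - c - i) (l - ∑ i, γ i * e i - c * eo - i * eu) +
        ∑ c ∈ Finset.range (m - ∑ i, γ i + 1),
          ∑ k ∈ (Finset.Icc 1 (m - ∑ i, γ i - c)).filter
            (fun k => (a + 2) * k ≤ m - ∑ i, γ i - c),
            R1.fil (m - ∑ i, γ i - c - (a + 2) * k)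
              (l - ∑ i, γ i * e i - c * eo - k * eZ)) +
        (∑ c ∈ (Finset.Icc 1 (m - ∑ i, γ i)).filter (fun c => (a + 1) * c ≤ m - ∑ i, γ i),
          ∑ i ∈ Finset.range (m - ∑ i, γ i - (a + 1) * c + 1),
            R1.fil (m - ∑ i, γ i - (a + 1) * c - i)
              (l - ∑ i, γ i * e i - c * eY - i * eu) +
        ∑ c ∈ (Finset.Icc 1 (m - ∑ i, γ i)).filter (fun c => (a + 1) * c ≤ m - ∑ i, γ i),
          ∑ k ∈ (Finset.Icc 1 (m - ∑ i, γ i - (a + 1) * c)).filter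
            (fun k => (a + 2) * k ≤ m - ∑ i, γ i - (a + 1) * c),
            R1.fil (m - ∑ i, γ i - (a + 1) * c - (a + 2) * k)
              (l - ∑ i, γ i * e i - c * eY - k * eZ)) := by
      intro γ _
      refine (hP.F2_le _ _ (by omega)).trans ?_
      rw [← Finset.sum_add_distrib, ← Finset.sum_add_distrib]
      refine Nat.add_le_add ?_ ?_
      · exact Finset.sum_le_sum fun c _ => hF3 _ _ (by omega)
      · exact Finset.sum_le_sum fun c _ => hF3 _ _ (by omega)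
    refine (Finset.sum_le_sum hF2).trans ?_
    rw [Finset.sum_add_distrib, Finset.sum_add_distrib, Finset.sum_add_distrib]
    exact Nat.add_le_add (Nat.add_le_add C1 C2) (Nat.add_le_add C3 C4)
  -- disjointness
  have hdis : (∑ α ∈ E.filter (fun α => 1 ≤ mina α), g α) +
      ((∑ α ∈ E.filter (fun α => mu α = 0), g α +
        ∑ α ∈ E.filter (fun α => 1 ≤ mu α ∧ α 0 = 0 ∧ mu α ≤ α (Fin.succ 0)), g α) +
      (∑ α ∈ E.filter (fun α => 1 ≤ mu α ∧ α (Fin.succ 0) = 0), g α +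
        ∑ α ∈ E.filter (fun α => 1 ≤ mu α ∧ α 0 = 0 ∧ 1 ≤ α (Fin.succ 0) ∧
        α (Fin.succ 0) < mu α), g α)) ≤ ∑ α ∈ E, g α := by
    rw [Finset.sum_filter, Finset.sum_filter, Finset.sum_filter, Finset.sum_filter,
      Finset.sum_filter, ← Finset.sum_add_distrib, ← Finset.sum_add_distrib,
      ← Finset.sum_add_distrib, ← Finset.sum_add_distrib]
    refine Finset.sum_le_sum fun α _ => ?_
    have h1 : 1 ≤ mina α → 1 ≤ mu α ∧ 1 ≤ α 0 ∧ 1 ≤ α (Fin.succ 0) := by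
      intro h
      by_contra hcon
      have h2 : mina α = 0 := mina_of_mu (by omega)
      omega
    split_ifs <;> omega
  have hfin := hS.fil m hm l hl1 hl
  rw [hP0] at hfin
  have hfin' : R.fil m l ≤ (∑ α ∈ E.filter (fun α => 1 ≤ mina α), g α) +
      ∑ γ ∈ S, F2 (m - ∑ i, γ i) (l - ∑ i, γ i * e i) := by
    exact_mod_cast hfin
  exact hfin'.trans ((Nat.add_le_add_left hchain _).trans hdis)


end Pool.Agent.KSYP.AS

alias Pool.Agent.KSY.fil_path := Pool.Agent.KSYP.AS.fil_path_pr
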