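import Pool.Agent.Lib_helper80.KSY.Defs
import Pool.Agent.Lib_helper80.KSYF.AR
import Pool.Agent.Lib_helper80.KSYF.AS

set_option autoImplicit false

namespace Pool.Agent.KSYP.AT

open MvPolynomial Pool.Agent.KSS Pool.Agent.KSX Pool.Agent.Lib_helper56.KSS Filter Topology
open Pool.Agent.Lib_helper80.KSX (subJ)
open Pool.Agent.KSY

theorem torus_of_path_pr (d : Fin 1 → ℕ) {a b M0 : ℕ} (ha : d 0 = a + 3) (hb : 1 ≤ b) (R : Rec 1)
    (hg : R.g 0 = R.L) {F2 F3 : ℕ → ℕ → ℕ} {T2 oY oo : ℕ}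
    {e : Fin (a + 1) → ℕ} {R1 Pb : Rec 1} {eu eo eY eZ t : ℕ} (hS : Stg d a b M0 R F2 T2 oY e)
    (hP : Path d a b R.L T2 oY oo F2 F3 R1 Pb eu eo eY eZ) (ht : t ≤ eZ - (eo + eY)) :
    TorusOut d (b + a + 3) 0 M0 R R1 (fun l : Fin (d 0) => eh a e eu eo eY eZ t (l : ℕ)) R.L := by
  obtain ⟨h1, h2, h3⟩ := eh_facts (τ := R.τ) (τ1 := R1.τ) hS.e_le hS.oY_eq hS.tau hP.eu_le
    hP.eo_le hP.eY_le hP.eZ_le hP.Zge hP.oY_le hP.tauR ht
  have hsum : ∑ l : Fin (d 0), eh a e eu eo eY eZ t (l : ℕ) =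
      ∑ i ∈ Finset.range (a + 3), eh a e eu eo eY eZ t i := by
    rw [← ha]
    exact Fin.sum_univ_eq_sum_range (fun i => eh a e eu eo eY eZ t i) (d 0)
  refine ⟨?_, hP.LR, ?_, le_refl _, ?_, hg.le, ?_, ?_, ?_⟩
  · have : b + a + 3 - d 0 = b := by omega
    rw [this]
    exact hP.ofR
  · intro l
    exact h1 l (by have := l.2; omega)
  · intro i hi
    exact absurd (Subsingleton.elim i 0) hi
  · show R1.g 0 = min R.L (∑ l : Fin (d 0), eh a e eu eo eY eZ t (l : ℕ))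
    rw [hsum, hP.gR]
    exact h2
  · show R.τ + R.L + (∑ l : Fin (d 0), eh a e eu eo eY eZ t (l : ℕ) - R.L) ≤ R1.τ + d 0 * R.L
    rw [hsum, ha]
    exact h3
  · exact fil_path d ha hb R hS hP ht

end Pool.Agent.KSYP.AT

alias Pool.Agent.KSY.torus_of_path := Pool.Agent.KSYP.AT.torus_of_path_pr
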