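import Pool.Agent.Lib_helper80.KSY.Defs
import Pool.Agent.Lib_helper80.KSYF.AN

/-!
# KSY block BA: degeneration to the normal cone of one form
-/

set_option autoImplicit false

namespace Pool.Agent.KSYP.BA

open MvPolynomial Pool.Agent.KSS Pool.Agent.KSX Pool.Agent.KSY Pool.Agent.Lib_helper56.KSS
open Filter Topology
open Pool.Agent.Lib_helper80.KSX (subJ)

/-- the weights of the degeneration to the normal cone -/
def om (v : ℕ) : Option (Fin v) → ℕ := fun o => o.elim 1 (fun _ => 0)

theorem weight_om {v : ℕ} (δ : Option (Fin v) →₀ ℕ) : Finsupp.weight (om v) δ = δ none := by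
  rw [Finsupp.weight_apply, Finsupp.sum_fintype _ _ (by intro i; rw [zero_smul]),
    Fintype.sum_option]
  simp [om]

theorem weight_w {v a : ℕ} (δ : Option (Fin v) →₀ ℕ) :
    Finsupp.weight (wO (Fin v) a) δ = δ none * (a + 1) + ∑ i : Fin v, δ (some i) := by
  rw [Finsupp.weight_apply, Finsupp.sum_fintype _ _ (by intro i; rw [zero_smul]),
    Fintype.sum_option]
  simp [wO]

/-- the number of monomials -/
theorem card_deg {p : ℕ} (d : Fin p → ℕ) (v m : ℕ) :
    (Nat.card {β : Fin v →₀ ℕ | β.degree = m} : ℤ) = NN d v ∅ m := by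
  have h := finrank_hom_pr ℚ d v m
  rw [hom_eq, slc_card] at h
  exact h

/-- the multiples of the relation -/
theorem card_prev (d : Fin 1 → ℕ) (v a m : ℕ) (ha : d 0 = a + 1) :
    ∑ c ∈ (Finset.range (m + 1)).filter (fun c => d 0 * c ≤ m),
      (NN d v ∅ (m - d 0 * c) - NN d v Finset.univ (m - d 0 * c)) ≤
      (Nat.card (Mprev (Fin v) a m) : ℤ) := by
  classical
  have i2 : Finite (Mprev (Fin v) a m) := Mprev_finite m
  obtain ⟨B, hB⟩ : ∃ B : ℕ → Set (Fin v →₀ ℕ), B = fun c =>
      {β : Fin v →₀ ℕ | β.degree + (a + 1) * (c + 1) = m} := ⟨_, rfl⟩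
  have hBf : ∀ c, Finite (B c) := by
    intro c
    rw [hB]
    apply Set.Finite.subset (degree_finite (V := Fin v) (m - (a + 1) * (c + 1)))
    intro β hβ
    change β.degree = _
    change β.degree + (a + 1) * (c + 1) = m at hβ
    omega
  have h1 : ∀ c ∈ (Finset.range (m + 1)).filter (fun c => d 0 * c ≤ m),
      NN d v ∅ (m - d 0 * c) - NN d v Finset.univ (m - d 0 * c) = (Nat.card (B c) : ℤ) := by
    intro c hc
    rw [Finset.mem_filter] at hc
    have e1 : (Finset.univ : Finset (Fin 1)) = insert 0 ∅ := by decide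
    rw [e1, hilb_NN_insert d v ∅ 0 (by simp), sub_sub_cancel]
    split_ifs with h
    · rw [← card_deg d v (m - d 0 * c - d 0)]
      have h5 : {β : Fin v →₀ ℕ | β.degree = m - d 0 * c - d 0} = B c := by
        rw [hB]
        ext β
        change β.degree = _ ↔ β.degree + (a + 1) * (c + 1) = m
        have h3 : (a + 1) * (c + 1) = (a + 1) * c + (a + 1) := by ring
        rw [ha] at h hc ⊢
        have := hc.2
        omega
      rw [h5]
    · have h2 : B c = ∅ := by
        rw [Set.eq_empty_iff_forall_notMem]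
        intro β hβ
        rw [hB] at hβ
        change β.degree + (a + 1) * (c + 1) = m at hβ
        have h3 : (a + 1) * (c + 1) = (a + 1) * c + (a + 1) := by ring
        rw [ha] at h hc
        omega
      rw [h2]
      simp
  rw [Finset.sum_congr rfl h1]
  obtain ⟨S, hS⟩ : ∃ S : Finset ℕ, S = (Finset.range (m + 1)).filter (fun c => d 0 * c ≤ m) :=
    ⟨_, rfl⟩
  rw [← hS]
  have h2 : ∑ c ∈ S, (Nat.card (B c) : ℤ) = (Nat.card (Σ c : S, B c) : ℤ) := by
    rw [Nat.card_sigma, Nat.cast_sum, Finset.sum_coe_sort S (fun c => (Nat.card (B c) : ℤ))]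
  rw [h2]
  have hmem : ∀ p : Σ c : S, B c, Finsupp.single none (p.1 : ℕ) +
      Finsupp.mapDomain some (p.2 : Fin v →₀ ℕ) ∈ Mprev (Fin v) a m := by
    rintro ⟨⟨c, hc⟩, β, hβ⟩
    change Finsupp.weight (wO (Fin v) a) _ + (a + 1) = m
    simp only
    rw [hB] at hβ
    change β.degree + (a + 1) * (c + 1) = m at hβ
    rw [weight_w]
    simp only [Finsupp.add_apply, Finsupp.single_eq_same]
    have e1 : Finsupp.mapDomain some β none = 0 :=
      Finsupp.mapDomain_of_notMem_range _ _ (by rintro ⟨i, hi⟩; cases hi)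
    have e2 : ∀ i : Fin v, Finsupp.mapDomain some β (some i) = β i := fun i =>
      Finsupp.mapDomain_apply (Option.some_injective _) _ _
    have e3 : ∀ i : Fin v, (Finsupp.single (none : Option (Fin v)) c) (some i) = 0 := fun i => by
      rw [Finsupp.single_apply, if_neg (by simp)]
    simp only [e1, e2, e3, zero_add, add_zero]
    rw [Finsupp.degree_eq_sum] at hβ
    have h3 : (a + 1) * (c + 1) = c * (a + 1) + (a + 1) := by ring
    omega
  have hinj : Function.Injective (fun p : Σ c : S, B c => (⟨_, hmem p⟩ : Mprev (Fin v) a m)) := by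
    rintro ⟨⟨c, hc⟩, β, hβ⟩ ⟨⟨c', hc'⟩, β', hβ'⟩ h
    have h3 := congrArg Subtype.val h
    simp only at h3
    have e1 : ∀ γ : Fin v →₀ ℕ, Finsupp.mapDomain some γ none = 0 := fun γ =>
      Finsupp.mapDomain_of_notMem_range _ _ (by rintro ⟨i, hi⟩; cases hi)
    have e2 : ∀ (γ : Fin v →₀ ℕ) (i : Fin v), Finsupp.mapDomain some γ (some i) = γ i :=
      fun γ i => Finsupp.mapDomain_apply (Option.some_injective _) _ _
    have e3 : ∀ (n : ℕ) (i : Fin v), (Finsupp.single (none : Option (Fin v)) n) (some i) = 0 :=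
      fun n i => by rw [Finsupp.single_apply, if_neg (by simp)]
    have h4 : c = c' := by
      have h5 := DFunLike.congr_fun h3 none
      simpa only [Finsupp.add_apply, Finsupp.single_eq_same, e1, add_zero] using h5
    have h6 : β = β' := by
      ext i
      have h5 := DFunLike.congr_fun h3 (some i)
      simpa only [Finsupp.add_apply, e2, e3, zero_add] using h5
    subst h4
    subst h6
    rfl
  exact_mod_cast Nat.card_le_card_of_injective _ hinj

/-- the classes of the filtration -/
theorem class_le {k F0 : Type} [Field k] [Field F0] [Algebra k F0] {v a L : ℕ}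
    (x0 : Option (Fin v) → Fin L → F0) (m l c : ℕ) (hl : l ≤ L) :
    Module.finrank k (FM k x0 {δ | δ ∈ Mset (Fin v) a m ∧ Finsupp.weight (om v) δ = c} l) ≤
      Module.finrank k (Fil k (fun i => x0 (some i)) (m - (a + 1) * c)
        (l - c * ordL L (arc (x0 none)))) := by
  classical
  rw [Fil_eq]
  have i5 : Finite {β : Fin v →₀ ℕ | β.degree = m - (a + 1) * c} := degree_finite _
  apply FM_shift x0 some (Finsupp.single none c)
  · rintro δ ⟨hδ1, hδ2⟩
    change Finsupp.weight (wO (Fin v) a) δ = m at hδ1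
    rw [weight_w] at hδ1
    rw [weight_om] at hδ2
    refine ⟨Finsupp.equivFunOnFinite.symm fun i => δ (some i), ?_, ?_⟩
    · change Finsupp.degree _ = _
      rw [Finsupp.degree_eq_sum]
      have h6 : ∑ i : Fin v, (Finsupp.equivFunOnFinite.symm fun i => δ (some i)) i =
          ∑ i : Fin v, δ (some i) := rfl
      rw [h6, ← hδ1, hδ2]
      have : c * (a + 1) = (a + 1) * c := Nat.mul_comm _ _
      omega
    · ext o
      cases o with
      | none =>
        rw [Finsupp.add_apply, Finsupp.single_eq_same,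
          Finsupp.mapDomain_of_notMem_range _ _ (by rintro ⟨i, hi⟩; cases hi), add_zero, hδ2]
      | some i =>
        rw [Finsupp.add_apply, Finsupp.single_apply, if_neg (by simp), zero_add,
          Finsupp.mapDomain_apply (Option.some_injective _)]
        rfl
  · intro E hE
    have h3 : ev x0 (monomial (Finsupp.single none c) 1 : MvPolynomial (Option (Fin v)) k) =
        ∏ o ∈ ({none} : Finset (Option (Fin v))), arc (x0 o) ^ c := by
      unfold ev
      rw [aeval_monomial, map_one, one_mul, Finsupp.prod_single_index (by rw [pow_zero]),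
        Finset.prod_singleton]
    rw [h3] at hE
    have h4 := dvd_of_mul_prod {none} (fun o => arc (x0 o)) (fun _ => c) _ hl hE
    rw [Finset.sum_singleton] at h4
    exact h4

/-- (BA) degeneration to the normal cone -/
theorem nc_rec_pr (d : Fin 1 → ℕ) (hd : 1 ≤ d 0) (v : ℕ) (R : Rec 1) (hR : R.Of d v) :
    ∃ (R0 : Rec 1) (η : ℕ), NC d v R R0 η := by
  classical
  obtain ⟨k, ik, ic, G, κ, iκ, iA, x, hG, hτ, hfil, hg, hc0⟩ := hR
  obtain ⟨a, ha⟩ : ∃ a, d 0 = a + 1 := ⟨d 0 - 1, by omega⟩
  have hG0 : (G 0).IsHomogeneous (a + 1) := ha ▸ hG.1 0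
  -- the graph
  obtain ⟨xt, hxt⟩ : ∃ xt : Option (Fin v) → Fin R.L → κ, xt = fun o => o.elim
      (fun μ : Fin R.L => PowerSeries.coeff (μ : ℕ) (ev x (G 0))) x := ⟨_, rfl⟩
  have hxt1 : ∀ i, xt (some i) = x i := fun i => by rw [hxt]; rfl
  have hxt0 : ∀ μ : Fin R.L, xt none μ = PowerSeries.coeff (μ : ℕ) (ev x (G 0)) := fun μ => by
    rw [hxt]; rfl
  have hxt2 : ∀ μ : Fin R.L, xt none μ = algebraMap k κ (1 : k)⁻¹ *
      PowerSeries.coeff (μ : ℕ) (ev x (G 0)) := fun μ => by
    rw [hxt0, inv_one, map_one, one_mul]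
  obtain ⟨F0, iF, iAF, x0, hx0τ, hx0⟩ := TIJ (k := k) (wO (Fin v) a) (om v)
    (wO_pos (Fin v) a) xt
  obtain ⟨x0', hx0'⟩ : ∃ x0' : Fin v → Fin R.L → F0, x0' = fun i => x0 (some i) := ⟨_, rfl⟩
  -- the relation
  have hrel : (PowerSeries.X : PowerSeries F0) ^ R.L ∣ ev x0' (G 0) := by
    have h1 := hx0 (Phi (1 : k) (G 0)) (a + 1) 0 (Phi_homog 1 hG0) (fun _ _ => Nat.zero_le _)
      R.L le_rfl (Phi_dvd 1 one_ne_zero (G 0) x xt hxt1 hxt2)
    have h2 : weightedHomogeneousComponent (om v) 0 (Phi (1 : k) (G 0)) =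
        -rename some (G 0) := by
      unfold Phi
      rw [map_sub]
      have h3 : IsWeightedHomogeneous (om v) (C (1 : k) * X none :
          MvPolynomial (Option (Fin v)) k) 1 := by
        have := (isWeightedHomogeneous_C (om v) (1 : k)).mul
          (isWeightedHomogeneous_X k (om v) none)
        rwa [zero_add] at this
      have h4 : IsWeightedHomogeneous (om v) (rename some (G 0) :
          MvPolynomial (Option (Fin v)) k) 0 := by
        intro δ hδ
        have h5 : δ ∈ (rename some (G 0) : MvPolynomial (Option (Fin v)) k).support :=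
          mem_support_iff.2 hδ
        rw [support_rename_of_injective (Option.some_injective _), Finset.mem_image] at h5
        obtain ⟨u, hu, rfl⟩ := h5
        rw [weight_om]
        exact Finsupp.mapDomain_of_notMem_range _ _ (by rintro ⟨i, hi⟩; cases hi)
      rw [h3.weightedHomogeneousComponent_ne 0 (by norm_num),
        h4.weightedHomogeneousComponent_same, zero_sub]
    rw [h2] at h1
    have h5 : ev x0 (-rename some (G 0) : MvPolynomial (Option (Fin v)) k) =
        -ev x0' (G 0) := by
      rw [hx0', ← ev_rename x0 some (G 0)]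
      unfold ev
      rw [map_neg]
    rw [h5] at h1
    exact (dvd_neg).1 h1
  -- the order of `z`
  have hord : ∀ l ≤ R.L, (PowerSeries.X : PowerSeries κ) ^ l ∣ arc (xt none) →
      (PowerSeries.X : PowerSeries F0) ^ l ∣ arc (x0 none) := by
    intro l hl h
    have h1 := hx0 (X none) (a + 1) 1 (isWeightedHomogeneous_X k (wO (Fin v) a) none) (by
      intro δ hδ
      rw [support_X, Finset.mem_singleton] at hδ
      rw [hδ, weight_om, Finsupp.single_eq_same]) l hl (by rw [ev_X]; exact h)
    have h2 : weightedHomogeneousComponent (om v) 1 (X none : MvPolynomial (Option (Fin v)) k) =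
        X none := (isWeightedHomogeneous_X k (om v) none).weightedHomogeneousComponent_same
    rw [h2, ev_X] at h1
    exact h1
  obtain ⟨η, hη⟩ : ∃ η, η = ordL R.L (arc (x0 none)) := ⟨_, rfl⟩
  refine ⟨recJ G x0', η, ⟨⟨k, ik, ic, G, F0, iF, iAF, x0', hG, rfl, fun _ _ _ => rfl,
    fun _ => rfl, rfl⟩, rfl, ?_, ?_, ?_, ?_, ?_⟩⟩
  · change ordL R.L (ev x0' (G 0)) = R.L
    apply le_antisymm (ordL_le _ _)
    exact (dvd_iff_le_ordL le_rfl _).1 hrel
  · rw [hη, ← dvd_iff_le_ordL (by rw [← hg 0]; exact ordL_le _ _)]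
    apply hord _ (by rw [← hg 0]; exact ordL_le _ _)
    rw [PowerSeries.X_pow_dvd_iff]
    intro μ hμ
    have hL : μ < R.L := lt_of_lt_of_le hμ (by rw [← hg 0]; exact ordL_le _ _)
    have h3 := coeff_arc (xt none) ⟨μ, hL⟩
    simp only at h3
    rw [h3, hxt0]
    have h4 := ordL_dvd R.L (ev x (G 0))
    rw [hg 0, PowerSeries.X_pow_dvd_iff] at h4
    exact h4 μ hμ
  · rw [hη]
    exact ordL_le _ _
  · -- transcendence degrees
    have h1 : R.τ ≤ tauJ k xt := by
      rw [← hτ]
      unfold tauJ
      rw [tau_eq, tau_eq]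
      have h2 := tau_comp_le (K := k) (fun p : Option (Fin v) × Fin R.L => xt p.1 p.2)
        (fun p : Fin v × Fin R.L => (some p.1, p.2))
      simp only [hxt1] at h2
      exact h2
    have h2 := tauJ_threshold (k := k) x0 (fun _ : Unit => x0 none) x0' (fun _ => η)
      (by
        intro o
        cases o with
        | none => exact Or.inl ⟨(), rfl⟩
        | some i => exact Or.inr ⟨i, by rw [hx0']⟩)
      (by
        intro _ μ hμ
        rw [eq_zero_of_lt_ordL (x0 none) μ (by rw [← hη]; exact hμ)]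
        exact zero_mem_closure _)
    have h3 : η ≤ R.L := by rw [hη]; exact ordL_le _ _
    rw [Finset.univ_unique, Finset.sum_singleton] at h2
    change R.τ + η ≤ tauJ k x0' + R.L
    omega
  · -- dimensions
    intro m l hl
    have h1 := e1 (1 : k) one_ne_zero (G 0) hG0 x xt hxt1 hxt2 m l hl
    have i1 : Finite (Mset (Fin v) a m) := Mset_finite m
    have h2 := FM_initial (wO (Fin v) a) (om v) xt x0 hx0 (Mset (Fin v) a m) m
      (fun δ hδ => hδ) l hl ((Finset.range (m + 1)).filter (fun c => d 0 * c ≤ m)) (by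
        intro δ hδ
        change Finsupp.weight (wO (Fin v) a) δ = m at hδ
        rw [weight_w] at hδ
        rw [weight_om, Finset.mem_filter, Finset.mem_range, ha]
        have e1 : (a + 1) * δ none = δ none * (a + 1) := Nat.mul_comm _ _
        have e2 : δ none ≤ δ none * (a + 1) := Nat.le_mul_of_pos_right _ (by omega)
        constructor <;> omega)
    have h3 := card_prev d v a m ha
    rw [hfil m l hl] at h1
    have h4 : ∑ c ∈ (Finset.range (m + 1)).filter (fun c => d 0 * c ≤ m),
        Module.finrank k (FM k x0 {δ | δ ∈ Mset (Fin v) a m ∧ Finsupp.weight (om v) δ = c} l) ≤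
        ∑ c ∈ (Finset.range (m + 1)).filter (fun c => d 0 * c ≤ m),
          (recJ G x0').fil (m - d 0 * c) (l - c * η) := by
      apply Finset.sum_le_sum
      intro c _
      rw [ha, hη]
      change _ ≤ Module.finrank k (Fil k x0' _ _)
      rw [hx0']
      exact class_le x0 m l c hl
    unfold grN
    have h5 : (R.fil m l : ℤ) + Nat.card (Mprev (Fin v) a m) ≤
        ∑ c ∈ (Finset.range (m + 1)).filter (fun c => d 0 * c ≤ m),
          ((recJ G x0').fil (m - d 0 * c) (l - c * η) : ℤ) := by
      exact_mod_cast h1.trans (h2.trans h4)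
    have h6 : ∑ c ∈ (Finset.range (m + 1)).filter (fun c => d 0 * c ≤ m),
        (((recJ G x0').fil (m - d 0 * c) (l - c * η) : ℤ) - NN d v ∅ (m - d 0 * c)
          + NN d v Finset.univ (m - d 0 * c)) =
        ∑ c ∈ (Finset.range (m + 1)).filter (fun c => d 0 * c ≤ m),
          ((recJ G x0').fil (m - d 0 * c) (l - c * η) : ℤ) -
        ∑ c ∈ (Finset.range (m + 1)).filter (fun c => d 0 * c ≤ m),
          (NN d v ∅ (m - d 0 * c) - NN d v Finset.univ (m - d 0 * c)) := by
      rw [← Finset.sum_sub_distrib]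
      refine Finset.sum_congr rfl fun c _ => ?_
      ring
    rw [h6]
    linarith

end Pool.Agent.KSYP.BA

alias Pool.Agent.KSY.nc_rec := Pool.Agent.KSYP.BA.nc_rec_pr
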