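import Pool.Agent.Lib_helper80.KSY.Defs
import Pool.Agent.Lib_helper77.KSZ.R6
import Pool.Agent.Lib_helper77.KSZ.XKER
import Pool.Agent.Lib_helper77.KSZ.XGRD
import Pool.Agent.Lib_helper77.KSZ.XRIT

/-!
# Block BB of project KSY: `cnt_rec`
-/

set_option autoImplicit false

namespace Pool.Agent.KSYP.BB

open MvPolynomial Pool.Agent.KSS Pool.Agent.KSX Pool.Agent.KSY Pool.Agent.Lib_helper56.KSS Filter
  Topology
open Pool.Agent.Lib_helper80.KSX (subJ wfin full_sep cnt_fil cnt_eq arc_subJ ordL_congr)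

/-- the number of monomials of large order bounds the filtration of any jet -/
theorem tor_bound {k κ T : Type} [Field k] [Field κ] [Algebra k κ] [Fintype T] {L : ℕ}
    (u : T → ℕ) (hu : ∀ t, 0 < u t) (y : T → Fin L → κ) (M0 : ℕ) :
    ∃ o : T → ℕ, (∀ t, ordL L (arc (y t)) ≤ o t) ∧ tauJ k y + ∑ t, o t ≤ Fintype.card T * L ∧
      ∀ m ≤ M0, ∀ l ≤ L, Module.finrank k (FM k y {d | Finsupp.weight u d = m} l) ≤
        Nat.card {d : T →₀ ℕ | Finsupp.weight u d = m ∧ l ≤ ∑ t, d t * o t} := by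
  classical
  obtain ⟨ω, hω⟩ := full_sep u hu M0
  obtain ⟨F0, _, _, y0, h1, h2⟩ := TIJ (k := k) u ω hu y
  refine ⟨fun t => ordL L (arc (y0 t)), ?_, ?_, ?_⟩
  · intro t
    simp only
    rw [← dvd_iff_le_ordL (ordL_le _ _)]
    have h3 := h2 (X t) (u t) (ω t) (isWeightedHomogeneous_X _ _ _)
      (fun d hd => ((isWeightedHomogeneous_X k ω t) (mem_support_iff.1 hd)).ge)
      (ordL L (arc (y t))) (ordL_le _ _) (by rw [ev_X]; exact ordL_dvd _ _)
    rwa [weightedHomogeneousComponent_eq_self (isWeightedHomogeneous_X k ω t), ev_X] at h3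
  · have h3 := tauJ_add_ord_le (k := k) y0
    simp only
    omega
  · intro m hm l hl
    have hMf := wfin u hu m
    have i1 : Finite {d : T →₀ ℕ | Finsupp.weight u d = m} := hMf
    have h3 := FM_initial u ω y y0 h2 {d : T →₀ ℕ | Finsupp.weight u d = m} m
      (fun d hd => hd) l hl (hMf.toFinset.image (Finsupp.weight ω)) (fun d hd =>
        Finset.mem_image_of_mem _ (hMf.mem_toFinset.2 hd))
    refine h3.trans ?_
    rw [Finset.sum_image (by
      intro d hd d' hd' h
      exact hω m hm d d' (hMf.mem_toFinset.1 hd) (hMf.mem_toFinset.1 hd') h)]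
    have hF : Nat.card {d : T →₀ ℕ | Finsupp.weight u d = m ∧
        l ≤ ∑ t, d t * ordL L (arc (y0 t))} =
        (hMf.toFinset.filter fun d => l ≤ ∑ t, d t * ordL L (arc (y0 t))).card := by
      have h3 : {d : T →₀ ℕ | Finsupp.weight u d = m ∧ l ≤ ∑ t, d t * ordL L (arc (y0 t))} =
          ((hMf.toFinset.filter fun d => l ≤ ∑ t, d t * ordL L (arc (y0 t)) :
            Finset (T →₀ ℕ)) : Set (T →₀ ℕ)) := by
        ext d
        rw [Finset.mem_coe, Finset.mem_filter, hMf.mem_toFinset]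
        rfl
      rw [h3]
      exact (Set.ncard_coe_finset _)
    simp only
    rw [hF, Finset.card_filter]
    apply Finset.sum_le_sum
    intro d hd
    have h4 : {d' : T →₀ ℕ | d' ∈ {d : T →₀ ℕ | Finsupp.weight u d = m} ∧
        Finsupp.weight ω d' = Finsupp.weight ω d} = {d} := by
      ext d'
      constructor
      · rintro ⟨ha, hb⟩
        exact hω m hm d' d ha (hMf.mem_toFinset.1 hd) hb
      · rintro rfl
        exact ⟨hMf.mem_toFinset.1 hd, rfl⟩
    rw [h4]
    exact tor_single y0 d l hl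

/-- (BB) local coordinates `x_q`, `q ≠ J`, and `G` at a smooth point of `G = 0` -/
theorem cnt_rec_pr (d : Fin 1 → ℕ) (hd : 2 ≤ d 0) (n : ℕ) (hn : 1 ≤ n) (M0 : ℕ) (R : Rec 1)
    (hR : R.Of d (n + 1)) (hL : 0 < R.L) (h0 : R.c0 = 0) (hg : 0 < R.g 0) :
    ∃ o : Option (Fin n) → ℕ,
      (∀ m ≤ M0, ∀ l ≤ R.L,
        (cnt (fun t : Option (Fin n) => t.elim (d 0) (fun _ => 1)) o m l : ℤ) + R.fil m l
          ≤ NN d (n + 1) ∅ m) ∧
      ∑ t, o t + R.τ ≤ (n + 1) * R.L ∧ R.g 0 ≤ o none := by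
  classical
  obtain ⟨k, _, _, G, κ, _, _, x, hG, htau, hfil, hgg, hc0⟩ := hR
  -- the point
  have hpt : lead x 0 ≠ 0 := by
    intro hz
    have h1 : ∀ i, 1 ≤ ordL R.L (arc (x i)) := by
      intro i
      rw [← dvd_iff_le_ordL (by omega), pow_one, PowerSeries.X_dvd_iff]
      have := congrFun hz i
      unfold lead at this
      rw [← PowerSeries.coeff_zero_eq_constantCoeff_apply]
      exact this
    have h2 : 1 ≤ c0J x := by
      unfold c0J
      exact le_ciInf h1
    omega
  have hd1 : ∀ i, 1 ≤ d i := by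
    intro i
    rw [Subsingleton.elim i 0]
    omega
  have hli := grad_indep_pr d hd1 G hG (lead x 0) hpt Finset.univ 0
    (fun i _ hi => absurd (Subsingleton.elim i 0) hi)
  have hne := hli.ne_zero ⟨0, Finset.mem_univ _⟩
  obtain ⟨J0, hJ0⟩ : ∃ J0, grad G (lead x 0) 0 J0 ≠ 0 := by
    by_contra hcon
    push Not at hcon
    exact hne (funext hcon)
  obtain ⟨J, hJ⟩ : ∃ J : ((Finset.univ : Finset (Fin 1)) : Type) → Fin (n + 1), J = fun _ => J0 :=
    ⟨_, rfl⟩
  have hdet : (Matrix.of fun i i' : (Finset.univ : Finset (Fin 1)) =>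
      grad G (lead x 0) i (J i')).det ≠ 0 := by
    have : Unique (Finset.univ : Finset (Fin 1)) :=
      { default := ⟨0, Finset.mem_univ _⟩, uniq := fun a => Subtype.ext (Subsingleton.elim _ _) }
    rw [Matrix.det_unique]
    simp only [Matrix.of_apply, hJ]
    rw [Subsingleton.elim ((default : (Finset.univ : Finset (Fin 1))) : Fin 1) 0]
    exact hJ0
  have hker := ker_tau_pr d G hG.1 x 0 hL (fun _ => Nat.zero_le _) Finset.univ J hdet
  simp only [mul_zero, Finset.sum_const_zero, add_zero] at hker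
  -- the substitution
  obtain ⟨Ψ, hΨ⟩ : ∃ Ψ : Option (Fin n) → MvPolynomial (Fin (n + 1)) k,
      Ψ = fun t => t.elim (G 0) (fun i => X (J0.succAbove i)) := ⟨_, rfl⟩
  obtain ⟨u, hu⟩ : ∃ u : Option (Fin n) → ℕ, u = fun t => t.elim (d 0) (fun _ => 1) := ⟨_, rfl⟩
  have hu0 : ∀ t, 0 < u t := by
    intro t
    rw [hu]
    cases t with
    | none => simp only [Option.elim_none]; omega
    | some i => simp only [Option.elim_some]; omega
  have hΨu : ∀ t, (Ψ t).IsHomogeneous (u t) := by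
    intro t
    rw [hΨ, hu]
    cases t with
    | none => simp only [Option.elim_none]; exact hG.1 0
    | some i => simp only [Option.elim_some]; exact isHomogeneous_X _ _
  have htau2 : tauJ k x ≤ tauJ k (subJ Ψ x) := by
    refine hker.trans ?_
    unfold tauJ
    rw [tau_eq, tau_eq]
    apply tau_le_of_closure
    rintro (s | s)
    · obtain ⟨⟨q, hq⟩, μ⟩ := s
      have hqJ : q ≠ J0 := by
        intro h
        apply hq
        exact ⟨⟨0, Finset.mem_univ _⟩, by rw [hJ, h]⟩
      obtain ⟨i, hi⟩ := Fin.exists_succAbove_eq hqJ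
      refine (AlgebraicIndependent.matroid k κ).mem_closure_of_mem ⟨(some i, μ), ?_⟩
        (Set.subset_univ _)
      simp only [Sum.elim_inl]
      unfold subJ
      rw [hΨ]
      simp only [Option.elim_some]
      rw [ev_X, hi]
      exact coeff_arc (x q) μ
    · obtain ⟨⟨i, hi⟩, μ⟩ := s
      refine (AlgebraicIndependent.matroid k κ).mem_closure_of_mem ⟨(none, μ), ?_⟩
        (Set.subset_univ _)
      simp only [Sum.elim_inr]
      unfold subJ
      rw [hΨ, Subsingleton.elim i 0]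
      rfl
  obtain ⟨o, ho1, ho2, ho3⟩ := tor_bound (k := k) u hu0 (subJ Ψ x) M0
  refine ⟨o, ?_, ?_, ?_⟩
  · intro m hm l hl
    have e1 := cnt_fil x u hu0 Ψ hΨu m l hl
    have e2 := ho3 m hm l hl
    have e3 := cnt_eq u hu0 o m l
    have e4 := finrank_hom k d (n + 1) m
    rw [← hu, ← hfil m l hl, ← e4]
    have e5 : cnt u o m l + Module.finrank k (Fil k x m l) ≤
      Module.finrank k (homogeneousSubmodule (Fin (n + 1)) k m) := by omega
    exact_mod_cast e5
  · have e1 : Fintype.card (Option (Fin n)) = n + 1 := by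
      rw [Fintype.card_option, Fintype.card_fin]
    rw [e1] at ho2
    omega
  · have e1 := ho1 none
    have e2 : ordL R.L (arc (subJ Ψ x none)) = ordL R.L (ev x (G 0)) := by
      have := ordL_congr (arc_subJ Ψ x none)
      rw [this, hΨ]
      rfl
    rw [e2, hgg 0] at e1
    exact e1


end Pool.Agent.KSYP.BB

alias Pool.Agent.KSY.cnt_rec := Pool.Agent.KSYP.BB.cnt_rec_pr
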