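import Pool.Agent.Lib_helper80.KSY.Defs

/-!
# One form of degree `D >= 3` (project KSY), block BC: generic forms are irreducible
-/

set_option autoImplicit false

namespace Pool.Agent.KSYP.BC

open MvPolynomial Pool.Agent.KSS Pool.Agent.KSX Pool.Agent.KSY Pool.Agent.Lib_helper56.KSS

section aux

variable {k σ : Type} [Field k]

/-- the top components of the factors of a form -/
theorem bc_top {P Q : MvPolynomial σ k} {r t : ℕ} (hr : P.totalDegree ≤ r)
    (ht : Q.totalDegree ≤ t) (hG : (P * Q).IsHomogeneous (r + t)) :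
    P * Q = homogeneousComponent r P * homogeneousComponent t Q := by
  classical
  have hH : (homogeneousComponent r P * homogeneousComponent t Q).IsHomogeneous (r + t) :=
    (homogeneousComponent_isHomogeneous r P).mul (homogeneousComponent_isHomogeneous t Q)
  ext α
  by_cases hα : α.degree = r + t
  · rw [coeff_mul, coeff_mul]
    refine Finset.sum_congr rfl ?_
    rintro ⟨β, γ⟩ hβγ
    rw [Finset.HasAntidiagonal.mem_antidiagonal] at hβγ
    simp only at hβγ ⊢
    have hdeg : β.degree + γ.degree = r + t := by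
      rw [← hα, ← hβγ, map_add]
    rw [coeff_homogeneousComponent, coeff_homogeneousComponent]
    rcases lt_trichotomy β.degree r with h | h | h
    · have h1 : coeff γ Q = 0 := by
        apply coeff_eq_zero_of_totalDegree_lt
        have : t < γ.degree := by omega
        exact lt_of_le_of_lt ht this
      simp [h1]
    · have h1 : γ.degree = t := by omega
      rw [if_pos h, if_pos h1]
    · have h1 : coeff β P = 0 := by
        apply coeff_eq_zero_of_totalDegree_lt
        exact lt_of_le_of_lt hr h
      simp [h1]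
  · rw [hG.coeff_eq_zero hα, hH.coeff_eq_zero hα]

/-- the monomials of degree `r` -/
abbrev Mo (v r : ℕ) : Type := {α : Fin v →₀ ℕ // α.degree = r}

theorem bc_fin (v r : ℕ) : Finite (Mo v r) := by
  have : {α : Fin v →₀ ℕ | α.degree = r}.Finite := by
    refine (Finset.finite_toSet (Finset.univ.finsuppAntidiag r)).subset ?_
    intro α hα
    have hα' : α.degree = r := hα
    simp only [Finset.mem_coe, Finset.mem_finsuppAntidiag, Finset.subset_univ, and_true]
    rw [← hα', Finsupp.degree_eq_sum]
  exact this.to_subtype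

/-- counting monomials -/
theorem bc_count (v r t : ℕ) (hv : 3 ≤ v) (hr : 1 ≤ r) (ht : 1 ≤ t) :
    Nat.card (Mo v r) + Nat.card (Mo v t) ≤ Nat.card (Mo v (r + t)) := by
  classical
  have f1 := bc_fin v r
  have f2 := bc_fin v t
  have f3 := bc_fin v (r + t)
  obtain ⟨i0, hi0⟩ : ∃ i : Fin v, (i : ℕ) = 0 := ⟨⟨0, by omega⟩, rfl⟩
  obtain ⟨i1, hi1⟩ : ∃ i : Fin v, (i : ℕ) = 1 := ⟨⟨1, by omega⟩, rfl⟩
  obtain ⟨i2, hi2⟩ : ∃ i : Fin v, (i : ℕ) = 2 := ⟨⟨2, by omega⟩, rfl⟩
  have h01 : i0 ≠ i1 := fun h => by rw [h] at hi0; omega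
  have h02 : i0 ≠ i2 := fun h => by rw [h] at hi0; omega
  have h12 : i1 ≠ i2 := fun h => by rw [h] at hi1; omega
  rw [← Nat.card_sum]
  let f : Mo v r ⊕ Mo v t → Mo v (r + t) := Sum.elim
    (fun μ => ⟨μ.1 + Finsupp.single i0 t, by rw [map_add, μ.2, Finsupp.degree_single]⟩)
    (fun ν => if ν.1 = Finsupp.single i0 t then
        ⟨Finsupp.single i2 (r + t), by rw [Finsupp.degree_single]⟩
      else ⟨ν.1 + Finsupp.single i1 r, by
        rw [map_add, ν.2, Finsupp.degree_single, add_comm]⟩)
  have hcross : ∀ (μ : Mo v r) (ν : Mo v t), f (Sum.inl μ) ≠ f (Sum.inr ν) := by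
    intro μ ν h
    have h' := congrArg Subtype.val h
    by_cases hν : ν.1 = Finsupp.single i0 t
    · simp only [f, Sum.elim_inl, Sum.elim_inr, if_pos hν] at h'
      have h2 := DFunLike.congr_fun h' i0
      rw [Finsupp.add_apply, Finsupp.single_eq_same, Finsupp.single_apply, if_neg h02.symm] at h2
      omega
    · simp only [f, Sum.elim_inl, Sum.elim_inr, if_neg hν] at h'
      apply hν
      have h2 := DFunLike.congr_fun h' i0
      rw [Finsupp.add_apply, Finsupp.add_apply, Finsupp.single_eq_same, Finsupp.single_apply,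
        if_neg h01.symm] at h2
      have h3 : ν.1 i0 + ∑ i ∈ Finset.univ.erase i0, ν.1 i = t := by
        rw [Finset.add_sum_erase _ _ (Finset.mem_univ i0), ← Finsupp.degree_eq_sum, ν.2]
      have h4 : ∑ i ∈ Finset.univ.erase i0, ν.1 i = 0 := by omega
      ext i
      by_cases hi : i = i0
      · subst hi
        rw [Finsupp.single_eq_same]
        omega
      · rw [Finsupp.single_apply, if_neg (Ne.symm hi)]
        exact (Finset.sum_eq_zero_iff.1 h4) i (Finset.mem_erase.2 ⟨hi, Finset.mem_univ _⟩)
  refine Nat.card_le_card_of_injective f ?_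
  rintro (μ | μ) (ν | ν) h
  · have h' := congrArg Subtype.val h
    simp only [f, Sum.elim_inl] at h'
    rw [Subtype.ext (add_right_cancel h')]
  · exact absurd h (hcross μ ν)
  · exact absurd h.symm (hcross ν μ)
  · have h' := congrArg Subtype.val h
    congr 1
    apply Subtype.ext
    by_cases hμ : μ.1 = Finsupp.single i0 t <;> by_cases hν : ν.1 = Finsupp.single i0 t
    · rw [hμ, hν]
    · simp only [f, Sum.elim_inr, if_pos hμ, if_neg hν] at h'
      have h2 := DFunLike.congr_fun h' i1
      rw [Finsupp.add_apply, Finsupp.single_eq_same, Finsupp.single_apply, if_neg h12.symm] at h2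
      omega
    · simp only [f, Sum.elim_inr, if_neg hμ, if_pos hν] at h'
      have h2 := DFunLike.congr_fun h' i1
      rw [Finsupp.add_apply, Finsupp.single_eq_same, Finsupp.single_apply, if_neg h12.symm] at h2
      omega
    · simp only [f, Sum.elim_inr, if_neg hμ, if_neg hν] at h'
      exact add_right_cancel h'

theorem bc_unit {P : MvPolynomial σ k} (h0 : P ≠ 0) (hP : ¬ IsUnit P) : 1 ≤ P.totalDegree := by
  by_contra h
  have h1 : P.totalDegree = 0 := by omega
  rw [totalDegree_eq_zero_iff_eq_C] at h1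
  apply hP
  rw [h1]
  apply IsUnit.map
  rw [isUnit_iff_ne_zero]
  intro h2
  rw [h2, C_0] at h1
  exact h0 h1

end aux

/-- (BC) generic forms in at least three variables are irreducible -/
theorem gen_irred_pr (d : Fin 1 → ℕ) (hd : 1 ≤ d 0) (v : ℕ) (hv : 3 ≤ v) {k : Type} [Field k]
    [CharZero k] (G : Fin 1 → MvPolynomial (Fin v) k) (hG : Gen d G) : Irreducible (G 0) := by
  classical
  obtain ⟨hhom, hind⟩ := hG
  have hh := hhom 0
  have hG0 : G 0 ≠ 0 := by
    intro h
    have h1 := hind.ne_zero ⟨0, ⟨Finsupp.single ⟨0, by omega⟩ (d 0), Finsupp.degree_single _ _⟩⟩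
    apply h1
    simp only [h, coeff_zero]
  refine ⟨?_, ?_⟩
  · intro hu
    have h1 := hu.map (constantCoeff (R := k) (σ := Fin v))
    rw [constantCoeff_eq, hh.coeff_eq_zero (by rw [map_zero]; omega)] at h1
    exact not_isUnit_zero h1
  · intro P Q hPQ
    by_contra hcon
    rw [not_or] at hcon
    obtain ⟨hPu, hQu⟩ := hcon
    have hP0 : P ≠ 0 := by
      rintro rfl
      rw [zero_mul] at hPQ
      exact hG0 hPQ
    have hQ0 : Q ≠ 0 := by
      rintro rfl
      rw [mul_zero] at hPQ
      exact hG0 hPQ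
    have hr := bc_unit hP0 hPu
    have ht := bc_unit hQ0 hQu
    set r := P.totalDegree with hrdef
    set t := Q.totalDegree with htdef
    have hrt : r + t = d 0 := by
      rw [← hh.totalDegree hG0, hPQ, totalDegree_mul_of_isDomain hP0 hQ0]
    have htop : G 0 = homogeneousComponent r P * homogeneousComponent t Q := by
      rw [hPQ]
      refine bc_top hrdef.ge htdef.ge ?_
      rw [← hPQ, hrt]
      exact hh
    set P' := homogeneousComponent r P with hP'
    set Q' := homogeneousComponent t Q with hQ'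
    have hP'h : P'.IsHomogeneous r := homogeneousComponent_isHomogeneous r P
    have hQ'h : Q'.IsHomogeneous t := homogeneousComponent_isHomogeneous t Q
    have hP'0 : P' ≠ 0 := by
      intro h
      rw [h, zero_mul] at htop
      exact hG0 htop
    obtain ⟨μ, hμ⟩ := ne_zero_iff.1 hP'0
    have hμr : μ.degree = r := by
      by_contra h
      exact hμ (hP'h.coeff_eq_zero h)
    set c := coeff μ P' with hc
    have f1 := bc_fin v r
    have f2 := bc_fin v t
    have f3 := bc_fin v (r + t)
    let μ0 : Mo v r := ⟨μ, hμr⟩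
    let y : {x : Mo v r // x ≠ μ0} ⊕ Mo v t → k :=
      Sum.elim (fun x => coeff x.1.1 P' * c⁻¹) (fun x => coeff x.1 Q' * c)
    have hyP : ∀ β, coeff β P' * c⁻¹ ∈ Algebra.adjoin ℚ (Set.range y) := by
      intro β
      by_cases h1 : β.degree = r
      · by_cases h2 : β = μ
        · rw [h2, ← hc, mul_inv_cancel₀ hμ]
          exact one_mem _
        · refine Algebra.subset_adjoin ⟨Sum.inl ⟨⟨β, h1⟩, ?_⟩, rfl⟩
          intro h3
          exact h2 (congrArg Subtype.val h3)
      · rw [hP'h.coeff_eq_zero h1, zero_mul]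
        exact zero_mem _
    have hyQ : ∀ γ, coeff γ Q' * c ∈ Algebra.adjoin ℚ (Set.range y) := by
      intro γ
      by_cases h1 : γ.degree = t
      · exact Algebra.subset_adjoin ⟨Sum.inr ⟨γ, h1⟩, rfl⟩
      · rw [hQ'h.coeff_eq_zero h1, zero_mul]
        exact zero_mem _
    have hyG : ∀ α, coeff α (G 0) ∈ Algebra.adjoin ℚ (Set.range y) := by
      intro α
      rw [htop, coeff_mul]
      refine sum_mem fun x _ => ?_
      have h1 : coeff x.1 P' * coeff x.2 Q' = (coeff x.1 P' * c⁻¹) * (coeff x.2 Q' * c) := by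
        field_simp
      rw [h1]
      exact mul_mem (hyP _) (hyQ _)
    let g : Mo v (r + t) → Σ i : Fin 1, {α : Fin v →₀ ℕ // α.degree = d i} :=
      fun α => ⟨0, ⟨α.1, by rw [α.2, hrt]⟩⟩
    have hg : Function.Injective g := by
      intro a b hab
      simp only [g, Sigma.mk.injEq, heq_eq_eq, true_and, Subtype.mk.injEq] at hab
      exact Subtype.ext hab
    have hind2 := hind.comp g hg
    have hle := card_le_tau (K := ℚ) y _ hind2 (fun j => mem_closure_of_adjoin (hyG _))
    have hle2 := tau_le_card (K := ℚ) y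
    have hcount := bc_count v r t hv hr ht
    have hopt : Nat.card {x : Mo v r // x ≠ μ0} + 1 = Nat.card (Mo v r) := by
      rw [← Finite.card_option]
      exact Nat.card_congr (Equiv.optionSubtypeNe μ0)
    rw [Nat.card_sum] at hle2
    omega

end Pool.Agent.KSYP.BC

alias Pool.Agent.KSY.gen_irred := Pool.Agent.KSYP.BC.gen_irred_pr
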