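import Pool.Agent.Lib_helper80.KSY.Defs

/-!
# Block BD (project KSY): counting dimensions
-/

set_option autoImplicit false

namespace Pool.Agent.KSYP.BD

open Pool.Agent.KSY
open MvPolynomial Pool.Agent.KSS Pool.Agent.KSX Pool.Agent.Lib_helper56.KSS Filter Topology
open Pool.Agent.Lib_helper80.KSX (subJ)

/-! ### numbers -/

theorem mc_mono (n j : ℕ) : Nat.multichoose (n + 1) j ≤ Nat.multichoose (n + 1) (j + 1) := by
  rw [Nat.multichoose_succ_succ]
  exact Nat.le_add_left _ _

theorem mc_add (n j t : ℕ) : Nat.multichoose (n + 1 + 1) (j + t) ≤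
    Nat.multichoose (n + 1 + 1) j + t * Nat.multichoose (n + 1) (j + t) := by
  induction t with
  | zero => simp
  | succ t ih =>
    have h1 : Nat.multichoose (n + 1 + 1) (j + (t + 1)) =
        Nat.multichoose (n + 1) (j + (t + 1)) + Nat.multichoose (n + 1 + 1) (j + t) := by
      rw [← add_assoc, Nat.multichoose_succ_succ]
    have h2 : Nat.multichoose (n + 1) (j + t) ≤ Nat.multichoose (n + 1) (j + (t + 1)) := by
      rw [← add_assoc]
      exact mc_mono n _
    have h3 : t * Nat.multichoose (n + 1) (j + t) ≤ t * Nat.multichoose (n + 1) (j + (t + 1)) :=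
      Nat.mul_le_mul_left t h2
    rw [h1, add_mul, one_mul]
    omega

theorem mc_sum (n D N : ℕ) (hD : 1 ≤ D) : Nat.multichoose (n + 1 + 1) (D * N) ≤
    D * ∑ c ∈ Finset.range (N + 1), Nat.multichoose (n + 1) (D * c) := by
  induction N with
  | zero => simpa using hD
  | succ N ih =>
    have e : D * (N + 1) = D * N + D := by ring
    rw [e, Finset.sum_range_succ, mul_add, e]
    have h1 := mc_add n (D * N) D
    omega

theorem mc_ratio (n M : ℕ) : (n + 1) * Nat.multichoose (n + 1 + 1) M =
    (M + (n + 1)) * Nat.multichoose (n + 1) M := by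
  rw [Nat.multichoose_eq, Nat.multichoose_eq]
  have e1 : n + 1 + 1 + M - 1 = n + M + 1 := by omega
  have e2 : n + 1 + M - 1 = n + M := by omega
  rw [e1, e2]
  have h2 : (n + M + 1).choose M * (n + M + 1 - M) = (n + M).choose M * (n + M + 1) := by
    have := Nat.choose_mul_succ_eq (n + M) M
    rw [this]
  have e3 : n + M + 1 - M = n + 1 := by omega
  rw [e3] at h2
  rw [mul_comm, h2]
  ring

theorem mc_key (n D m : ℕ) (hD : 1 ≤ D) :
    Nat.multichoose (n + 1 + 1) (D * (m * (n + 1))) <
      ∑ c ∈ Finset.range (m * (n + 1) + 1), Nat.multichoose (n + 1) (D * c) +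
        Nat.multichoose (n + 1 + 1) (D * (m * (n + 1)) - m) := by
  set M := D * (m * (n + 1)) with hM
  have hmM : m ≤ M := by
    rw [hM]
    calc m = 1 * (m * 1) := by ring
      _ ≤ D * (m * (n + 1)) := Nat.mul_le_mul hD (Nat.mul_le_mul_left m (by omega))
  have h1 := mc_sum n D (m * (n + 1)) hD
  have h2 := mc_ratio n M
  have h3 : Nat.multichoose (n + 1 + 1) M = (D * m + 1) * Nat.multichoose (n + 1) M := by
    have h4 : (n + 1) * Nat.multichoose (n + 1 + 1) M =
        (n + 1) * ((D * m + 1) * Nat.multichoose (n + 1) M) := by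
      rw [h2, hM]
      ring
    exact Nat.eq_of_mul_eq_mul_left (by omega) h4
  have h5 := mc_add n (M - m) m
  rw [Nat.sub_add_cancel hmM] at h5
  have h6 : 0 < Nat.multichoose (n + 1) M := by
    rw [Nat.multichoose_eq]
    exact Nat.choose_pos (by omega)
  set S := ∑ c ∈ Finset.range (m * (n + 1) + 1), Nat.multichoose (n + 1) (D * c) with hS
  have h7 : m * Nat.multichoose (n + 1) M < S := by
    by_contra hcon
    push Not at hcon
    have h8 : D * S ≤ D * (m * Nat.multichoose (n + 1) M) := Nat.mul_le_mul_left D hcon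
    rw [← hM] at h1
    rw [h3] at h1
    have h9 : (D * m + 1) * Nat.multichoose (n + 1) M =
        D * (m * Nat.multichoose (n + 1) M) + Nat.multichoose (n + 1) M := by ring
    omega
  omega

/-! ### the polynomials -/

theorem dvd_cancel {k : Type} [Field k] {n : ℕ} {G F : MvPolynomial (Fin (n + 1)) k}
    (hG : Prime G) (hGF : ¬ G ∣ F) (H : MvPolynomial (Fin (n + 1)) k) (c : ℕ)
    (h : F ∣ G ^ c * H) : F ∣ H := by
  induction c with
  | zero => simpa using h
  | succ c ih =>
    apply ih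
    obtain ⟨Q, hQ⟩ := h
    have h1 : G ∣ F * Q := by
      rw [← hQ, pow_succ']
      exact ⟨G ^ c * H, by ring⟩
    rcases hG.dvd_or_dvd h1 with h2 | h2
    · exact absurd h2 hGF
    · obtain ⟨Q', rfl⟩ := h2
      refine ⟨Q', mul_left_cancel₀ hG.ne_zero ?_⟩
      calc G * (G ^ c * H) = G ^ (c + 1) * H := by ring
        _ = F * (G * Q') := hQ
        _ = G * (F * Q') := by ring

abbrev PP (n D N : ℕ) : Type :=
  Σ c : Fin (N + 1), ↥((Finset.univ : Finset (Fin n)).finsuppAntidiag (D * (c : ℕ)))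

abbrev QQ' (n M : ℕ) : Type := ↥((Finset.univ : Finset (Fin n)).finsuppAntidiag M)

theorem card_QQ (n M : ℕ) : Fintype.card (QQ' n M) = Nat.multichoose n M := by
  rw [Fintype.card_coe, Finset.card_finsuppAntidiag_nat_eq_multichoose, Finset.card_univ,
    Fintype.card_fin]

theorem card_PP (n D N : ℕ) : Fintype.card (PP n D N) =
    ∑ c ∈ Finset.range (N + 1), Nat.multichoose n (D * c) := by
  rw [Fintype.card_sigma, ← Fin.sum_univ_eq_sum_range (fun c => Nat.multichoose n (D * c))]
  refine Finset.sum_congr rfl fun c _ => ?_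
  exact card_QQ n (D * (c : ℕ))

theorem deg_mem {n M : ℕ} (q : QQ' n M) : Finsupp.degree (q : Fin n →₀ ℕ) = M := by
  have h := q.2
  rw [Finset.mem_finsuppAntidiag] at h
  rw [Finsupp.degree_eq_sum]
  exact h.1

theorem mem_deg {n M : ℕ} (q : Fin n →₀ ℕ) (h : Finsupp.degree q = M) :
    q ∈ (Finset.univ : Finset (Fin n)).finsuppAntidiag M := by
  rw [Finset.mem_finsuppAntidiag]
  rw [Finsupp.degree_eq_sum] at h
  exact ⟨h, Finset.subset_univ _⟩

/-- a nonzero combination which is divisible by `F` -/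
theorem exists_comb {k : Type} [Field k] {n : ℕ} (J : Fin (n + 1 + 1)) (D : ℕ)
    (hD : 1 ≤ D) (G : MvPolynomial (Fin (n + 1 + 1)) k) (hG : G.IsHomogeneous D)
    (m : ℕ) (F : MvPolynomial (Fin (n + 1 + 1)) k) (hF : F.IsHomogeneous m) (hF0 : F ≠ 0)
    (N : ℕ) (hN : N = m * (n + 1)) :
    ∃ a : PP (n + 1) D N → k, a ≠ 0 ∧
      F ∣ ∑ p, a p • (G ^ (N - (p.1 : ℕ)) *
        rename J.succAbove (monomial (p.2 : Fin (n + 1) →₀ ℕ) (1 : k))) := by
  set M := D * N with hM
  have hmM : m ≤ M := by
    rw [hM, hN]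
    calc m = 1 * (m * 1) := by ring
      _ ≤ D * (m * (n + 1)) := Nat.mul_le_mul hD (Nat.mul_le_mul_left m (by omega))
  set A : (PP (n + 1) D N → k) →ₗ[k] MvPolynomial (Fin (n + 1 + 1)) k :=
    Fintype.linearCombination k (fun p : PP (n + 1) D N => G ^ (N - (p.1 : ℕ)) *
        rename J.succAbove (monomial (p.2 : Fin (n + 1) →₀ ℕ) (1 : k))) with hA
  set B : (QQ' (n + 1 + 1) (M - m) → k) →ₗ[k] MvPolynomial (Fin (n + 1 + 1)) k :=
    Fintype.linearCombination k (fun q : QQ' (n + 1 + 1) (M - m) =>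
      monomial (q : Fin (n + 1 + 1) →₀ ℕ) (1 : k)) with hB
  have hAapp : ∀ a, A a = ∑ p, a p • (G ^ (N - (p.1 : ℕ)) *
        rename J.succAbove (monomial (p.2 : Fin (n + 1) →₀ ℕ) (1 : k))) := fun a => rfl
  have hBapp : ∀ b, B b = ∑ q, b q • monomial (q : Fin (n + 1 + 1) →₀ ℕ) (1 : k) := fun b => rfl
  set T0 : (PP (n + 1) D N → k) × (QQ' (n + 1 + 1) (M - m) → k) →ₗ[k]
      MvPolynomial (Fin (n + 1 + 1)) k :=
    A.comp (LinearMap.fst k _ _) - (LinearMap.mulLeft k F).comp (B.comp (LinearMap.snd k _ _))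
    with hT0
  have hT0app : ∀ x, T0 x = A x.1 - F * B x.2 := fun x => rfl
  set T : (PP (n + 1) D N → k) × (QQ' (n + 1 + 1) (M - m) → k) →ₗ[k]
      (QQ' (n + 1 + 1) M → k) :=
    LinearMap.pi (fun r => (MvPolynomial.lcoeff k (r : Fin (n + 1 + 1) →₀ ℕ)).comp T0) with hT
  have hTapp : ∀ x r, T x r = coeff (r : Fin (n + 1 + 1) →₀ ℕ) (T0 x) := fun x r => rfl
  have hker : LinearMap.ker T ≠ ⊥ := by
    apply LinearMap.ker_ne_bot_of_finrank_lt
    rw [Module.finrank_prod, Module.finrank_fintype_fun_eq_card,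
      Module.finrank_fintype_fun_eq_card, Module.finrank_fintype_fun_eq_card, card_QQ, card_QQ,
      card_PP, hM, hN]
    exact mc_key n D m hD
  obtain ⟨x, hx, hx0⟩ := Submodule.exists_mem_ne_zero_of_ne_bot hker
  have hAh : (A x.1).IsHomogeneous M := by
    rw [hAapp]
    refine IsHomogeneous.sum _ _ _ fun p _ => ?_
    rw [smul_eq_C_mul]
    have h1 : (G ^ (N - (p.1 : ℕ))).IsHomogeneous (D * (N - (p.1 : ℕ))) := hG.pow _
    have h2 : (rename J.succAbove (monomial (p.2 : Fin (n + 1) →₀ ℕ) (1 : k))).IsHomogeneous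
        (D * (p.1 : ℕ)) :=
      (isHomogeneous_monomial _ (deg_mem p.2)).rename_isHomogeneous
    have h3 := (isHomogeneous_C (Fin (n + 1 + 1)) (x.1 p)).mul (h1.mul h2)
    have h4 : 0 + (D * (N - (p.1 : ℕ)) + D * (p.1 : ℕ)) = M := by
      rw [zero_add, ← mul_add, Nat.sub_add_cancel (Nat.lt_succ_iff.1 p.1.2)]
    rwa [h4] at h3
  have hBh : (F * B x.2).IsHomogeneous M := by
    have h1 : (B x.2).IsHomogeneous (M - m) := by
      rw [hBapp]
      refine IsHomogeneous.sum _ _ _ fun q _ => ?_
      rw [smul_monomial]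
      exact isHomogeneous_monomial _ (deg_mem q)
    have h2 := hF.mul h1
    rwa [Nat.add_sub_cancel' hmM] at h2
  have hz : T0 x = 0 := by
    have hh : (T0 x).IsHomogeneous M := by
      rw [hT0app]
      exact hAh.sub hBh
    ext d
    rw [coeff_zero]
    by_cases hd : Finsupp.degree d = M
    · have h1 : T x ⟨d, mem_deg d hd⟩ = 0 := by
        rw [LinearMap.mem_ker.1 hx]
        rfl
      rwa [hTapp] at h1
    · exact hh.coeff_eq_zero hd
  have heq : A x.1 = F * B x.2 := by
    rw [hT0app] at hz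
    exact sub_eq_zero.1 hz
  refine ⟨x.1, ?_, ?_⟩
  · intro hx1
    rw [hx1, map_zero] at heq
    have h1 : B x.2 = 0 := by
      rcases mul_eq_zero.1 heq.symm with h | h
      · exact absurd h hF0
      · exact h
    apply hx0
    refine Prod.ext hx1 ?_
    funext q
    have h2 : coeff (q : Fin (n + 1 + 1) →₀ ℕ) (B x.2) = x.2 q := by
      rw [hBapp, coeff_sum, Finset.sum_eq_single q]
      · rw [coeff_smul, coeff_monomial, if_pos rfl]
        simp
      · intro q' _ hq'
        rw [coeff_smul, coeff_monomial, if_neg (fun h => hq' (Subtype.ext h))]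
        simp
      · intro h
        exact absurd (Finset.mem_univ q) h
    rw [← h2, h1, coeff_zero]
    rfl
  · rw [← hAapp, heq]
    exact dvd_mul_right _ _

/-- (BD) counting dimensions -/
theorem exists_phi_pr {k : Type} [Field k] {n : ℕ} (hn : 1 ≤ n) (J : Fin (n + 1)) (D : ℕ)
    (hD : 1 ≤ D) (G : MvPolynomial (Fin (n + 1)) k) (hG : G.IsHomogeneous D)
    (hirr : Irreducible G) (m : ℕ) (F : MvPolynomial (Fin (n + 1)) k) (hF : F.IsHomogeneous m)
    (hGF : ¬ G ∣ F) :
    ∃ (M' : ℕ) (Φ : MvPolynomial (Option (Fin n)) k), M' ≤ D * m * n ∧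
      IsWeightedHomogeneous (fun t : Option (Fin n) => t.elim D (fun _ => 1)) Φ M' ∧
      killCompl (Option.some_injective (Fin n)) Φ ≠ 0 ∧
      F ∣ bind₁ (fun t : Option (Fin n) => t.elim G (fun i => X (J.succAbove i))) Φ := by
  classical
  obtain ⟨n, rfl⟩ : ∃ n', n = n' + 1 := ⟨n - 1, by omega⟩
  have hGp : Prime G := hirr.prime
  have hF0 : F ≠ 0 := by
    rintro rfl
    exact hGF (dvd_zero G)
  obtain ⟨N, hN⟩ : ∃ N, N = m * (n + 1) := ⟨_, rfl⟩
  obtain ⟨a, ha0, haF⟩ := exists_comb J D hD G hG m F hF hF0 N hN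
  -- the largest index with a nonzero coefficient
  obtain ⟨p1, hp1, hmax⟩ : ∃ p1 : PP (n + 1) D N, a p1 ≠ 0 ∧
      ∀ p : PP (n + 1) D N, a p ≠ 0 → (p.1 : ℕ) ≤ (p1.1 : ℕ) := by
    have hne : ((Finset.univ : Finset (PP (n + 1) D N)).filter (fun p => a p ≠ 0)).Nonempty := by
      by_contra hcon
      apply ha0
      funext p
      by_contra hp
      exact hcon ⟨p, by simpa using hp⟩
    obtain ⟨p1, h1, h2⟩ := Finset.exists_max_image _ (fun p : PP (n + 1) D N => (p.1 : ℕ)) hne
    refine ⟨p1, by simpa using h1, fun p hp => h2 p (by simpa using hp)⟩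
  set c1 : ℕ := (p1.1 : ℕ) with hc1
  have hc1N : c1 ≤ N := Nat.lt_succ_iff.1 p1.1.2
  set Φ : MvPolynomial (Option (Fin (n + 1))) k := ∑ p, a p • (X none ^ (c1 - (p.1 : ℕ)) *
    rename some (monomial (p.2 : Fin (n + 1) →₀ ℕ) (1 : k))) with hΦ
  refine ⟨D * c1, Φ, ?_, ?_, ?_, ?_⟩
  · calc D * c1 ≤ D * N := Nat.mul_le_mul_left D hc1N
      _ = D * m * (n + 1) := by rw [hN]; ring
  · rw [hΦ]
    refine IsWeightedHomogeneous.sum _ _ _ fun p _ => ?_
    by_cases hp : a p = 0
    · rw [hp, zero_smul]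
      exact isWeightedHomogeneous_zero _ _ _
    · have hle := hmax p hp
      rw [smul_eq_C_mul]
      have h1 : IsWeightedHomogeneous (fun t : Option (Fin (n + 1)) => t.elim D (fun _ => 1))
          (X none ^ (c1 - (p.1 : ℕ)) : MvPolynomial (Option (Fin (n + 1))) k)
          ((c1 - (p.1 : ℕ)) • D) := (isWeightedHomogeneous_X k _ none).pow _
      have h2 : IsWeightedHomogeneous (fun t : Option (Fin (n + 1)) => t.elim D (fun _ => 1))
          (rename some (monomial (p.2 : Fin (n + 1) →₀ ℕ) (1 : k))) (D * (p.1 : ℕ)) := by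
        rw [rename_monomial]
        refine isWeightedHomogeneous_monomial _ _ _ ?_
        rw [Finsupp.weight_apply, Finsupp.sum_mapDomain_index (by simp) (by intros; simp [add_mul])]
        have h3 := deg_mem p.2
        rw [Finsupp.degree_eq_sum] at h3
        rw [Finsupp.sum_fintype _ _ (by simp)]
        simpa using h3
      have h4 := (isWeightedHomogeneous_C _ (a p)).mul (h1.mul h2)
      have h5 : 0 + ((c1 - (p.1 : ℕ)) • D + D * (p.1 : ℕ)) = D * c1 := by
        rw [zero_add, smul_eq_mul, mul_comm _ D, ← mul_add, Nat.sub_add_cancel hle]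
      rwa [h5] at h4
  · intro h0
    apply hp1
    have hX : killCompl (Option.some_injective (Fin (n + 1)))
        (X none : MvPolynomial (Option (Fin (n + 1))) k) = 0 := by
      simp [killCompl]
    have h1 : coeff (p1.2 : Fin (n + 1) →₀ ℕ) (killCompl (Option.some_injective (Fin (n + 1))) Φ) =
        a p1 := by
      rw [hΦ, map_sum, coeff_sum, Finset.sum_eq_single p1]
      · have e : c1 - (p1.1 : ℕ) = 0 := by omega
        rw [map_smul, map_mul, map_pow, killCompl_rename_app, e, pow_zero,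
          one_mul, coeff_smul, coeff_monomial, if_pos rfl]
        simp
      · intro p _ hp
        rw [map_smul, map_mul, map_pow, killCompl_rename_app, hX, coeff_smul]
        by_cases hap : a p = 0
        · rw [hap, zero_smul]
        · rcases Nat.lt_or_ge (p.1 : ℕ) c1 with h2 | h2
          · rw [zero_pow (by omega), zero_mul, coeff_zero, smul_zero]
          · have h3 : (p.1 : ℕ) = c1 := le_antisymm (hmax p hap) h2
            have e : c1 - (p.1 : ℕ) = 0 := by omega
            rw [e, pow_zero, one_mul, coeff_monomial, if_neg, smul_zero]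
            intro h4
            apply hp
            obtain ⟨pc, pe⟩ := p
            obtain ⟨qc, qe⟩ := p1
            have h5 : pc = qc := Fin.ext h3
            subst h5
            congr 1
            exact Subtype.ext h4
      · intro h
        exact absurd (Finset.mem_univ p1) h
    rw [← h1, h0, coeff_zero]
  · refine dvd_cancel hGp hGF _ (N - c1) ?_
    have h1 : G ^ (N - c1) * bind₁ (fun t : Option (Fin (n + 1)) => t.elim G
        (fun i => X (J.succAbove i))) Φ = ∑ p, a p • (G ^ (N - (p.1 : ℕ)) *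
        rename J.succAbove (monomial (p.2 : Fin (n + 1) →₀ ℕ) (1 : k))) := by
      rw [hΦ, map_sum, Finset.mul_sum]
      refine Finset.sum_congr rfl fun p _ => ?_
      by_cases hp : a p = 0
      · rw [hp, zero_smul, zero_smul, map_zero, mul_zero]
      · have hle := hmax p hp
        rw [map_smul, map_mul, map_pow, bind₁_X_right, bind₁_rename, mul_smul_comm, ← mul_assoc]
        have h2 : G ^ (N - c1) * (none : Option (Fin (n + 1))).elim G
            (fun i => X (J.succAbove i)) ^ (c1 - (p.1 : ℕ)) = G ^ (N - (p.1 : ℕ)) := by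
          rw [Option.elim_none, ← pow_add]
          congr 1
          omega
        rw [h2]
        have h3 : bind₁ ((fun t : Option (Fin (n + 1)) => t.elim G
            (fun i => X (J.succAbove i))) ∘ some) (monomial (p.2 : Fin (n + 1) →₀ ℕ) (1 : k)) =
            rename J.succAbove (monomial (p.2 : Fin (n + 1) →₀ ℕ) (1 : k)) := by
          have h4 : ((fun t : Option (Fin (n + 1)) => t.elim G
            (fun i => (X (J.succAbove i) : MvPolynomial (Fin (n + 1 + 1)) k))) ∘ some) =
            fun i => X (J.succAbove i) := by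
            funext i
            rfl
          rw [h4]
          have h5 := bind₁_rename (X : Fin (n + 1 + 1) → MvPolynomial (Fin (n + 1 + 1)) k)
            J.succAbove (monomial (p.2 : Fin (n + 1) →₀ ℕ) (1 : k))
          rw [bind₁_X_left, AlgHom.id_apply] at h5
          exact h5.symm
        rw [h3]
    rw [h1]
    exact haF


end Pool.Agent.KSYP.BD

alias Pool.Agent.KSY.exists_phi := Pool.Agent.KSYP.BD.exists_phi_pr
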