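import Pool.Agent.Lib_helper80.KSY.Defs
import Pool.Agent.Lib_helper77.KSZ.R2

/-! KSY, block BE: the order of a form is at most its degree times the codimension -/

set_option autoImplicit false
set_option linter.unusedVariables false

namespace Pool.Agent.KSYP.BE

open Pool.Agent.KSY
open MvPolynomial Pool.Agent.KSS Pool.Agent.KSX Pool.Agent.Lib_helper56.KSS Filter Topology
open Pool.Agent.Lib_helper80.KSX (subJ full_sep)

/-- (BE) the order of a form of degree `M` is at most `M` times the codimension -/
theorem lct_mono_pr {k κ V : Type} [Field k] [Field κ] [Algebra k κ] [Fintype V] {L : ℕ}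
    (y : V → Fin L → κ) (h : MvPolynomial V k) (M : ℕ) (hh : h.IsHomogeneous M) (h0 : h ≠ 0)
    (l : ℕ) (hl : l ≤ L) (hd : (PowerSeries.X : PowerSeries κ) ^ l ∣ ev y h) :
    l + M * tauJ k y ≤ M * (Fintype.card V * L) := by
  classical
  obtain ⟨ω, hω⟩ := full_sep (fun _ : V => 1) (fun _ => one_pos) M
  obtain ⟨F0, i1, i2, x0, h1, h2⟩ := TIJ (k := k) (fun _ : V => 1) ω (fun _ => one_pos) y
  have hne : h.support.Nonempty := Finset.nonempty_iff_ne_empty.2 fun e => h0 (support_eq_empty.1 e)
  obtain ⟨d, hds, hdmin⟩ := Finset.exists_min_image h.support (Finsupp.weight ω) hne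
  have hw1 : ∀ e ∈ h.support, Finsupp.weight (fun _ : V => 1) e = M := fun e he =>
    hh (mem_support_iff.1 he)
  have h3 := h2 h M (Finsupp.weight ω d) hh (fun e he => hdmin e he) l hl hd
  have hcomp : weightedHomogeneousComponent ω (Finsupp.weight ω d) h = monomial d (coeff d h) := by
    ext e
    rw [coeff_weightedHomogeneousComponent, coeff_monomial]
    by_cases he : e ∈ h.support
    · by_cases hed : d = e
      · subst hed
        rw [if_pos rfl, if_pos rfl]
      · rw [if_neg hed, if_neg]
        intro hwe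
        exact hed (hω M le_rfl d e (hw1 d hds) (hw1 e he) hwe.symm)
    · have hc : coeff e h = 0 := by
        by_contra hc
        exact he (mem_support_iff.2 hc)
      by_cases hed : d = e
      · subst hed
        exact absurd hds he
      · rw [if_neg hed, hc, ite_self]
  rw [hcomp] at h3
  have hcd : coeff d h ≠ 0 := mem_support_iff.1 hds
  have hmem : monomial d (coeff d h) ∈ FM k x0 {d} l := by
    rw [mem_FM]
    refine ⟨?_, h3⟩
    intro e he
    have := support_monomial_subset he
    simpa using this
  have hfin : Finite ({d} : Set (V →₀ ℕ)) := Set.finite_singleton d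
  have hmf : Module.Finite k (FM k x0 {d} l) := FM_finite x0 _ l
  have hpos : 0 < Module.finrank k (FM k x0 {d} l) := by
    have : Nontrivial (FM k x0 {d} l) := by
      refine ⟨⟨⟨_, hmem⟩, 0, fun e => ?_⟩⟩
      have e2 := congrArg Subtype.val e
      simp only [ZeroMemClass.coe_zero] at e2
      exact hcd (monomial_eq_zero.1 e2)
    exact Module.finrank_pos
  have h4 := tor_single (k := k) x0 d l hl
  have h5 : l ≤ ∑ i, d i * ordL L (arc (x0 i)) := by
    by_contra hcon
    rw [if_neg hcon] at h4
    omega
  have h6 : ∑ i, d i * ordL L (arc (x0 i)) ≤ M * ∑ i, ordL L (arc (x0 i)) := by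
    rw [Finset.mul_sum]
    refine Finset.sum_le_sum fun i _ => Nat.mul_le_mul_right _ ?_
    have h7 := hw1 d hds
    rw [Finsupp.weight_apply, Finsupp.sum_fintype _ _ (by intro; rw [zero_smul])] at h7
    simp only [smul_eq_mul, mul_one] at h7
    rw [← h7]
    exact Finset.single_le_sum (f := fun i => d i) (fun _ _ => Nat.zero_le _) (Finset.mem_univ i)
  have h8 := tauJ_add_ord_le (k := k) x0
  have h9 : M * tauJ k y ≤ M * tauJ k x0 := Nat.mul_le_mul_left _ h1
  have h10 : M * (tauJ k x0 + ∑ i, ordL L (arc (x0 i))) ≤ M * (Fintype.card V * L) :=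
    Nat.mul_le_mul_left _ h8
  rw [Nat.mul_add] at h10
  omega

end Pool.Agent.KSYP.BE

alias Pool.Agent.KSY.lct_mono := Pool.Agent.KSYP.BE.lct_mono_pr
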