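import Pool.Agent.Lib_helper80.KSY.Defs
import Pool.Agent.Lib_helper77.KSZ.XGRD
import Pool.Agent.Lib_helper77.KSZ.XKER
import Pool.Agent.Lib_helper80.KSYF.BC
import Pool.Agent.Lib_helper80.KSYF.BD
import Pool.Agent.Lib_helper80.KSYF.BE

/-! KSY, block BF: linear bound for the order of forms not divisible by `G` -/

set_option autoImplicit false
set_option linter.unusedVariables false

namespace Pool.Agent.KSYP.BF

open Pool.Agent.KSY
open MvPolynomial Pool.Agent.KSS Pool.Agent.KSX Pool.Agent.Lib_helper56.KSS Filter Topology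
open Pool.Agent.Lib_helper80.KSX (subJ arc_subJ ev_subJ)

theorem bf_pt {κ : Type} [Field κ] {n L : ℕ} (hL : 0 < L) (x : Fin (n + 1) → Fin L → κ)
    (h0 : c0J x = 0) : lead x 0 ≠ 0 := by
  intro hcon
  obtain ⟨i, hi⟩ := exists_eq_ciInf_of_finite (f := fun i => ordL L (arc (x i)))
  unfold c0J at h0
  rw [h0] at hi
  have h1 : PowerSeries.coeff 0 (arc (x i)) = 0 := congrFun hcon i
  have h2 : (PowerSeries.X : PowerSeries κ) ^ 1 ∣ arc (x i) := by
    rw [PowerSeries.X_pow_dvd_iff]
    intro m hm
    have : m = 0 := by omega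
    rw [this]
    exact h1
  have h3 := (dvd_iff_le_ordL (show 1 ≤ L from hL) (arc (x i))).1 h2
  omega

/-- the component of weight zero -/
theorem bf_comp {k : Type} [Field k] {n : ℕ} (Φ : MvPolynomial (Option (Fin n)) k) :
    weightedHomogeneousComponent (fun t : Option (Fin n) => t.elim 1 (fun _ => 0)) 0 Φ =
      rename some (killCompl (Option.some_injective (Fin n)) Φ) := by
  classical
  have hw : ∀ δ : Option (Fin n) →₀ ℕ,
      Finsupp.weight (fun t : Option (Fin n) => t.elim 1 (fun _ => 0)) δ = δ none := by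
    intro δ
    rw [Finsupp.weight_apply, Finsupp.sum_fintype _ _ (by intro; rw [zero_smul]),
      Fintype.sum_option]
    simp
  have h1 : ∀ δ ∈ Φ.support,
      weightedHomogeneousComponent (fun t : Option (Fin n) => t.elim 1 (fun _ => 0)) 0
        (monomial δ (coeff δ Φ)) =
      rename some (killCompl (Option.some_injective (Fin n)) (monomial δ (coeff δ Φ))) := by
    intro δ _
    by_cases h : δ none = 0
    · have hsub : (δ.support : Set (Option (Fin n))) ⊆ Set.range some := by
        intro t ht
        cases t with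
        | none =>
          rw [Finset.mem_coe, Finsupp.mem_support_iff] at ht
          exact absurd h ht
        | some i => exact ⟨i, rfl⟩
      rw [killCompl_monomial_eq_monomial_comapDomain_of_subset _ _ hsub, rename_monomial,
        Finsupp.mapDomain_comapDomain _ (Option.some_injective _) _ hsub,
        weightedHomogeneousComponent_of_mem (n := 0), if_pos rfl]
      exact isWeightedHomogeneous_monomial _ _ _ ((hw δ).trans h)
    · rw [killCompl_monomial_eq_zero_of_notMem_range _ _ (a := none)
        (Finsupp.mem_support_iff.2 h) (by rintro ⟨i, hi⟩; cases hi), map_zero]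
      refine weightedHomogeneousComponent_eq_zero' _ _ fun d hd => ?_
      have h1 := support_monomial_subset hd
      rw [Finset.mem_singleton] at h1
      rw [h1, hw]
      exact h
  conv_lhs => rw [← support_sum_monomial_coeff Φ]
  conv_rhs => rw [← support_sum_monomial_coeff Φ]
  simp only [map_sum]
  exact Finset.sum_congr rfl h1

theorem bf_homog {k : Type} [Field k] {n D M : ℕ} (Φ : MvPolynomial (Option (Fin n)) k)
    (h : IsWeightedHomogeneous (fun t : Option (Fin n) => t.elim D (fun _ => 1)) Φ M) :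
    (killCompl (Option.some_injective (Fin n)) Φ).IsHomogeneous M := by
  classical
  intro δ hδ
  have h1 : coeff (Finsupp.mapDomain some δ)
      (rename some (killCompl (Option.some_injective (Fin n)) Φ)) ≠ 0 := by
    rw [coeff_rename_mapDomain _ (Option.some_injective _)]
    exact hδ
  rw [← bf_comp, coeff_weightedHomogeneousComponent] at h1
  split_ifs at h1 with h2
  · have h3 := h h1
    rw [Finsupp.weight_apply, Finsupp.sum_mapDomain_index (by intro; rw [zero_smul])
      (by intro _ m n; rw [add_smul])] at h3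
    rw [← h3, Finsupp.weight_apply]
    rfl
  · exact absurd rfl h1

/-- (BF) linear bound for the order of forms not divisible by `G` -/
theorem izumi_jet_pr (d : Fin 1 → ℕ) (hd : 2 ≤ d 0) (n : ℕ) (hn : 2 ≤ n) {k κ : Type} [Field k]
    [CharZero k] [Field κ] [Algebra k κ] (G : Fin 1 → MvPolynomial (Fin (n + 1)) k)
    (hG : Gen d G) {L : ℕ} (hL : 0 < L) (x : Fin (n + 1) → Fin L → κ) (h0 : c0J x = 0)
    (hg : 0 < ordL L (ev x (G 0))) (m l : ℕ) (hl : l ≤ L) (F : MvPolynomial (Fin (n + 1)) k)
    (hF : F.IsHomogeneous m) (hGF : ¬ G 0 ∣ F)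
    (hX : (PowerSeries.X : PowerSeries κ) ^ l ∣ ev x F) :
    l + d 0 * m * n * (tauJ k x + ordL L (ev x (G 0))) ≤ d 0 * m * n * ((n + 1) * L) := by
  classical
  -- the point and the partial derivative
  have hpt := bf_pt hL x h0
  have hLI := grad_indep_pr d (fun i => by
    rw [Fin.fin_one_eq_zero i]; omega) G hG (lead x 0) hpt (Finset.univ : Finset (Fin 1)) 0
    (fun i _ hi => absurd (Fin.fin_one_eq_zero i) hi)
  have hne := hLI.ne_zero ⟨0, Finset.mem_univ _⟩
  obtain ⟨J, hJ⟩ : ∃ J, grad G (lead x 0) 0 J ≠ 0 := by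
    by_contra hno
    apply hne
    funext q
    by_contra h
    exact hno ⟨q, h⟩
  have hdet : (Matrix.of fun i i' : (Finset.univ : Finset (Fin 1)) =>
      grad G (lead x 0) i ((fun _ => J) i')).det ≠ 0 := by
    rw [Matrix.det_eq_elem_of_card_eq_one (by simp) ⟨0, Finset.mem_univ _⟩]
    exact hJ
  have htau1 := ker_tau_pr d G hG.1 x 0 hL (fun q => Nat.zero_le _)
    (Finset.univ : Finset (Fin 1)) (fun _ => J) hdet
  simp only [mul_zero, Finset.sum_const_zero, add_zero] at htau1
  -- the jet `y`
  obtain ⟨Ψ, hΨ⟩ : ∃ Ψ : Option (Fin n) → MvPolynomial (Fin (n + 1)) k,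
    Ψ = fun t : Option (Fin n) => t.elim (G 0) (fun i => X (J.succAbove i)) := ⟨_, rfl⟩
  obtain ⟨y, hy⟩ : ∃ y : Option (Fin n) → Fin L → κ, y = subJ Ψ x := ⟨_, rfl⟩
  have hynone : ∀ μ : Fin L, y none μ = PowerSeries.coeff (μ : ℕ) (ev x (G 0)) := by
    intro μ
    rw [hy, hΨ]
    rfl
  have hysome : ∀ (i : Fin n) (μ : Fin L), y (some i) μ = x (J.succAbove i) μ := by
    intro i μ
    rw [hy, hΨ]
    show PowerSeries.coeff (μ : ℕ) (ev x (X (J.succAbove i))) = _
    rw [ev_X, coeff_arc]
  have htau2 : tauJ k x ≤ tauJ k y := by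
    refine htau1.trans ?_
    unfold tauJ
    have hq : ∀ q : {q : Fin (n + 1) //
        q ∉ Set.range (fun _ : (Finset.univ : Finset (Fin 1)) => J)},
        ∃ i : Fin n, J.succAbove i = q.1 := by
      intro q
      refine Fin.exists_succAbove_eq ?_
      intro h
      exact q.2 ⟨⟨0, Finset.mem_univ _⟩, h.symm⟩
    choose ι hι using hq
    rw [tau_eq, tau_eq]
    have h1 : (Sum.elim (fun s : {q : Fin (n + 1) //
        q ∉ Set.range (fun _ : (Finset.univ : Finset (Fin 1)) => J)} × Fin L => x s.1 s.2)
        (fun s : (↥(Finset.univ : Finset (Fin 1))) × Fin L =>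
          PowerSeries.coeff (s.2 : ℕ) (ev x (G s.1)))) =
        fun s => (fun p : Option (Fin n) × Fin L => y p.1 p.2)
          (Sum.elim (fun s => (some (ι s.1), s.2)) (fun s => (none, s.2)) s) := by
      funext s
      rcases s with s | s
      · simp only [Sum.elim_inl]
        rw [hysome, hι]
      · simp only [Sum.elim_inr]
        rw [hynone, Fin.fin_one_eq_zero s.1.1]
    rw [h1]
    exact tau_comp_le (K := k) (fun p : Option (Fin n) × Fin L => y p.1 p.2) _
  -- the degeneration
  obtain ⟨F0, i1, i2, y0, htau3, hT⟩ := TIJ (k := k)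
    (fun t : Option (Fin n) => t.elim (d 0) (fun _ => 1))
    (fun t : Option (Fin n) => t.elim 1 (fun _ => 0)) (by
      intro t
      cases t
      · show 0 < d 0
        omega
      · exact Nat.one_pos) y
  set g : ℕ := ordL L (ev x (G 0)) with hgdef
  have hgL : g ≤ L := ordL_le _ _
  have hord : g ≤ ordL L (arc (y0 none)) := by
    rw [← dvd_iff_le_ordL hgL]
    have h1 : (PowerSeries.X : PowerSeries κ) ^ g ∣ ev y (X none : MvPolynomial (Option (Fin n)) k) := by
      rw [ev_X]
      have h2 : (PowerSeries.X : PowerSeries κ) ^ L ∣ arc (y none) - ev x (G 0) := by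
        have := arc_subJ Ψ x none
        rw [← hy] at this
        rw [hΨ] at this
        exact this
      have h3 := (pow_dvd_pow _ hgL).trans h2
      have h4 : (PowerSeries.X : PowerSeries κ) ^ g ∣ ev x (G 0) := ordL_dvd L _
      have h5 := dvd_add h3 h4
      rwa [sub_add_cancel] at h5
    have h2 := hT (X none) (d 0) 1 (isWeightedHomogeneous_X k _ none) (by
      intro δ hδ
      have h6 : δ = Finsupp.single none 1 := by
        have := support_monomial_subset hδ
        rwa [Finset.mem_singleton] at this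
      rw [h6, Finsupp.weight_apply, Finsupp.sum_single_index (by rw [zero_smul])]
      simp) g hgL h1
    rw [weightedHomogeneousComponent_of_mem (n := 1) (isWeightedHomogeneous_X k _ none),
      if_pos rfl, ev_X] at h2
    exact h2
  have htau4 : tauJ k y0 ≤ tauJ k (fun i => y0 (some i)) + (L - g) := by
    have h1 := tauJ_threshold (k := k) y0 (fun _ : Unit => y0 none) (fun i => y0 (some i))
      (fun _ => g) (fun t => by
        cases t with
        | none => exact Or.inl ⟨(), rfl⟩
        | some i => exact Or.inr ⟨i, rfl⟩) (fun _ μ hμ => by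
        rw [eq_zero_of_lt_ordL (y0 none) μ (lt_of_lt_of_le hμ hord)]
        exact zero_mem_closure _)
    simpa using h1
  -- the polynomial
  obtain ⟨M', Φ, hM', hΦ, hΦ0, hdvd⟩ := exists_phi (k := k) (n := n) (by omega) J (d 0)
    (by omega) (G 0) (hG.1 0) (gen_irred d (by omega) (n + 1) (by omega) G hG) m F hF hGF
  rw [← hΨ] at hdvd
  have h1 : (PowerSeries.X : PowerSeries κ) ^ l ∣ ev y Φ := by
    have h2 : ev x F ∣ ev x (bind₁ Ψ Φ) := by
      obtain ⟨Q, hQ⟩ := hdvd
      rw [hQ, ev_mul]
      exact dvd_mul_right _ _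
    have h3 := (pow_dvd_pow _ hl).trans (ev_subJ Ψ x Φ)
    rw [← hy] at h3
    have h4 := dvd_add h3 (hX.trans h2)
    rwa [sub_add_cancel] at h4
  have h2 := hT Φ M' 0 hΦ (fun _ _ => Nat.zero_le _) l hl h1
  rw [bf_comp, ev_rename] at h2
  have h3 := lct_mono (fun i => y0 (some i)) _ M' (bf_homog Φ hΦ) hΦ0 l hl h2
  rw [Fintype.card_fin] at h3
  have h4 := tauJ_add_ord_le (k := k) (fun i => y0 (some i))
  rw [Fintype.card_fin] at h4
  set τ' : ℕ := tauJ k (fun i => y0 (some i)) with hτ'
  have h5 : τ' ≤ n * L := by omega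
  obtain ⟨c, hc⟩ := Nat.exists_eq_add_of_le h5
  have h6 : l ≤ M' * c := by
    have h7 : M' * (n * L) = M' * τ' + M' * c := by
      rw [hc, mul_add]
    omega
  have h8 : tauJ k x + g + c ≤ (n + 1) * L := by
    have h9 : (n + 1) * L = n * L + L := by ring
    omega
  calc l + d 0 * m * n * (tauJ k x + g)
      ≤ d 0 * m * n * c + d 0 * m * n * (tauJ k x + g) :=
        Nat.add_le_add_right (h6.trans (Nat.mul_le_mul_right c hM')) _
    _ = d 0 * m * n * (tauJ k x + g + c) := by ring
    _ ≤ _ := Nat.mul_le_mul_left _ h8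

end Pool.Agent.KSYP.BF

alias Pool.Agent.KSY.izumi_jet := Pool.Agent.KSYP.BF.izumi_jet_pr
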