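import Pool.Agent.Lib_helper80.KSY.Defs
import Pool.Agent.Lib_helper80.KSYF.BC
import Pool.Agent.Lib_helper80.KSYF.BF

/-!
# One form of degree `D >= 3` (project KSY), block BG: the linear bound for records
-/

set_option autoImplicit false

namespace Pool.Agent.KSYP.BG

open MvPolynomial Pool.Agent.KSS Pool.Agent.KSX Pool.Agent.KSY Pool.Agent.Lib_helper56.KSS

section aux

variable {k σ : Type} [Field k]

/-- the top components of the factors of a form -/
theorem bg_top {P Q : MvPolynomial σ k} {r t : ℕ} (hr : P.totalDegree ≤ r)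
    (ht : Q.totalDegree ≤ t) (hG : (P * Q).IsHomogeneous (r + t)) :
    P * Q = homogeneousComponent r P * homogeneousComponent t Q := by
  classical
  have hH : (homogeneousComponent r P * homogeneousComponent t Q).IsHomogeneous (r + t) :=
    (homogeneousComponent_isHomogeneous r P).mul (homogeneousComponent_isHomogeneous t Q)
  ext α
  by_cases hα : α.degree = r + t
  · rw [coeff_mul, coeff_mul]
    refine Finset.sum_congr rfl ?_
    rintro ⟨β, γ⟩ hβγ
    rw [Finset.HasAntidiagonal.mem_antidiagonal] at hβγ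
    simp only at hβγ ⊢
    have hdeg : β.degree + γ.degree = r + t := by
      rw [← hα, ← hβγ, map_add]
    rw [coeff_homogeneousComponent, coeff_homogeneousComponent]
    rcases lt_trichotomy β.degree r with h | h | h
    · have h1 : coeff γ Q = 0 := by
        apply coeff_eq_zero_of_totalDegree_lt
        have : t < γ.degree := by omega
        exact lt_of_le_of_lt ht this
      simp [h1]
    · have h1 : γ.degree = t := by omega
      rw [if_pos h, if_pos h1]
    · have h1 : coeff β P = 0 := by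
        apply coeff_eq_zero_of_totalDegree_lt
        exact lt_of_le_of_lt hr h
      simp [h1]
  · rw [hG.coeff_eq_zero hα, hH.coeff_eq_zero hα]

/-- a factor of a form by a form is a form -/
theorem bg_factor {A B : MvPolynomial σ k} {p m : ℕ} (hA : A.IsHomogeneous p)
    (hAB : (A * B).IsHomogeneous m) (h0 : A * B ≠ 0) : p ≤ m ∧ B.IsHomogeneous (m - p) := by
  have hA0 : A ≠ 0 := left_ne_zero_of_mul h0
  have hB0 : B ≠ 0 := right_ne_zero_of_mul h0
  have h1 : m = p + B.totalDegree := by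
    rw [← hAB.totalDegree h0, totalDegree_mul_of_isDomain hA0 hB0, hA.totalDegree hA0]
  refine ⟨by omega, ?_⟩
  have h2 : m - p = B.totalDegree := by omega
  rw [h2]
  have h3 := bg_top (hA.totalDegree_le) (le_refl B.totalDegree) (by rw [← h1]; exact hAB)
  have h4 : homogeneousComponent p A = A := homogeneousComponent_eq_self hA
  rw [h4] at h3
  have h5 := mul_left_cancel₀ hA0 h3
  have h6 := homogeneousComponent_isHomogeneous B.totalDegree B
  rwa [← h5] at h6

end aux

/-- (BG) the same for records -/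
theorem izumi_rec_pr (d : Fin 1 → ℕ) (hd : 2 ≤ d 0) (n : ℕ) (hn : 2 ≤ n) (R : Rec 1)
    (hR : R.Of d (n + 1)) (h0 : R.c0 = 0) (hg0 : 0 < R.g 0) (hgL : R.g 0 < R.L)
    (m l β : ℕ) (hl : l ≤ R.L)
    (h : ((β * R.g 0 : ℕ) : ℤ) + d 0 * m * n * ((n + 1) * R.L - R.τ - R.g 0) < l) :
    (R.fil m l : ℤ) ≤ if d 0 * (β + 1) ≤ m then NN d (n + 1) ∅ (m - d 0 * (β + 1)) else 0 := by
  classical
  obtain ⟨k, hk1, hk2, G, κ, hκ1, hκ2, x, hGen, hτ, hfil, hg, hc⟩ := hR
  have hirr := gen_irred d (by omega) (n + 1) (by omega) G hGen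
  have hGh := hGen.1 0
  have hG0 : G 0 ≠ 0 := hirr.ne_zero
  rw [← hfil m l hl]
  have hLpos : 0 < R.L := by omega
  -- the linear bound
  have hiz : ∀ (m' l' : ℕ), l' ≤ R.L → ∀ F : MvPolynomial (Fin (n + 1)) k, F.IsHomogeneous m' →
      ¬ G 0 ∣ F → (PowerSeries.X : PowerSeries κ) ^ l' ∣ ev x F →
      l' + d 0 * m' * n * (R.τ + R.g 0) ≤ d 0 * m' * n * ((n + 1) * R.L) := by
    intro m' l' hl' F hF hGF hX
    have := izumi_jet d hd n hn G hGen hLpos x (by rw [hc]; exact h0) (by rw [hg]; exact hg0)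
      m' l' hl' F hF hGF hX
    rwa [hτ, hg 0] at this
  -- the codimension is nonnegative
  have hc1 : R.τ + R.g 0 ≤ (n + 1) * R.L := by
    have hX : ¬ G 0 ∣ (X 0 : MvPolynomial (Fin (n + 1)) k) := by
      rintro ⟨B, hB⟩
      have h1 := (bg_factor hGh (by rw [← hB]; exact isHomogeneous_X k 0)
        (by rw [← hB]; exact X_ne_zero _)).1
      omega
    have h1 := hiz 1 0 (Nat.zero_le _) (X 0) (isHomogeneous_X k 0) hX (by
      rw [pow_zero]
      exact one_dvd _)
    rw [zero_add] at h1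
    exact Nat.le_of_mul_le_mul_left h1 (by positivity)
  -- all the forms are divisible by a power of `G`
  have hdvd : ∀ F ∈ Fil k x m l, (G 0) ^ (β + 1) ∣ F := by
    rintro F ⟨hF, hFX⟩
    by_cases hF0 : F = 0
    · rw [hF0]
      exact dvd_zero _
    obtain ⟨b, F1, hnd, hFeq⟩ := WfDvdMonoid.max_power_factor hF0 hirr
    by_cases hb : β + 1 ≤ b
    · rw [hFeq]
      exact (pow_dvd_pow _ hb).trans (dvd_mul_right _ _)
    exfalso
    have hGb : ((G 0) ^ b).IsHomogeneous (d 0 * b) := hGh.pow b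
    obtain ⟨hle, hF1⟩ := bg_factor hGb (by rw [← hFeq]; exact hF) (by rw [← hFeq]; exact hF0)
    have hX1 : (PowerSeries.X : PowerSeries κ) ^ (l - b * R.g 0) ∣ ev x F1 := by
      have h1 : ev x F = (∏ i ∈ ({()} : Finset Unit), (fun _ => ev x (G 0)) i ^ (fun _ => b) i) *
          ev x F1 := by
        rw [Finset.prod_singleton, hFeq, ev_mul]
        congr 1
        unfold ev
        rw [map_pow]
      have h2 := hFX
      rw [h1] at h2
      have h3 := dvd_of_mul_prod _ _ _ _ hl h2
      rw [Finset.sum_singleton, hg 0] at h3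
      exact h3
    have h2 := hiz (m - d 0 * b) (l - b * R.g 0) (by omega) F1 hF1 hnd hX1
    have h3 : ((l : ℤ) - b * R.g 0) ≤
        d 0 * ((m - d 0 * b : ℕ) : ℤ) * n * ((n + 1) * R.L - R.τ - R.g 0) := by
      have h4 : ((l : ℤ) - b * R.g 0) ≤ ((l - b * R.g 0 : ℕ) : ℤ) := by
        omega
      have h5 : (((l - b * R.g 0 : ℕ) : ℤ)) +
          d 0 * ((m - d 0 * b : ℕ) : ℤ) * n * (R.τ + R.g 0) ≤
          d 0 * ((m - d 0 * b : ℕ) : ℤ) * n * ((n + 1) * R.L) := by
        exact_mod_cast h2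
      linarith
    have h6 : (0 : ℤ) ≤ (n + 1) * R.L - R.τ - R.g 0 := by
      have : ((R.τ + R.g 0 : ℕ) : ℤ) ≤ (((n + 1) * R.L : ℕ) : ℤ) := by exact_mod_cast hc1
      push_cast at this
      linarith
    have h7 : (d 0 * ((m - d 0 * b : ℕ) : ℤ) * n) ≤ d 0 * m * n := by
      have : ((d 0 * (m - d 0 * b) * n : ℕ) : ℤ) ≤ ((d 0 * m * n : ℕ) : ℤ) := by
        exact_mod_cast Nat.mul_le_mul_right n (Nat.mul_le_mul_left (d 0) (Nat.sub_le m _))
      push_cast at this ⊢
      linarith
    have h8 := mul_le_mul_of_nonneg_right h7 h6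
    have h9 : (b : ℤ) * R.g 0 ≤ β * R.g 0 := by
      apply mul_le_mul_of_nonneg_right _ (Nat.cast_nonneg _)
      exact_mod_cast (by omega : b ≤ β)
    push_cast at h
    linarith
  have hpow : ((G 0) ^ (β + 1)).IsHomogeneous (d 0 * (β + 1)) := hGh.pow (β + 1)
  split_ifs with hm
  · rw [← finrank_hom_pr k d (n + 1) (m - d 0 * (β + 1))]
    have hfin : Module.Finite k (homogeneousSubmodule (Fin (n + 1)) k (m - d 0 * (β + 1))) :=
      Module.Finite.iff_fg.2 (homogeneousSubmodule_fg (Fin (n + 1)) k _)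
    have h1 : Fil k x m l ≤ (homogeneousSubmodule (Fin (n + 1)) k (m - d 0 * (β + 1))).map
        (LinearMap.mulLeft k ((G 0) ^ (β + 1))) := by
      intro F hF
      obtain ⟨E, hE⟩ := hdvd F hF
      by_cases hF0 : F = 0
      · rw [hF0]
        exact zero_mem _
      obtain ⟨-, hE2⟩ := bg_factor hpow (by rw [← hE]; exact hF.1) (by rw [← hE]; exact hF0)
      exact ⟨E, (mem_homogeneousSubmodule _ _).2 hE2, hE.symm⟩
    exact_mod_cast (Submodule.finrank_mono h1).trans (Submodule.finrank_map_le _ _)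
  · have h1 : Fil k x m l = ⊥ := by
      rw [eq_bot_iff]
      intro F hF
      rw [Submodule.mem_bot]
      by_contra hF0
      obtain ⟨E, hE⟩ := hdvd F hF
      exact hm (bg_factor hpow (by rw [← hE]; exact hF.1) (by rw [← hE]; exact hF0)).1
    rw [h1, finrank_bot]
    exact le_rfl

end Pool.Agent.KSYP.BG

alias Pool.Agent.KSY.izumi_rec := Pool.Agent.KSYP.BG.izumi_rec_pr
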