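import Pool.Agent.Lib_helper80.KSY.Defs

/-!
# Block CB of project KSY: `lam_icc`, `h0_icc`
-/

set_option autoImplicit false

namespace Pool.Agent.KSYP.CB

open MvPolynomial Pool.Agent.KSS Pool.Agent.KSX Pool.Agent.KSY Filter Topology

/-- shift of the second index -/
theorem shift (L : ℕ) (f : ℕ → ℝ) (h0 : ∀ l, 0 ≤ f l) (w : ℕ) :
    ∑ l ∈ Finset.Icc 1 L, f (l - w) ≤ w * f 0 + ∑ l ∈ Finset.Icc 1 L, f l := by
  have hI : ∀ g : ℕ → ℝ, ∑ l ∈ Finset.Icc 1 L, g l = ∑ l ∈ Finset.range L, g (l + 1) := by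
    intro g
    rw [Finset.range_eq_Ico, Finset.sum_Ico_add' g 0 L 1]
    rfl
  induction w with
  | zero => simp
  | succ w ih =>
    have h1 := Finset.sum_range_succ' (fun l => f (l - w)) L
    have h2 := Finset.sum_range_succ (fun l => f (l - w)) L
    have h3 : ∑ l ∈ Finset.Icc 1 L, f (l - (w + 1)) = ∑ l ∈ Finset.range L, f (l - w) := by
      rw [hI]
      apply Finset.sum_congr rfl
      intro l _
      congr 1
      omega
    have h4 : ∑ l ∈ Finset.Icc 1 L, f (l - w) = ∑ l ∈ Finset.range L, f (l + 1 - w) := hI _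
    rw [h2, ← h4] at h1
    have h5 : 0 ≤ f (L - w) := h0 _
    have h6 : f (0 - w) = f 0 := by rw [Nat.zero_sub]
    rw [h3]
    push_cast
    linarith

/-- shift of the first index -/
theorem shift1 (M k : ℕ) (q : ℝ) (hq : 0 ≤ q) (g : ℕ → ℝ) (hg : ∀ m, 0 ≤ g m) :
    ∑ m ∈ Finset.range (M + 1), (if k ≤ m then q ^ m * g (m - k) else 0) ≤
      q ^ k * ∑ m ∈ Finset.range (M + 1), q ^ m * g m := by
  rw [← Finset.sum_filter]
  have h1 : (Finset.range (M + 1)).filter (fun m => k ≤ m) = Finset.Ico k (M + 1) := by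
    ext m
    simp only [Finset.mem_filter, Finset.mem_range, Finset.mem_Ico]
    omega
  rw [h1, Finset.sum_Ico_eq_sum_range, Finset.mul_sum]
  refine le_trans (le_of_eq ?_) (Finset.sum_le_sum_of_subset_of_nonneg
    (Finset.range_mono (Nat.sub_le (M + 1) k)) fun i _ _ => mul_nonneg (pow_nonneg hq _)
      (mul_nonneg (pow_nonneg hq _) (hg _)))
  refine Finset.sum_congr rfl fun i _ => ?_
  rw [Nat.add_sub_cancel_left, pow_add, mul_assoc]

/-- exchange of the sums -/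
theorem swap (n M c0 : ℕ) (q : ℝ) (hq : 0 ≤ q) (g : ℕ → ℕ → ℝ) (hg : ∀ c m, 0 ≤ g c m) :
    ∑ m ∈ Finset.range (M + 1), q ^ m *
        ∑ c ∈ (Finset.range (M + 1)).filter (fun c => c0 ≤ c ∧ n * c ≤ m), g c (m - n * c) ≤
      ∑ c ∈ (Finset.range (M + 1)).filter (fun c => c0 ≤ c),
        (q ^ n) ^ c * ∑ m ∈ Finset.range (M + 1), q ^ m * g c m := by
  have h1 : ∀ m, q ^ m * ∑ c ∈ (Finset.range (M + 1)).filter (fun c => c0 ≤ c ∧ n * c ≤ m),
      g c (m - n * c) = ∑ c ∈ (Finset.range (M + 1)).filter (fun c => c0 ≤ c),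
        (if n * c ≤ m then q ^ m * g c (m - n * c) else 0) := by
    intro m
    rw [Finset.mul_sum, ← Finset.filter_filter, Finset.sum_filter]
  rw [Finset.sum_congr rfl fun m _ => h1 m, Finset.sum_comm]
  refine Finset.sum_le_sum fun c _ => ?_
  rw [← pow_mul]
  exact shift1 M (n * c) q hq (g c) (hg c)

theorem hasSum1 (Q : ℝ) (hQ0 : 0 ≤ Q) (hQ1 : Q < 1) :
    HasSum (fun c : ℕ => Q ^ c) (1 - Q)⁻¹ := hasSum_geometric_of_lt_one hQ0 hQ1

theorem hasSum2 (Q : ℝ) (hQ0 : 0 ≤ Q) (hQ1 : Q < 1) :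
    HasSum (fun c : ℕ => (c : ℝ) * Q ^ c) (Q / (1 - Q) ^ 2) :=
  hasSum_coe_mul_geometric_of_norm_lt_one (by rwa [Real.norm_of_nonneg hQ0])

/-- the general inequality for `LamF` -/
theorem lam_gen (n M L c0 e : ℕ) (q : ℝ) (hq : 0 ≤ q) (F : ℕ → ℕ → ℕ) (S1 S2 : ℝ)
    (h1 : ∑ c ∈ (Finset.range (M + 1)).filter (fun c => c0 ≤ c), (q ^ n) ^ c ≤ S1)
    (h2 : ∑ c ∈ (Finset.range (M + 1)).filter (fun c => c0 ≤ c), (c : ℝ) * (q ^ n) ^ c ≤ S2) :
    LamF q M L (fun m l => ∑ c ∈ (Finset.range (M + 1)).filter (fun c => c0 ≤ c ∧ n * c ≤ m),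
      F (m - n * c) (l - c * e)) ≤ S1 * LamF q M L F + e * S2 * H0F q M F := by
  have hF : ∀ m l, (0 : ℝ) ≤ (F m l : ℝ) := fun m l => Nat.cast_nonneg _
  have hLam : 0 ≤ LamF q M L F := Finset.sum_nonneg fun m _ => mul_nonneg (pow_nonneg hq _)
    (Finset.sum_nonneg fun l _ => hF m l)
  have hH0 : 0 ≤ H0F q M F := Finset.sum_nonneg fun m _ => mul_nonneg (pow_nonneg hq _) (hF m 0)
  have hA : LamF q M L (fun m l =>
      ∑ c ∈ (Finset.range (M + 1)).filter (fun c => c0 ≤ c ∧ n * c ≤ m),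
      F (m - n * c) (l - c * e)) ≤ ∑ m ∈ Finset.range (M + 1), q ^ m *
        ∑ c ∈ (Finset.range (M + 1)).filter (fun c => c0 ≤ c ∧ n * c ≤ m),
          (fun c m => ((c * e : ℕ) : ℝ) * (F m 0 : ℝ) + ∑ l ∈ Finset.Icc 1 L, (F m l : ℝ)) c
            (m - n * c) := by
    unfold LamF
    refine Finset.sum_le_sum fun m _ => mul_le_mul_of_nonneg_left ?_ (pow_nonneg hq _)
    push_cast
    rw [Finset.sum_comm]
    refine Finset.sum_le_sum fun c _ => ?_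
    have h3 := shift L (fun l => (F (m - n * c) l : ℝ)) (fun l => hF _ _) (c * e)
    push_cast at h3
    exact h3
  refine hA.trans ((swap n M c0 q hq _ fun c m => add_nonneg (mul_nonneg (Nat.cast_nonneg _)
    (hF m 0)) (Finset.sum_nonneg fun l _ => hF m l)).trans ?_)
  have hB : ∀ c : ℕ, ∑ m ∈ Finset.range (M + 1), q ^ m *
      (((c * e : ℕ) : ℝ) * (F m 0 : ℝ) + ∑ l ∈ Finset.Icc 1 L, (F m l : ℝ)) =
      c * e * H0F q M F + LamF q M L F := by
    intro c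
    unfold H0F LamF
    rw [Finset.mul_sum, ← Finset.sum_add_distrib]
    refine Finset.sum_congr rfl fun m _ => ?_
    push_cast
    ring
  simp only [hB]
  have hC : ∑ c ∈ (Finset.range (M + 1)).filter (fun c => c0 ≤ c),
      (q ^ n) ^ c * (c * e * H0F q M F + LamF q M L F) =
      (∑ c ∈ (Finset.range (M + 1)).filter (fun c => c0 ≤ c), (q ^ n) ^ c) * LamF q M L F +
      e * (∑ c ∈ (Finset.range (M + 1)).filter (fun c => c0 ≤ c), (c : ℝ) * (q ^ n) ^ c) *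
        H0F q M F := by
    rw [Finset.sum_mul, Finset.mul_sum, Finset.sum_mul, ← Finset.sum_add_distrib]
    refine Finset.sum_congr rfl fun c _ => ?_
    ring
  rw [hC]
  exact add_le_add (mul_le_mul_of_nonneg_right h1 hLam) (mul_le_mul_of_nonneg_right
    (mul_le_mul_of_nonneg_left h2 (Nat.cast_nonneg _)) hH0)

/-- the general inequality for `H0F` -/
theorem h0_gen (n M c0 e : ℕ) (q : ℝ) (hq : 0 ≤ q) (F : ℕ → ℕ → ℕ) (S1 : ℝ)
    (h1 : ∑ c ∈ (Finset.range (M + 1)).filter (fun c => c0 ≤ c), (q ^ n) ^ c ≤ S1) :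
    H0F q M (fun m l => ∑ c ∈ (Finset.range (M + 1)).filter (fun c => c0 ≤ c ∧ n * c ≤ m),
      F (m - n * c) (l - c * e)) ≤ S1 * H0F q M F := by
  have hF : ∀ m l, (0 : ℝ) ≤ (F m l : ℝ) := fun m l => Nat.cast_nonneg _
  have hH0 : 0 ≤ H0F q M F := Finset.sum_nonneg fun m _ => mul_nonneg (pow_nonneg hq _) (hF m 0)
  have hA : H0F q M (fun m l =>
      ∑ c ∈ (Finset.range (M + 1)).filter (fun c => c0 ≤ c ∧ n * c ≤ m),
      F (m - n * c) (l - c * e)) = ∑ m ∈ Finset.range (M + 1), q ^ m *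
        ∑ c ∈ (Finset.range (M + 1)).filter (fun c => c0 ≤ c ∧ n * c ≤ m),
          (fun (_ : ℕ) m => (F m 0 : ℝ)) c (m - n * c) := by
    unfold H0F
    refine Finset.sum_congr rfl fun m _ => ?_
    push_cast
    simp only [Nat.zero_sub]
  rw [hA]
  refine (swap n M c0 q hq (fun _ m => (F m 0 : ℝ)) fun c m => hF m 0).trans ?_
  rw [← Finset.sum_mul]
  exact mul_le_mul_of_nonneg_right h1 hH0

theorem set_eq {n M m : ℕ} (hn : 1 ≤ n) (hm : m ∈ Finset.range (M + 1)) :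
    (Finset.range (M + 1)).filter (fun c => 1 ≤ c ∧ n * c ≤ m) =
      (Finset.Icc 1 m).filter (fun c => n * c ≤ m) := by
  ext c
  simp only [Finset.mem_filter, Finset.mem_range, Finset.mem_Icc] at hm ⊢
  have h1 : c ≤ n * c := Nat.le_mul_of_pos_left c hn
  omega

theorem geo1 (Q : ℝ) (hQ0 : 0 < Q) (hQ1 : Q < 1) (M : ℕ) :
    ∑ c ∈ (Finset.range (M + 1)).filter (fun c => 1 ≤ c), Q ^ c ≤ Q / (1 - Q) := by
  have h1 := sum_le_hasSum (Finset.range (M + 1)) (fun c _ => pow_nonneg hQ0.le c)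
    (hasSum1 Q hQ0.le hQ1)
  have h2 : ∑ c ∈ Finset.range (M + 1), Q ^ c =
      1 + ∑ c ∈ (Finset.range (M + 1)).filter (fun c => 1 ≤ c), Q ^ c := by
    rw [← Finset.sum_filter_add_sum_filter_not (Finset.range (M + 1)) (fun c => 1 ≤ c), add_comm]
    congr 1
    have h3 : (Finset.range (M + 1)).filter (fun c => ¬ 1 ≤ c) = {0} := by
      ext c
      simp only [Finset.mem_filter, Finset.mem_range, Finset.mem_singleton]
      omega
    rw [h3, Finset.sum_singleton, pow_zero]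
  have h4 : (1 - Q)⁻¹ = 1 + Q / (1 - Q) := by
    have : (1 - Q) ≠ 0 := by linarith
    field_simp
    ring
  linarith

theorem geo2 (Q : ℝ) (hQ0 : 0 < Q) (hQ1 : Q < 1) (M : ℕ) :
    ∑ c ∈ (Finset.range (M + 1)).filter (fun c => 1 ≤ c), (c : ℝ) * Q ^ c ≤
      Q / (1 - Q) ^ 2 :=
  sum_le_hasSum _ (fun c _ => mul_nonneg (Nat.cast_nonneg _) (pow_nonneg hQ0.le c))
    (hasSum2 Q hQ0.le hQ1)

/-- (CB) -/
theorem lam_icc_pr (n : ℕ) (hn : 1 ≤ n) (q : ℝ) (hq0 : 0 < q) (hq1 : q < 1) (M0 L e : ℕ)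
    (F : ℕ → ℕ → ℕ) :
    LamF q M0 L (fun m l => ∑ c ∈ (Finset.Icc 1 m).filter (fun c => n * c ≤ m),
      F (m - n * c) (l - c * e)) ≤
      q ^ n / (1 - q ^ n) * LamF q M0 L F + e * (q ^ n / (1 - q ^ n) ^ 2) * H0F q M0 F := by
  have hQ0 : 0 < q ^ n := pow_pos hq0 n
  have hQ1 : q ^ n < 1 := pow_lt_one₀ hq0.le hq1 (by omega)
  refine le_trans (le_of_eq ?_) (lam_gen n M0 L 1 e q hq0.le F _ _ (geo1 _ hQ0 hQ1 M0)
    (geo2 _ hQ0 hQ1 M0))
  unfold LamF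
  refine Finset.sum_congr rfl fun m hm => ?_
  beta_reduce
  rw [set_eq hn hm]

/-- (CB) -/
theorem h0_icc_pr (n : ℕ) (hn : 1 ≤ n) (q : ℝ) (hq0 : 0 < q) (hq1 : q < 1) (M0 e : ℕ)
    (F : ℕ → ℕ → ℕ) :
    H0F q M0 (fun m l => ∑ c ∈ (Finset.Icc 1 m).filter (fun c => n * c ≤ m),
      F (m - n * c) (l - c * e)) ≤ q ^ n / (1 - q ^ n) * H0F q M0 F := by
  have hQ0 : 0 < q ^ n := pow_pos hq0 n
  have hQ1 : q ^ n < 1 := pow_lt_one₀ hq0.le hq1 (by omega)
  refine le_trans (le_of_eq ?_) (h0_gen n M0 1 e q hq0.le F _ (geo1 _ hQ0 hQ1 M0))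
  unfold H0F
  refine Finset.sum_congr rfl fun m hm => ?_
  beta_reduce
  rw [set_eq hn hm]


end Pool.Agent.KSYP.CB

alias Pool.Agent.KSY.lam_icc := Pool.Agent.KSYP.CB.lam_icc_pr

alias Pool.Agent.KSY.h0_icc := Pool.Agent.KSYP.CB.h0_icc_pr
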