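import Pool.Agent.Lib_helper80.KSY.Defs
import Pool.Agent.Lib_helper77.KSZ.XNTB

/-!
# KSY block CC: sums over the exponents with minimum zero
-/

set_option autoImplicit false

namespace Pool.Agent.KSYP.CC

open MvPolynomial Pool.Agent.KSS Pool.Agent.KSX Pool.Agent.KSY Filter Topology

/-- shift of the sum over the orders -/
theorem shift_le (L : ℕ) (f : ℕ → ℝ) (hf : ∀ l, 0 ≤ f l) (w : ℕ) :
    ∑ l ∈ Finset.Icc 1 L, f (l - w) ≤ w * f 0 + ∑ l ∈ Finset.Icc 1 L, f l := by
  induction w with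
  | zero => simp
  | succ w ih =>
    rw [ntb_Icc L (fun l => f (l - (w + 1)))]
    have h1 : ∑ l ∈ Finset.range L, f (l + 1 - (w + 1)) = ∑ l ∈ Finset.range L, f (l - w) := by
      refine Finset.sum_congr rfl fun l _ => ?_
      congr 1
      omega
    rw [h1]
    rw [ntb_Icc L (fun l => f (l - w))] at ih
    have h2 := Finset.sum_range_succ (fun l => f (l - w)) L
    have h3 := Finset.sum_range_succ' (fun l => f (l - w)) L
    have h4 := hf (L - w)
    rw [Nat.zero_sub] at h3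
    push_cast
    linarith

/-- (CC) -/
theorem lam_exps_pr (n : ℕ) (hn : 1 ≤ n) (q : ℝ) (hq0 : 0 < q) (hq1 : q < 1) (M0 L : ℕ)
    (e : Fin n → ℕ) (F : ℕ → ℕ → ℕ) :
    LamF q M0 L (fun m l => ∑ γ ∈ (Exps n m).filter (fun γ => mina γ = 0),
      F (m - ∑ i, γ i) (l - ∑ i, γ i * e i)) ≤
      (1 - q ^ n) / (1 - q) ^ n * LamF q M0 L F
        + (q - q ^ n) / (1 - q) ^ (n + 1) * (∑ i, (e i : ℝ)) * H0F q M0 F := by
  have h1q : 0 < 1 - q := by linarith
  have hH0 : 0 ≤ H0F q M0 F := by unfold H0F; positivity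
  have hL0 : 0 ≤ LamF q M0 L F := by unfold LamF; positivity
  -- the pointwise shift
  have e1 : LamF q M0 L (fun m l => ∑ γ ∈ (Exps n m).filter (fun γ => mina γ = 0),
      F (m - ∑ i, γ i) (l - ∑ i, γ i * e i)) ≤
      ∑ m ∈ Finset.range (M0 + 1), q ^ m * ∑ γ ∈ Exps n m,
        (if mina γ = 0 then (∑ i, (γ i : ℝ) * e i) else 0) * (F (m - ∑ i, γ i) 0 : ℝ) +
      ∑ m ∈ Finset.range (M0 + 1), q ^ m * ∑ γ ∈ Exps n m,
        (if mina γ = 0 then (1 : ℝ) else 0) *
          (∑ l ∈ Finset.Icc 1 L, (F (m - ∑ i, γ i) l : ℝ)) := by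
    unfold LamF
    rw [← Finset.sum_add_distrib]
    refine Finset.sum_le_sum fun m _ => ?_
    rw [← mul_add]
    refine mul_le_mul_of_nonneg_left ?_ (by positivity)
    rw [← Finset.sum_add_distrib]
    have e2 : ∑ l ∈ Finset.Icc 1 L, ((∑ γ ∈ (Exps n m).filter (fun γ => mina γ = 0),
        F (m - ∑ i, γ i) (l - ∑ i, γ i * e i) : ℕ) : ℝ) =
        ∑ γ ∈ Exps n m, if mina γ = 0 then
          ∑ l ∈ Finset.Icc 1 L, (F (m - ∑ i, γ i) (l - ∑ i, γ i * e i) : ℝ) else 0 := by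
      push_cast
      rw [Finset.sum_comm, Finset.sum_filter]
    rw [e2]
    refine Finset.sum_le_sum fun γ _ => ?_
    by_cases hγ : mina γ = 0
    · simp only [if_pos hγ, one_mul]
      have := shift_le L (fun l => (F (m - ∑ i, γ i) l : ℝ)) (fun _ => Nat.cast_nonneg _)
        (∑ i, γ i * e i)
      push_cast at this
      exact this
    · simp only [if_neg hγ, zero_mul, add_zero]
      exact le_refl _
  refine e1.trans ?_
  have hw1 : ∀ γ : Fin n → ℕ, 0 ≤ (if mina γ = 0 then (1 : ℝ) else 0) := fun γ => by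
    split_ifs <;> norm_num
  have hw2 : ∀ γ : Fin n → ℕ, 0 ≤ (if mina γ = 0 then (∑ i, (γ i : ℝ) * e i) else 0) :=
    fun γ => by
      split_ifs
      · positivity
      · exact le_refl _
  have c1 := ntb_conv n M0 q hq0.le _ hw1 (fun m => ∑ l ∈ Finset.Icc 1 L, (F m l : ℝ))
    (fun m => by positivity)
  have c2 := ntb_conv n M0 q hq0.le _ hw2 (fun m => (F m 0 : ℝ)) (fun m => by positivity)
  have s1 := ntb_sum1 (fun _ : Fin 1 => n) (fun _ => hn) 0 q hq0 hq1 M0
  have s2 : ∑ k ∈ Finset.range (M0 + 1), q ^ k *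
      ∑ a ∈ (Exps n k).filter (fun a => ∑ i, a i = k),
        (if mina a = 0 then (∑ i, (a i : ℝ) * e i) else 0) ≤
      (1 - q ^ n) * Kq n q * ∑ i, (e i : ℝ) := by
    have e3 : ∑ k ∈ Finset.range (M0 + 1), q ^ k *
        ∑ a ∈ (Exps n k).filter (fun a => ∑ i, a i = k),
          (if mina a = 0 then (∑ i, (a i : ℝ) * e i) else 0) =
        ∑ i, (e i : ℝ) * ∑ k ∈ Finset.range (M0 + 1), q ^ k *
          ∑ a ∈ (Exps n k).filter (fun a => ∑ i, a i = k),
            (if mina a = 0 then (a i : ℝ) else 0) := by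
      simp only [Finset.mul_sum]
      rw [Finset.sum_comm]
      refine Finset.sum_congr rfl fun k _ => ?_
      rw [Finset.sum_comm]
      refine Finset.sum_congr rfl fun a _ => ?_
      by_cases ha : mina a = 0
      · simp only [if_pos ha, Finset.mul_sum]
        refine Finset.sum_congr rfl fun i _ => ?_
        ring
      · simp only [if_neg ha, mul_zero, Finset.sum_const_zero]
    rw [e3, Finset.mul_sum]
    refine Finset.sum_le_sum fun i _ => ?_
    have := ntb_sum2 (fun _ : Fin 1 => n) (fun _ => hn) 0 i q hq0 hq1 M0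
    rw [mul_comm]
    exact mul_le_mul_of_nonneg_right this (Nat.cast_nonneg _)
  have hK : (1 - q ^ n) * Kq n q = (q - q ^ n) / (1 - q) ^ (n + 1) := by
    unfold Kq
    have hqn : q ^ n < 1 := pow_lt_one₀ hq0.le hq1 (by omega)
    have : 1 - q ^ n ≠ 0 := by linarith
    rw [pow_succ (1 - q) n]
    field_simp
    ring
  have f1 : (1 - q ^ n) * ((1 - q) ^ n)⁻¹ = (1 - q ^ n) / (1 - q) ^ n := by
    rw [div_eq_mul_inv]
  rw [hK] at s2
  have s1' : ∑ k ∈ Finset.range (M0 + 1), q ^ k *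
      ∑ a ∈ (Exps n k).filter (fun a => ∑ i, a i = k), (if mina a = 0 then (1 : ℝ) else 0)
      ≤ (1 - q ^ n) / (1 - q) ^ n := by
    rw [← f1]; exact s1
  have g1 := mul_le_mul_of_nonneg_right s1' hL0
  have g2 := mul_le_mul_of_nonneg_right s2 hH0
  have d1 := c1.trans g1
  have d2 := c2.trans g2
  linarith


end Pool.Agent.KSYP.CC

alias Pool.Agent.KSY.lam_exps := Pool.Agent.KSYP.CC.lam_exps_pr
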