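import Pool.Agent.Lib_helper80.KSY.Defs
import Pool.Agent.Lib_helper77.KSZ.XBAS
import Pool.Agent.Lib_helper77.KSZ.XSER
import Pool.Agent.Lib_helper80.KSYF.CA
import Pool.Agent.Lib_helper80.KSYF.CB
import Pool.Agent.Lib_helper80.KSYF.CC

/-! KSY, block CD: the sums of stage 1 and of a path -/

set_option autoImplicit false
set_option linter.unusedVariables false
set_option linter.unusedSectionVars false

namespace Pool.Agent.KSYP.CD

open Pool.Agent.KSY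
open MvPolynomial Pool.Agent.KSS Pool.Agent.KSX Filter Topology

theorem cd_lam_mono {q : ℝ} (hq0 : 0 < q) (M0 L : ℕ) {F G : ℕ → ℕ → ℕ}
    (h : ∀ m ≤ M0, ∀ l, 1 ≤ l → l ≤ L → F m l ≤ G m l) : LamF q M0 L F ≤ LamF q M0 L G := by
  unfold LamF
  refine Finset.sum_le_sum fun m hm => ?_
  rw [Finset.mem_range] at hm
  refine mul_le_mul_of_nonneg_left ?_ (pow_nonneg hq0.le m)
  refine Finset.sum_le_sum fun l hl => ?_
  rw [Finset.mem_Icc] at hl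
  exact_mod_cast h m (by omega) l hl.1 hl.2

theorem cd_h0_mono {q : ℝ} (hq0 : 0 < q) (M0 : ℕ) {F G : ℕ → ℕ → ℕ}
    (h : ∀ m ≤ M0, F m 0 ≤ G m 0) : H0F q M0 F ≤ H0F q M0 G := by
  unfold H0F
  refine Finset.sum_le_sum fun m hm => ?_
  rw [Finset.mem_range] at hm
  refine mul_le_mul_of_nonneg_left ?_ (pow_nonneg hq0.le m)
  exact_mod_cast h m (by omega)

theorem cd_lam_add (q : ℝ) (M0 L : ℕ) (F G : ℕ → ℕ → ℕ) :
    LamF q M0 L (fun m l => F m l + G m l) = LamF q M0 L F + LamF q M0 L G := by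
  unfold LamF
  rw [← Finset.sum_add_distrib]
  refine Finset.sum_congr rfl fun m _ => ?_
  rw [← mul_add, ← Finset.sum_add_distrib]
  congr 1
  refine Finset.sum_congr rfl fun l _ => ?_
  push_cast
  rfl

theorem cd_h0_add (q : ℝ) (M0 : ℕ) (F G : ℕ → ℕ → ℕ) :
    H0F q M0 (fun m l => F m l + G m l) = H0F q M0 F + H0F q M0 G := by
  unfold H0F
  rw [← Finset.sum_add_distrib]
  refine Finset.sum_congr rfl fun m _ => ?_
  push_cast
  ring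

theorem cd_Lam (d : Fin 1 → ℕ) (v : ℕ) (R : Rec 1) (q : ℝ) (M0 : ℕ) :
    R.Lam d v ∅ q M0 = LamF q M0 R.L R.fil := by
  unfold Rec.Lam LamF Rec.sig
  refine Finset.sum_congr rfl fun m _ => ?_
  congr 1
  refine Finset.sum_congr rfl fun l _ => ?_
  ring

theorem cd_H0 (d : Fin 1 → ℕ) (ha : 1 ≤ d 0) (v : ℕ) (hv : 1 ≤ v) (R : Rec 1) (hR : R.Of d v)
    {q : ℝ} (hq0 : 0 < q) (hq1 : q < 1) (M0 : ℕ) : H0F q M0 R.fil ≤ Hq d v ∅ q := by
  have hd : ∀ i, 1 ≤ d i := by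
    intro i
    rw [Subsingleton.elim i 0]
    exact ha
  have hbas := bas_rec_pr d hd v hv R hR
  have hser := ser_H_pr d hd v ∅ q hq0.le hq1
  have hle : ∀ m, (R.fil m 0 : ℝ) ≤ (NN d v ∅ m : ℝ) := by
    intro m
    exact_mod_cast hbas.le m 0 (Nat.zero_le _)
  have h1 : H0F q M0 R.fil ≤ ∑ m ∈ Finset.range (M0 + 1), (NN d v ∅ m : ℝ) * q ^ m := by
    unfold H0F
    refine Finset.sum_le_sum fun m _ => ?_
    rw [mul_comm]
    exact mul_le_mul_of_nonneg_right (hle m) (pow_nonneg hq0.le m)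
  refine le_trans h1 (sum_le_hasSum _ (fun m _ => ?_) hser)
  exact mul_nonneg (le_trans (Nat.cast_nonneg _) (hle m)) (pow_nonneg hq0.le m)

theorem cd_frac {q : ℝ} (hq0 : 0 < q) (hq1 : q < 1) {n : ℕ} (hn : 1 ≤ n) :
    0 ≤ q ^ n / (1 - q ^ n) ∧ 0 ≤ q ^ n / (1 - q ^ n) ^ 2 := by
  have h1 : q ^ n < 1 := pow_lt_one₀ hq0.le hq1 (by omega)
  have h2 : 0 < 1 - q ^ n := by linarith
  have h3 : 0 < q ^ n := pow_pos hq0 n
  exact ⟨by positivity, by positivity⟩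

/-- (CD) the sums of stage 1 and of a path -/
theorem lam_stg_pr (d : Fin 1 → ℕ) {a b M0 : ℕ} (R : Rec 1) {F2 : ℕ → ℕ → ℕ} {T2 oY : ℕ}
    {e : Fin (a + 1) → ℕ} (hS : Stg d a b M0 R F2 T2 oY e) (q : ℝ) (hq0 : 0 < q) (hq1 : q < 1) :
    R.Lam d (b + a + 3) Finset.univ q M0 ≤
      (1 - q ^ (a + 1)) / (1 - q) ^ (a + 1) * LamF q M0 R.L F2
        + (q - q ^ (a + 1)) / (1 - q) ^ (a + 2) * (∑ i, (e i : ℝ)) * H0F q M0 F2 := by
  have h1 : R.Lam d (b + a + 3) Finset.univ q M0 ≤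
      LamF q M0 R.L (fun m l => ∑ γ ∈ (Exps (a + 1) m).filter (fun γ => mina γ = 0),
        F2 (m - ∑ i, γ i) (l - ∑ i, γ i * e i)) := by
    unfold Rec.Lam LamF Rec.sig
    refine Finset.sum_le_sum fun m hm => ?_
    rw [Finset.mem_range] at hm
    refine mul_le_mul_of_nonneg_left ?_ (pow_nonneg hq0.le m)
    refine Finset.sum_le_sum fun l hl => ?_
    rw [Finset.mem_Icc] at hl
    have h2 := hS.fil m (by omega) l hl.1 hl.2
    have h3 : (R.fil m l : ℝ) ≤ (NN d (b + a + 3) ∅ m : ℝ) -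
        (NN d (b + a + 3) Finset.univ m : ℝ) +
        ∑ γ ∈ (Exps (a + 1) m).filter (fun γ => mina γ = 0),
          (F2 (m - ∑ i, γ i) (l - ∑ i, γ i * e i) : ℝ) := by
      exact_mod_cast h2
    push_cast
    linarith
  exact le_trans h1 (lam_exps (a + 1) (by omega) q hq0 hq1 M0 R.L e F2)

/-- (CD) -/
theorem lam_path_pr (d : Fin 1 → ℕ) (ha : 1 ≤ d 0) {a b L T2 oY oo : ℕ} (hb : 1 ≤ b)
    {F2 F3 : ℕ → ℕ → ℕ} {R1 Pb : Rec 1} {eu eo eY eZ : ℕ}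
    (hP : Path d a b L T2 oY oo F2 F3 R1 Pb eu eo eY eZ) (q : ℝ) (hq0 : 0 < q) (hq1 : q < 1)
    (M0 : ℕ) :
    LamF q M0 L F2 ≤ ((1 - q)⁻¹ + q ^ (a + 1) / (1 - q ^ (a + 1))) * LamF q M0 L F3
        + (eo * (q / (1 - q) ^ 2) + eY * (q ^ (a + 1) / (1 - q ^ (a + 1)) ^ 2)) * H0F q M0 F3 ∧
      H0F q M0 F2 ≤ ((1 - q)⁻¹ + q ^ (a + 1) / (1 - q ^ (a + 1))) * H0F q M0 F3 ∧
      LamF q M0 L F3 ≤ Pb.Lam d (b + 1) ∅ q M0
        + q ^ (a + 2) / (1 - q ^ (a + 2)) * R1.Lam d b ∅ q M0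
        + eZ * (q ^ (a + 2) / (1 - q ^ (a + 2)) ^ 2) * Hq d b ∅ q ∧
      H0F q M0 F3 ≤ Hq d (b + 1) ∅ q + q ^ (a + 2) / (1 - q ^ (a + 2)) * Hq d b ∅ q ∧
      Pb.Lam d (b + 1) ∅ q M0 ≤ (1 - q)⁻¹ * R1.Lam d b ∅ q M0
        + eu * (q / (1 - q) ^ 2) * Hq d b ∅ q := by
  have hR1 : R1.Lam d b ∅ q M0 = LamF q M0 L R1.fil := by rw [cd_Lam, hP.LR]
  have hPb : Pb.Lam d (b + 1) ∅ q M0 = LamF q M0 L Pb.fil := by rw [cd_Lam, hP.LP]
  have hH1 := cd_H0 d ha b hb R1 hP.ofR hq0 hq1 M0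
  have hHb := cd_H0 d ha (b + 1) (by omega) Pb hP.ofP hq0 hq1 M0
  obtain ⟨hf1, hf2⟩ := cd_frac hq0 hq1 (n := a + 2) (by omega)
  have hq2 : 0 ≤ q / (1 - q) ^ 2 := by
    have : 0 < 1 - q := by linarith
    positivity
  refine ⟨?_, ?_, ?_, ?_, ?_⟩
  · have h1 := cd_lam_mono hq0 M0 L (fun m _ l _ hl => hP.F2_le m l hl)
    rw [cd_lam_add] at h1
    have h2 := lam_range q hq0 hq1 M0 L eo F3
    have h3 := lam_icc (a + 1) (by omega) q hq0 hq1 M0 L eY F3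
    refine le_trans h1 (le_trans (add_le_add h2 h3) (le_of_eq ?_))
    ring
  · have h1 := cd_h0_mono (F := F2) (G := fun m l =>
      (∑ c ∈ Finset.range (m + 1), F3 (m - c) (l - c * eo)) +
      ∑ c ∈ (Finset.Icc 1 m).filter (fun c => (a + 1) * c ≤ m),
        F3 (m - (a + 1) * c) (l - c * eY)) hq0 M0 (fun m _ => hP.F2_le m 0 (Nat.zero_le _))
    have h2 := h0_range q hq0 hq1 M0 eo F3
    have h3 := h0_icc (a + 1) (by omega) q hq0 hq1 M0 eY F3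
    refine le_trans h1 ?_
    refine le_trans (le_of_eq (cd_h0_add q M0 _ _)) ?_
    refine le_trans (add_le_add h2 h3) (le_of_eq ?_)
    ring
  · have h1 := cd_lam_mono hq0 M0 L (fun m _ l _ hl => hP.F3_le m l hl)
    rw [cd_lam_add] at h1
    have h3 := lam_icc (a + 2) (by omega) q hq0 hq1 M0 L eZ R1.fil
    rw [hPb, hR1]
    have h4 := mul_le_mul_of_nonneg_left hH1
      (mul_nonneg (Nat.cast_nonneg eZ) hf2)
    refine le_trans h1 ?_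
    rw [add_assoc]
    refine add_le_add le_rfl (le_trans h3 ?_)
    exact add_le_add le_rfl h4
  · have h1 := cd_h0_mono (F := F3) (G := fun m l => Pb.fil m l +
      ∑ c ∈ (Finset.Icc 1 m).filter (fun c => (a + 2) * c ≤ m),
        R1.fil (m - (a + 2) * c) (l - c * eZ)) hq0 M0 (fun m _ => hP.F3_le m 0 (Nat.zero_le _))
    have h3 := h0_icc (a + 2) (by omega) q hq0 hq1 M0 eZ R1.fil
    refine le_trans h1 ?_
    refine le_trans (le_of_eq (cd_h0_add q M0 _ _)) ?_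
    exact add_le_add hHb (le_trans h3 (mul_le_mul_of_nonneg_left hH1 hf1))
  · rw [hPb, hR1]
    have h1 := cd_lam_mono hq0 M0 L (fun m _ l _ hl => hP.Pb_le m l hl)
    have h2 := lam_range q hq0 hq1 M0 L eu R1.fil
    refine le_trans h1 (le_trans h2 (add_le_add le_rfl ?_))
    exact mul_le_mul_of_nonneg_left hH1 (mul_nonneg (Nat.cast_nonneg eu) hq2)

/-- (CD) -/
theorem lam_star_pr (d : Fin 1 → ℕ) (ha : 1 ≤ d 0) {a b L : ℕ} {F2 F3 : ℕ → ℕ → ℕ} {P Pb : Rec 1}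
    {w eY : ℕ} (hP : P.Of d (b + 2)) (hPL : P.L = L) (hPb : Pb.Of d (b + 1)) (hPbL : Pb.L = L)
    (h : Star a L F2 F3 P Pb w eY) (q : ℝ) (hq0 : 0 < q) (hq1 : q < 1) (M0 : ℕ) :
    LamF q M0 L F2 ≤ P.Lam d (b + 2) ∅ q M0
      + q ^ (a + 2) / (1 - q ^ (a + 2)) * Pb.Lam d (b + 1) ∅ q M0
      + w * (q ^ (a + 2) / (1 - q ^ (a + 2)) ^ 2) * Hq d (b + 1) ∅ q
      + q ^ (a + 1) / (1 - q ^ (a + 1)) * LamF q M0 L F3
      + eY * (q ^ (a + 1) / (1 - q ^ (a + 1)) ^ 2) * H0F q M0 F3 := by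
  have hPl : P.Lam d (b + 2) ∅ q M0 = LamF q M0 L P.fil := by rw [cd_Lam, hPL]
  have hPbl : Pb.Lam d (b + 1) ∅ q M0 = LamF q M0 L Pb.fil := by rw [cd_Lam, hPbL]
  have hHb := cd_H0 d ha (b + 1) (by omega) Pb hPb hq0 hq1 M0
  obtain ⟨hf1, hf2⟩ := cd_frac hq0 hq1 (n := a + 2) (by omega)
  have h1 := cd_lam_mono hq0 M0 L (fun m _ l _ hl => h m l hl)
  rw [cd_lam_add, cd_lam_add] at h1
  have h2 := lam_icc (a + 2) (by omega) q hq0 hq1 M0 L w Pb.fil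
  have h3 := lam_icc (a + 1) (by omega) q hq0 hq1 M0 L eY F3
  have h4 := mul_le_mul_of_nonneg_left hHb (mul_nonneg (Nat.cast_nonneg w) hf2)
  rw [hPl, hPbl]
  linarith

end Pool.Agent.KSYP.CD

alias Pool.Agent.KSY.lam_stg := Pool.Agent.KSYP.CD.lam_stg_pr

alias Pool.Agent.KSY.lam_path := Pool.Agent.KSYP.CD.lam_path_pr

alias Pool.Agent.KSY.lam_star := Pool.Agent.KSYP.CD.lam_star_pr
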