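import Pool.Agent.Lib_helper80.KSY.Defs

/-!
# Block CE of project KSY: `lim_path`
-/

set_option autoImplicit false

namespace Pool.Agent.KSYP.CE

open MvPolynomial Pool.Agent.KSS Pool.Agent.KSX Pool.Agent.KSY Filter Topology

theorem geo_lim {ι : Type} (U : Ultrafilter ι) (q : ι → ℝ) (hq1 : Tendsto q U (𝓝 1)) (m : ℕ) :
    Tendsto (fun n => ∑ i ∈ Finset.range m, q n ^ i) U (𝓝 (m : ℝ)) := by
  have h : Tendsto (fun n => ∑ i ∈ Finset.range m, q n ^ i) U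
      (𝓝 (∑ i ∈ Finset.range m, (1 : ℝ) ^ i)) :=
    tendsto_finsetSum _ fun i _ => hq1.pow i
  simpa using h

theorem geo_eq (q : ℝ) (m : ℕ) : 1 - q ^ m = (1 - q) * ∑ i ∈ Finset.range m, q ^ i :=
  (mul_neg_geom_sum q m).symm

theorem geo_pos {q : ℝ} (hq : 0 < q) (m : ℕ) : 0 < ∑ i ∈ Finset.range (m + 1), q ^ i :=
  Finset.sum_pos (fun i _ => pow_pos hq i) ⟨0, by simp⟩

/-- the inequality of one path, normalised -/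
theorem pt (a b : ℕ) (q s ΛR Λ2 H2 Λ3 H3 Λb Λ1 E eo eY eZ S0 S1 S2 : ℝ) (hq : 0 < q)
    (hq1 : q < 1) (hs : 0 < s) (hE : 0 ≤ E) (heo : 0 ≤ eo) (heY : 0 ≤ eY)
    (hS0 : 1 - q ^ a = (1 - q) * S0) (hS1 : 1 - q ^ (a + 1) = (1 - q) * S1)
    (hS2 : 1 - q ^ (a + 2) = (1 - q) * S2) (h0 : 0 ≤ S0) (h1 : 0 < S1) (h2 : 0 < S2)
    (i1 : ΛR ≤ (1 - q ^ (a + 1)) / (1 - q) ^ (a + 1) * Λ2
      + (q - q ^ (a + 1)) / (1 - q) ^ (a + 2) * E * H2)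
    (i2 : Λ2 ≤ ((1 - q)⁻¹ + q ^ (a + 1) / (1 - q ^ (a + 1))) * Λ3
      + (eo * (q / (1 - q) ^ 2) + eY * (q ^ (a + 1) / (1 - q ^ (a + 1)) ^ 2)) * H3)
    (i3 : H2 ≤ ((1 - q)⁻¹ + q ^ (a + 1) / (1 - q ^ (a + 1))) * H3)
    (i4 : Λ3 ≤ Λb + q ^ (a + 2) / (1 - q ^ (a + 2)) * Λ1
      + eZ * (q ^ (a + 2) / (1 - q ^ (a + 2)) ^ 2) * (1 / (1 - q) ^ b))
    (i5 : H3 ≤ 1 / (1 - q) ^ (b + 1) + q ^ (a + 2) / (1 - q ^ (a + 2)) * (1 / (1 - q) ^ b)) :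
    (1 - q) ^ (b + a + 3) * ΛR / s ≤
      S1 * ((1 + q ^ (a + 1) / S1) * ((1 - q) ^ (b + 2) * Λb / s
          + q ^ (a + 2) / S2 * ((1 - q) ^ (b + 1) * Λ1 / s) + eZ / s * (q ^ (a + 2) / S2 ^ 2))
        + (eo / s * q + eY / s * (q ^ (a + 1) / S1 ^ 2)) * (1 + q ^ (a + 2) / S2))
      + q * S0 * (E / s) * ((1 + q ^ (a + 1) / S1) * (1 + q ^ (a + 2) / S2)) := by
  have he : 0 < 1 - q := by linarith
  have hB : q - q ^ (a + 1) = (1 - q) * (q * S0) := by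
    have : q - q ^ (a + 1) = q * (1 - q ^ a) := by ring
    rw [this, hS0]; ring
  rw [hS1, hB] at i1
  rw [hS1] at i2 i3
  rw [hS2] at i4 i5
  set ε := 1 - q with hε
  have p3 : ε ^ (b + 2) * Λ3 / s ≤ ε ^ (b + 2) * Λb / s
      + q ^ (a + 2) / S2 * (ε ^ (b + 1) * Λ1 / s) + eZ / s * (q ^ (a + 2) / S2 ^ 2) := by
    have h := mul_le_mul_of_nonneg_left i4 (a := ε ^ (b + 2) / s) (by positivity)
    calc ε ^ (b + 2) * Λ3 / s = ε ^ (b + 2) / s * Λ3 := by ring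
      _ ≤ _ := h
      _ = _ := by field_simp; ring
  have k3 : ε ^ (b + 1) * H3 ≤ 1 + q ^ (a + 2) / S2 := by
    have h := mul_le_mul_of_nonneg_left i5 (a := ε ^ (b + 1)) (by positivity)
    calc ε ^ (b + 1) * H3 ≤ _ := h
      _ = _ := by field_simp; ring
  have k2 : ε ^ (b + 2) * H2 ≤ (1 + q ^ (a + 1) / S1) * (ε ^ (b + 1) * H3) := by
    have h := mul_le_mul_of_nonneg_left i3 (a := ε ^ (b + 2)) (by positivity)
    calc ε ^ (b + 2) * H2 ≤ _ := h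
      _ = _ := by field_simp; ring
  have p2 : ε ^ (b + 3) * Λ2 / s ≤ (1 + q ^ (a + 1) / S1) * (ε ^ (b + 2) * Λ3 / s)
      + (eo / s * q + eY / s * (q ^ (a + 1) / S1 ^ 2)) * (ε ^ (b + 1) * H3) := by
    have h := mul_le_mul_of_nonneg_left i2 (a := ε ^ (b + 3) / s) (by positivity)
    calc ε ^ (b + 3) * Λ2 / s = ε ^ (b + 3) / s * Λ2 := by ring
      _ ≤ _ := h
      _ = _ := by field_simp; ring
  have p1 : ε ^ (b + a + 3) * ΛR / s ≤ S1 * (ε ^ (b + 3) * Λ2 / s)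
      + q * S0 * (E / s) * (ε ^ (b + 2) * H2) := by
    have h := mul_le_mul_of_nonneg_left i1 (a := ε ^ (b + a + 3) / s) (by positivity)
    calc ε ^ (b + a + 3) * ΛR / s = ε ^ (b + a + 3) / s * ΛR := by ring
      _ ≤ _ := h
      _ = _ := by
        have e1 : ε ^ (b + a + 3) = ε ^ (b + 2) * ε ^ (a + 1) := by ring
        have e2 : ε ^ (a + 2) = ε ^ (a + 1) * ε := by ring
        have e3 : ε ^ (b + 3) = ε ^ (b + 2) * ε := by ring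
        rw [e1, e2, e3]
        field_simp
  refine p1.trans (add_le_add (mul_le_mul_of_nonneg_left (p2.trans ?_) h1.le) ?_)
  · exact add_le_add (mul_le_mul_of_nonneg_left p3 (by positivity))
      (mul_le_mul_of_nonneg_left k3 (by positivity))
  · exact mul_le_mul_of_nonneg_left
      (k2.trans (mul_le_mul_of_nonneg_left k3 (by positivity))) (by positivity)

/-- (CE) the limit of the inequalities of one path -/
theorem lim_path_pr {ι : Type} (U : Ultrafilter ι) (a b : ℕ) (q s ΛR Λ2 H2 Λ3 H3 Λb Λ1 : ι → ℝ)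
    (E eo eY eZ : ι → ℝ) (hq : ∀ᶠ n in U, 0 < q n ∧ q n < 1) (hq1 : Tendsto q U (𝓝 1))
    (hs : ∀ᶠ n in U, 0 < s n) (h0 : ∀ᶠ n in U, 0 ≤ E n ∧ 0 ≤ eo n ∧ 0 ≤ eY n ∧ 0 ≤ eZ n ∧
      0 ≤ H2 n ∧ 0 ≤ H3 n ∧ 0 ≤ Λ2 n ∧ 0 ≤ Λ3 n)
    (i1 : ∀ᶠ n in U, ΛR n ≤ (1 - q n ^ (a + 1)) / (1 - q n) ^ (a + 1) * Λ2 n
      + (q n - q n ^ (a + 1)) / (1 - q n) ^ (a + 2) * E n * H2 n)
    (i2 : ∀ᶠ n in U, Λ2 n ≤ ((1 - q n)⁻¹ + q n ^ (a + 1) / (1 - q n ^ (a + 1))) * Λ3 n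
      + (eo n * (q n / (1 - q n) ^ 2) + eY n * (q n ^ (a + 1) / (1 - q n ^ (a + 1)) ^ 2)) * H3 n)
    (i3 : ∀ᶠ n in U, H2 n ≤ ((1 - q n)⁻¹ + q n ^ (a + 1) / (1 - q n ^ (a + 1))) * H3 n)
    (i4 : ∀ᶠ n in U, Λ3 n ≤ Λb n + q n ^ (a + 2) / (1 - q n ^ (a + 2)) * Λ1 n
      + eZ n * (q n ^ (a + 2) / (1 - q n ^ (a + 2)) ^ 2) * (1 / (1 - q n) ^ b))
    (i5 : ∀ᶠ n in U, H3 n ≤ 1 / (1 - q n) ^ (b + 1)
      + q n ^ (a + 2) / (1 - q n ^ (a + 2)) * (1 / (1 - q n) ^ b))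
    (lR lb l1 lE lo lY lZ : ℝ)
    (t1 : Tendsto (fun n => (1 - q n) ^ (b + a + 3) * ΛR n / s n) U (𝓝 lR))
    (t2 : Tendsto (fun n => (1 - q n) ^ (b + 2) * Λb n / s n) U (𝓝 lb))
    (t3 : Tendsto (fun n => (1 - q n) ^ (b + 1) * Λ1 n / s n) U (𝓝 l1))
    (t4 : Tendsto (fun n => E n / s n) U (𝓝 lE)) (t5 : Tendsto (fun n => eo n / s n) U (𝓝 lo))
    (t6 : Tendsto (fun n => eY n / s n) U (𝓝 lY)) (t7 : Tendsto (fun n => eZ n / s n) U (𝓝 lZ)) :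
    lR ≤ (a + 1) * ((1 + 1 / (a + 1)) * (lb + l1 / (a + 2) + lZ / (a + 2) ^ 2)
        + (lo + lY / (a + 1) ^ 2) * (1 + 1 / (a + 2)))
      + a * lE * ((1 + 1 / (a + 1)) * (1 + 1 / (a + 2))) := by
  have g0 := geo_lim U q hq1 a
  have g1 := geo_lim U q hq1 (a + 1)
  have g2 := geo_lim U q hq1 (a + 2)
  have n1 : ((a + 1 : ℕ) : ℝ) ≠ 0 := by positivity
  have n2 : ((a + 2 : ℕ) : ℝ) ≠ 0 := by positivity
  have c1 : Tendsto (fun n => 1 + q n ^ (a + 1) / ∑ i ∈ Finset.range (a + 1), q n ^ i) U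
      (𝓝 (1 + 1 ^ (a + 1) / ((a + 1 : ℕ) : ℝ))) :=
    tendsto_const_nhds.add ((hq1.pow _).div g1 n1)
  have c2 : Tendsto (fun n => 1 + q n ^ (a + 2) / ∑ i ∈ Finset.range (a + 2), q n ^ i) U
      (𝓝 (1 + 1 ^ (a + 2) / ((a + 2 : ℕ) : ℝ))) :=
    tendsto_const_nhds.add ((hq1.pow _).div g2 n2)
  have d1 : Tendsto (fun n => q n ^ (a + 1) / (∑ i ∈ Finset.range (a + 1), q n ^ i) ^ 2) U
      (𝓝 (1 ^ (a + 1) / ((a + 1 : ℕ) : ℝ) ^ 2)) :=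
    (hq1.pow _).div (g1.pow 2) (pow_ne_zero 2 n1)
  have d2 : Tendsto (fun n => q n ^ (a + 2) / (∑ i ∈ Finset.range (a + 2), q n ^ i) ^ 2) U
      (𝓝 (1 ^ (a + 2) / ((a + 2 : ℕ) : ℝ) ^ 2)) :=
    (hq1.pow _).div (g2.pow 2) (pow_ne_zero 2 n2)
  have d3 : Tendsto (fun n => q n ^ (a + 2) / (∑ i ∈ Finset.range (a + 2), q n ^ i)) U
      (𝓝 (1 ^ (a + 2) / ((a + 2 : ℕ) : ℝ))) :=
    (hq1.pow _).div g2 n2
  have lim := (g1.mul ((c1.mul ((t2.add (d3.mul t3)).add (t7.mul d2))).add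
    (((t5.mul hq1).add (t6.mul d1)).mul c2))).add (((hq1.mul g0).mul t4).mul (c1.mul c2))
  refine (le_of_tendsto_of_tendsto t1 lim ?_).trans (le_of_eq ?_)
  · filter_upwards [hq, hs, h0, i1, i2, i3, i4, i5] with n hqn hsn h0n i1n i2n i3n i4n i5n
    exact pt a b (q n) (s n) (ΛR n) (Λ2 n) (H2 n) (Λ3 n) (H3 n) (Λb n) (Λ1 n) (E n) (eo n) (eY n)
      (eZ n) _ _ _ hqn.1 hqn.2 hsn h0n.1 h0n.2.1 h0n.2.2.1 (geo_eq (q n) a)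
      (geo_eq (q n) (a + 1)) (geo_eq (q n) (a + 2))
      (Finset.sum_nonneg fun i _ => pow_nonneg hqn.1.le i) (geo_pos hqn.1 a)
      (geo_pos hqn.1 (a + 1)) i1n i2n i3n i4n i5n
  · push_cast
    simp only [one_pow, one_mul, mul_one]
    ring


end Pool.Agent.KSYP.CE

alias Pool.Agent.KSY.lim_path := Pool.Agent.KSYP.CE.lim_path_pr
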