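import Pool.Agent.Lib_helper80.KSY.Defs

/-! KSY, block CG: the equality case of the numerical contradiction for one form -/

set_option autoImplicit false
set_option linter.unusedVariables false

namespace Pool.Agent.KSYP.CG

open Filter Topology

/-- (CG) the equality case of the numerical contradiction for one form -/
theorem num_one_pr (D b : ℕ) (hD : 2 ≤ D) (e : Fin D → ℝ) (he0 : ∀ l, 0 ≤ e l)
    (hes : ∑ l, e l = D) (l0 : Fin D) (hl0 : 1 ≤ e l0) (oy : {l : Fin D // l ≠ l0} → ℝ)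
    (hoy0 : ∀ l, 0 ≤ oy l) (hoy : ∀ l, oy l ≤ e l) (ox : Fin b → ℝ) (hox0 : ∀ i, 0 ≤ ox i)
    (hox1 : ∀ i, ox i ≤ 1) (hsum : ∑ l, oy l + ∑ i, ox i ≤ b)
    (hE : ∀ lam : ℝ, 0 < lam → (∏ l, (lam + e l)) * (1 + lam) ^ b ≤
      D * (1 + lam) * ((∏ l, (lam + oy l)) * ∏ i, (lam + ox i))) :
    ∀ l, l ≠ l0 → e l = 0 := by
  classical
  by_contra hcon
  rw [not_forall] at hcon
  obtain ⟨l2, hl2⟩ := hcon
  rw [Classical.not_imp] at hl2
  obtain ⟨hl2a, hl2b⟩ := hl2
  have hDr : (2 : ℝ) ≤ D := by exact_mod_cast hD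
  set A : Finset {l : Fin D // l ≠ l0} := Finset.univ.filter (fun l => e l.1 ≠ 0) with hA
  have hAmem : (⟨l2, hl2a⟩ : {l : Fin D // l ≠ l0}) ∈ A := by
    rw [hA, Finset.mem_filter]
    exact ⟨Finset.mem_univ _, hl2b⟩
  -- the inequality without the vanishing factors
  have h1 : ∀ lam : ℝ, 0 < lam → (lam + e l0) * (∏ l ∈ A, (lam + e l.1)) * (1 + lam) ^ b ≤
      D * (1 + lam) * ((∏ l ∈ A, (lam + oy l)) * ∏ i, (lam + ox i)) := by
    intro lam hlam
    have h2 := hE lam hlam
    rw [Fintype.prod_eq_mul_prod_subtype_ne (fun l => lam + e l) l0,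
      ← Finset.prod_filter_mul_prod_filter_not Finset.univ
        (fun l : {l : Fin D // l ≠ l0} => e l.1 ≠ 0) (fun l => lam + e l.1),
      ← Finset.prod_filter_mul_prod_filter_not Finset.univ
        (fun l : {l : Fin D // l ≠ l0} => e l.1 ≠ 0) (fun l => lam + oy l)] at h2
    have h3 : ∏ l ∈ Finset.univ.filter (fun l : {l : Fin D // l ≠ l0} => ¬ e l.1 ≠ 0),
        (lam + oy l) = ∏ l ∈ Finset.univ.filter
        (fun l : {l : Fin D // l ≠ l0} => ¬ e l.1 ≠ 0), (lam + e l.1) := by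
      refine Finset.prod_congr rfl fun l hl => ?_
      rw [Finset.mem_filter, not_not] at hl
      have h4 := hoy l
      have h5 := hoy0 l
      rw [hl.2] at h4 ⊢
      have : oy l = 0 := le_antisymm h4 h5
      rw [this]
    rw [h3] at h2
    set Z : ℝ := ∏ l ∈ Finset.univ.filter
        (fun l : {l : Fin D // l ≠ l0} => ¬ e l.1 ≠ 0), (lam + e l.1) with hZ
    have hZ0 : 0 < Z := Finset.prod_pos fun l _ => by
      have := he0 l.1
      linarith
    have h6 : Z * ((lam + e l0) * (∏ l ∈ A, (lam + e l.1)) * (1 + lam) ^ b) ≤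
        Z * (D * (1 + lam) * ((∏ l ∈ A, (lam + oy l)) * ∏ i, (lam + ox i))) := by
      rw [hA]
      linarith
    exact le_of_mul_le_mul_left h6 hZ0
  -- the limit
  have h2 : e l0 * (∏ l ∈ A, e l.1) ≤ D * ((∏ l ∈ A, oy l) * ∏ i, ox i) := by
    have hc1 : Continuous fun lam : ℝ =>
        (lam + e l0) * (∏ l ∈ A, (lam + e l.1)) * (1 + lam) ^ b := by fun_prop
    have hc2 : Continuous fun lam : ℝ =>
        (D : ℝ) * (1 + lam) * ((∏ l ∈ A, (lam + oy l)) * ∏ i, (lam + ox i)) := by fun_prop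
    have t1 := (hc1.tendsto 0).mono_left (nhdsWithin_le_nhds (s := Set.Ioi (0 : ℝ)))
    have t2 := (hc2.tendsto 0).mono_left (nhdsWithin_le_nhds (s := Set.Ioi (0 : ℝ)))
    have h3 := le_of_tendsto_of_tendsto t1 t2 (by
      filter_upwards [self_mem_nhdsWithin] with lam hlam
      exact h1 lam hlam)
    simpa using h3
  have hP : 0 < ∏ l ∈ A, e l.1 := Finset.prod_pos fun l hl => by
    rw [hA, Finset.mem_filter] at hl
    exact lt_of_le_of_ne (he0 _) (Ne.symm hl.2)
  set P : ℝ := ∏ l ∈ A, e l.1 with hPdef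
  set T : ℝ := ∑ l : {l : Fin D // l ≠ l0}, e l.1 with hT
  have hTD : e l0 + T = D := by
    rw [hT, ← hes, Fintype.sum_eq_add_sum_subtype_ne (fun l => e l) l0]
  have hT0 : 0 < T := by
    have h3 : e l2 ≤ T := Finset.single_le_sum
      (f := fun l : {l : Fin D // l ≠ l0} => e l.1) (fun l _ => he0 l.1)
      (Finset.mem_univ (⟨l2, hl2a⟩ : {l : Fin D // l ≠ l0}))
    have h4 : 0 < e l2 := lt_of_le_of_ne (he0 _) (Ne.symm hl2b)
    linarith
  set O : ℝ := ∑ l, oy l with hO
  have hO0 : 0 ≤ O := Finset.sum_nonneg fun l _ => hoy0 l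
  have hOT : O ≤ T := Finset.sum_le_sum fun l _ => hoy l
  -- an index with a small quotient
  obtain ⟨l1, hl1A, hl1⟩ : ∃ l1 ∈ A, oy l1 * T ≤ e l1.1 * O := by
    by_contra hno
    have h3 : ∀ l ∈ A, e l.1 * O < oy l * T := fun l hl => by
      by_contra h4
      exact hno ⟨l, hl, not_lt.1 h4⟩
    have h5 : ∑ l ∈ A, e l.1 * O < ∑ l ∈ A, oy l * T :=
      Finset.sum_lt_sum_of_nonempty ⟨_, hAmem⟩ h3
    have h6 : ∀ f : {l : Fin D // l ≠ l0} → ℝ, (∀ l, e l.1 = 0 → f l = 0) →
        ∑ l ∈ A, f l = ∑ l, f l := by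
      intro f hf
      rw [hA]
      refine Finset.sum_filter_of_ne fun l _ hl h => hl (hf l h)
    rw [h6 (fun l => e l.1 * O) (fun l h => by simp [h]),
      h6 (fun l => oy l * T) (fun l h => by
        have h7 := hoy l
        have h8 := hoy0 l
        rw [h] at h7
        have : oy l = 0 := le_antisymm h7 h8
        simp [this]), ← Finset.sum_mul, ← Finset.sum_mul] at h5
    rw [← hT, ← hO, mul_comm] at h5
    exact lt_irrefl _ h5
  set r : ℝ := O / T with hr
  have hr0 : 0 ≤ r := div_nonneg hO0 hT0.le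
  have hr1 : r ≤ 1 := (div_le_one hT0).2 hOT
  have hrT : r * T = O := by
    rw [hr]
    field_simp
  have hQ : ∏ l ∈ A, oy l ≤ r * P := by
    rw [hPdef, ← Finset.mul_prod_erase A (fun l => oy l) hl1A,
      ← Finset.mul_prod_erase A (fun l => e l.1) hl1A, ← mul_assoc]
    refine mul_le_mul ?_ (Finset.prod_le_prod (fun l _ => hoy0 l) fun l _ => hoy l)
      (Finset.prod_nonneg fun l _ => hoy0 l) (mul_nonneg hr0 (he0 _))
    rw [hr, div_mul_eq_mul_div, le_div_iff₀ hT0, mul_comm O]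
    exact hl1
  have hX : ∏ i, ox i ≤ Real.exp (-(r * T)) := by
    have h3 : ∏ i, ox i ≤ ∏ i, Real.exp (ox i - 1) :=
      Finset.prod_le_prod (fun i _ => hox0 i) fun i _ => by
        have := Real.add_one_le_exp (ox i - 1)
        linarith
    refine h3.trans ?_
    rw [← Real.exp_sum]
    refine Real.exp_le_exp.2 ?_
    rw [Finset.sum_sub_distrib, Finset.sum_const, Finset.card_univ, Fintype.card_fin,
      nsmul_eq_mul, mul_one, hrT]
    linarith
  have hX0 : 0 ≤ ∏ i, ox i := Finset.prod_nonneg fun i _ => hox0 i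
  have h4 : (e l0 * Real.exp (r * T)) ≤ D * r := by
    have h5 : e l0 * P ≤ D * ((r * P) * Real.exp (-(r * T))) := by
      refine h2.trans (mul_le_mul_of_nonneg_left ?_ (by positivity))
      exact mul_le_mul hQ hX hX0 (mul_nonneg hr0 hP.le)
    have h6 : Real.exp (-(r * T)) * Real.exp (r * T) = 1 := by
      rw [← Real.exp_add]
      simp
    have h7 : (e l0 * Real.exp (r * T)) * P ≤ (D * r) * P := by
      calc (e l0 * Real.exp (r * T)) * P = (e l0 * P) * Real.exp (r * T) := by ring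
        _ ≤ (D * ((r * P) * Real.exp (-(r * T)))) * Real.exp (r * T) :=
          mul_le_mul_of_nonneg_right h5 (Real.exp_pos _).le
        _ = (D * r) * P * (Real.exp (-(r * T)) * Real.exp (r * T)) := by ring
        _ = (D * r) * P := by rw [h6, mul_one]
    exact le_of_mul_le_mul_right h7 hP
  have hel : e l0 = D - T := by linarith
  rcases eq_or_lt_of_le hr0 with h0 | hpos
  · rw [← h0] at h4
    simp at h4
    linarith
  · have h5 : 1 + r * T < Real.exp (r * T) := by
      have := Real.add_one_lt_exp (x := r * T) (mul_pos hpos hT0).ne'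
      linarith
    have h6 : (D : ℝ) * r ≤ (D - T) * (1 + r * T) := by
      have h7 : 0 ≤ D - T - 1 := by linarith
      nlinarith [mul_nonneg (mul_nonneg hr0 hT0.le) h7, mul_nonneg (sub_nonneg.2 hr1)
        (by linarith : (0 : ℝ) ≤ D - T)]
    have h8 : (D - T) * (1 + r * T) < (D - T) * Real.exp (r * T) :=
      mul_lt_mul_of_pos_left h5 (by linarith)
    rw [hel] at h4
    linarith

end Pool.Agent.KSYP.CG

alias Pool.Agent.KSY.num_one := Pool.Agent.KSYP.CG.num_one_pr
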