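import Pool.Agent.Lib_helper80.KSY.Defs

/-! Block CH of project KSY: `num_two`, `num_zero`. -/

set_option autoImplicit false

namespace Pool.Agent.KSYP.CH

open MvPolynomial Pool.Agent.KSS Pool.Agent.KSX Filter Topology

/-- (CH) -/
theorem num_two_pr (D : ℕ) (hD : 2 ≤ D) (e : Fin D → ℝ) (he0 : ∀ l, 0 ≤ e l)
    (hes : ∑ l, e l = D)
    (hE : ∀ lam : ℝ, 0 < lam → (∏ l, (lam + e l)) ≤ D * (1 + lam) * lam ^ (D - 1)) :
    ∃ ls, e ls = D ∧ ∀ l, l ≠ ls → e l = 0 := by
  classical
  have hD0 : (0 : ℝ) < D := by exact_mod_cast (by omega : 0 < D)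
  obtain ⟨ls, hls⟩ : ∃ ls, 0 < e ls := by
    by_contra h
    push Not at h
    have : ∑ l, e l ≤ 0 := Finset.sum_nonpos fun l _ => h l
    linarith
  have h0 : ∀ l, l ≠ ls → e l = 0 := by
    intro l2 hne
    by_contra hl2
    have hl2' : 0 < e l2 := lt_of_le_of_ne (he0 l2) (Ne.symm hl2)
    have hc : 0 < e ls * e l2 := mul_pos hls hl2'
    set lam : ℝ := min 1 (e ls * e l2 / (4 * D)) with hlam
    have hlam0 : 0 < lam := lt_min one_pos (by positivity)
    have hlam1 : lam ≤ 1 := min_le_left _ _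
    have hlam2 : lam ≤ e ls * e l2 / (4 * D) := min_le_right _ _
    have hle := hE lam hlam0
    have h1 : ∏ l, (lam + e l) = (lam + e ls) * ((lam + e l2) *
        ∏ l ∈ (Finset.univ.erase ls).erase l2, (lam + e l)) := by
      rw [← Finset.mul_prod_erase Finset.univ _ (Finset.mem_univ ls),
        ← Finset.mul_prod_erase (Finset.univ.erase ls) _
          (Finset.mem_erase.2 ⟨hne, Finset.mem_univ l2⟩)]
    have hcard : ((Finset.univ.erase ls).erase l2).card = D - 2 := by
      rw [Finset.card_erase_of_mem (Finset.mem_erase.2 ⟨hne, Finset.mem_univ l2⟩),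
        Finset.card_erase_of_mem (Finset.mem_univ ls), Finset.card_univ, Fintype.card_fin]
      omega
    have h2 : lam ^ (D - 2) ≤ ∏ l ∈ (Finset.univ.erase ls).erase l2, (lam + e l) := by
      rw [← hcard, ← Finset.prod_const]
      exact Finset.prod_le_prod (fun l _ => hlam0.le) (fun l _ => by linarith [he0 l])
    have h3 : e ls * e l2 * lam ^ (D - 2) ≤ ∏ l, (lam + e l) := by
      rw [h1]
      calc e ls * e l2 * lam ^ (D - 2) = e ls * (e l2 * lam ^ (D - 2)) := by ring
        _ ≤ (lam + e ls) * ((lam + e l2) *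
            ∏ l ∈ (Finset.univ.erase ls).erase l2, (lam + e l)) := by
          refine mul_le_mul (by linarith) ?_ (by positivity) (by linarith)
          exact mul_le_mul (by linarith) h2 (by positivity) (by linarith)
    have h4 : lam ^ (D - 1) = lam * lam ^ (D - 2) := by
      rw [← pow_succ']
      congr 1
      omega
    have hp : 0 < lam ^ (D - 2) := pow_pos hlam0 _
    have h5 : e ls * e l2 * lam ^ (D - 2) ≤ (D * (1 + lam) * lam) * lam ^ (D - 2) := by
      refine (h3.trans hle).trans (le_of_eq ?_)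
      rw [h4]
      ring
    have h6 : e ls * e l2 ≤ D * (1 + lam) * lam := le_of_mul_le_mul_right h5 hp
    have h7 : D * (1 + lam) * lam ≤ D * 2 * lam := by
      refine mul_le_mul_of_nonneg_right ?_ hlam0.le
      refine mul_le_mul_of_nonneg_left (by linarith) hD0.le
    have h8 : D * 2 * lam ≤ D * 2 * (e ls * e l2 / (4 * D)) :=
      mul_le_mul_of_nonneg_left hlam2 (by positivity)
    have h9 : (D : ℝ) * 2 * (e ls * e l2 / (4 * D)) = e ls * e l2 / 2 := by
      field_simp
      ring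
    linarith
  refine ⟨ls, ?_, h0⟩
  rw [← hes]
  exact (Finset.sum_eq_single ls (fun l _ hl => h0 l hl)
    (fun h => absurd (Finset.mem_univ ls) h)).symm

/-- (CH) -/
theorem num_zero_pr (D n : ℕ) (hD : 2 ≤ D) (hn : 1 ≤ n) (γ : ℝ) (o : Fin n → ℝ) (hγ : (D : ℝ) ≤ γ)
    (ho : ∀ i, 0 ≤ o i) (hsum : γ + ∑ i, o i ≤ n + 1)
    (h : ∀ lam : ℝ, 0 < lam → (1 + lam) ^ (n + 1) ≤ (D * lam + γ) * ∏ i, (lam + o i)) :
    False := by
  have hγ2 : (2 : ℝ) ≤ γ := by
    have : (2 : ℝ) ≤ D := by exact_mod_cast hD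
    linarith
  have h1 : (1 : ℝ) ≤ γ * ∏ i, o i := by
    have hc1 : Continuous (fun lam : ℝ => (1 + lam) ^ (n + 1)) := by fun_prop
    have hc2 : Continuous (fun lam : ℝ => ((D : ℝ) * lam + γ) * ∏ i, (lam + o i)) := by fun_prop
    have t1 : Tendsto (fun lam : ℝ => (1 + lam) ^ (n + 1)) (𝓝[>] 0) (𝓝 ((1 + 0) ^ (n + 1))) :=
      (hc1.tendsto 0).mono_left nhdsWithin_le_nhds
    have t2 : Tendsto (fun lam : ℝ => ((D : ℝ) * lam + γ) * ∏ i, (lam + o i)) (𝓝[>] 0)
        (𝓝 (((D : ℝ) * 0 + γ) * ∏ i, (0 + o i))) :=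
      (hc2.tendsto 0).mono_left nhdsWithin_le_nhds
    have h2 := le_of_tendsto_of_tendsto t1 t2 (by
      filter_upwards [self_mem_nhdsWithin] with lam hlam
      exact h lam hlam)
    simpa using h2
  have h3 : ∏ i, o i ≤ Real.exp (1 - γ) := by
    calc ∏ i, o i ≤ ∏ i, Real.exp (o i - 1) := Finset.prod_le_prod (fun i _ => ho i) fun i _ => by
          have := Real.add_one_le_exp (o i - 1)
          linarith
      _ = Real.exp (∑ i, (o i - 1)) := (Real.exp_sum _ _).symm
      _ ≤ Real.exp (1 - γ) := by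
          apply Real.exp_le_exp.2
          rw [Finset.sum_sub_distrib]
          simp only [Finset.sum_const, Finset.card_univ, Fintype.card_fin, nsmul_eq_mul, mul_one]
          linarith
  have h4 : γ < Real.exp (γ - 1) := by
    have := Real.add_one_lt_exp (show γ - 1 ≠ 0 by linarith)
    linarith
  have h5 : γ * Real.exp (1 - γ) < 1 := by
    have h6 : Real.exp (γ - 1) * Real.exp (1 - γ) = 1 := by
      rw [← Real.exp_add]
      simp
    calc γ * Real.exp (1 - γ) < Real.exp (γ - 1) * Real.exp (1 - γ) :=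
          mul_lt_mul_of_pos_right h4 (Real.exp_pos _)
      _ = 1 := h6
  have h7 : γ * ∏ i, o i ≤ γ * Real.exp (1 - γ) := mul_le_mul_of_nonneg_left h3 (by linarith)
  linarith

end Pool.Agent.KSYP.CH

alias Pool.Agent.KSY.num_two := Pool.Agent.KSYP.CH.num_two_pr

alias Pool.Agent.KSY.num_zero := Pool.Agent.KSYP.CH.num_zero_pr
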