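import Pool.Agent.Lib_helper80.KSY.Defs
import Pool.Agent.Lib_helper77.KSZ.XQQ
import Pool.Agent.Lib_helper80.KSYF.CG

/-! # Project KSY, block DA (helper26): the direct path -/

set_option autoImplicit false

namespace Pool.Agent.KSYP.DA

open MvPolynomial Pool.Agent.KSS Pool.Agent.KSX Filter Topology
open Pool.Agent.KSY

/-- (DA) the direct path: local coordinates for the jet -/
theorem direct_pr (d : Fin 1 → ℕ) (hd : 2 ≤ d 0) (v : ℕ) (hv : d 0 < v)
    (hP : Pst d (v - d 0) ∅ Finset.univ) {ι : Type} (U : Ultrafilter ι) (R : ι → Rec 1)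
    (q : ι → ℝ) (M0 : ι → ℕ) (h : NE d v Finset.univ ∅ U R q M0)
    (h0 : ∀ᶠ n in U, (R n).c0 = 0) :
    ∃ (T : Type) (_ : Fintype T) (o : ι → T → ℕ) (oh : T → ℝ), Fintype.card T = v - 1 ∧
      (∀ᶠ n in U, ∀ m ≤ M0 n, ∀ l ≤ (R n).L,
        (cnt (fun _ : T => 1) (o n) m l : ℤ) + (R n).fil m l ≤ NN d v ∅ m) ∧
      (∀ t, Tendsto (fun n => (o n t : ℝ) / sn d v Finset.univ R q M0 n) U (𝓝 (oh t))) ∧
      ∀ lam : ℝ, 0 < lam → ∏ t, (lam + oh t) ≤ lam ^ (d 0 - 1) * (1 + lam) ^ (v - d 0) := by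
  classical
  have hd' : ∀ i, 2 ≤ d i := fun i => by rw [Subsingleton.elim i 0]; exact hd
  have hBE : Disjoint (Finset.univ : Finset (Fin 1)) ∅ := Finset.disjoint_empty_right _
  have hUE : (Finset.univ : Finset (Fin 1)) ∪ ∅ = Finset.univ := Finset.union_empty _
  have hcard : ((Finset.univ : Finset (Fin 1)) ∪ ∅).card = 1 := by simp
  have hB1 : (Finset.univ : Finset (Fin 1)).erase 0 = ∅ := by decide
  have hE1 : insert (0 : Fin 1) (∅ : Finset (Fin 1)) = Finset.univ := by decide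
  have hBv : ∑ i ∈ (Finset.univ : Finset (Fin 1)), d i < v := by
    rw [Fin.sum_univ_one]; exact hv
  set s : ι → ℝ := sn d v Finset.univ R q M0 with hs
  have hspos : ∀ᶠ n in (U : Filter ι), 0 < s n := h.spos
  have hLs : Tendsto (fun n => ((R n).L : ℝ) / s n) U atTop := by
    refine tendsto_atTop_mono' _ ?_ h.Llim
    filter_upwards [h.q01, hspos] with n hq hsn
    apply div_le_div_of_nonneg_right _ hsn.le
    have : (0 : ℝ) ≤ (R n).L := Nat.cast_nonneg _
    nlinarith [hq.1]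
  have hLpos : ∀ᶠ n in (U : Filter ι), 0 < (R n).L := by
    filter_upwards [hLs.eventually_gt_atTop 0, hspos] with n h1 h2
    by_contra h3
    have : (R n).L = 0 := by omega
    rw [this] at h1
    simp at h1
  have hex : ∀ᶠ n in (U : Filter ι), ∃ r : Rec 1 × (Fin (d 0) → ℕ) × ℕ,
      TorusOut d v 0 (M0 n) (R n) r.1 r.2.1 r.2.2 ∧
      ((∀ i, d i * r.1.c0 < (R n).L) →
        ∀ l0 : Fin (d 0), ∃ o, RitOut d v Finset.univ ∅ 0 (M0 n) (R n) r.1 r.2.1 r.2.2 l0 o) := by
    filter_upwards [h.of, h.gB, hLpos, h0] with n h1 h2 h3 h5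
    obtain ⟨R', e, η, h6, h7⟩ := rit_rec_pr d hd' v Finset.univ ∅ hBE 0 (by simp) hv (by simp)
      (M0 n) (R n) h1 h3 h5 h2 (by simp)
    exact ⟨(R', e, η), h6, h7⟩
  obtain ⟨r, hr⟩ := hex.choice
  obtain ⟨R', hR'⟩ : ∃ R' : ι → Rec 1, R' = fun n => (r n).1 := ⟨_, rfl⟩
  obtain ⟨e, he⟩ : ∃ e : ι → Fin (d 0) → ℕ, e = fun n => (r n).2.1 := ⟨_, rfl⟩
  obtain ⟨η, hη⟩ : ∃ η : ι → ℕ, η = fun n => (r n).2.2 := ⟨_, rfl⟩
  have hT : ∀ᶠ n in (U : Filter ι), TorusOut d v 0 (M0 n) (R n) (R' n) (e n) (η n) := by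
    filter_upwards [hr] with n hn
    rw [hR', he, hη]
    exact hn.1
  have hRit : ∀ᶠ n in (U : Filter ι), (∀ i, d i * (R' n).c0 < (R n).L) →
      ∀ l0 : Fin (d 0), ∃ o, RitOut d v Finset.univ ∅ 0 (M0 n) (R n) (R' n) (e n) (η n) l0 o := by
    filter_upwards [hr] with n hn
    rw [hR', he, hη]
    exact hn.2
  clear hr hex hR' he hη
  -- the torus step
  obtain ⟨hNE', hs', hes, hloss⟩ := tstep_B_pr d hd' v Finset.univ ∅ hBE 0 (Finset.mem_univ _) hBv
    U R q M0 h R' e η hT
  have hgB' := hNE'.gB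
  rw [hB1, hE1] at hNE'
  rw [hB1] at hs'
  have hs'pos := hNE'.spos
  -- c0' / s → 1
  have hc : Tendsto (fun n => ((R' n).c0 : ℝ) / s n) U (𝓝 1) := by
    have h1 := (hP ι U R' q M0 hNE').mul hs'
    rw [mul_one] at h1
    refine h1.congr' ?_
    filter_upwards [hspos, hs'pos] with n a1 a2
    have a1' : sn d v Finset.univ R q M0 n ≠ 0 := a1.ne'
    rw [hs]
    field_simp
  have hsmall : ∀ᶠ n in (U : Filter ι), ∀ i, d i * (R' n).c0 < (R n).L := by
    rw [Filter.eventually_all]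
    intro i
    have h1 : Tendsto (fun n => (d i : ℝ) * (((R' n).c0 : ℝ) / s n)) U (𝓝 (d i * 1)) :=
      hc.const_mul _
    filter_upwards [h1.eventually_lt_const (show (d i : ℝ) * 1 < d i + 1 by linarith),
      hLs.eventually_gt_atTop ((d i : ℝ) + 1), hspos] with n a1 a2 a3
    have a4 : (d i : ℝ) * (((R' n).c0 : ℝ) / s n) < (R n).L / s n := a1.trans a2
    rw [← mul_div_assoc, div_lt_div_iff_of_pos_right a3] at a4
    exact_mod_cast a4
  -- the limits of the `e l / s`
  have hle : ∀ l : Fin (d 0), ∃ x, Tendsto (fun n => (e n l : ℝ) / s n) U (𝓝 x) := by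
    intro l
    refine qq_lim (a := 0) (b := d 0 + 1) ?_
    filter_upwards [hes.eventually_lt_const (show (d 0 : ℝ) < d 0 + 1 by linarith), hspos]
      with n a1 a2
    refine ⟨by positivity, le_trans ?_ a1.le⟩
    apply div_le_div_of_nonneg_right _ a2.le
    exact Finset.single_le_sum (f := fun l => (e n l : ℝ)) (fun i _ => Nat.cast_nonneg _)
      (Finset.mem_univ l)
  choose eh heh using hle
  have heh0 : ∀ l, 0 ≤ eh l := by
    intro l
    refine ge_of_tendsto (heh l) ?_
    filter_upwards [hspos] with n a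
    positivity
  have hehs : ∑ l, eh l = d 0 := by
    have h1 : Tendsto (fun n => ∑ l, (e n l : ℝ) / s n) U (𝓝 (∑ l, eh l)) :=
      tendsto_finsetSum _ (fun l _ => heh l)
    have h2 : (fun n => ∑ l, (e n l : ℝ) / s n) = fun n => (∑ l, (e n l : ℝ)) / s n := by
      funext n
      rw [Finset.sum_div]
    rw [h2] at h1
    exact tendsto_nhds_unique h1 hes
  obtain ⟨l0, hl0⟩ : ∃ l0, 1 ≤ eh l0 := by
    by_contra hcon
    push Not at hcon
    have h1 : ∑ l, eh l < ∑ _l : Fin (d 0), (1 : ℝ) := by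
      apply Finset.sum_lt_sum_of_nonempty
      · exact ⟨⟨0, by omega⟩, Finset.mem_univ _⟩
      · exact fun l _ => hcon l
    rw [hehs] at h1
    simp at h1
  have hRit2 : ∀ᶠ n in (U : Filter ι), ∃ o,
      RitOut d v Finset.univ ∅ 0 (M0 n) (R n) (R' n) (e n) (η n) l0 o := by
    filter_upwards [hRit, hsmall] with n a1 a2
    exact a1 a2 l0
  obtain ⟨o, ho⟩ := hRit2.choice
  -- `Theta / s → 0`
  have hηB : ∀ᶠ n in (U : Filter ι), η n = (R n).L := by
    filter_upwards [hT, h.gB] with n a1 a2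
    have := a1.gj_le
    have := a1.eta_le
    have := a2 0 (Finset.mem_univ _)
    omega
  have hΘ : Tendsto (fun n => Theta d v (Finset.univ ∪ ∅) 0 (R n) (R' n) (η n) / s n) U
      (𝓝 0) := by
    have hmain : Tendsto (fun n => (R n).cd v Finset.univ / s n -
        ((v : ℝ) - d 0) * (((R' n).c0 : ℝ) / s n)) U
        (𝓝 (Ind d v Finset.univ - ((v : ℝ) - d 0) * 1)) :=
      h.cdlim.sub (hc.const_mul _)
    have hz : Ind d v Finset.univ - ((v : ℝ) - d 0) * 1 = 0 := by
      rw [Ind, Fin.sum_univ_one]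
      ring
    rw [hz] at hmain
    refine hmain.congr' ?_
    filter_upwards [hspos, hηB] with n a1 a2
    rw [Theta, hUE, hB1, a2, Rec.cd]
    simp only [Finset.sum_empty, Finset.card_univ, Fintype.card_fin, Nat.cast_one]
    field_simp
    ring
  -- upper limits for `o`
  have hup : ∀ t, ∃ (u : ι → ℝ) (x : ℝ), Tendsto u U (𝓝 x) ∧
      (∀ᶠ n in (U : Filter ι), (o n t : ℝ) / s n ≤ u n) ∧
      (∀ l, t = Sum.inl (Sum.inl l) → x = eh l) ∧ (∀ i, t = Sum.inl (Sum.inr i) → x = 1) := by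
    rintro ((l | i) | i)
    · refine ⟨fun n => (e n l : ℝ) / s n + Theta d v (Finset.univ ∪ ∅) 0 (R n) (R' n) (η n) / s n,
        eh l + 0, (heh l).add hΘ, ?_, ?_, ?_⟩
      · filter_upwards [ho, hspos] with n a1 a2
        rw [← add_div]
        exact div_le_div_of_nonneg_right (a1.o_y l) a2.le
      · intro l' hl'
        simp only [Sum.inl.injEq] at hl'
        rw [hl', add_zero]
      · intro i hi
        simp at hi
    · refine ⟨fun n => ((R' n).c0 : ℝ) / s n +
          Theta d v (Finset.univ ∪ ∅) 0 (R n) (R' n) (η n) / s n,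
        1 + 0, hc.add hΘ, ?_, ?_, ?_⟩
      · filter_upwards [ho, hspos] with n a1 a2
        rw [← add_div]
        exact div_le_div_of_nonneg_right (a1.o_x i) a2.le
      · intro l hl
        simp at hl
      · intro i' _
        rw [add_zero]
    · exact absurd i.2 (Finset.notMem_empty _)
  have hlo : ∀ t, ∃ x, Tendsto (fun n => (o n t : ℝ) / s n) U (𝓝 x) := by
    intro t
    obtain ⟨u, x, hu, hle, -⟩ := hup t
    refine qq_lim (a := 0) (b := x + 1) ?_
    filter_upwards [hle, hu.eventually_lt_const (show x < x + 1 by linarith), hspos]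
      with n a1 a2 a3
    exact ⟨by positivity, a1.trans a2.le⟩
  choose oh hoh using hlo
  have hoh0 : ∀ t, 0 ≤ oh t := by
    intro t
    refine ge_of_tendsto (hoh t) ?_
    filter_upwards [hspos] with n a
    positivity
  have hoy : ∀ l, oh (Sum.inl (Sum.inl l)) ≤ eh l := by
    intro l
    obtain ⟨u, x, hu, hle, hx, -⟩ := hup (Sum.inl (Sum.inl l))
    rw [← hx l rfl]
    exact le_of_tendsto_of_tendsto (hoh _) hu hle
  have hox : ∀ i, oh (Sum.inl (Sum.inr i)) ≤ 1 := by
    intro i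
    obtain ⟨u, x, hu, hle, -, hx⟩ := hup (Sum.inl (Sum.inr i))
    rw [← hx i rfl]
    exact le_of_tendsto_of_tendsto (hoh _) hu hle
  -- the sum
  have hsum : ∑ t, oh t ≤ Ind d v Finset.univ := by
    have h1 : Tendsto (fun n => ∑ t, (o n t : ℝ) / s n) U (𝓝 (∑ t, oh t)) :=
      tendsto_finsetSum _ (fun t _ => hoh t)
    refine le_of_tendsto_of_tendsto h1 h.cdlim ?_
    filter_upwards [ho, hspos] with n a1 a2
    rw [← Finset.sum_div]
    apply div_le_div_of_nonneg_right _ a2.le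
    have a3 := a1.sum_le
    have a4 : ((∑ t, o n t + (R n).τ + (Finset.univ : Finset (Fin 1)).card * (R n).L : ℕ) : ℝ) ≤
        ((v * (R n).L : ℕ) : ℝ) := by
      exact_mod_cast a3
    push_cast at a4
    rw [Rec.cd]
    linarith
  have hb : v - d 0 + 1 - ((Finset.univ : Finset (Fin 1)) ∪ ∅).card = v - d 0 := by
    rw [hcard]; omega
  have hsum2 : ∑ l, oh (Sum.inl (Sum.inl l)) + ∑ i, oh (Sum.inl (Sum.inr i)) ≤
      ((v - d 0 + 1 - ((Finset.univ : Finset (Fin 1)) ∪ ∅).card : ℕ) : ℝ) := by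
    have hbR : ((v - d 0 + 1 - ((Finset.univ : Finset (Fin 1)) ∪ ∅).card : ℕ) : ℝ) =
        (v : ℝ) - d 0 := by rw [hb, Nat.cast_sub hv.le]
    refine le_of_le_of_eq ?_ hbR.symm
    rw [Fintype.sum_sum_type, Fintype.sum_sum_type] at hsum
    have e1 : ∑ i : (∅ : Finset (Fin 1)), oh (Sum.inr i) = 0 :=
      Finset.sum_eq_zero fun i _ => absurd i.2 (Finset.notMem_empty _)
    rw [e1, Ind, Fin.sum_univ_one] at hsum
    linarith
  have hzero := num_one (d 0) (v - d 0 + 1 - ((Finset.univ : Finset (Fin 1)) ∪ ∅).card) hd eh heh0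
    hehs l0 hl0 (fun l => oh (Sum.inl (Sum.inl l))) (fun l => hoh0 _) hoy
    (fun i => oh (Sum.inl (Sum.inr i))) (fun i => hoh0 _) hox hsum2 (by
      intro lam hlam
      have h1 := lap_lim_pr d hd' v Finset.univ ∅ hBE 0 hBv hv (Or.inl (Finset.mem_univ _)) U R q
        M0 h R' e η hT hgB' l0 o ho hc hes (fun h => absurd h (Finset.notMem_empty _))
        (fun _ => hηB) eh heh oh hoh (fun i => absurd i.2 (Finset.notMem_empty _)) hloss lam hlam
      have h2 : ∏ i ∈ (Finset.univ : Finset (Fin 1)) ∪ ∅, (d i : ℝ) = d 0 := by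
        rw [hUE, Fin.prod_univ_one]
      rw [h2, show (1 + lam) ^ ((Finset.univ : Finset (Fin 1)) ∪ ∅).card = 1 + lam by
        rw [hcard, pow_one]] at h1
      rw [show (1 + lam) ^ (v - d 0 + 1 - ((Finset.univ : Finset (Fin 1)) ∪ ∅).card) =
        (1 + lam) ^ (v - d 0) by rw [hb]]
      exact h1)
  refine ⟨TI d 0 l0 (v - d 0 + 1 - ((Finset.univ : Finset (Fin 1)) ∪ ∅).card) ∅, inferInstance, o,
    oh, ?_, ?_, hoh, ?_⟩
  · rw [Fintype.card_sum, Fintype.card_sum, Fintype.card_subtype_compl, Fintype.card_fin,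
      Fintype.card_fin, hb]
    simp
    omega
  · filter_upwards [ho] with n hn m hm l hl
    have h1 := hn.cnt_le m hm l hl
    have h2 : tdeg d 0 l0 (v - d 0 + 1 - ((Finset.univ : Finset (Fin 1)) ∪ ∅).card) ∅ =
        fun _ => 1 := by
      funext t
      rcases t with t | i
      · rfl
      · exact absurd i.2 (Finset.notMem_empty _)
    rw [h2] at h1
    exact h1
  · intro lam hlam
    rw [Fintype.prod_sum_type, Fintype.prod_sum_type]
    have e1 : ∏ i : (∅ : Finset (Fin 1)), (lam + oh (Sum.inr i)) = 1 :=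
      Finset.prod_eq_one fun i _ => absurd i.2 (Finset.notMem_empty _)
    rw [e1, mul_one]
    have e2 : ∏ l : {l : Fin (d 0) // l ≠ l0}, (lam + oh (Sum.inl (Sum.inl l))) ≤
        lam ^ (d 0 - 1) := by
      have h1 : ∏ l : {l : Fin (d 0) // l ≠ l0}, (lam + oh (Sum.inl (Sum.inl l))) ≤
          ∏ _l : {l : Fin (d 0) // l ≠ l0}, lam := by
        apply Finset.prod_le_prod
        · intro l _
          have := hoh0 (Sum.inl (Sum.inl l))
          positivity
        · intro l _
          have h3 := hoy l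
          rw [hzero l l.2] at h3
          linarith
      rw [Finset.prod_const, Finset.card_univ, Fintype.card_subtype_compl, Fintype.card_fin,
        Fintype.card_unique] at h1
      exact h1
    have e3 : ∏ i : Fin (v - d 0 + 1 - ((Finset.univ : Finset (Fin 1)) ∪ ∅).card),
        (lam + oh (Sum.inl (Sum.inr i))) ≤ (1 + lam) ^ (v - d 0) := by
      have h1 : ∏ i : Fin (v - d 0 + 1 - ((Finset.univ : Finset (Fin 1)) ∪ ∅).card),
          (lam + oh (Sum.inl (Sum.inr i))) ≤
          ∏ _i : Fin (v - d 0 + 1 - ((Finset.univ : Finset (Fin 1)) ∪ ∅).card), (1 + lam) := by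
        apply Finset.prod_le_prod
        · intro i _
          have := hoh0 (Sum.inl (Sum.inr i))
          positivity
        · intro i _
          have h3 := hox i
          linarith
      rw [Finset.prod_const, Finset.card_univ, Fintype.card_fin] at h1
      rw [show (1 + lam) ^ (v - d 0 + 1 - ((Finset.univ : Finset (Fin 1)) ∪ ∅).card) =
        (1 + lam) ^ (v - d 0) by rw [hb]] at h1
      exact h1
    apply mul_le_mul e2 e3
    · apply Finset.prod_nonneg
      intro i _
      have := hoh0 (Sum.inl (Sum.inr i))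
      positivity
    · positivity


end Pool.Agent.KSYP.DA

alias Pool.Agent.KSY.direct := Pool.Agent.KSYP.DA.direct_pr
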