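import Pool.Agent.Lib_helper80.KSY.Defs
import Pool.Agent.Lib_helper77.KSZ.XLAP

/-!
# KSY, block DB: the limit of the Laplace inequality for arbitrary local coordinates
-/

set_option autoImplicit false

namespace Pool.Agent.KSYP.DB

open MvPolynomial Pool.Agent.KSS Pool.Agent.KSX Pool.Agent.KSY Filter Topology

theorem mix_point {p : ℕ} (d : Fin p → ℕ) (hd : ∀ i, 1 ≤ d i) (v : ℕ) (B : Finset (Fin p))
    (j : Fin p) (hB : ∑ i ∈ B, d i < v) (hv : d j < v) (hcase : j ∈ B ∨ B = ∅) (M0 : ℕ)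
    (R R' : Rec p) (e : Fin (d j) → ℕ) (η : ℕ) (hη1 : 1 ≤ η) (hT : TorusOut d v j M0 R R' e η)
    (hB' : ∀ i ∈ B.erase j, R'.g i = R'.L) {T : Type} [Fintype T] (δ : T → ℕ)
    (hδ : ∀ t, 1 ≤ δ t) (o : T → ℕ)
    (ho : ∀ m ≤ M0, ∀ l ≤ R.L, (cnt δ o m l : ℤ) + R.fil m l ≤ NN d v ∅ m)
    (q θ : ℝ) (hq0 : 0 < q) (hq1 : q < 1)
    (hθ0 : 0 < θ) (hθ1 : θ < 1) :
    ∏ t, (1 - q ^ (δ t) * θ ^ (o t))⁻¹
      - (√q) ^ M0 * ∏ t, (1 - (√q) ^ (δ t))⁻¹
      - θ ^ R.L * ∏ t, (1 - q ^ (δ t))⁻¹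
    ≤ (1 - θ) / θ * (∑ m ∈ Finset.range (M0 + 1), q ^ m *
          ∑ l ∈ Finset.Icc 1 R.L, (((NN d v ∅ m : ℝ) - R.fil m l) - NT d v j R' e η m l)) +
      Hq d (v - d j) (B.erase j) (q * θ ^ R'.c0) * (1 - q ^ (d j) * θ ^ (∑ l, e l))
        / ((∏ l, (1 - q * θ ^ (e l))) * (1 - q ^ (d j) * θ ^ η)) := by
  have h1 := cnt_lap δ o hδ q θ hq0 hq1 hθ0 hθ1 M0 R.L
  refine h1.trans ?_
  have hsub : ∑ i ∈ B.erase j, d i < v - d j := by
    rcases hcase with hj | hB0
    · have := Finset.add_sum_erase B d hj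
      omega
    · rw [hB0]
      simp
      exact hv
  have h2 := nt_lap d hd v (B.erase j) j (Finset.notMem_erase j B) hsub M0 R R' e η hη1 hT hB' q θ
    hq0 hq1 hθ0 hθ1
  have hθ' : 0 < 1 - θ := by linarith
  have hr : 0 ≤ (1 - θ) / θ := div_nonneg hθ'.le hθ0.le
  have h3 : ∑ m ∈ Finset.range (M0 + 1), q ^ m * ∑ l ∈ Finset.Icc 1 R.L,
      θ ^ l * (cnt δ o m l : ℝ) ≤
      (∑ m ∈ Finset.range (M0 + 1), q ^ m *
          ∑ l ∈ Finset.Icc 1 R.L, (((NN d v ∅ m : ℝ) - R.fil m l) - NT d v j R' e η m l)) +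
      ∑ m ∈ Finset.range (M0 + 1), q ^ m * ∑ l ∈ Finset.Icc 1 R.L, θ ^ l * NT d v j R' e η m l := by
    rw [← Finset.sum_add_distrib]
    apply Finset.sum_le_sum
    intro m hm
    rw [← mul_add, ← Finset.sum_add_distrib]
    apply mul_le_mul_of_nonneg_left _ (pow_nonneg hq0.le m)
    apply Finset.sum_le_sum
    intro l hl
    rw [Finset.mem_range] at hm
    rw [Finset.mem_Icc] at hl
    have h4 : (cnt δ o m l : ℝ) + R.fil m l ≤
        (NN d v ∅ m : ℝ) := by
      exact_mod_cast ho m (by omega) l hl.2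
    have h5 := nt_le d hd v j hv M0 R R' e η hT m l (by omega) hl.1 hl.2
    have h6 : 0 ≤ θ ^ l := pow_nonneg hθ0.le l
    have h7 : θ ^ l ≤ 1 := pow_le_one₀ hθ0.le hθ1.le
    have h8 := mul_le_mul_of_nonneg_left h4 h6
    have h9 : θ ^ l * (((NN d v ∅ m : ℝ) - R.fil m l) - NT d v j R' e η m l) ≤
        1 * (((NN d v ∅ m : ℝ) - R.fil m l) - NT d v j R' e η m l) :=
      mul_le_mul_of_nonneg_right h7 (by linarith)
    nlinarith
  refine (mul_le_mul_of_nonneg_left (h3.trans (add_le_add_right h2 _)) hr).trans ?_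
  rw [mul_add]
  apply add_le_add_right
  rw [← mul_assoc]
  have h5 : (1 - θ) / θ * (θ / (1 - θ)) = 1 := by field_simp
  rw [h5, one_mul]

theorem mix_core {p : ℕ} (d : Fin p → ℕ) (hd : ∀ i, 2 ≤ d i) (v : ℕ) (B : Finset (Fin p))
    (j : Fin p) (hB : ∑ i ∈ B, d i < v) (hv : d j < v) (hj : j ∈ B)
    {ι : Type} (U : Ultrafilter ι) (R : ι → Rec p) (q : ι → ℝ) (M0 : ι → ℕ)
    (h : NE d v B ∅ U R q M0) (R' : ι → Rec p) (e : ι → Fin (d j) → ℕ) (η : ι → ℕ)
    (hT : ∀ᶠ n in (U : Filter ι), TorusOut d v j (M0 n) (R n) (R' n) (e n) (η n))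
    (hB' : ∀ᶠ n in (U : Filter ι), ∀ i ∈ B.erase j, (R' n).g i = (R' n).L)
    (T : Type) [Fintype T] (hTc : Fintype.card T + B.card = v) (o : ι → T → ℕ)
    (ho : ∀ᶠ n in (U : Filter ι), ∀ m ≤ M0 n, ∀ l ≤ (R n).L,
        (cnt (fun _ : T => 1) (o n) m l : ℤ) + (R n).fil m l ≤ NN d v ∅ m)
    (hc : Tendsto (fun n => ((R' n).c0 : ℝ) / sn d v B R q M0 n) U (𝓝 1))
    (he : Tendsto (fun n => (∑ l, (e n l : ℝ)) / sn d v B R q M0 n) U (𝓝 (d j)))
    (hηB : ∀ᶠ n in (U : Filter ι), η n = (R n).L)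
    (eh : Fin (d j) → ℝ)
    (heh : ∀ l, Tendsto (fun n => (e n l : ℝ) / sn d v B R q M0 n) U (𝓝 (eh l)))
    (oh : T → ℝ)
    (hoh : ∀ t, Tendsto (fun n => (o n t : ℝ) / sn d v B R q M0 n) U (𝓝 (oh t)))
    (hloss : Tendsto (fun n => (∑ m ∈ Finset.range (M0 n + 1), q n ^ m *
          ∑ l ∈ Finset.Icc 1 (R n).L, (((NN d v ∅ m : ℝ) - (R n).fil m l)
            - NT d v j (R' n) (e n) (η n) m l))
          / (sn d v B R q M0 n * Wq d v B (q n))) U (𝓝 0))
    (lam : ℝ) (hlam : 0 < lam) :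
    (∏ l, (lam + eh l)) * (1 + lam) ^ (v - d j) ≤
      (∏ i ∈ B, (d i : ℝ)) * (1 + lam) ^ B.card * ∏ x, (lam + oh x) := by
  classical
  have hd1 : ∀ i, 1 ≤ d i := fun i => le_trans (by norm_num) (hd i)
  obtain ⟨s, hs⟩ : ∃ s : ι → ℝ, s = fun n => sn d v B R q M0 n := ⟨_, rfl⟩
  have hsn : ∀ n, sn d v B R q M0 n = s n := fun n => by rw [hs]
  have hspos : ∀ᶠ n in (U : Filter ι), 0 < s n := by simpa only [hsn] using h.spos
  have hLl := h.Llim
  simp only [hsn] at hLl hc he heh hoh hloss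
  have hjcase : j ∈ B ∨ B = ∅ := Or.inl hj
  obtain ⟨δ, hδ⟩ : ∃ δ : T → ℕ, δ = fun _ => 1 := ⟨_, rfl⟩
  have hδn : ∀ x, δ x = 1 := fun x => by rw [hδ]
  rw [← hδ] at ho
  obtain ⟨t, htd⟩ : ∃ t : ι → ℝ, t = fun n => -Real.log (q n) := ⟨_, rfl⟩
  have htn : ∀ n, t n = -Real.log (q n) := fun n => by rw [htd]
  have ht0 : Tendsto t U (𝓝 0) := by
    have h1 := (Real.continuousAt_log one_ne_zero).tendsto.comp h.qlim
    rw [Real.log_one] at h1
    have h2 := h1.neg
    rw [neg_zero] at h2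
    rw [htd]
    exact h2
  have htpos : ∀ᶠ n in (U : Filter ι), 0 < t n := by
    filter_upwards [h.q01] with n hn
    rw [htn]
    have := Real.log_neg hn.1 hn.2
    linarith
  have hne : ∀ᶠ n in (U : Filter ι), t n ≠ 0 := htpos.mono (fun n hn => hn.ne')
  have hqt : ∀ᶠ n in (U : Filter ι), q n = Real.exp (-t n) := by
    filter_upwards [h.q01] with n hn
    rw [htn, neg_neg, Real.exp_log hn.1]
  have htge : ∀ᶠ n in (U : Filter ι), 1 - q n ≤ t n := by
    filter_upwards [h.q01] with n hn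
    rw [htn]
    have := Real.log_le_sub_one_of_pos hn.1
    linarith
  obtain ⟨θ, hθd⟩ : ∃ θ : ι → ℝ, θ = fun n => Real.exp (-(t n / (lam * s n))) := ⟨_, rfl⟩
  have hθ : ∀ n, θ n = Real.exp (-(t n / (lam * s n))) := fun n => by rw [hθd]
  have hθ0 : ∀ n, 0 < θ n := fun n => by rw [hθ]; exact Real.exp_pos _
  have hθ1 : ∀ᶠ n in (U : Filter ι), θ n < 1 := by
    filter_upwards [htpos, hspos] with n h1 h2
    rw [hθ, Real.exp_lt_one_iff]
    have : 0 < t n / (lam * s n) := by positivity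
    linarith
  have hdj : (0 : ℝ) < d j := by exact_mod_cast (hd1 j)
  have hslow : ∀ᶠ n in (U : Filter ι), 1 / (2 * (d j : ℝ)) ≤ s n := by
    have h1 := he.eventually (lt_mem_nhds hdj)
    have h2 := he.eventually (gt_mem_nhds (show (d j : ℝ) < 2 * d j by linarith))
    filter_upwards [h1, h2, hspos] with n h3 h4 h5
    have h6 : 0 < ∑ l, (e n l : ℝ) := by
      by_contra h7
      push Not at h7
      have := div_nonpos_of_nonpos_of_nonneg h7 h5.le
      linarith
    have h7 : (1 : ℝ) ≤ ∑ l, (e n l : ℝ) := by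
      have h8 : (0 : ℝ) < ((∑ l, e n l : ℕ) : ℝ) := by push_cast; exact h6
      have h9 : 0 < ∑ l, e n l := by exact_mod_cast h8
      have h10 : (1 : ℝ) ≤ ((∑ l, e n l : ℕ) : ℝ) := by exact_mod_cast h9
      push_cast at h10
      exact h10
    rw [div_lt_iff₀ h5] at h4
    rw [div_le_iff₀ (by positivity)]
    linarith
  have hr : Tendsto (fun n => t n / s n) U (𝓝 0) := by
    have h1 : Tendsto (fun n => t n * (2 * (d j : ℝ))) U (𝓝 0) := by
      simpa using ht0.mul_const (2 * (d j : ℝ))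
    apply squeeze_zero' _ _ h1
    · filter_upwards [htpos, hspos] with n h2 h3
      positivity
    · filter_upwards [htpos, hspos, hslow] with n h2 h3 h4
      rw [div_le_iff₀ h3]
      rw [div_le_iff₀ (by positivity)] at h4
      nlinarith
  have hr0 : ∀ᶠ n in (U : Filter ι), t n / s n ≠ 0 := by
    filter_upwards [htpos, hspos] with n h2 h3
    positivity
  have hθlim : Tendsto θ U (𝓝 1) := by
    have h1 : Tendsto (fun n => -(t n / s n / lam)) U (𝓝 0) := by
      simpa using (hr.div_const lam).neg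
    have h2 := (Real.continuous_exp.tendsto 0).comp h1
    rw [Real.exp_zero] at h2
    apply h2.congr
    intro n
    simp only [Function.comp]
    rw [hθ]
    congr 1
    ring
  have htL : Tendsto (fun n => t n * ((R n).L : ℝ) / s n) U atTop := by
    apply tendsto_atTop_mono' _ _ hLl
    filter_upwards [htge, hspos] with n h1 h2
    apply div_le_div_of_nonneg_right _ h2.le
    exact mul_le_mul_of_nonneg_right h1 (Nat.cast_nonneg _)
  have htM : Tendsto (fun n => t n * (M0 n : ℝ)) U atTop := by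
    apply tendsto_atTop_mono' _ _ h.M0lim
    filter_upwards [htge] with n h1
    exact mul_le_mul_of_nonneg_right h1 (Nat.cast_nonneg _)
  have hθL : Tendsto (fun n => θ n ^ (R n).L) U (𝓝 0) := by
    have h1 : Tendsto (fun n => -(t n * ((R n).L : ℝ) / s n / lam)) U atBot :=
      tendsto_neg_atTop_atBot.comp (htL.atTop_div_const hlam)
    have h2 := Real.tendsto_exp_atBot.comp h1
    apply h2.congr
    intro n
    simp only [Function.comp]
    rw [hθ, ← Real.exp_nat_mul]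
    congr 1
    ring
  have hsq : ∀ᶠ n in (U : Filter ι), √(q n) = Real.exp (-(t n / 2)) := by
    filter_upwards [hqt] with n hn
    rw [hn, ← Real.exp_half]
    congr 1
    ring
  have hqM : Tendsto (fun n => (√(q n)) ^ (M0 n)) U (𝓝 0) := by
    have h1 : Tendsto (fun n => -(t n * (M0 n : ℝ) / 2)) U atBot :=
      tendsto_neg_atTop_atBot.comp (htM.atTop_div_const two_pos)
    have h2 := Real.tendsto_exp_atBot.comp h1
    apply h2.congr'
    filter_upwards [hsq] with n hn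
    simp only [Function.comp]
    rw [hn, ← Real.exp_nat_mul]
    congr 1
    ring
  obtain ⟨K, hK⟩ : ∃ K, K = Fintype.card T := ⟨_, rfl⟩
  have hdj1 := hd1 j
  have hKv : K + B.card = v := by rw [hK]; exact hTc
  have hK2 : v - B.card = K := by omega
  -- T1
  have hoh0 : ∀ x, 0 ≤ oh x := by
    intro x
    apply ge_of_tendsto (hoh x)
    filter_upwards [hspos] with n hn
    positivity
  have heh0 : ∀ x, 0 ≤ eh x := by
    intro x
    apply ge_of_tendsto (heh x)
    filter_upwards [hspos] with n hn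
    positivity
  have hdeg : ∀ x, 1 ≤ δ x := fun x => by rw [hδn]
  have hdegR : ∀ x, (1 : ℝ) ≤ δ x := by
    intro x
    exact_mod_cast hdeg x
  have hφ : ∀ x, 0 < (δ x : ℝ) + oh x / lam := by
    intro x
    have h1 := hdegR x
    have h2 : 0 ≤ oh x / lam := div_nonneg (hoh0 x) hlam.le
    linarith
  have T1 := lap_inv (U := (U : Filter ι)) hne (fun x => (hφ x).ne')
    (fun x => lap_fac ht0 hne hqt hθ (δ x) (hoh x)
      (lam := lam))
  have T2 : Tendsto (fun n => t n ^ K * ((√(q n)) ^ (M0 n) *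
      ∏ x, (1 - (√(q n)) ^ (δ x))⁻¹)) U (𝓝 0) := by
    have h1 := lap_inv (U := (U : Filter ι)) (t := t) hne
      (f := fun n x => 1 - (√(q n)) ^ (δ x))
      (φ := fun x => (δ x : ℝ) / 2)
      (fun x => by have := hdegR x; positivity) (by
        intro x
        have h2 := lap_slope ht0 hne (tendsto_const_nhds (f := (U : Filter ι))
          (x := (δ x : ℝ) / 2))
        apply h2.congr'
        filter_upwards [hsq] with n hn
        rw [hn, ← Real.exp_nat_mul]
        congr 3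
        ring)
    have h3 := hqM.mul h1
    rw [zero_mul] at h3
    apply h3.congr
    intro n
    rw [hK]
    ring
  have T3 : Tendsto (fun n => t n ^ K * (θ n ^ (R n).L *
      ∏ x, (1 - q n ^ (δ x))⁻¹)) U (𝓝 0) := by
    have h1 := lap_inv (U := (U : Filter ι)) (t := t) hne
      (f := fun n x => 1 - q n ^ (δ x))
      (φ := fun x => (δ x : ℝ))
      (fun x => by have := hdegR x; positivity) (by
        intro x
        have h2 := lap_slope ht0 hne (tendsto_const_nhds (f := (U : Filter ι))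
          (x := (δ x : ℝ)))
        apply h2.congr'
        filter_upwards [hqt] with n hn
        rw [hn, ← Real.exp_nat_mul]
        congr 3
        ring)
    have h3 := hθL.mul h1
    rw [zero_mul] at h3
    apply h3.congr
    intro n
    rw [hK]
    ring
  -- T4
  have hWl : Tendsto (fun n => t n ^ (K + 1) * Wq d v B (q n)) U
      (𝓝 (((v : ℝ) - B.card) * ∏ i ∈ B, (d i : ℝ))) := by
    have h1 : Tendsto q U (𝓝[<] 1) := by
      rw [tendsto_nhdsWithin_iff]
      exact ⟨h.qlim, h.q01.mono (fun n hn => hn.2)⟩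
    have h2 := (asy_W d hd1 v B (by omega)).comp h1
    rw [hK2] at h2
    have h3 : Tendsto (fun n => (1 - q n) / t n) U (𝓝 1) := by
      have h4 := lap_slope ht0 hne (tendsto_const_nhds (f := (U : Filter ι)) (x := (1 : ℝ)))
      apply h4.congr'
      filter_upwards [hqt] with n hn
      rw [mul_one, ← hn]
    have h5 := h2.div (h3.pow (K + 1)) (by norm_num)
    rw [one_pow, div_one] at h5
    apply h5.congr'
    filter_upwards [hne, h.q01] with n hn hq
    simp only [Function.comp, Pi.div_apply]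
    have h6 : 1 - q n ≠ 0 := by linarith [hq.2]
    rw [div_pow]
    field_simp
  have hWpos : 0 < ((v : ℝ) - B.card) * ∏ i ∈ B, (d i : ℝ) := by
    have h1 : (0 : ℝ) < (v : ℝ) - B.card := by
      have h2 : B.card < v := by
        have h3 : B.card ≤ ∑ i ∈ B, d i := by
          rw [Finset.card_eq_sum_ones]
          exact Finset.sum_le_sum (fun i _ => hd1 i)
        omega
      have : (B.card : ℝ) < v := by exact_mod_cast h2
      linarith
    apply mul_pos h1
    apply Finset.prod_pos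
    intro i _
    exact_mod_cast hd1 i
  have hWne : ∀ᶠ n in (U : Filter ι), Wq d v B (q n) ≠ 0 := by
    filter_upwards [hWl.eventually (lt_mem_nhds hWpos)] with n hn h0
    rw [h0, mul_zero] at hn
    exact lt_irrefl _ hn
  have hθr : Tendsto (fun n => (1 - θ n) / (t n / s n)) U (𝓝 (1 / lam)) := by
    have h4 := lap_slope hr hr0 (tendsto_const_nhds (f := (U : Filter ι)) (x := 1 / lam))
    apply h4.congr
    intro n
    rw [hθ]
    congr 3
    ring
  have T4 : Tendsto (fun n => t n ^ K * ((1 - θ n) / θ n *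
      (∑ m ∈ Finset.range (M0 n + 1), q n ^ m *
          ∑ l ∈ Finset.Icc 1 (R n).L, (((NN d v ∅ m : ℝ) - (R n).fil m l)
            - NT d v j (R' n) (e n) (η n) m l)))) U (𝓝 0) := by
    have h1 := ((hloss.mul hθr).mul hWl).mul (hθlim.inv₀ one_ne_zero)
    rw [zero_mul, zero_mul, zero_mul] at h1
    apply h1.congr'
    filter_upwards [hne, hspos, hWne] with n h2 h3 h4
    have h5 := (hθ0 n).ne'
    have h6 := h3.ne'
    rw [pow_succ]
    field_simp
  -- T5
  have hηpos : ∀ᶠ n in (U : Filter ι), 1 ≤ η n := by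
    filter_upwards [hηB, htL.eventually (eventually_gt_atTop 0)] with n h1 h2
    rw [h1]
    by_contra h3
    have h4 : (R n).L = 0 := by omega
    rw [h4] at h2
    simp at h2
  have he' : Tendsto (fun n => ((∑ l, e n l : ℕ) : ℝ) / s n) U (𝓝 (d j)) := by
    simpa only [Nat.cast_sum] using he
  have T5 := lap_rhs (U := (U : Filter ι)) d v K B j hKv hv hdj1 lam hlam ht0 hne hqt hθ
    (fun n => (R' n).c0) hc e eh heh heh0 he' η (by
      left
      refine ⟨hj, ?_⟩
      have h1 : Tendsto (fun n => q n ^ d j * θ n ^ (R n).L) U (𝓝 0) := by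
        have h2 := (h.qlim.pow (d j)).mul hθL
        rw [mul_zero] at h2
        exact h2
      apply h1.congr'
      filter_upwards [hηB] with n hn
      rw [hn])
  have hTL := (T1.sub T2).sub T3
  have hTR := T4.add T5
  rw [← hK] at hTL
  have hfin := le_of_tendsto_of_tendsto hTL hTR (by
    filter_upwards [hT, hB', ho, h.q01, hθ1, hηpos, htpos] with n h1 h2 h3 h4 h5 h6 h7
    have h8 := mix_point d hd1 v B j hB hv hjcase (M0 n) (R n) (R' n) (e n) (η n) h6 h1 h2 δ
      hdeg (o n) h3 (q n) (θ n) h4.1 h4.2 (hθ0 n) h5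
    have h9 := mul_le_mul_of_nonneg_left h8 (pow_nonneg h7.le K)
    rw [mul_add, mul_sub, mul_sub] at h9
    exact h9)
  rw [sub_zero, sub_zero, zero_add] at hfin
  -- final algebra
  obtain ⟨u, hu⟩ : ∃ u : ℝ, u = 1 + 1 / lam := ⟨_, rfl⟩
  have hu0 : 0 < u := by rw [hu]; positivity
  have hlu : 1 + lam = lam * u := by rw [hu, mul_add, mul_one, mul_one_div_cancel hlam.ne']; ring
  rw [← hu] at hfin
  have hZ : 0 < ∏ l, (1 + eh l / lam) := by
    apply Finset.prod_pos
    intro l _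
    have : 0 ≤ eh l / lam := div_nonneg (heh0 l) hlam.le
    linarith
  have hΦ : 0 < ∏ x, ((δ x : ℝ) + oh x / lam) :=
    Finset.prod_pos (fun x _ => hφ x)
  rw [Finset.prod_inv_distrib, inv_eq_one_div, div_le_div_iff₀ hΦ (by positivity), one_mul] at hfin
  have eΦ : ∏ x, ((δ x : ℝ) + oh x / lam) = ∏ x, (1 + oh x / lam) := by
    refine Finset.prod_congr rfl (fun x _ => ?_)
    rw [hδn]
    norm_num
  rw [eΦ] at hfin
  have m1 : ∏ l, (lam + eh l) = lam ^ (d j) * ∏ l, (1 + eh l / lam) := by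
    have : ∀ l, lam + eh l = lam * (1 + eh l / lam) := fun l => by field_simp
    rw [Finset.prod_congr rfl (fun l _ => this l), Finset.prod_mul_distrib, Finset.prod_const,
      Finset.card_univ, Fintype.card_fin]
  have m2 : ∏ x, (lam + oh x) = lam ^ K * ∏ x, (1 + oh x / lam) := by
    have : ∀ x, lam + oh x = lam * (1 + oh x / lam) := fun x => by field_simp
    rw [Finset.prod_congr rfl (fun x _ => this x), Finset.prod_mul_distrib, Finset.prod_const,
      Finset.card_univ, hK]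
  have m5 : lam ^ (d j) * lam ^ (v - d j) = lam ^ v := by
    rw [← pow_add]; congr 1; omega
  have m6 : lam ^ B.card * lam ^ K = lam ^ v := by
    rw [← pow_add]; congr 1; omega
  have hfin2 := mul_le_mul_of_nonneg_left hfin (pow_nonneg hlam.le v)
  have L1 : (∏ l, (lam + eh l)) * (1 + lam) ^ (v - d j) =
      lam ^ v * (u ^ (v - d j) * ∏ l, (1 + eh l / lam)) := by
    rw [m1, hlu, mul_pow, ← m5]
    ring
  have L2 : (∏ i ∈ B, (d i : ℝ)) * (1 + lam) ^ B.card * ∏ x, (lam + oh x) =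
      lam ^ v * ((∏ i ∈ B, (d i : ℝ)) * u ^ B.card * ∏ x, (1 + oh x / lam)) := by
    rw [m2, hlu, ← m6, mul_pow]
    ring
  rw [L1, L2]
  exact hfin2

theorem lap_mix_pr (d : Fin 1 → ℕ) (hd : 2 ≤ d 0) (v : ℕ) (hv : d 0 < v)
    {ι : Type} (U : Ultrafilter ι) (R : ι → Rec 1) (q : ι → ℝ) (M0 : ι → ℕ)
    (h : NE d v Finset.univ ∅ U R q M0) (R' : ι → Rec 1) (e : ι → Fin (d 0) → ℕ) (η : ι → ℕ)
    (hT : ∀ᶠ n in U, TorusOut d v 0 (M0 n) (R n) (R' n) (e n) (η n))
    (hη : ∀ᶠ n in U, η n = (R n).L)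
    (hc : Tendsto (fun n => ((R' n).c0 : ℝ) / sn d v Finset.univ R q M0 n) U (𝓝 1))
    (he : Tendsto (fun n => (∑ l, (e n l : ℝ)) / sn d v Finset.univ R q M0 n) U (𝓝 (d 0)))
    (eh : Fin (d 0) → ℝ)
    (heh : ∀ l, Tendsto (fun n => (e n l : ℝ) / sn d v Finset.univ R q M0 n) U (𝓝 (eh l)))
    (hloss : Tendsto (fun n => (∑ m ∈ Finset.range (M0 n + 1), q n ^ m *
          ∑ l ∈ Finset.Icc 1 (R n).L, (((NN d v ∅ m : ℝ) - (R n).fil m l)
            - NT d v 0 (R' n) (e n) (η n) m l))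
          / (sn d v Finset.univ R q M0 n * Wq d v Finset.univ (q n))) U (𝓝 0))
    (T : Type) [Fintype T] (hTc : Fintype.card T = v - 1) (o : ι → T → ℕ) (oh : T → ℝ)
    (ho : ∀ᶠ n in U, ∀ m ≤ M0 n, ∀ l ≤ (R n).L,
        (cnt (fun _ : T => 1) (o n) m l : ℤ) + (R n).fil m l ≤ NN d v ∅ m)
    (hoh : ∀ t, Tendsto (fun n => (o n t : ℝ) / sn d v Finset.univ R q M0 n) U (𝓝 (oh t)))
    (lam : ℝ) (hlam : 0 < lam) :
    (∏ l, (lam + eh l)) * (1 + lam) ^ (v - d 0) ≤ d 0 * (1 + lam) * ∏ t, (lam + oh t) := by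
  have hd' : ∀ i, 2 ≤ d i := by
    intro i
    rw [Subsingleton.elim i 0]
    exact hd
  have hB : ∑ i ∈ (Finset.univ : Finset (Fin 1)), d i < v := by
    simpa using hv
  have key := mix_core d hd' v Finset.univ 0 hB hv (Finset.mem_univ _) U R q M0 h R' e η hT
    (Eventually.of_forall (fun n i hi => by
      rw [Finset.mem_erase] at hi
      exact absurd (Subsingleton.elim i 0) hi.1)) T (by
      rw [hTc, Finset.card_univ, Fintype.card_fin]
      omega) o ho hc he hη eh heh oh hoh hloss lam hlam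
  simpa using key

end Pool.Agent.KSYP.DB

alias Pool.Agent.KSY.lap_mix := Pool.Agent.KSYP.DB.lap_mix_pr
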