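import Pool.Agent.Lib_helper80.KSY.Defs
import Pool.Agent.Lib_helper77.KSZ.XTSB
import Pool.Agent.Lib_helper77.KSZ.XQQ
import Pool.Agent.Lib_helper80.KSYF.CH
import Pool.Agent.Lib_helper80.KSYF.DA
import Pool.Agent.Lib_helper80.KSYF.DB

/-!
# One form of degree `D >= 3` (project KSY), block DC: the orders are concentrated at one index
-/

set_option autoImplicit false

namespace Pool.Agent.KSYP.DC

open MvPolynomial Pool.Agent.KSS Pool.Agent.KSX Pool.Agent.KSY Filter Topology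

/-- (DC) for every torus step the orders are concentrated at one index -/
theorem one_index_pr (d : Fin 1 → ℕ) (hd : 2 ≤ d 0) (v : ℕ) (hv : d 0 < v)
    (hP : Pst d (v - d 0) ∅ Finset.univ) {ι : Type} (U : Ultrafilter ι) (R : ι → Rec 1)
    (q : ι → ℝ) (M0 : ι → ℕ) (h : NE d v Finset.univ ∅ U R q M0)
    (h0 : ∀ᶠ n in U, (R n).c0 = 0) (R' : ι → Rec 1) (e : ι → Fin (d 0) → ℕ)
    (hT : ∀ᶠ n in U, TorusOut d v 0 (M0 n) (R n) (R' n) (e n) (R n).L) :
    Tendsto (fun n => ((R' n).c0 : ℝ) / sn d v Finset.univ R q M0 n) U (𝓝 1) ∧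
      Tendsto (fun n => sn d (v - d 0) ∅ R' q M0 n / sn d v Finset.univ R q M0 n) U (𝓝 1) ∧
      ∃ ls : Fin (d 0),
        Tendsto (fun n => (e n ls : ℝ) / sn d v Finset.univ R q M0 n) U (𝓝 (d 0)) ∧
        ∀ l, l ≠ ls → Tendsto (fun n => (e n l : ℝ) / sn d v Finset.univ R q M0 n) U (𝓝 0) := by
  classical
  have hd' : ∀ i : Fin 1, 2 ≤ d i := fun i => by rwa [Subsingleton.elim i 0]
  have hB : ∑ i ∈ (Finset.univ : Finset (Fin 1)), d i < v := by simpa using hv
  have hE1 : (Finset.univ : Finset (Fin 1)).erase 0 = ∅ := by decide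
  have hE2 : insert (0 : Fin 1) (∅ : Finset (Fin 1)) = Finset.univ := by decide
  obtain ⟨hNE', hs', hes, hloss⟩ := tstep_B_pr d hd' v Finset.univ ∅
    (Finset.disjoint_empty_right _) 0 (Finset.mem_univ _) hB U R q M0 h R' e
    (fun n => (R n).L) hT
  rw [hE1, hE2] at hNE'
  rw [hE1] at hs'
  set s : ι → ℝ := sn d v Finset.univ R q M0 with hs
  have hspos : ∀ᶠ n in (U : Filter ι), 0 < s n := h.spos
  have hs'pos := hNE'.spos
  have hc : Tendsto (fun n => ((R' n).c0 : ℝ) / s n) U (𝓝 1) := by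
    have h1 := (hP ι U R' q M0 hNE').mul hs'
    rw [mul_one] at h1
    refine h1.congr' ?_
    filter_upwards [hspos, hs'pos] with n a1 a2
    field_simp
  refine ⟨hc, hs', ?_⟩
  have hle : ∀ l : Fin (d 0), ∃ x, Tendsto (fun n => (e n l : ℝ) / s n) U (𝓝 x) := by
    intro l
    refine qq_lim (a := 0) (b := d 0 + 1) ?_
    filter_upwards [hes.eventually_lt_const (show (d 0 : ℝ) < d 0 + 1 by linarith), hspos]
      with n a1 a2
    refine ⟨by positivity, le_trans ?_ a1.le⟩
    apply div_le_div_of_nonneg_right _ a2.le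
    exact Finset.single_le_sum (f := fun l => (e n l : ℝ)) (fun i _ => Nat.cast_nonneg _)
      (Finset.mem_univ l)
  choose eh heh using hle
  have heh0 : ∀ l, 0 ≤ eh l := by
    intro l
    refine ge_of_tendsto (heh l) ?_
    filter_upwards [hspos] with n a
    positivity
  have hehs : ∑ l, eh l = d 0 := by
    have h1 : Tendsto (fun n => ∑ l, (e n l : ℝ) / s n) U (𝓝 (∑ l, eh l)) :=
      tendsto_finsetSum _ (fun l _ => heh l)
    have h2 : (fun n => ∑ l, (e n l : ℝ) / s n) = fun n => (∑ l, (e n l : ℝ)) / s n := by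
      funext n
      rw [Finset.sum_div]
    rw [h2] at h1
    exact tendsto_nhds_unique h1 hes
  obtain ⟨T, hTf, o, oh, hTc, ho, hoh, hprod⟩ := direct d hd v hv hP U R q M0 h h0
  have hmain : ∀ lam : ℝ, 0 < lam → (∏ l, (lam + eh l)) ≤ d 0 * (1 + lam) * lam ^ (d 0 - 1) := by
    intro lam hlam
    have h1 := lap_mix d hd v hv U R q M0 h R' e (fun n => (R n).L) hT
      (Eventually.of_forall fun n => rfl) hc hes eh heh hloss T hTc o oh ho hoh lam hlam
    have h2 := hprod lam hlam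
    have h3 : (0 : ℝ) < (1 + lam) ^ (v - d 0) := by positivity
    have h4 : (0 : ℝ) ≤ d 0 * (1 + lam) := by positivity
    have h5 : (∏ l, (lam + eh l)) * (1 + lam) ^ (v - d 0) ≤
        (d 0 * (1 + lam) * lam ^ (d 0 - 1)) * (1 + lam) ^ (v - d 0) := by
      calc _ ≤ d 0 * (1 + lam) * ∏ t, (lam + oh t) := h1
        _ ≤ d 0 * (1 + lam) * (lam ^ (d 0 - 1) * (1 + lam) ^ (v - d 0)) :=
          mul_le_mul_of_nonneg_left h2 h4
        _ = _ := by ring
    exact le_of_mul_le_mul_right h5 h3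
  obtain ⟨ls, hls, hl⟩ := num_two (d 0) hd eh heh0 hehs hmain
  refine ⟨ls, ?_, fun l hl' => ?_⟩
  · have := heh ls
    rwa [hls] at this
  · have := heh l
    rwa [hl l hl'] at this

end Pool.Agent.KSYP.DC

alias Pool.Agent.KSY.one_index := Pool.Agent.KSYP.DC.one_index_pr
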