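import Pool.Agent.Lib_helper80.KSY.Defs

/-!
# KSY, block DD: the possible limits of the orders of a path
-/

set_option autoImplicit false

namespace Pool.Agent.KSYP.DD

open MvPolynomial Pool.Agent.KSS Pool.Agent.KSX Pool.Agent.KSY Filter Topology

theorem qq_lim' {ι : Type} {U : Ultrafilter ι} {u : ι → ℝ} {a b : ℝ}
    (h : ∀ᶠ n in (U : Filter ι), a ≤ u n ∧ u n ≤ b) :
    ∃ x, Tendsto u U (𝓝 x) := by
  have h1 : ((U.map u : Ultrafilter ℝ) : Filter ℝ) ≤ 𝓟 (Set.Icc a b) := by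
    rw [Ultrafilter.coe_map, le_principal_iff]
    exact h
  obtain ⟨x, -, hx⟩ := isCompact_Icc.ultrafilter_le_nhds (U.map u) h1
  exact ⟨x, by rwa [Ultrafilter.coe_map] at hx⟩

theorem eh_zero (a : ℕ) (e : Fin (a + 1) → ℕ) (eu eo eY eZ t : ℕ) :
    eh a e eu eo eY eZ t 0 = eu := by
  simp [eh]

theorem eh_one (a : ℕ) (e : Fin (a + 1) → ℕ) (eu eo eY eZ t : ℕ) :
    eh a e eu eo eY eZ t 1 = eo + t := by
  simp [eh]

theorem eh_two (a : ℕ) (e : Fin (a + 1) → ℕ) (eu eo eY eZ t : ℕ) :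
    eh a e eu eo eY eZ t 2 = e 0 + (eY - ∑ l, e l) + ((eZ - (eo + eY)) - t) := by
  simp [eh]

theorem eh_succ (a : ℕ) (e : Fin (a + 1) → ℕ) (eu eo eY eZ t : ℕ) (k : Fin a) :
    eh a e eu eo eY eZ t ((k : ℕ) + 3) = e k.succ := by
  unfold eh
  have hk := k.2
  rw [if_neg (by omega), if_neg (by omega), if_neg (by omega), dif_pos (by omega)]
  congr 1

theorem core (a : ℕ) {ι : Type} (U : Ultrafilter ι)
    (s : ι → ℝ) (hs : ∀ᶠ n in (U : Filter ι), 0 < s n) (L : ι → ℕ)
    (hL : Tendsto (fun n => (L n : ℝ) / s n) U atTop) (c : ι → ℕ)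
    (hc : Tendsto (fun n => (c n : ℝ) / s n) U (𝓝 1)) (e : ι → Fin (a + 1) → ℕ)
    (oY eu eo eY eZ : ι → ℕ)
    (h1 : ∀ᶠ n in (U : Filter ι), oY n = min (L n) (∑ l, e n l) ∧ oY n ≤ eY n ∧
      min (L n) (eo n + eY n) ≤ eZ n)
    (h2 : ∀ t : ι → ℕ, (∀ᶠ n in (U : Filter ι), t n ≤ eZ n - (eo n + eY n)) →
      ∃ ls : Fin (a + 3),
        Tendsto (fun n => (eh a (e n) (eu n) (eo n) (eY n) (eZ n) (t n) (ls : ℕ) : ℝ) / s n)
          U (𝓝 ((a + 3 : ℕ) : ℝ)) ∧
        ∀ l : Fin (a + 3), l ≠ ls → Tendsto (fun n =>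
          (eh a (e n) (eu n) (eo n) (eY n) (eZ n) (t n) (l : ℕ) : ℝ) / s n) U (𝓝 0)) :
    ∃ lu lo lY lE : ℝ, Tendsto (fun n => (eu n : ℝ) / s n) U (𝓝 lu) ∧
      Tendsto (fun n => (eo n : ℝ) / s n) U (𝓝 lo) ∧
      Tendsto (fun n => (eY n : ℝ) / s n) U (𝓝 lY) ∧
      Tendsto (fun n => (eZ n : ℝ) / s n) U (𝓝 (lo + lY)) ∧
      Tendsto (fun n => (∑ l, (e n l : ℝ)) / s n) U (𝓝 lE) ∧ 0 ≤ lE ∧ lE ≤ lY ∧
      ((lu = ((a + 3 : ℕ) : ℝ) ∧ lo = 0 ∧ lY = 0) ∨
        (lu = 0 ∧ lo = ((a + 3 : ℕ) : ℝ) ∧ lY = 0) ∨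
        (lu = 0 ∧ lo = 0 ∧ lY = ((a + 3 : ℕ) : ℝ))) := by
  classical
  obtain ⟨D, hD⟩ : ∃ D : ℝ, D = ((a + 3 : ℕ) : ℝ) := ⟨_, rfl⟩
  have hD3 : 3 ≤ D := by
    rw [hD]
    push_cast
    have : (0 : ℝ) ≤ a := Nat.cast_nonneg _
    linarith
  obtain ⟨x, hx⟩ : ∃ x : ι → ℕ, x = fun n => eZ n - (eo n + eY n) := ⟨_, rfl⟩
  have hxn : ∀ n, eZ n - (eo n + eY n) = x n := fun n => by rw [hx]
  have G : ∀ t : ι → ℕ, (∀ n, t n ≤ x n) → ∃ p : ℕ, p < a + 3 ∧ ∀ i < a + 3,
      Tendsto (fun n => (eh a (e n) (eu n) (eo n) (eY n) (eZ n) (t n) i : ℝ) / s n) U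
        (𝓝 (if i = p then D else 0)) := by
    intro t ht
    obtain ⟨ls, k1, k2⟩ := h2 t (Eventually.of_forall (fun n => by rw [hxn]; exact ht n))
    refine ⟨ls, ls.2, fun i hi => ?_⟩
    by_cases h : i = ls
    · rw [if_pos h, hD, h]
      exact k1
    · rw [if_neg h]
      exact k2 ⟨i, hi⟩ (fun h' => h (congrArg Fin.val h'))
  rw [← hD]
  clear h2
  obtain ⟨p, hp, P⟩ := G (fun _ => 0) (fun _ => Nat.zero_le _)
  have hu : Tendsto (fun n => (eu n : ℝ) / s n) U (𝓝 (if 0 = p then D else 0)) := by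
    simpa only [eh_zero] using P 0 (by omega)
  have ho : Tendsto (fun n => (eo n : ℝ) / s n) U (𝓝 (if 1 = p then D else 0)) := by
    simpa only [eh_one, add_zero] using P 1 (by omega)
  -- the limits of the admissible sequences
  have T : ∀ t : ι → ℕ, (∀ n, t n ≤ x n) → ∃ τ : ℝ, (τ = 0 ∨ τ = D) ∧
      Tendsto (fun n => (t n : ℝ) / s n) U (𝓝 τ) := by
    intro t ht
    obtain ⟨p', -, P'⟩ := G t ht
    have k1 := (P' 1 (by omega)).sub ho
    have k2 : Tendsto (fun n => (t n : ℝ) / s n) U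
        (𝓝 ((if 1 = p' then D else 0) - (if 1 = p then D else 0))) := by
      refine k1.congr (fun n => ?_)
      rw [eh_one]
      push_cast
      ring
    refine ⟨_, ?_, k2⟩
    have k3 : 0 ≤ (if 1 = p' then D else 0) - (if 1 = p then D else 0) := by
      refine ge_of_tendsto k2 ?_
      filter_upwards [hs] with n hn
      positivity
    split_ifs at k3 ⊢ with q1 q2 q2
    · left; ring
    · right; ring
    · linarith
    · left; ring
  obtain ⟨xh, hxh, X⟩ := T x (fun _ => le_rfl)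
  obtain ⟨τ1, hτ1, X1⟩ := T (fun n => x n / 2) (fun n => Nat.div_le_self _ _)
  obtain ⟨τ2, hτ2, X2⟩ := T (fun n => x n - x n / 2) (fun n => Nat.sub_le _ _)
  have e1 : xh = τ1 + τ2 := by
    refine tendsto_nhds_unique X ((X1.add X2).congr (fun n => ?_))
    rw [← add_div, ← Nat.cast_add]
    congr 2
    omega
  have e2 : τ1 ≤ τ2 := by
    refine le_of_tendsto_of_tendsto X1 X2 ?_
    filter_upwards [hs] with n hn
    apply div_le_div_of_nonneg_right _ hn.le
    have : x n / 2 ≤ x n - x n / 2 := by omega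
    exact_mod_cast this
  have e3 : τ2 ≤ τ1 + 1 := by
    refine le_of_tendsto_of_tendsto X2 (X1.add hc) ?_
    filter_upwards [hs, hc.eventually_const_lt (show (0 : ℝ) < 1 by norm_num)] with n hn hcn
    rw [← add_div]
    apply div_le_div_of_nonneg_right _ hn.le
    have h3 : 1 ≤ c n := by
      by_contra h4
      have h5 : c n = 0 := by omega
      rw [h5] at hcn
      simp at hcn
    have : x n - x n / 2 ≤ x n / 2 + c n := by omega
    exact_mod_cast this
  have hx0 : xh = 0 := by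
    rcases hτ2 with h | h
    · rcases hτ1 with h' | h'
      · rw [e1, h, h']; ring
      · rw [h, h'] at e2
        linarith
    · rcases hτ1 with h' | h'
      · rw [h, h'] at e3
        linarith
      · rw [h, h'] at e1
        rcases hxh with h'' | h'' <;> linarith
  rw [hx0] at X
  -- the coordinate number 2
  have hA : Tendsto (fun n => ((e n 0 + (eY n - ∑ l, e n l) : ℕ) : ℝ) / s n) U
      (𝓝 (if 2 = p then D else 0)) := by
    have k1 := (P 2 (by omega)).sub X
    rw [sub_zero] at k1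
    refine k1.congr (fun n => ?_)
    rw [eh_two, hxn, Nat.sub_zero]
    push_cast
    ring
  have hk : ∀ k : Fin a, Tendsto (fun n => (e n k.succ : ℝ) / s n) U
      (𝓝 (if (k : ℕ) + 3 = p then D else 0)) := by
    intro k
    have := k.2
    simpa only [eh_succ] using P ((k : ℕ) + 3) (by omega)
  have hS : Tendsto (fun n => ∑ k : Fin a, (e n k.succ : ℝ) / s n) U
      (𝓝 (∑ k : Fin a, if (k : ℕ) + 3 = p then D else 0)) :=
    tendsto_finsetSum _ (fun k _ => hk k)
  have hY' := hA.add hS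
  obtain ⟨lY, hlY⟩ : ∃ lY : ℝ, lY = (if 2 = p then D else 0) +
    ∑ k : Fin a, if (k : ℕ) + 3 = p then D else 0 := ⟨_, rfl⟩
  rw [← hlY] at hY'
  -- `∑ e` is eventually at most `L`
  have b1 : ∀ᶠ n in (U : Filter ι), ∑ l, e n l ≤ L n := by
    filter_upwards [hs, hY'.eventually_lt_const (show lY < lY + 1 by linarith),
      hL.eventually_ge_atTop (lY + 1)] with n hn k1 k2
    have k3 : (∑ l, e n l : ℕ) / s n ≤ ((e n 0 + (eY n - ∑ l, e n l) : ℕ) : ℝ) / s n +
        ∑ k : Fin a, (e n k.succ : ℝ) / s n := by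
      rw [← Finset.sum_div, ← add_div, Fin.sum_univ_succ]
      apply div_le_div_of_nonneg_right _ hn.le
      push_cast
      have : (0 : ℝ) ≤ ((eY n - (e n 0 + ∑ k : Fin a, e n k.succ) : ℕ) : ℝ) := Nat.cast_nonneg _
      linarith
    have k4 : ((∑ l, e n l : ℕ) : ℝ) / s n ≤ L n / s n := (k3.trans k1.le).trans k2
    rw [div_le_div_iff_of_pos_right hn] at k4
    exact_mod_cast k4
  have b2 : ∀ᶠ n in (U : Filter ι), ∑ l, e n l ≤ eY n := by
    filter_upwards [b1, h1] with n k1 k2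
    have := k2.1
    have := k2.2.1
    rw [min_eq_right k1] at *
    omega
  have hY : Tendsto (fun n => (eY n : ℝ) / s n) U (𝓝 lY) := by
    refine hY'.congr' ?_
    filter_upwards [b2] with n k1
    rw [← Finset.sum_div, ← add_div]
    congr 1
    rw [← Nat.cast_sum, ← Nat.cast_add]
    congr 1
    rw [Fin.sum_univ_succ] at k1 ⊢
    omega
  have hlY0 : 0 ≤ lY := by
    refine ge_of_tendsto hY ?_
    filter_upwards [hs] with n hn
    positivity
  have hoY := ho.add hY
  have b3 : ∀ᶠ n in (U : Filter ι), eo n + eY n ≤ eZ n := by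
    filter_upwards [hs, hoY.eventually_lt_const (show (if 1 = p then D else 0) + lY <
      (if 1 = p then D else 0) + lY + 1 by linarith),
      hL.eventually_ge_atTop ((if 1 = p then D else 0) + lY + 1), h1] with n hn k1 k2 k3
    have k4 : ((eo n + eY n : ℕ) : ℝ) / s n ≤ L n / s n := by
      refine le_trans (le_of_eq ?_) (k1.le.trans k2)
      push_cast
      ring
    rw [div_le_div_iff_of_pos_right hn] at k4
    have k5 : eo n + eY n ≤ L n := by exact_mod_cast k4
    have k6 := k3.2.2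
    rw [min_eq_right k5] at k6
    exact k6
  have hZ : Tendsto (fun n => (eZ n : ℝ) / s n) U (𝓝 ((if 1 = p then D else 0) + lY)) := by
    have k1 := hoY.add X
    rw [add_zero] at k1
    refine k1.congr' ?_
    filter_upwards [b3] with n k2
    rw [← add_div, ← add_div]
    congr 1
    have k3 : eo n + eY n + x n = eZ n := by
      have := hxn n
      omega
    exact_mod_cast k3
  obtain ⟨lE, hE⟩ := qq_lim' (U := U) (u := fun n => (∑ l, (e n l : ℝ)) / s n) (a := 0)
    (b := lY + 1) (by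
      filter_upwards [hs, b2, hY.eventually_lt_const (show lY < lY + 1 by linarith)]
        with n hn k1 k2
      refine ⟨by positivity, le_trans ?_ k2.le⟩
      apply div_le_div_of_nonneg_right _ hn.le
      exact_mod_cast k1)
  refine ⟨_, _, lY, lE, hu, ho, hY, hZ, hE, ?_, ?_, ?_⟩
  · refine ge_of_tendsto hE ?_
    filter_upwards [hs] with n hn
    positivity
  · refine le_of_tendsto_of_tendsto hE hY ?_
    filter_upwards [hs, b2] with n hn k1
    apply div_le_div_of_nonneg_right _ hn.le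
    exact_mod_cast k1
  · have hsum : ∀ p' : ℕ, p' = p → (∑ k : Fin a, if (k : ℕ) + 3 = p' then D else 0) =
        if 3 ≤ p' then D else 0 := by
      intro p' hp'
      split_ifs with q
      · rw [Finset.sum_eq_single (⟨p' - 3, by omega⟩ : Fin a)]
        · rw [if_pos]
          simp only
          omega
        · intro k _ hk'
          rw [if_neg]
          intro h
          apply hk'
          apply Fin.ext
          simp only
          omega
        · intro h
          exact absurd (Finset.mem_univ _) h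
      · apply Finset.sum_eq_zero
        intro k _
        rw [if_neg]
        omega
    rw [hsum p rfl] at hlY
    rcases Nat.lt_or_ge p 1 with q0 | q0
    · left
      have : p = 0 := by omega
      subst this
      simp at hlY
      simp [hlY]
    · rcases Nat.lt_or_ge p 2 with q1 | q1
      · right; left
        have : p = 1 := by omega
        subst this
        simp at hlY
        simp [hlY]
      · right; right
        rw [if_neg (by omega), if_neg (by omega)]
        refine ⟨rfl, rfl, ?_⟩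
        rcases Nat.lt_or_ge p 3 with q2 | q2
        · have : p = 2 := by omega
          subst this
          rw [hlY]
          norm_num
        · rw [hlY, if_neg (by omega), if_pos q2, zero_add]

set_option linter.unusedVariables false in
theorem path_dich_pr (d : Fin 1 → ℕ) (a b : ℕ) (ha : d 0 = a + 3) {ι : Type} (U : Ultrafilter ι)
    (s : ι → ℝ) (hs : ∀ᶠ n in U, 0 < s n) (L : ι → ℕ)
    (hL : Tendsto (fun n => (L n : ℝ) / s n) U atTop) (c : ι → ℕ)
    (hc : Tendsto (fun n => (c n : ℝ) / s n) U (𝓝 1)) (e : ι → Fin (a + 1) → ℕ)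
    (oY eu eo eY eZ : ι → ℕ)
    (h1 : ∀ᶠ n in U, oY n = min (L n) (∑ l, e n l) ∧ oY n ≤ eY n ∧
      min (L n) (eo n + eY n) ≤ eZ n)
    (h2 : ∀ t : ι → ℕ, (∀ᶠ n in U, t n ≤ eZ n - (eo n + eY n)) → ∃ ls : Fin (d 0),
        Tendsto (fun n => (eh a (e n) (eu n) (eo n) (eY n) (eZ n) (t n) (ls : ℕ) : ℝ) / s n)
          U (𝓝 (d 0)) ∧
        ∀ l : Fin (d 0), l ≠ ls → Tendsto (fun n =>
          (eh a (e n) (eu n) (eo n) (eY n) (eZ n) (t n) (l : ℕ) : ℝ) / s n) U (𝓝 0)) :
    ∃ lu lo lY lE : ℝ, Tendsto (fun n => (eu n : ℝ) / s n) U (𝓝 lu) ∧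
      Tendsto (fun n => (eo n : ℝ) / s n) U (𝓝 lo) ∧
      Tendsto (fun n => (eY n : ℝ) / s n) U (𝓝 lY) ∧
      Tendsto (fun n => (eZ n : ℝ) / s n) U (𝓝 (lo + lY)) ∧
      Tendsto (fun n => (∑ l, (e n l : ℝ)) / s n) U (𝓝 lE) ∧ 0 ≤ lE ∧ lE ≤ lY ∧
      ((lu = d 0 ∧ lo = 0 ∧ lY = 0) ∨ (lu = 0 ∧ lo = d 0 ∧ lY = 0) ∨
        (lu = 0 ∧ lo = 0 ∧ lY = d 0)) := by
  generalize d 0 = D at *
  subst ha
  exact core a U s hs L hL c hc e oY eu eo eY eZ h1 h2

end Pool.Agent.KSYP.DD

alias Pool.Agent.KSY.path_dich := Pool.Agent.KSYP.DD.path_dich_pr
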