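import Pool.Agent.Lib_helper80.KSY.Defs
import Pool.Agent.Lib_helper77.KSZ.XEXQ
import Pool.Agent.Lib_helper80.KSYF.CD
import Pool.Agent.Lib_helper80.KSYF.CE

/-!
# KSY block DE: the last coordinate of a path carries the whole order
-/

set_option autoImplicit false

namespace Pool.Agent.KSYP.DE

open MvPolynomial Pool.Agent.KSS Pool.Agent.KSX Pool.Agent.KSY Filter Topology

/-! ### the functions `H` and `W` for `B = ∅` and `B = {0}` -/

theorem Hq_empty (d : Fin 1 → ℕ) (v : ℕ) (q : ℝ) : Hq d v ∅ q = 1 / (1 - q) ^ v := by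
  unfold Hq
  rw [Finset.prod_empty]

theorem Wq_empty (d : Fin 1 → ℕ) (v : ℕ) (q : ℝ) (hq : q < 1) :
    Wq d v ∅ q = v * q / (1 - q) ^ (v + 1) := by
  unfold Wq
  rw [Hq_empty, Finset.sum_empty, sub_zero, pow_succ]
  have : (1 - q) ≠ 0 := by linarith
  field_simp

theorem Wq_univ (d : Fin 1 → ℕ) (v : ℕ) (q : ℝ) (hq0 : 0 < q) (hq : q < 1) (hd : 1 ≤ d 0) :
    (1 - q) ^ v * Wq d v Finset.univ q =
      v * q * ∑ i ∈ Finset.range (d 0), q ^ i - d 0 * q ^ (d 0) := by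
  unfold Wq Hq
  rw [Fin.prod_univ_one, Fin.sum_univ_one]
  have h1 : (1 - q) ≠ 0 := by linarith
  have h2 : q ^ (d 0) < 1 := pow_lt_one₀ hq0.le hq (by omega)
  have h3 : 1 - q ^ (d 0) ≠ 0 := by linarith
  have h4 : (1 - q) ^ v ≠ 0 := pow_ne_zero _ h1
  have h5 : (∑ i ∈ Finset.range (d 0), q ^ i) * (1 - q) = 1 - q ^ (d 0) := by
    have := geom_sum_mul_neg q (d 0)
    linarith
  have h6 : ∑ i ∈ Finset.range (d 0), q ^ i = (1 - q ^ (d 0)) / (1 - q) := by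
    rw [eq_div_iff h1, h5]
  rw [h6]
  field_simp

/-! ### nonnegativity -/

theorem LamF_nonneg (q : ℝ) (hq : 0 < q) (M0 L : ℕ) (F : ℕ → ℕ → ℕ) : 0 ≤ LamF q M0 L F := by
  unfold LamF
  positivity

theorem H0F_nonneg (q : ℝ) (hq : 0 < q) (M0 : ℕ) (F : ℕ → ℕ → ℕ) : 0 ≤ H0F q M0 F := by
  unfold H0F
  positivity

/-! ### the bound for `Pb` -/

theorem geom_le (q : ℝ) (hq0 : 0 < q) (hq1 : q < 1) (D : ℕ) (hD : 1 ≤ D) :
    D * q ^ (D - 1) * (1 - q) ≤ 1 - q ^ D := by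
  have h1 : (∑ i ∈ Finset.range D, q ^ i) * (1 - q) = 1 - q ^ D := by
    have := geom_sum_mul_neg q D
    linarith
  rw [← h1]
  refine mul_le_mul_of_nonneg_right ?_ (by linarith)
  have h2 : ∑ i ∈ Finset.range D, q ^ (D - 1) ≤ ∑ i ∈ Finset.range D, q ^ i := by
    refine Finset.sum_le_sum fun i hi => ?_
    have := Finset.mem_range.1 hi
    exact pow_le_pow_of_le_one hq0.le hq1.le (by omega)
  simpa using h2

theorem lam_le_cd_g (d : Fin 1 → ℕ) (hd : 2 ≤ d 0) (v : ℕ) (hv : 2 ≤ v) (q : ℝ) (hq0 : 0 < q)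
    (hq1 : q < 1) (M0 : ℕ) (P : Rec 1) (hP : P.Of d v) :
    P.Lam d v ∅ q M0 ≤
      v * q / (1 - q) ^ (v + 1) * ((P.cd v ∅ - P.g 0 / d 0) / (v - 1)) := by
  have h1 : 0 < 1 - q := by linarith
  have hv' : (2 : ℝ) ≤ v := by exact_mod_cast hv
  have hD : (2 : ℝ) ≤ d 0 := by exact_mod_cast hd
  have hW : 0 < Wq d v ∅ q := by
    rw [Wq_empty d v q hq1]
    positivity
  have hd' : ∀ i, 1 ≤ d i := fun i => by
    rw [Subsingleton.elim i 0]; omega
  have key := ss_exp_pr d hd' v ∅ (by simp; omega) q hq0 hq1 M0 (fun _ => 1 / (d 0 : ℝ))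
    (fun _ => by positivity) ((v : ℝ) - 1) (by linarith) (by
      rw [Finset.compl_empty, Fin.sum_univ_one]
      unfold Ind
      rw [Finset.sum_empty]
      have : 1 / (d 0 : ℝ) * d 0 = 1 := by
        rw [one_div, inv_mul_cancel₀ (by linarith)]
      linarith) (by
      intro i _
      rw [Subsingleton.elim i 0, Hq_empty, Wq_empty d v q hq1]
      have h2 : q ^ (d 0) < 1 := pow_lt_one₀ hq0.le hq1 (by omega)
      have h3 : 0 < 1 - q ^ (d 0) := by linarith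
      have hg := geom_le q hq0 hq1 (d 0) (by omega)
      obtain ⟨k, hk⟩ : ∃ k, d 0 = k + 1 := ⟨d 0 - 1, by omega⟩
      have hk1 : d 0 - 1 = k := by omega
      rw [hk1] at hg
      have h5 : q ^ (d 0) = q ^ k * q := by rw [hk, pow_succ]
      have e : ((v : ℝ) - 1) * (q ^ (d 0) / (1 - q ^ (d 0)) * (1 / (1 - q) ^ v) /
          (v * q / (1 - q) ^ (v + 1))) = ((v : ℝ) - 1) / v * (q ^ k * (1 - q) / (1 - q ^ (d 0))) := by
        rw [h5] at h3 ⊢
        rw [pow_succ]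
        have hv0 : (v : ℝ) ≠ 0 := by linarith
        field_simp
      rw [e]
      have h6 : q ^ k * (1 - q) / (1 - q ^ (d 0)) ≤ 1 / d 0 := by
        rw [div_le_div_iff₀ h3 (by linarith)]
        linarith
      have h7 : 0 ≤ q ^ k * (1 - q) / (1 - q ^ (d 0)) := by positivity
      have h8 : ((v : ℝ) - 1) / v ≤ 1 := by
        rw [div_le_one (by linarith)]; linarith
      have h9 : ((v : ℝ) - 1) / v * (q ^ k * (1 - q) / (1 - q ^ (d 0))) ≤ 1 * (1 / d 0) :=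
        mul_le_mul h8 h6 h7 zero_le_one
      have h10 : 1 / (d 0 : ℝ) ≤ 1 / 2 := one_div_le_one_div_of_le (by norm_num) hD
      linarith) P hP (by simp)
  have h2 : P.Lam d v ∅ q M0 = P.s d v ∅ q M0 * Wq d v ∅ q := by
    unfold Rec.s
    rw [div_mul_cancel₀ _ hW.ne']
  have key' : 1 / (d 0 : ℝ) * P.g 0 + ((v : ℝ) - 1) * P.s d v ∅ q M0 ≤ P.cd v ∅ := by
    rw [Finset.compl_empty, Fin.sum_univ_one] at key
    exact key
  rw [h2, Wq_empty d v q hq1, mul_comm]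
  refine mul_le_mul_of_nonneg_left ?_ (by positivity)
  rw [le_div_iff₀ (by linarith)]
  have : (P.g 0 : ℝ) / d 0 = 1 / (d 0 : ℝ) * P.g 0 := by ring
  linarith

/-! ### limits -/

theorem tendsto_Wuniv {ι : Type} (U : Ultrafilter ι) (d : Fin 1 → ℕ) (hd : 1 ≤ d 0) (v : ℕ)
    (q : ι → ℝ) (hq : ∀ᶠ n in U, 0 < q n ∧ q n < 1) (hq1 : Tendsto q U (𝓝 1)) :
    Tendsto (fun n => (1 - q n) ^ v * Wq d v Finset.univ (q n)) U (𝓝 (v * d 0 - d 0)) := by
  have h1 : Tendsto (fun n => v * q n * ∑ i ∈ Finset.range (d 0), (q n) ^ i -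
      d 0 * (q n) ^ (d 0)) U (𝓝 (v * 1 * ∑ i ∈ Finset.range (d 0), (1 : ℝ) ^ i -
      d 0 * (1 : ℝ) ^ (d 0))) := by
    refine Tendsto.sub (Tendsto.mul (tendsto_const_nhds.mul hq1) ?_)
      (tendsto_const_nhds.mul (hq1.pow _))
    exact tendsto_finsetSum _ fun i _ => hq1.pow i
  have h2 : (v : ℝ) * 1 * ∑ i ∈ Finset.range (d 0), (1 : ℝ) ^ i - d 0 * (1 : ℝ) ^ (d 0) =
      v * d 0 - d 0 := by simp
  rw [h2] at h1
  refine h1.congr' ?_
  filter_upwards [hq] with n hn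
  rw [Wq_univ d v (q n) hn.1 hn.2 hd]

theorem tendsto_Lempty {ι : Type} (U : Ultrafilter ι) (d : Fin 1 → ℕ) (b : ℕ)
    (hb : 1 ≤ b) (s q : ι → ℝ) (M0 : ι → ℕ) (R1 : ι → Rec 1)
    (hq : ∀ᶠ n in U, 0 < q n ∧ q n < 1) (hq1 : Tendsto q U (𝓝 1))
    (hR1 : Tendsto (fun n => sn d b ∅ R1 q M0 n / s n) U (𝓝 1)) :
    Tendsto (fun n => (1 - q n) ^ (b + 1) * (R1 n).Lam d b ∅ (q n) (M0 n) / s n) U
      (𝓝 b) := by
  have h1 : Tendsto (fun n => sn d b ∅ R1 q M0 n / s n * (b * q n)) U (𝓝 (1 * (b * 1))) :=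
    hR1.mul (tendsto_const_nhds.mul hq1)
  rw [one_mul, mul_one] at h1
  refine h1.congr' ?_
  filter_upwards [hq] with n hn
  have h2 : 0 < 1 - q n := by linarith [hn.2]
  have hb' : (0 : ℝ) < b := by exact_mod_cast hb
  have hW : Wq d b ∅ (q n) = b * q n / (1 - q n) ^ (b + 1) := Wq_empty d b _ hn.2
  have hq0 := hn.1
  have hW0 : 0 < Wq d b ∅ (q n) := by rw [hW]; positivity
  have h3 : (R1 n).Lam d b ∅ (q n) (M0 n) = sn d b ∅ R1 q M0 n * Wq d b ∅ (q n) := by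
    unfold sn Rec.s
    rw [div_mul_cancel₀ _ hW0.ne']
  rw [h3, hW]
  field_simp

theorem num_case (a b : ℕ) (hb : 1 ≤ b) (lo lY lE : ℝ) (hE : 0 ≤ lE) (hEY : lE ≤ lY)
    (hc : (lo = a + 3 ∧ lY = 0) ∨ (lo = 0 ∧ lY = a + 3))
    (h : ((b + a + 3 : ℕ) : ℝ) * (a + 3) - (a + 3) ≤
      (a + 1) * ((1 + 1 / (a + 1)) * (((b + 1 : ℕ) : ℝ) * ((b - 1) / b) + b / (a + 2) +
        (lo + lY) / (a + 2) ^ 2) + (lo + lY / (a + 1) ^ 2) * (1 + 1 / (a + 2)))
      + a * lE * ((1 + 1 / (a + 1)) * (1 + 1 / (a + 2)))) : False := by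
  have ha : (0 : ℝ) ≤ a := Nat.cast_nonneg a
  have hb' : (1 : ℝ) ≤ b := by exact_mod_cast hb
  have h1 : (0 : ℝ) < a + 1 := by linarith
  have h2 : (0 : ℝ) < a + 2 := by linarith
  push_cast at h
  rcases hc with ⟨rfl, rfl⟩ | ⟨rfl, rfl⟩
  · have hE0 : lE = 0 := le_antisymm hEY hE
    rw [hE0] at h
    have e : (a + 1) * ((1 + 1 / ((a : ℝ) + 1)) * ((b + 1) * ((b - 1) / b) + b / (a + 2) +
        ((a + 3) + 0) / (a + 2) ^ 2) + ((a + 3) + 0 / (a + 1) ^ 2) * (1 + 1 / (a + 2)))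
      + a * 0 * ((1 + 1 / (a + 1)) * (1 + 1 / (a + 2))) =
      ((b + a + 3) * (a + 3) - (a + 3)) - (a + 2) / b := by
      field_simp
      ring
    rw [e] at h
    have : 0 < (a + 2) / (b : ℝ) := by positivity
    linarith
  · have h3 : a * lE * ((1 + 1 / ((a : ℝ) + 1)) * (1 + 1 / (a + 2))) ≤
        a * (a + 3) * ((1 + 1 / (a + 1)) * (1 + 1 / (a + 2))) := by
      have : a * lE ≤ a * ((a : ℝ) + 3) := mul_le_mul_of_nonneg_left hEY ha
      exact mul_le_mul_of_nonneg_right this (by positivity)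
    have e : (a + 1) * ((1 + 1 / ((a : ℝ) + 1)) * ((b + 1) * ((b - 1) / b) + b / (a + 2) +
        (0 + (a + 3)) / (a + 2) ^ 2) + (0 + (a + 3) / (a + 1) ^ 2) * (1 + 1 / (a + 2)))
      + a * (a + 3) * ((1 + 1 / (a + 1)) * (1 + 1 / (a + 2))) =
      ((b + a + 3) * (a + 3) - (a + 3)) - (a + 2) / b := by
      field_simp
      ring
    have : 0 < (a + 2) / (b : ℝ) := by positivity
    linarith

/-- (DE) the last coordinate of a path carries the whole order -/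
theorem path_excl_pr (d : Fin 1 → ℕ) (a b : ℕ) (ha : d 0 = a + 3) (hb : 1 ≤ b)
    {ι : Type} (U : Ultrafilter ι) (R : ι → Rec 1) (q : ι → ℝ) (M0 : ι → ℕ)
    (h : NE d (b + a + 3) Finset.univ ∅ U R q M0) (F2 F3 : ι → ℕ → ℕ → ℕ) (T2 oY oo : ι → ℕ)
    (e : ι → Fin (a + 1) → ℕ) (R1 Pb : ι → Rec 1) (eu eo eY eZ : ι → ℕ)
    (hS : ∀ᶠ n in U, Stg d a b (M0 n) (R n) (F2 n) (T2 n) (oY n) (e n))
    (hPa : ∀ᶠ n in U, Path d a b (R n).L (T2 n) (oY n) (oo n) (F2 n) (F3 n) (R1 n) (Pb n)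
      (eu n) (eo n) (eY n) (eZ n))
    (hR1 : Tendsto (fun n => sn d b ∅ R1 q M0 n /
      sn d (b + a + 3) Finset.univ R q M0 n) U (𝓝 1))
    (lu lo lY lE : ℝ)
    (t1 : Tendsto (fun n => (eu n : ℝ) / sn d (b + a + 3) Finset.univ R q M0 n) U (𝓝 lu))
    (t2 : Tendsto (fun n => (eo n : ℝ) / sn d (b + a + 3) Finset.univ R q M0 n) U (𝓝 lo))
    (t3 : Tendsto (fun n => (eY n : ℝ) / sn d (b + a + 3) Finset.univ R q M0 n) U (𝓝 lY))
    (t4 : Tendsto (fun n => (eZ n : ℝ) / sn d (b + a + 3) Finset.univ R q M0 n) U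
      (𝓝 (lo + lY)))
    (t5 : Tendsto (fun n => (∑ l, (e n l : ℝ)) / sn d (b + a + 3) Finset.univ R q M0 n) U
      (𝓝 lE)) (hE : 0 ≤ lE) (hEY : lE ≤ lY)
    (hcase : (lu = d 0 ∧ lo = 0 ∧ lY = 0) ∨ (lu = 0 ∧ lo = d 0 ∧ lY = 0) ∨
        (lu = 0 ∧ lo = 0 ∧ lY = d 0)) :
    lu = d 0 ∧ lo = 0 ∧ lY = 0 ∧ lE = 0 := by
  rcases hcase with ⟨c1, c2, c3⟩ | hcase
  · exact ⟨c1, c2, c3, le_antisymm (c3 ▸ hEY) hE⟩
  exfalso
  have hlu : lu = 0 := by rcases hcase with h1 | h1 <;> exact h1.1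
  have hoY : (lo = a + 3 ∧ lY = 0) ∨ (lo = 0 ∧ lY = (a : ℝ) + 3) := by
    rcases hcase with ⟨-, h1, h2⟩ | ⟨-, h1, h2⟩
    · left; refine ⟨?_, h2⟩; rw [h1, ha]; push_cast; ring
    · right; refine ⟨h1, ?_⟩; rw [h2, ha]; push_cast; ring
  have hsum : lo + lY = a + 3 := by
    rcases hoY with ⟨h1, h2⟩ | ⟨h1, h2⟩ <;> rw [h1, h2] <;> ring
  obtain ⟨s, hsdef⟩ : ∃ s : ι → ℝ, s = fun n => sn d (b + a + 3) Finset.univ R q M0 n :=
    ⟨_, rfl⟩
  have hsn : ∀ n, sn d (b + a + 3) Finset.univ R q M0 n = s n := fun n => by rw [hsdef]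
  simp only [hsn] at hR1 t1 t2 t3 t4 t5
  have hd1 : 1 ≤ d 0 := by omega
  have hd2 : 2 ≤ d 0 := by omega
  have hq := h.q01
  have hql := h.qlim
  have hb' : (1 : ℝ) ≤ b := by exact_mod_cast hb
  have hs : ∀ᶠ n in U, 0 < s n := by
    filter_upwards [h.spos] with n hn
    rwa [hsn] at hn
  have hcd : Tendsto (fun n => (R n).cd (b + a + 3) Finset.univ / s n) U (𝓝 b) := by
    have h1 := h.cdlim
    simp only [hsn] at h1
    have h2 : Ind d (b + a + 3) Finset.univ = b := by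
      unfold Ind
      rw [Fin.sum_univ_one, ha]
      push_cast
      ring
    rwa [h2] at h1
  have T1 : Tendsto (fun n => (1 - q n) ^ (b + a + 3) *
      (R n).Lam d (b + a + 3) Finset.univ (q n) (M0 n) / s n) U
      (𝓝 (((b + a + 3 : ℕ) : ℝ) * (a + 3) - (a + 3))) := by
    have h1 := tendsto_Wuniv U d hd1 (b + a + 3) q hq hql
    have h2 : (((b + a + 3 : ℕ) : ℝ) * d 0 - d 0) =
        (((b + a + 3 : ℕ) : ℝ) * (a + 3) - (a + 3)) := by
      rw [ha]; push_cast; ring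
    rw [h2] at h1
    refine h1.congr' ?_
    filter_upwards [hs] with n hn
    have hW : Wq d (b + a + 3) Finset.univ (q n) ≠ 0 := by
      intro h0
      have := hsn n
      unfold sn Rec.s at this
      rw [h0, div_zero] at this
      rw [← this] at hn
      exact lt_irrefl _ hn
    have h3 : (R n).Lam d (b + a + 3) Finset.univ (q n) (M0 n) =
        s n * Wq d (b + a + 3) Finset.univ (q n) := by
      rw [← hsn n]
      unfold sn Rec.s
      rw [div_mul_cancel₀ _ hW]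
    rw [h3]
    field_simp
  -- the lengths dominate
  have hmin : ∀ᶠ n in U, eo n + eY n ≤ (R n).L := by
    have h1 := h.Llim
    simp only [hsn] at h1
    have h2 : ∀ᶠ n in U, ((a : ℝ) + 4) < (1 - q n) * ((R n).L : ℝ) / s n :=
      h1.eventually_gt_atTop _
    have h3 : ∀ᶠ n in U, (eo n : ℝ) / s n + (eY n : ℝ) / s n < (a : ℝ) + 4 := by
      have h4 := t2.add t3
      rw [hsum] at h4
      exact h4.eventually_lt_const (by linarith)
    filter_upwards [h2, h3, hs, hq] with n g2 g3 g4 g5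
    have g6 : ((eo n : ℝ) + eY n) / s n < (R n).L / s n := by
      rw [add_div]
      refine g3.trans (g2.trans_le ?_)
      refine div_le_div_of_nonneg_right ?_ g4.le
      have : (0 : ℝ) ≤ (R n).L := Nat.cast_nonneg _
      nlinarith [g5.1]
    rw [div_lt_div_iff_of_pos_right g4] at g6
    exact_mod_cast g6.le
  have TL1 := tendsto_Lempty U d b hb s q M0 R1 hq hql hR1
  have Tb : Tendsto (fun n => (1 - q n) ^ (b + 2) * (((b + 1 : ℕ) : ℝ) * q n /
      (1 - q n) ^ (b + 1 + 1) * (((R n).cd (b + a + 3) Finset.univ + eu n -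
        (eo n + eY n) / d 0) / (((b + 1 : ℕ) : ℝ) - 1))) / s n) U
      (𝓝 (((b + 1 : ℕ) : ℝ) * ((b - 1) / b))) := by
    have h1 : Tendsto (fun n => ((b + 1 : ℕ) : ℝ) * q n *
        (((R n).cd (b + a + 3) Finset.univ / s n + (eu n : ℝ) / s n -
          ((eo n : ℝ) / s n + (eY n : ℝ) / s n) / d 0) / b)) U
        (𝓝 (((b + 1 : ℕ) : ℝ) * 1 * ((b + lu - (lo + lY) / d 0) / b))) :=
      (tendsto_const_nhds.mul hql).mul
        (((hcd.add t1).sub ((t2.add t3).div_const _)).div_const _)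
    have h2 : ((b + 1 : ℕ) : ℝ) * 1 * ((b + lu - (lo + lY) / d 0) / b) =
        ((b + 1 : ℕ) : ℝ) * ((b - 1) / b) := by
      have h3 : (d 0 : ℝ) = a + 3 := by rw [ha]; push_cast; ring
      have h4 : (a : ℝ) + 3 ≠ 0 := by positivity
      rw [hsum, hlu, h3, div_self h4]
      ring
    rw [h2] at h1
    refine h1.congr' ?_
    filter_upwards [hs, hq] with n hn hqn
    have h5 : (1 - q n) ≠ 0 := by linarith [hqn.2]
    have h6 : (1 - q n) ^ (b + 2) ≠ 0 := pow_ne_zero _ h5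
    have h7 : (((b + 1 : ℕ) : ℝ) - 1) = b := by push_cast; ring
    have h8 : (b : ℝ) ≠ 0 := by linarith
    have h9 : (d 0 : ℝ) ≠ 0 := by
      have : (1 : ℝ) ≤ d 0 := by exact_mod_cast hd1
      linarith
    rw [h7, show b + 1 + 1 = b + 2 from rfl]
    field_simp
  have key := lim_path U a b q s (fun n => (R n).Lam d (b + a + 3) Finset.univ (q n) (M0 n))
    (fun n => LamF (q n) (M0 n) (R n).L (F2 n)) (fun n => H0F (q n) (M0 n) (F2 n))
    (fun n => LamF (q n) (M0 n) (R n).L (F3 n)) (fun n => H0F (q n) (M0 n) (F3 n))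
    (fun n => ((b + 1 : ℕ) : ℝ) * q n / (1 - q n) ^ (b + 1 + 1) *
      (((R n).cd (b + a + 3) Finset.univ + eu n - (eo n + eY n) / d 0) /
        (((b + 1 : ℕ) : ℝ) - 1)))
    (fun n => (R1 n).Lam d b ∅ (q n) (M0 n))
    (fun n => ∑ l, (e n l : ℝ)) (fun n => (eo n : ℝ)) (fun n => (eY n : ℝ))
    (fun n => (eZ n : ℝ)) hq hql hs
    (by
      filter_upwards [hq] with n hqn
      exact ⟨by positivity, by positivity, by positivity, by positivity,
        H0F_nonneg _ hqn.1 _ _, H0F_nonneg _ hqn.1 _ _, LamF_nonneg _ hqn.1 _ _ _,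
        LamF_nonneg _ hqn.1 _ _ _⟩)
    (by
      filter_upwards [hq, hS] with n hqn hSn
      exact lam_stg d (R n) hSn (q n) hqn.1 hqn.2)
    (by
      filter_upwards [hq, hPa] with n hqn h2
      exact (lam_path d hd1 hb h2 (q n) hqn.1 hqn.2 (M0 n)).1)
    (by
      filter_upwards [hq, hPa] with n hqn h2
      exact (lam_path d hd1 hb h2 (q n) hqn.1 hqn.2 (M0 n)).2.1)
    (by
      filter_upwards [hq, hS, hPa, hmin] with n hqn hSn h1 hmn
      obtain ⟨-, -, A1, -, -⟩ := lam_path d hd1 hb h1 (q n) hqn.1 hqn.2 (M0 n)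
      have A3 := lam_le_cd_g d hd2 (b + 1) (by omega) (q n) hqn.1 hqn.2 (M0 n) (Pb n) h1.ofP
      have h3 : 0 < 1 - q n := by linarith [hqn.2]
      have hq0 := hqn.1
      have hD0 : (0 : ℝ) < d 0 := by exact_mod_cast hd1
      have h4 : (Pb n).cd (b + 1) ∅ ≤ (R n).cd (b + a + 3) Finset.univ + eu n := by
        unfold Rec.cd
        have g1 := hSn.tau
        have g2 := h1.tauP
        rw [h1.LP, Finset.card_empty, Finset.card_univ, Fintype.card_fin]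
        have g4 : (R n).τ + (R n).L ≤ (Pb n).τ + (R n).L + eu n + (a + 1) * (R n).L := by omega
        have g5 : ((R n).τ : ℝ) + (R n).L ≤ (Pb n).τ + (R n).L + eu n + (a + 1) * (R n).L := by
          exact_mod_cast g4
        push_cast
        nlinarith
      have h6 : ((eo n : ℝ) + eY n) / d 0 ≤ ((Pb n).g 0 : ℝ) / d 0 := by
        refine div_le_div_of_nonneg_right ?_ hD0.le
        have g1 := h1.gP
        rw [min_eq_right hmn] at g1
        exact_mod_cast g1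
      have h7 : (0 : ℝ) < ((b + 1 : ℕ) : ℝ) - 1 := by push_cast; linarith
      have h5 : (Pb n).Lam d (b + 1) ∅ (q n) (M0 n) ≤
          ((b + 1 : ℕ) : ℝ) * q n / (1 - q n) ^ (b + 1 + 1) *
          (((R n).cd (b + a + 3) Finset.univ + eu n - (eo n + eY n) / d 0) /
            (((b + 1 : ℕ) : ℝ) - 1)) := by
        refine A3.trans ?_
        refine mul_le_mul_of_nonneg_left ?_ (by positivity)
        refine div_le_div_of_nonneg_right ?_ h7.le
        linarith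
      rw [Hq_empty d b] at A1
      linarith)
    (by
      filter_upwards [hq, hPa] with n hqn h2
      obtain ⟨-, -, -, A1, -⟩ := lam_path d hd1 hb h2 (q n) hqn.1 hqn.2 (M0 n)
      rwa [Hq_empty, Hq_empty] at A1)
    (((b + a + 3 : ℕ) : ℝ) * (a + 3) - (a + 3)) (((b + 1 : ℕ) : ℝ) * ((b - 1) / b)) b lE lo lY
    (lo + lY) T1 Tb TL1 t5 t2 t3 t4
  exact num_case a b hb lo lY lE hE hEY hoY key


end Pool.Agent.KSYP.DE

alias Pool.Agent.KSY.path_excl := Pool.Agent.KSYP.DE.path_excl_pr
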