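import Pool.Agent.Lib_helper80.KSY.Defs
import Pool.Agent.Lib_helper77.KSZ.XEXQ
import Pool.Agent.Lib_helper80.KSYF.CD
import Pool.Agent.Lib_helper80.KSYF.CF

/-!
# KSY block DF: contradiction from the two paths
-/

set_option autoImplicit false

namespace Pool.Agent.KSYP.DF

open MvPolynomial Pool.Agent.KSS Pool.Agent.KSX Pool.Agent.KSY Filter Topology

/-! ### the functions `H` and `W` for `B = ∅` and `B = {0}` -/

theorem Hq_empty (d : Fin 1 → ℕ) (v : ℕ) (q : ℝ) : Hq d v ∅ q = 1 / (1 - q) ^ v := by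
  unfold Hq
  rw [Finset.prod_empty]

theorem Wq_empty (d : Fin 1 → ℕ) (v : ℕ) (q : ℝ) (hq : q < 1) :
    Wq d v ∅ q = v * q / (1 - q) ^ (v + 1) := by
  unfold Wq
  rw [Hq_empty, Finset.sum_empty, sub_zero, pow_succ]
  have : (1 - q) ≠ 0 := by linarith
  field_simp

theorem Wq_univ (d : Fin 1 → ℕ) (v : ℕ) (q : ℝ) (hq0 : 0 < q) (hq : q < 1) (hd : 1 ≤ d 0) :
    (1 - q) ^ v * Wq d v Finset.univ q =
      v * q * ∑ i ∈ Finset.range (d 0), q ^ i - d 0 * q ^ (d 0) := by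
  unfold Wq Hq
  rw [Fin.prod_univ_one, Fin.sum_univ_one]
  have h1 : (1 - q) ≠ 0 := by linarith
  have h2 : q ^ (d 0) < 1 := pow_lt_one₀ hq0.le hq (by omega)
  have h3 : 1 - q ^ (d 0) ≠ 0 := by linarith
  have h4 : (1 - q) ^ v ≠ 0 := pow_ne_zero _ h1
  have h5 : (∑ i ∈ Finset.range (d 0), q ^ i) * (1 - q) = 1 - q ^ (d 0) := by
    have := geom_sum_mul_neg q (d 0)
    linarith
  have h6 : ∑ i ∈ Finset.range (d 0), q ^ i = (1 - q ^ (d 0)) / (1 - q) := by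
    rw [eq_div_iff h1, h5]
  rw [h6]
  field_simp

/-! ### nonnegativity -/

theorem LamF_nonneg (q : ℝ) (hq : 0 < q) (M0 L : ℕ) (F : ℕ → ℕ → ℕ) : 0 ≤ LamF q M0 L F := by
  unfold LamF
  positivity

theorem H0F_nonneg (q : ℝ) (hq : 0 < q) (M0 : ℕ) (F : ℕ → ℕ → ℕ) : 0 ≤ H0F q M0 F := by
  unfold H0F
  positivity

/-! ### the bound for `P` -/

theorem lam_le_cd (d : Fin 1 → ℕ) (hd : 1 ≤ d 0) (v : ℕ) (hv : 0 < v) (q : ℝ) (hq0 : 0 < q)
    (hq1 : q < 1) (M0 : ℕ) (P : Rec 1) (hP : P.Of d v) :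
    P.Lam d v ∅ q M0 ≤ q * P.cd v ∅ / (1 - q) ^ (v + 1) := by
  have h1 : 0 < 1 - q := by linarith
  have hv' : (0 : ℝ) < v := by exact_mod_cast hv
  have hW : 0 < Wq d v ∅ q := by
    rw [Wq_empty d v q hq1]
    positivity
  have hd' : ∀ i, 1 ≤ d i := fun i => by
    rw [Subsingleton.elim i 0]; exact hd
  have key := ss_exp_pr d hd' v ∅ (by simpa using hv) q hq0 hq1 M0 (fun _ => 0)
    (fun _ => le_rfl) v hv'.le (by simp [Ind]) (by
      intro i _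
      rw [Subsingleton.elim i 0, Hq_empty, Wq_empty d v q hq1]
      have h2 : q ^ (d 0) < 1 := pow_lt_one₀ hq0.le hq1 (by omega)
      have h3 : 0 < 1 - q ^ (d 0) := by linarith
      obtain ⟨k, hk⟩ : ∃ k, d 0 = k + 1 := ⟨d 0 - 1, by omega⟩
      have h4 : q ^ k ≤ 1 := pow_le_one₀ hq0.le hq1.le
      have h5 : q ^ (d 0) = q ^ k * q := by rw [hk, pow_succ]
      have e : (0 : ℝ) + v * (q ^ (d 0) / (1 - q ^ (d 0)) * (1 / (1 - q) ^ v) /
          (v * q / (1 - q) ^ (v + 1))) = q ^ k * (1 - q) / (1 - q ^ (d 0)) := by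
        rw [h5] at h3 ⊢
        rw [pow_succ]
        field_simp
        ring
      rw [e, div_le_one h3, h5]
      nlinarith) P hP (by simp)
  have h2 : P.Lam d v ∅ q M0 = P.s d v ∅ q M0 * Wq d v ∅ q := by
    unfold Rec.s
    rw [div_mul_cancel₀ _ hW.ne']
  have key' : (v : ℝ) * P.s d v ∅ q M0 ≤ P.cd v ∅ := by
    simpa using key
  rw [h2, Wq_empty d v q hq1]
  have h3 : P.s d v ∅ q M0 * (v * q / (1 - q) ^ (v + 1)) =
      q * (v * P.s d v ∅ q M0) / (1 - q) ^ (v + 1) := by ring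
  rw [h3]
  gcongr

/-! ### limits -/

theorem tendsto_Wuniv {ι : Type} (U : Ultrafilter ι) (d : Fin 1 → ℕ) (hd : 1 ≤ d 0) (v : ℕ)
    (q : ι → ℝ) (hq : ∀ᶠ n in U, 0 < q n ∧ q n < 1) (hq1 : Tendsto q U (𝓝 1)) :
    Tendsto (fun n => (1 - q n) ^ v * Wq d v Finset.univ (q n)) U (𝓝 (v * d 0 - d 0)) := by
  have h1 : Tendsto (fun n => v * q n * ∑ i ∈ Finset.range (d 0), (q n) ^ i -
      d 0 * (q n) ^ (d 0)) U (𝓝 (v * 1 * ∑ i ∈ Finset.range (d 0), (1 : ℝ) ^ i -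
      d 0 * (1 : ℝ) ^ (d 0))) := by
    refine Tendsto.sub (Tendsto.mul (tendsto_const_nhds.mul hq1) ?_)
      (tendsto_const_nhds.mul (hq1.pow _))
    exact tendsto_finsetSum _ fun i _ => hq1.pow i
  have h2 : (v : ℝ) * 1 * ∑ i ∈ Finset.range (d 0), (1 : ℝ) ^ i - d 0 * (1 : ℝ) ^ (d 0) =
      v * d 0 - d 0 := by simp
  rw [h2] at h1
  refine h1.congr' ?_
  filter_upwards [hq] with n hn
  rw [Wq_univ d v (q n) hn.1 hn.2 hd]

theorem tendsto_Lempty {ι : Type} (U : Ultrafilter ι) (d : Fin 1 → ℕ) (b : ℕ)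
    (hb : 1 ≤ b) (s q : ι → ℝ) (M0 : ι → ℕ) (R1 : ι → Rec 1)
    (hq : ∀ᶠ n in U, 0 < q n ∧ q n < 1) (hq1 : Tendsto q U (𝓝 1))
    (hR1 : Tendsto (fun n => sn d b ∅ R1 q M0 n / s n) U (𝓝 1)) :
    Tendsto (fun n => (1 - q n) ^ (b + 1) * (R1 n).Lam d b ∅ (q n) (M0 n) / s n) U
      (𝓝 b) := by
  have h1 : Tendsto (fun n => sn d b ∅ R1 q M0 n / s n * (b * q n)) U (𝓝 (1 * (b * 1))) :=
    hR1.mul (tendsto_const_nhds.mul hq1)
  rw [one_mul, mul_one] at h1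
  refine h1.congr' ?_
  filter_upwards [hq] with n hn
  have h2 : 0 < 1 - q n := by linarith [hn.2]
  have hb' : (0 : ℝ) < b := by exact_mod_cast hb
  have hW : Wq d b ∅ (q n) = b * q n / (1 - q n) ^ (b + 1) := Wq_empty d b _ hn.2
  have hq0 := hn.1
  have hW0 : 0 < Wq d b ∅ (q n) := by rw [hW]; positivity
  have h3 : (R1 n).Lam d b ∅ (q n) (M0 n) = sn d b ∅ R1 q M0 n * Wq d b ∅ (q n) := by
    unfold sn Rec.s
    rw [div_mul_cancel₀ _ hW0.ne']
  rw [h3, hW]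
  field_simp

theorem num_false (a b : ℕ)
    (h : ((b + a + 3 : ℕ) : ℝ) * (a + 3) - (a + 3) ≤
      (a + 1) * (b + (b + (a + 3)) / (a + 2) + (a + 3) / (a + 2) ^ 2
        + ((b + (a + 3)) + b / (a + 2) + 0 / (a + 2) ^ 2) / (a + 1)
        + 0 / (a + 1) ^ 2 * (1 + 1 / (a + 2)))
      + a * 0 * ((1 + 1 / (a + 1)) * (1 + 1 / (a + 2)))) : False := by
  have ha : (0 : ℝ) ≤ a := Nat.cast_nonneg a
  have h1 : (0 : ℝ) < a + 1 := by linarith
  have h2 : (0 : ℝ) < a + 2 := by linarith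
  have e : (a + 1) * ((b : ℝ) + (b + (a + 3)) / (a + 2) + (a + 3) / (a + 2) ^ 2
        + ((b + (a + 3)) + b / (a + 2) + 0 / (a + 2) ^ 2) / (a + 1)
        + 0 / (a + 1) ^ 2 * (1 + 1 / (a + 2)))
      + a * 0 * ((1 + 1 / (a + 1)) * (1 + 1 / (a + 2))) =
      (a + 3) * b + ((a + 1) * (a + 3) ^ 2 / (a + 2) ^ 2 + (a + 3)) := by
    field_simp
    ring
  rw [e] at h
  push_cast at h
  have h3 : (a + 1) * ((a : ℝ) + 3) ^ 2 / (a + 2) ^ 2 < (a + 3) * (a + 1) := by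
    rw [div_lt_iff₀ (by positivity)]
    nlinarith [mul_pos h1 (by linarith : (0 : ℝ) < a + 3), sq_nonneg (a : ℝ)]
  nlinarith

/-- (DF) contradiction from the two paths -/
theorem star_false_pr (d : Fin 1 → ℕ) (a b : ℕ) (ha : d 0 = a + 3) (hb : 1 ≤ b)
    {ι : Type} (U : Ultrafilter ι) (R : ι → Rec 1) (q : ι → ℝ) (M0 : ι → ℕ)
    (h : NE d (b + a + 3) Finset.univ ∅ U R q M0) (F2 F31 F32 : ι → ℕ → ℕ → ℕ)
    (T2 oY o0 o1 : ι → ℕ) (e : ι → Fin (a + 1) → ℕ) (P R1 Pb1 R2 Pb2 : ι → Rec 1)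
    (eu1 eo1 eY1 eZ1 eu2 eo2 eY2 eZ2 : ι → ℕ)
    (hS : ∀ᶠ n in U, Stg d a b (M0 n) (R n) (F2 n) (T2 n) (oY n) (e n))
    (hP1 : ∀ᶠ n in U, Path d a b (R n).L (T2 n) (oY n) (o1 n) (F2 n) (F31 n) (R1 n) (Pb1 n)
      (eu1 n) (eo1 n) (eY1 n) (eZ1 n))
    (hP2 : ∀ᶠ n in U, Path d a b (R n).L (T2 n) (oY n) (o0 n) (F2 n) (F32 n) (R2 n) (Pb2 n)
      (eu2 n) (eo2 n) (eY2 n) (eZ2 n))
    (hP : ∀ᶠ n in U, (P n).Of d (b + 2) ∧ (P n).L = (R n).L ∧
      T2 n ≤ (P n).τ + o0 n + o1 n ∧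
      Star a (R n).L (F2 n) (F32 n) (P n) (Pb1 n) (eY1 n + eu1 n) (eY2 n))
    (hR1 : Tendsto (fun n => sn d b ∅ R1 q M0 n /
      sn d (b + a + 3) Finset.univ R q M0 n) U (𝓝 1))
    (hR2 : Tendsto (fun n => sn d b ∅ R2 q M0 n /
      sn d (b + a + 3) Finset.univ R q M0 n) U (𝓝 1))
    (t1 : Tendsto (fun n => (eu1 n : ℝ) / sn d (b + a + 3) Finset.univ R q M0 n) U (𝓝 (d 0)))
    (t2 : Tendsto (fun n => (eo1 n : ℝ) / sn d (b + a + 3) Finset.univ R q M0 n) U (𝓝 0))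
    (t3 : Tendsto (fun n => (eY1 n : ℝ) / sn d (b + a + 3) Finset.univ R q M0 n) U (𝓝 0))
    (t4 : Tendsto (fun n => (eu2 n : ℝ) / sn d (b + a + 3) Finset.univ R q M0 n) U (𝓝 (d 0)))
    (t5 : Tendsto (fun n => (eo2 n : ℝ) / sn d (b + a + 3) Finset.univ R q M0 n) U (𝓝 0))
    (t6 : Tendsto (fun n => (eY2 n : ℝ) / sn d (b + a + 3) Finset.univ R q M0 n) U (𝓝 0))
    (t7 : Tendsto (fun n => (eZ2 n : ℝ) / sn d (b + a + 3) Finset.univ R q M0 n) U (𝓝 0))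
    (t8 : Tendsto (fun n => (∑ l, (e n l : ℝ)) / sn d (b + a + 3) Finset.univ R q M0 n) U
      (𝓝 0)) :
    False := by
  obtain ⟨s, hsdef⟩ : ∃ s : ι → ℝ, s = fun n => sn d (b + a + 3) Finset.univ R q M0 n :=
    ⟨_, rfl⟩
  have hsn : ∀ n, sn d (b + a + 3) Finset.univ R q M0 n = s n := fun n => by rw [hsdef]
  simp only [hsn] at hR1 hR2 t1 t2 t3 t4 t5 t6 t7 t8
  have hd1 : 1 ≤ d 0 := by omega
  have hq := h.q01
  have hql := h.qlim
  have hs : ∀ᶠ n in U, 0 < s n := by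
    filter_upwards [h.spos] with n hn
    rwa [hsn] at hn
  have hcd : Tendsto (fun n => (R n).cd (b + a + 3) Finset.univ / s n) U (𝓝 b) := by
    have h1 := h.cdlim
    simp only [hsn] at h1
    have h2 : Ind d (b + a + 3) Finset.univ = b := by
      unfold Ind
      rw [Fin.sum_univ_one, ha]
      push_cast
      ring
    rwa [h2] at h1
  -- the five limits
  have T1 : Tendsto (fun n => (1 - q n) ^ (b + a + 3) *
      (R n).Lam d (b + a + 3) Finset.univ (q n) (M0 n) / s n) U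
      (𝓝 (((b + a + 3 : ℕ) : ℝ) * (a + 3) - (a + 3))) := by
    have h1 := tendsto_Wuniv U d hd1 (b + a + 3) q hq hql
    have h2 : (((b + a + 3 : ℕ) : ℝ) * d 0 - d 0) =
        (((b + a + 3 : ℕ) : ℝ) * (a + 3) - (a + 3)) := by
      rw [ha]; push_cast; ring
    rw [h2] at h1
    refine h1.congr' ?_
    filter_upwards [hs] with n hn
    have hW : Wq d (b + a + 3) Finset.univ (q n) ≠ 0 := by
      intro h0
      have := hsn n
      unfold sn Rec.s at this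
      rw [h0, div_zero] at this
      rw [← this] at hn
      exact lt_irrefl _ hn
    have h3 : (R n).Lam d (b + a + 3) Finset.univ (q n) (M0 n) =
        s n * Wq d (b + a + 3) Finset.univ (q n) := by
      rw [← hsn n]
      unfold sn Rec.s
      rw [div_mul_cancel₀ _ hW]
    rw [h3]
    field_simp
  have TP : Tendsto (fun n => (1 - q n) ^ (b + 3) *
      (q n * ((R n).cd (b + a + 3) Finset.univ + (eo2 n + eo1 n)) / (1 - q n) ^ (b + 3)) / s n) U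
      (𝓝 b) := by
    have h1 : Tendsto (fun n => q n * ((R n).cd (b + a + 3) Finset.univ / s n +
        ((eo2 n : ℝ) / s n + (eo1 n : ℝ) / s n))) U (𝓝 (1 * (b + (0 + 0)))) :=
      hql.mul (hcd.add (t5.add t2))
    rw [one_mul, add_zero, add_zero] at h1
    refine h1.congr' ?_
    filter_upwards [hs, hq] with n hn hqn
    have h2 : (1 - q n) ≠ 0 := by linarith [hqn.2]
    have h3 : (1 - q n) ^ (b + 3) ≠ 0 := pow_ne_zero _ h2
    field_simp
  have TL1 := tendsto_Lempty U d b hb s q M0 R1 hq hql hR1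
  have TL2 := tendsto_Lempty U d b hb s q M0 R2 hq hql hR2
  have Tb : ∀ (R1 : ι → Rec 1) (eu : ι → ℕ),
      Tendsto (fun n => (1 - q n) ^ (b + 1) * (R1 n).Lam d b ∅ (q n) (M0 n) / s n) U (𝓝 b) →
      Tendsto (fun n => (eu n : ℝ) / s n) U (𝓝 (d 0)) →
      Tendsto (fun n => (1 - q n) ^ (b + 2) * ((1 - q n)⁻¹ * (R1 n).Lam d b ∅ (q n) (M0 n) +
        eu n * (q n / (1 - q n) ^ 2) * Hq d b ∅ (q n)) / s n) U (𝓝 ((b : ℝ) + (a + 3))) := by
    intro R1 eu h1 h2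
    have h3 : Tendsto (fun n => (1 - q n) ^ (b + 1) * (R1 n).Lam d b ∅ (q n) (M0 n) / s n +
        (eu n : ℝ) / s n * q n) U (𝓝 (b + d 0 * 1)) := h1.add (h2.mul hql)
    have h4 : (b : ℝ) + d 0 * 1 = b + (a + 3) := by rw [ha]; push_cast; ring
    rw [h4] at h3
    refine h3.congr' ?_
    filter_upwards [hs, hq] with n hn hqn
    have h5 : (1 - q n) ≠ 0 := by linarith [hqn.2]
    rw [Hq_empty]
    have e1 : (1 - q n) ^ (b + 1) = (1 - q n) ^ b * (1 - q n) := pow_succ _ _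
    have e2 : (1 - q n) ^ (b + 2) = (1 - q n) ^ b * (1 - q n) ^ 2 := pow_add _ _ _
    rw [e1, e2]
    have h6 : (1 - q n) ^ b ≠ 0 := pow_ne_zero _ h5
    field_simp
  have key := lim_star U a b q s (fun n => (R n).Lam d (b + a + 3) Finset.univ (q n) (M0 n))
    (fun n => LamF (q n) (M0 n) (R n).L (F2 n)) (fun n => H0F (q n) (M0 n) (F2 n))
    (fun n => q n * ((R n).cd (b + a + 3) Finset.univ + (eo2 n + eo1 n)) / (1 - q n) ^ (b + 3))
    (fun n => (1 - q n)⁻¹ * (R1 n).Lam d b ∅ (q n) (M0 n) +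
      eu1 n * (q n / (1 - q n) ^ 2) * Hq d b ∅ (q n))
    (fun n => LamF (q n) (M0 n) (R n).L (F32 n)) (fun n => H0F (q n) (M0 n) (F32 n))
    (fun n => (1 - q n)⁻¹ * (R2 n).Lam d b ∅ (q n) (M0 n) +
      eu2 n * (q n / (1 - q n) ^ 2) * Hq d b ∅ (q n))
    (fun n => (R2 n).Lam d b ∅ (q n) (M0 n))
    (fun n => ∑ l, (e n l : ℝ)) (fun n => ((eY1 n + eu1 n : ℕ) : ℝ)) (fun n => (eY2 n : ℝ))
    (fun n => (eZ2 n : ℝ)) hq hql hs
    (by
      filter_upwards [hq] with n hqn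
      exact ⟨by positivity, by positivity, by positivity, by positivity,
        H0F_nonneg _ hqn.1 _ _, H0F_nonneg _ hqn.1 _ _, LamF_nonneg _ hqn.1 _ _ _,
        LamF_nonneg _ hqn.1 _ _ _⟩)
    (by
      filter_upwards [hq, hS] with n hqn hSn
      exact lam_stg d (R n) hSn (q n) hqn.1 hqn.2)
    (by
      filter_upwards [hq, hS, hP, hP1, hP2] with n hqn hSn hPn h1 h2
      obtain ⟨p1, p2, p3, p4⟩ := hPn
      have A1 := lam_star d hd1 p1 p2 h1.ofP h1.LP p4 (q n) hqn.1 hqn.2 (M0 n)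
      obtain ⟨-, -, -, -, A2⟩ := lam_path d hd1 hb h1 (q n) hqn.1 hqn.2 (M0 n)
      have A3 := lam_le_cd d hd1 (b + 2) (by omega) (q n) hqn.1 hqn.2 (M0 n) (P n) p1
      have h3 : 0 < 1 - q n := by linarith [hqn.2]
      have hq0 := hqn.1
      have h4 : (P n).cd (b + 2) ∅ ≤ (R n).cd (b + a + 3) Finset.univ + (eo2 n + eo1 n) := by
        unfold Rec.cd
        have g1 := hSn.tau
        have g2 := h1.oo_le
        have g3 := h2.oo_le
        rw [p2, Finset.card_empty, Finset.card_univ, Fintype.card_fin]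
        have g4 : (R n).τ + (R n).L ≤ (P n).τ + eo2 n + eo1 n + (a + 1) * (R n).L := by omega
        have g5 : ((R n).τ : ℝ) + (R n).L ≤ (P n).τ + eo2 n + eo1 n + (a + 1) * (R n).L := by
          exact_mod_cast g4
        push_cast
        nlinarith
      have h5 : (P n).Lam d (b + 2) ∅ (q n) (M0 n) ≤
          q n * ((R n).cd (b + a + 3) Finset.univ + (eo2 n + eo1 n)) / (1 - q n) ^ (b + 3) := by
        refine A3.trans ?_
        rw [show b + 2 + 1 = b + 3 from rfl]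
        gcongr
      have h6 : 0 ≤ q n ^ (a + 2) / (1 - q n ^ (a + 2)) := by
        have : q n ^ (a + 2) < 1 := pow_lt_one₀ hqn.1.le hqn.2 (by omega)
        exact div_nonneg (by positivity) (by linarith)
      rw [Hq_empty d (b + 1)] at A1
      have h7 := mul_le_mul_of_nonneg_left A2 h6
      linarith)
    (by
      filter_upwards [hq, hP2] with n hqn h2
      exact (lam_path d hd1 hb h2 (q n) hqn.1 hqn.2 (M0 n)).2.1)
    (by
      filter_upwards [hq, hP2] with n hqn h2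
      obtain ⟨-, -, A1, -, A2⟩ := lam_path d hd1 hb h2 (q n) hqn.1 hqn.2 (M0 n)
      rw [Hq_empty d b] at A1
      linarith)
    (by
      filter_upwards [hq, hP2] with n hqn h2
      obtain ⟨-, -, -, A1, -⟩ := lam_path d hd1 hb h2 (q n) hqn.1 hqn.2 (M0 n)
      rwa [Hq_empty, Hq_empty] at A1)
    (((b + a + 3 : ℕ) : ℝ) * (a + 3) - (a + 3)) b (b + (a + 3)) (b + (a + 3)) b 0 (a + 3) 0 0
    T1 TP (Tb R1 eu1 TL1 t1) (Tb R2 eu2 TL2 t4) TL2 t8
    (by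
      have h1 := t3.add t1
      have h2 : (0 : ℝ) + d 0 = a + 3 := by rw [ha]; push_cast; ring
      rw [h2] at h1
      refine h1.congr fun n => ?_
      push_cast
      ring)
    t6 t7
  exact num_false a b key


end Pool.Agent.KSYP.DF

alias Pool.Agent.KSY.star_false := Pool.Agent.KSYP.DF.star_false_pr
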