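import Pool.Agent.Lib_helper80.KSY.Defs
import Pool.Agent.Lib_helper80.KSYF.AQ
import Pool.Agent.Lib_helper80.KSYF.AT
import Pool.Agent.Lib_helper80.KSYF.DC
import Pool.Agent.Lib_helper80.KSYF.DD
import Pool.Agent.Lib_helper80.KSYF.DE
import Pool.Agent.Lib_helper80.KSYF.DF

/-!
# KSY, block DG: contradiction from the two paths
-/

set_option autoImplicit false

namespace Pool.Agent.KSYP.DG

open MvPolynomial Pool.Agent.KSS Pool.Agent.KSX Pool.Agent.KSY Filter Topology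

/-- the limits of the numbers of one path -/
theorem one_path (d : Fin 1 → ℕ) {a b : ℕ} (ha : d 0 = a + 3) (hb : 1 ≤ b)
    (hP : Pst d b ∅ Finset.univ) {ι : Type} (U : Ultrafilter ι) (R : ι → Rec 1)
    (q : ι → ℝ) (M0 : ι → ℕ) (h : NE d (b + a + 3) Finset.univ ∅ U R q M0)
    (h0 : ∀ᶠ n in U, (R n).c0 = 0) (F2 F3 : ι → ℕ → ℕ → ℕ) (T2 oY oo : ι → ℕ)
    (e : ι → Fin (a + 1) → ℕ) (R1 Pb : ι → Rec 1) (eu eo eY eZ : ι → ℕ)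
    (hS : ∀ᶠ n in U, Stg d a b (M0 n) (R n) (F2 n) (T2 n) (oY n) (e n))
    (hPa : ∀ᶠ n in U, Path d a b (R n).L (T2 n) (oY n) (oo n) (F2 n) (F3 n) (R1 n) (Pb n)
      (eu n) (eo n) (eY n) (eZ n)) :
    Tendsto (fun n => sn d b ∅ R1 q M0 n /
      sn d (b + a + 3) Finset.univ R q M0 n) U (𝓝 1) ∧
    Tendsto (fun n => (eu n : ℝ) / sn d (b + a + 3) Finset.univ R q M0 n) U (𝓝 (d 0)) ∧
    Tendsto (fun n => (eo n : ℝ) / sn d (b + a + 3) Finset.univ R q M0 n) U (𝓝 0) ∧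
    Tendsto (fun n => (eY n : ℝ) / sn d (b + a + 3) Finset.univ R q M0 n) U (𝓝 0) ∧
    Tendsto (fun n => (eZ n : ℝ) / sn d (b + a + 3) Finset.univ R q M0 n) U (𝓝 0) ∧
    Tendsto (fun n => (∑ l, (e n l : ℝ)) / sn d (b + a + 3) Finset.univ R q M0 n) U (𝓝 0) := by
  have hvb : b + a + 3 - d 0 = b := by omega
  set s : ι → ℝ := sn d (b + a + 3) Finset.univ R q M0 with hs
  have hspos : ∀ᶠ n in (U : Filter ι), 0 < s n := h.spos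
  have hLs : Tendsto (fun n => ((R n).L : ℝ) / s n) U atTop := by
    refine tendsto_atTop_mono' _ ?_ h.Llim
    filter_upwards [h.q01, hspos] with n hq hsn
    apply div_le_div_of_nonneg_right _ hsn.le
    have : (0 : ℝ) ≤ (R n).L := Nat.cast_nonneg _
    nlinarith [hq.1]
  have hgL : ∀ᶠ n in (U : Filter ι), (R n).g 0 = (R n).L :=
    h.gB.mono fun n hn => hn 0 (Finset.mem_univ 0)
  have hone : ∀ t : ι → ℕ, (∀ᶠ n in (U : Filter ι), t n ≤ eZ n - (eo n + eY n)) →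
      Tendsto (fun n => ((R1 n).c0 : ℝ) / s n) U (𝓝 1) ∧
      Tendsto (fun n => sn d b ∅ R1 q M0 n / s n) U (𝓝 1) ∧
      ∃ ls : Fin (d 0),
        Tendsto (fun n => (eh a (e n) (eu n) (eo n) (eY n) (eZ n) (t n) (ls : ℕ) : ℝ) / s n)
          U (𝓝 (d 0)) ∧
        ∀ l : Fin (d 0), l ≠ ls → Tendsto (fun n =>
          (eh a (e n) (eu n) (eo n) (eY n) (eZ n) (t n) (l : ℕ) : ℝ) / s n) U (𝓝 0) := by
    intro t ht
    have hT : ∀ᶠ n in (U : Filter ι), TorusOut d (b + a + 3) 0 (M0 n) (R n) (R1 n)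
        (fun l : Fin (d 0) => eh a (e n) (eu n) (eo n) (eY n) (eZ n) (t n) (l : ℕ)) (R n).L := by
      filter_upwards [hS, hPa, ht, hgL] with n a1 a2 a3 a4
      exact torus_of_path d ha hb (R n) a4 a1 a2 a3
    have h1 := one_index d (by omega) (b + a + 3) (by omega) (by rw [hvb]; exact hP) U R q M0 h h0
      R1 (fun n => fun l : Fin (d 0) =>
        eh a (e n) (eu n) (eo n) (eY n) (eZ n) (t n) (l : ℕ)) hT
    rw [hvb] at h1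
    exact h1
  obtain ⟨hc, hsn, -⟩ := hone (fun _ => 0) (Eventually.of_forall fun n => Nat.zero_le _)
  have hnum : ∀ᶠ n in (U : Filter ι), oY n = min (R n).L (∑ l, e n l) ∧ oY n ≤ eY n ∧
      min (R n).L (eo n + eY n) ≤ eZ n := by
    filter_upwards [hS, hPa] with n a1 a2
    exact ⟨a1.oY_eq, a2.oY_le, a2.Zge⟩
  obtain ⟨lu, lo, lY, lE, t1, t2, t3, t4, t5, hE0, hEY, hcase⟩ :=
    path_dich d a b ha U s hspos (fun n => (R n).L) hLs (fun n => (R1 n).c0) hc e oY eu eo eY eZ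
      hnum fun t ht => (hone t ht).2.2
  obtain ⟨r1, r2, r3, r4⟩ := path_excl d a b ha hb U R q M0 h F2 F3 T2 oY oo e R1 Pb eu eo eY eZ
    hS hPa hsn lu lo lY lE t1 t2 t3 t4 t5 hE0 hEY hcase
  subst r2 r3 r4
  rw [r1] at t1
  rw [add_zero] at t4
  exact ⟨hsn, t1, t2, t3, t4, t5⟩

/-- (DG) -/
theorem p1_contra_pr (d : Fin 1 → ℕ) (hd : 3 ≤ d 0) (v : ℕ) (hv : d 0 < v)
    (hP : Pst d (v - d 0) ∅ Finset.univ) {ι : Type} (U : Ultrafilter ι) (R : ι → Rec 1)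
    (q : ι → ℝ) (M0 : ι → ℕ) (h : NE d v Finset.univ ∅ U R q M0)
    (h0 : ∀ᶠ n in U, (R n).c0 = 0) : False := by
  obtain ⟨a, ha⟩ : ∃ a, d 0 = a + 3 := ⟨d 0 - 3, by omega⟩
  obtain ⟨b, hb, rfl⟩ : ∃ b, 1 ≤ b ∧ v = b + a + 3 := ⟨v - d 0, by omega, by omega⟩
  have hvb : b + a + 3 - d 0 = b := by omega
  rw [hvb] at hP
  have hex : ∀ᶠ n in (U : Filter ι),
      ∃ (F2 F31 F32 : ℕ → ℕ → ℕ) (T2 oY o0 o1 : ℕ) (e : Fin (a + 1) → ℕ) (P R1 Pb1 R2 Pb2 : Rec 1)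
      (eu1 eo1 eY1 eZ1 eu2 eo2 eY2 eZ2 : ℕ), Stg d a b (M0 n) (R n) F2 T2 oY e ∧
      Path d a b (R n).L T2 oY o1 F2 F31 R1 Pb1 eu1 eo1 eY1 eZ1 ∧
      Path d a b (R n).L T2 oY o0 F2 F32 R2 Pb2 eu2 eo2 eY2 eZ2 ∧
      P.Of d (b + 2) ∧ P.L = (R n).L ∧ T2 ≤ P.τ + o0 + o1 ∧
      Star a (R n).L F2 F32 P Pb1 (eY1 + eu1) eY2 := by
    filter_upwards [h.of, h.gB] with n a1 a2
    exact two_path d a b ha (M0 n) (R n) a1 (a2 0 (Finset.mem_univ 0))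
  obtain ⟨F2, hex⟩ := hex.choice
  obtain ⟨F31, hex⟩ := hex.choice
  obtain ⟨F32, hex⟩ := hex.choice
  obtain ⟨T2, hex⟩ := hex.choice
  obtain ⟨oY, hex⟩ := hex.choice
  obtain ⟨o0, hex⟩ := hex.choice
  obtain ⟨o1, hex⟩ := hex.choice
  obtain ⟨e, hex⟩ := hex.choice
  obtain ⟨P, hex⟩ := hex.choice
  obtain ⟨R1, hex⟩ := hex.choice
  obtain ⟨Pb1, hex⟩ := hex.choice
  obtain ⟨R2, hex⟩ := hex.choice
  obtain ⟨Pb2, hex⟩ := hex.choice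
  obtain ⟨eu1, hex⟩ := hex.choice
  obtain ⟨eo1, hex⟩ := hex.choice
  obtain ⟨eY1, hex⟩ := hex.choice
  obtain ⟨eZ1, hex⟩ := hex.choice
  obtain ⟨eu2, hex⟩ := hex.choice
  obtain ⟨eo2, hex⟩ := hex.choice
  obtain ⟨eY2, hex⟩ := hex.choice
  obtain ⟨eZ2, hex⟩ := hex.choice
  have hS : ∀ᶠ n in (U : Filter ι), Stg d a b (M0 n) (R n) (F2 n) (T2 n) (oY n) (e n) :=
    hex.mono fun n hn => hn.1
  have hP1 : ∀ᶠ n in (U : Filter ι), Path d a b (R n).L (T2 n) (oY n) (o1 n) (F2 n) (F31 n)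
      (R1 n) (Pb1 n) (eu1 n) (eo1 n) (eY1 n) (eZ1 n) := hex.mono fun n hn => hn.2.1
  have hP2 : ∀ᶠ n in (U : Filter ι), Path d a b (R n).L (T2 n) (oY n) (o0 n) (F2 n) (F32 n)
      (R2 n) (Pb2 n) (eu2 n) (eo2 n) (eY2 n) (eZ2 n) := hex.mono fun n hn => hn.2.2.1
  obtain ⟨s1, u1, v1, w1, -, x1⟩ := one_path d ha hb hP U R q M0 h h0 F2 F31 T2 oY o1 e R1 Pb1
    eu1 eo1 eY1 eZ1 hS hP1
  obtain ⟨s2, u2, v2, w2, z2, -⟩ := one_path d ha hb hP U R q M0 h h0 F2 F32 T2 oY o0 e R2 Pb2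
    eu2 eo2 eY2 eZ2 hS hP2
  exact star_false d a b ha hb U R q M0 h F2 F31 F32 T2 oY o0 o1 e P R1 Pb1 R2 Pb2 eu1 eo1 eY1 eZ1
    eu2 eo2 eY2 eZ2 hS hP1 hP2 (hex.mono fun n hn => hn.2.2.2) s1 s2 u1 v1 w1 u2 v2 w2 z2 x1

end Pool.Agent.KSYP.DG

alias Pool.Agent.KSY.p1_contra := Pool.Agent.KSYP.DG.p1_contra_pr
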