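import Pool.Agent.Lib_helper80.KSY.Defs
import Pool.Agent.Lib_helper77.KSZ.XTSE
import Pool.Agent.Lib_helper77.KSZ.XTSB
import Pool.Agent.Lib_helper77.KSZ.XBAS
import Pool.Agent.Lib_helper77.KSZ.XSER
import Pool.Agent.Lib_helper77.KSZ.XEXQ

/-!
# KSY block EA (helper38): the normal cone of a near-equality sequence
-/

set_option autoImplicit false

namespace Pool.Agent.KSYP.EA

open MvPolynomial Pool.Agent.KSS Pool.Agent.KSX Pool.Agent.KSY Filter Topology

/-! ### sums -/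

theorem shift_eq (F : ℕ → ℝ) (w N : ℕ) :
    ∑ m ∈ Finset.range N, (if w ≤ m then F (m - w) else 0) = ∑ m ∈ Finset.range (N - w), F m := by
  induction N with
  | zero => simp
  | succ N ih =>
    rw [Finset.sum_range_succ, ih]
    by_cases h : w ≤ N
    · rw [if_pos h, show N + 1 - w = (N - w) + 1 by omega, Finset.sum_range_succ]
    · rw [if_neg h, show N + 1 - w = 0 by omega, show N - w = 0 by omega]
      simp

theorem shift_le (F : ℕ → ℝ) (hF : ∀ m, 0 ≤ F m) (w N : ℕ) :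
    ∑ m ∈ Finset.range N, (if w ≤ m then F (m - w) else 0) ≤ ∑ m ∈ Finset.range N, F m := by
  rw [shift_eq]
  refine Finset.sum_le_sum_of_subset_of_nonneg ?_ fun m _ _ => hF m
  intro m hm
  rw [Finset.mem_range] at hm ⊢
  omega

theorem swap_le (D : ℕ) (hD : 1 ≤ D) (q : ℝ) (hq : 0 ≤ q) (M : ℕ) (h : ℕ → ℕ → ℝ)
    (hh : ∀ c m, 0 ≤ h c m) :
    ∑ m ∈ Finset.range (M + 1), q ^ m *
        ∑ c ∈ (Finset.range (m + 1)).filter (fun c => D * c ≤ m), h c (m - D * c) ≤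
      ∑ c ∈ Finset.range (M + 1), (q ^ D) ^ c * ∑ m ∈ Finset.range (M + 1), q ^ m * h c m := by
  have e1 : ∀ m ∈ Finset.range (M + 1), q ^ m *
      ∑ c ∈ (Finset.range (m + 1)).filter (fun c => D * c ≤ m), h c (m - D * c) =
      ∑ c ∈ Finset.range (M + 1), (if D * c ≤ m then q ^ m * h c (m - D * c) else 0) := by
    intro m hm
    rw [Finset.mem_range] at hm
    rw [Finset.mul_sum, ← Finset.sum_filter]
    refine Finset.sum_congr ?_ fun c _ => rfl
    ext c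
    simp only [Finset.mem_filter, Finset.mem_range]
    constructor
    · rintro ⟨h1, h2⟩
      exact ⟨by omega, h2⟩
    · rintro ⟨h1, h2⟩
      refine ⟨?_, h2⟩
      have : c ≤ D * c := Nat.le_mul_of_pos_left c (by omega)
      omega
  rw [Finset.sum_congr rfl e1, Finset.sum_comm]
  refine Finset.sum_le_sum fun c _ => ?_
  have e2 : ∀ m ∈ Finset.range (M + 1),
      (if D * c ≤ m then q ^ m * h c (m - D * c) else 0) =
      (q ^ D) ^ c * (if D * c ≤ m then (fun x => q ^ x * h c x) (m - D * c) else 0) := by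
    intro m _
    split_ifs with h1
    · have : q ^ m = (q ^ D) ^ c * q ^ (m - D * c) := by
        rw [← pow_mul, ← pow_add]
        congr 1
        omega
      simp only
      rw [this]
      ring
    · simp
  rw [Finset.sum_congr rfl e2, ← Finset.mul_sum]
  refine mul_le_mul_of_nonneg_left ?_ (by positivity)
  exact shift_le (fun x => q ^ x * h c x) (fun m => mul_nonneg (by positivity) (hh c m)) _ _

theorem geo0 {x : ℝ} (h0 : 0 ≤ x) (h1 : x < 1) (M : ℕ) :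
    ∑ c ∈ Finset.range M, x ^ c ≤ (1 - x)⁻¹ :=
  sum_le_hasSum _ (fun _ _ => by positivity) (hasSum_geometric_of_lt_one h0 h1)

theorem geo1 {x : ℝ} (h0 : 0 ≤ x) (h1 : x < 1) (M : ℕ) :
    ∑ c ∈ Finset.range M, (c : ℝ) * x ^ c ≤ x / (1 - x) ^ 2 := by
  refine sum_le_hasSum _ (fun _ _ => by positivity) (hasSum_coe_mul_geometric_of_norm_lt_one ?_)
  rw [Real.norm_eq_abs, abs_of_nonneg h0]
  exact h1

/-! ### the sum of the graded dimensions -/

theorem gr_sum (d : Fin 1 → ℕ) (hd : 1 ≤ d 0) (v : ℕ) (hv : d 0 < v) (R0 : Rec 1)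
    (hB : Bas d v R0) (hg : R0.g 0 = R0.L) (η : ℕ) (q : ℝ) (hq0 : 0 < q) (hq1 : q < 1) (M0 : ℕ) :
    ∑ m ∈ Finset.range (M0 + 1), q ^ m * ∑ l ∈ Finset.Icc 1 R0.L, (grN d v R0 η m l : ℝ) ≤
      (1 - q ^ d 0)⁻¹ * R0.Lam d v Finset.univ q M0 +
        η * (q ^ d 0 / (1 - q ^ d 0) ^ 2) * Hq d v Finset.univ q := by
  have hd1 : ∀ i, 1 ≤ d i := fun i => by rw [Subsingleton.elim i 0]; exact hd
  have hBs : ∑ i ∈ (Finset.univ : Finset (Fin 1)), d i ≤ v := by
    simpa using hv.le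
  have hx1 : q ^ d 0 < 1 := pow_lt_one₀ hq0.le hq1 (by omega)
  have hx0 : 0 ≤ q ^ d 0 := by positivity
  have hH0 : ∀ m, 0 ≤ (NN d v Finset.univ m : ℝ) := fun m => by
    exact_mod_cast nb_nonneg d hd1 v Finset.univ hBs m
  have hF0 : ∀ m l, l ≤ R0.L →
      0 ≤ ((R0.fil m l : ℝ) - (NN d v ∅ m : ℝ) + (NN d v Finset.univ m : ℝ)) := by
    intro m l hl
    have h1 := hB.ge Finset.univ (by simp; omega) (fun i _ => by
      rw [Subsingleton.elim i 0]; exact hg) m l hl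
    have h2 : ((NN d v ∅ m - NN d v Finset.univ m : ℤ) : ℝ) ≤ ((R0.fil m l : ℤ) : ℝ) := by
      exact_mod_cast h1
    push_cast at h2
    linarith
  have hF1 : ∀ m l, l ≤ R0.L →
      ((R0.fil m l : ℝ) - (NN d v ∅ m : ℝ) + (NN d v Finset.univ m : ℝ)) ≤
        (NN d v Finset.univ m : ℝ) := by
    intro m l hl
    have h1 := hB.le m l hl
    have h2 : ((R0.fil m l : ℤ) : ℝ) ≤ ((NN d v ∅ m : ℤ) : ℝ) := by exact_mod_cast h1
    push_cast at h2
    linarith
  have hsig0 : ∀ m, 0 ≤ R0.sig d v Finset.univ m := by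
    intro m
    unfold Rec.sig
    exact Finset.sum_nonneg fun l hl => hF0 m l (Finset.mem_Icc.1 hl).2
  -- one degree
  have step : ∀ m, ∑ l ∈ Finset.Icc 1 R0.L, (grN d v R0 η m l : ℝ) ≤
      ∑ c ∈ (Finset.range (m + 1)).filter (fun c => d 0 * c ≤ m),
        (fun c m' => R0.sig d v Finset.univ m' +
          ((c * η : ℕ) : ℝ) * (NN d v Finset.univ m' : ℝ)) c (m - d 0 * c) := by
    intro m
    have e1 : ∑ l ∈ Finset.Icc 1 R0.L, (grN d v R0 η m l : ℝ) =
        ∑ c ∈ (Finset.range (m + 1)).filter (fun c => d 0 * c ≤ m),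
          ∑ l ∈ Finset.Icc 1 R0.L, (fun l => ((R0.fil (m - d 0 * c) l : ℝ)
            - (NN d v ∅ (m - d 0 * c) : ℝ) + (NN d v Finset.univ (m - d 0 * c) : ℝ)))
              (l - c * η) := by
      rw [Finset.sum_comm]
      refine Finset.sum_congr rfl fun l _ => ?_
      unfold grN
      push_cast
      rfl
    rw [e1]
    refine Finset.sum_le_sum fun c _ => ?_
    exact nte_shift _ _ R0.L (fun l hl => hF0 _ l hl) (fun l hl => hF1 _ l hl) (c * η)
  have h1 : ∑ m ∈ Finset.range (M0 + 1), q ^ m *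
      ∑ l ∈ Finset.Icc 1 R0.L, (grN d v R0 η m l : ℝ) ≤
      ∑ m ∈ Finset.range (M0 + 1), q ^ m *
        ∑ c ∈ (Finset.range (m + 1)).filter (fun c => d 0 * c ≤ m),
        (fun c m' => R0.sig d v Finset.univ m' +
          ((c * η : ℕ) : ℝ) * (NN d v Finset.univ m' : ℝ)) c (m - d 0 * c) :=
    Finset.sum_le_sum fun m _ => mul_le_mul_of_nonneg_left (step m) (by positivity)
  refine h1.trans ?_
  have h2 := swap_le (d 0) hd q hq0.le M0 (fun c m' => R0.sig d v Finset.univ m' +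
          ((c * η : ℕ) : ℝ) * (NN d v Finset.univ m' : ℝ)) (fun c m => by
            have := hsig0 m
            have := hH0 m
            positivity)
  refine h2.trans ?_
  have hΛ0 : 0 ≤ R0.Lam d v Finset.univ q M0 := by
    unfold Rec.Lam
    exact Finset.sum_nonneg fun m _ => mul_nonneg (by positivity) (hsig0 m)
  have hK : ∑ m ∈ Finset.range (M0 + 1), q ^ m * (NN d v Finset.univ m : ℝ) ≤
      Hq d v Finset.univ q := by
    have h3 := ser_H d hd1 v Finset.univ q hq0.le hq1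
    have h4 := sum_le_hasSum (Finset.range (M0 + 1)) (fun m _ => by
      have := hH0 m
      positivity) h3
    refine le_trans (le_of_eq ?_) h4
    exact Finset.sum_congr rfl fun m _ => mul_comm _ _
  have hK0 : 0 ≤ ∑ m ∈ Finset.range (M0 + 1), q ^ m * (NN d v Finset.univ m : ℝ) :=
    Finset.sum_nonneg fun m _ => mul_nonneg (by positivity) (hH0 m)
  have e3 : ∀ c ∈ Finset.range (M0 + 1), (q ^ d 0) ^ c * ∑ m ∈ Finset.range (M0 + 1), q ^ m *
      (fun c m' => R0.sig d v Finset.univ m' +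
          ((c * η : ℕ) : ℝ) * (NN d v Finset.univ m' : ℝ)) c m =
      (q ^ d 0) ^ c * R0.Lam d v Finset.univ q M0 + ((c : ℝ) * (q ^ d 0) ^ c) *
        (η * ∑ m ∈ Finset.range (M0 + 1), q ^ m * (NN d v Finset.univ m : ℝ)) := by
    intro c _
    unfold Rec.Lam
    simp only
    have : ∀ m ∈ Finset.range (M0 + 1), q ^ m * (R0.sig d v Finset.univ m +
          ((c * η : ℕ) : ℝ) * (NN d v Finset.univ m : ℝ)) =
        q ^ m * R0.sig d v Finset.univ m + (c * η : ℝ) * (q ^ m * (NN d v Finset.univ m : ℝ)) := by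
      intro m _
      push_cast
      ring
    rw [Finset.sum_congr rfl this, Finset.sum_add_distrib, ← Finset.mul_sum]
    ring
  rw [Finset.sum_congr rfl e3, Finset.sum_add_distrib, ← Finset.sum_mul, ← Finset.sum_mul]
  have a1 := mul_le_mul_of_nonneg_right (geo0 hx0 hx1 (M0 + 1)) hΛ0
  have a2 := mul_le_mul_of_nonneg_right (geo1 hx0 hx1 (M0 + 1)) (mul_nonneg
    (Nat.cast_nonneg η : (0 : ℝ) ≤ η) hK0)
  have a3 : q ^ d 0 / (1 - q ^ d 0) ^ 2 *
      ((η : ℝ) * ∑ m ∈ Finset.range (M0 + 1), q ^ m * (NN d v Finset.univ m : ℝ)) ≤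
      q ^ d 0 / (1 - q ^ d 0) ^ 2 * ((η : ℝ) * Hq d v Finset.univ q) :=
    mul_le_mul_of_nonneg_left (mul_le_mul_of_nonneg_left hK (Nat.cast_nonneg _)) (by positivity)
  linarith

/-! ### one record -/

theorem Hq_univ (d : Fin 1 → ℕ) (v : ℕ) (q : ℝ) :
    Hq d v Finset.univ q = (1 - q ^ d 0) / (1 - q) ^ v := by
  simp [Hq]

theorem Wq_univ (d : Fin 1 → ℕ) (v : ℕ) (q : ℝ) :
    Wq d v Finset.univ q = (1 - q ^ d 0) / (1 - q) ^ v *
      (v * q / (1 - q) - d 0 * q ^ d 0 / (1 - q ^ d 0)) := by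
  simp [Wq, Hq]

theorem alg1 {D v q x P Λ W S0 : ℝ} (hv : v ≠ 0) (hq : q ≠ 0) (hq1 : 1 - q ≠ 0)
    (hx : 1 - x ≠ 0) (hP : P ≠ 0) (hΛ : Λ = S0 * W)
    (hW : W = (1 - x) / P * (v * q / (1 - q) - D * x / (1 - x))) :
    (1 - x)⁻¹ * Λ = (1 - D * (x / (1 - x) * (1 / P) / (v * q / (P * (1 - q))))) * S0 *
      (v * q / (P * (1 - q))) := by
  rw [hΛ, hW]
  field_simp

theorem one_rec (d : Fin 1 → ℕ) (hd : 2 ≤ d 0) (v : ℕ) (hv : d 0 < v) (R R0 : Rec 1) (η : ℕ)
    (hN : NC d v R R0 η) (q : ℝ) (hq0 : 0 < q) (hq1 : q < 1) (M0 : ℕ)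
    (hWB : 0 < Wq d v Finset.univ q) :
    (∑ m ∈ Finset.range (M0 + 1), q ^ m *
          ∑ l ∈ Finset.Icc 1 R.L, ((grN d v R0 η m l : ℝ) - R.fil m l)) / Wq d v ∅ q ≤
      (1 - d 0 * tse_g d v (d 0) q) * R0.s d v Finset.univ q M0 + tse_g d v (d 0) q * η
        - R.s d v ∅ q M0 := by
  have hd1 : ∀ i, 1 ≤ d i := fun i => by rw [Subsingleton.elim i 0]; omega
  have hv0 : 0 < v := by omega
  have hW := tse_Wpos d v hv0 q hq0 hq1
  have hx1 : q ^ d 0 < 1 := pow_lt_one₀ hq0.le hq1 (by omega)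
  have hBas := bas_rec_pr d hd1 v hv0 R0 hN.of
  have hg : R0.g 0 = R0.L := by rw [hN.g_eq, hN.L_eq]
  have key := gr_sum d (by omega) v hv R0 hBas hg η q hq0 hq1 M0
  rw [hN.L_eq] at key
  have hL : ∑ m ∈ Finset.range (M0 + 1), q ^ m *
          ∑ l ∈ Finset.Icc 1 R.L, ((grN d v R0 η m l : ℝ) - R.fil m l) =
      ∑ m ∈ Finset.range (M0 + 1), q ^ m * ∑ l ∈ Finset.Icc 1 R.L, (grN d v R0 η m l : ℝ) -
        R.Lam d v ∅ q M0 := by
    unfold Rec.Lam Rec.sig
    rw [← Finset.sum_sub_distrib]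
    refine Finset.sum_congr rfl fun m _ => ?_
    rw [← mul_sub, ← Finset.sum_sub_distrib]
    congr 1
    refine Finset.sum_congr rfl fun l _ => ?_
    ring
  have hs : R.Lam d v ∅ q M0 = R.s d v ∅ q M0 * Wq d v ∅ q := by
    unfold Rec.s
    field_simp
  have hs0 : R0.Lam d v Finset.univ q M0 = R0.s d v Finset.univ q M0 * Wq d v Finset.univ q := by
    unfold Rec.s
    field_simp
  have hvp : (v : ℝ) ≠ 0 := by positivity
  have hq1' : 1 - q ≠ 0 := by linarith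
  have hx1' : 1 - q ^ d 0 ≠ 0 := by linarith
  have hP : (1 - q) ^ v ≠ 0 := pow_ne_zero _ hq1'
  have e1 : (1 - q ^ d 0)⁻¹ * R0.Lam d v Finset.univ q M0 =
      (1 - d 0 * tse_g d v (d 0) q) * R0.s d v Finset.univ q M0 * Wq d v ∅ q := by
    unfold tse_g
    rw [tse_W d v q hq1, tse_H, pow_succ]
    exact alg1 hvp hq0.ne' hq1' hx1' hP hs0 (Wq_univ d v q)
  have e2 : (η : ℝ) * (q ^ d 0 / (1 - q ^ d 0) ^ 2) * Hq d v Finset.univ q =
      tse_g d v (d 0) q * η * Wq d v ∅ q := by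
    have hG : tse_g d v (d 0) q * Wq d v ∅ q = q ^ (d 0) / (1 - q ^ (d 0)) * Hq d v ∅ q := by
      unfold tse_g
      field_simp
    have : tse_g d v (d 0) q * η * Wq d v ∅ q = (tse_g d v (d 0) q * Wq d v ∅ q) * η := by ring
    rw [this, hG, Hq_univ, tse_H]
    field_simp
  rw [div_le_iff₀ hW, hL, hs]
  rw [e1, e2] at key
  linarith

theorem cd_le (d : Fin 1 → ℕ) (v : ℕ) (R R0 : Rec 1) (η : ℕ) (hN : NC d v R R0 η) :
    R0.cd v Finset.univ ≤ R.cd v ∅ - η := by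
  unfold Rec.cd
  have h : ((R.τ + η : ℕ) : ℝ) ≤ ((R0.τ + R.L : ℕ) : ℝ) := by exact_mod_cast hN.tau_le
  push_cast at h
  rw [hN.L_eq, Finset.card_empty, Finset.card_univ, Fintype.card_fin]
  push_cast
  nlinarith [h]

theorem ss0 (d : Fin 1 → ℕ) (hd : 2 ≤ d 0) (v : ℕ) (hv : d 0 < v) (R R0 : Rec 1) (η : ℕ)
    (hN : NC d v R R0 η) (q : ℝ) (hq0 : 0 < q) (hq1 : q < 1) (M0 : ℕ) :
    ((v : ℝ) - d 0) * R0.s d v Finset.univ q M0 ≤ R0.cd v Finset.univ := by
  have hd1 : ∀ i, 1 ≤ d i := fun i => by rw [Subsingleton.elim i 0]; omega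
  have h1 : (d 0 : ℝ) < v := by exact_mod_cast hv
  have h := ss_exp d hd1 v Finset.univ (by simpa using hv) q hq0 hq1 M0 (fun _ => 0)
    (fun _ => le_rfl) ((v : ℝ) - d 0) (by linarith) (by simp [Ind]) (by simp) R0 hN.of
    (fun i _ => by rw [Subsingleton.elim i 0, hN.g_eq, hN.L_eq])
  simpa using h

theorem loss_nn (d : Fin 1 → ℕ) (v : ℕ) (R R0 : Rec 1) (η : ℕ)
    (hN : NC d v R R0 η) (q : ℝ) (hq0 : 0 < q) (M0 : ℕ) :
    0 ≤ ∑ m ∈ Finset.range (M0 + 1), q ^ m *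
          ∑ l ∈ Finset.Icc 1 R.L, ((grN d v R0 η m l : ℝ) - R.fil m l) := by
  refine Finset.sum_nonneg fun m _ => mul_nonneg (by positivity) ?_
  refine Finset.sum_nonneg fun l hl => ?_
  have h1 := hN.fil_le m l (Finset.mem_Icc.1 hl).2
  have h2 : ((R.fil m l : ℤ) : ℝ) ≤ ((grN d v R0 η m l : ℤ) : ℝ) := by exact_mod_cast h1
  push_cast at h2
  linarith

theorem s0_nn (d : Fin 1 → ℕ) (hd : 2 ≤ d 0) (v : ℕ) (hv : d 0 < v) (R R0 : Rec 1) (η : ℕ)
    (hN : NC d v R R0 η) (q : ℝ) (hq0 : 0 < q) (M0 : ℕ)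
    (hWB : 0 < Wq d v Finset.univ q) :
    0 ≤ R0.s d v Finset.univ q M0 := by
  have hd1 : ∀ i, 1 ≤ d i := fun i => by rw [Subsingleton.elim i 0]; omega
  have hBas := bas_rec_pr d hd1 v (by omega) R0 hN.of
  unfold Rec.s Rec.Lam Rec.sig
  refine div_nonneg ?_ hWB.le
  refine Finset.sum_nonneg fun m _ => mul_nonneg (by positivity) ?_
  refine Finset.sum_nonneg fun l hl => ?_
  have h1 := hBas.ge Finset.univ (by simp; omega) (fun i _ => by
      rw [Subsingleton.elim i 0, hN.g_eq, hN.L_eq]) m l (Finset.mem_Icc.1 hl).2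
  have h2 : ((NN d v ∅ m - NN d v Finset.univ m : ℤ) : ℝ) ≤ ((R0.fil m l : ℤ) : ℝ) := by
    exact_mod_cast h1
  push_cast at h2
  linarith

/-! ### limits -/

/-- `(v - D) x ≤ z ≤ v - y`, `D ≤ y`, `v ≤ (v - 1) x + y / D` force `x = 1`, `y = D` -/
theorem alg2 {D v x y z : ℝ} (hD : 2 ≤ D) (hv : D + 1 ≤ v) (h1 : (v - D) * x ≤ z)
    (h2 : z ≤ v - y) (h3 : D ≤ y)
    (h4 : 0 ≤ (1 - D * (1 / (D * v))) * x + 1 / (D * v) * y - 1) :
    x = 1 ∧ y = D ∧ z = v - D := by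
  have hvp : 0 < v := by linarith
  have hDp : 0 < D := by linarith
  have h5 : D * v ≤ D * (v - 1) * x + y := by
    have e : (1 - D * (1 / (D * v))) * x + 1 / (D * v) * y - 1 =
        (D * (v - 1) * x + y - D * v) / (D * v) := by
      field_simp
    rw [e] at h4
    have h6 : 0 ≤ D * (v - 1) * x + y - D * v := by
      by_contra hc
      push Not at hc
      have := div_neg_of_neg_of_pos hc (by positivity : 0 < D * v)
      linarith
    linarith
  have hvD : 0 < v - D := by linarith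
  -- multiply by `v - D`
  have h6 : (v - D) * x ≤ v - y := h1.trans h2
  have h7 : D * (v - 1) * ((v - D) * x) ≤ D * (v - 1) * (v - y) :=
    mul_le_mul_of_nonneg_left h6 (by nlinarith)
  have h8 : (v - D) * (D * v) ≤ (v - D) * (D * (v - 1) * x + y) :=
    mul_le_mul_of_nonneg_left h5 hvD.le
  have h9 : (D * (v - 1) - (v - D)) * (y - D) ≤ 0 := by nlinarith
  have h10 : 0 < D * (v - 1) - (v - D) := by nlinarith
  have hy : y = D := by
    apply le_antisymm _ h3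
    by_contra hc
    push Not at hc
    have := mul_pos h10 (sub_pos.2 hc)
    linarith
  subst hy
  have hx1 : x ≤ 1 := by
    by_contra hc
    push Not at hc
    have := mul_lt_mul_of_pos_left hc hvD
    linarith
  have hx2 : 1 ≤ x := by
    by_contra hc
    push Not at hc
    have := mul_lt_mul_of_pos_left hc (by nlinarith : 0 < y * (v - 1))
    linarith
  have hx : x = 1 := le_antisymm hx1 hx2
  subst hx
  refine ⟨rfl, rfl, le_antisymm h2 ?_⟩
  linarith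

theorem nc_lim_pr (d : Fin 1 → ℕ) (hd : 2 ≤ d 0) (v : ℕ) (hv : d 0 < v) {ι : Type}
    (U : Ultrafilter ι) (R : ι → Rec 1) (q : ι → ℝ) (M0 : ι → ℕ)
    (h : NE d v ∅ Finset.univ U R q M0) (R0 : ι → Rec 1) (η : ι → ℕ)
    (hN : ∀ᶠ n in U, NC d v (R n) (R0 n) (η n)) :
    NE d v Finset.univ ∅ U R0 q M0 ∧
      Tendsto (fun n => sn d v Finset.univ R0 q M0 n / sn d v ∅ R q M0 n) U (𝓝 1) ∧
      Tendsto (fun n => (η n : ℝ) / sn d v ∅ R q M0 n) U (𝓝 (d 0)) ∧
      Tendsto (fun n => (∑ m ∈ Finset.range (M0 n + 1), q n ^ m *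
          ∑ l ∈ Finset.Icc 1 (R n).L, ((grN d v (R0 n) (η n) m l : ℝ) - (R n).fil m l))
          / (sn d v ∅ R q M0 n * Wq d v ∅ (q n))) U (𝓝 0) := by
  have hd1 : ∀ i, 1 ≤ d i := fun i => by rw [Subsingleton.elim i 0]; omega
  have hv0 : 0 < v := by omega
  have hvp : (0 : ℝ) < v := by exact_mod_cast hv0
  have hD2 : (2 : ℝ) ≤ d 0 := by exact_mod_cast hd
  have hDv : (d 0 : ℝ) + 1 ≤ v := by exact_mod_cast hv
  have hq1 : ∀ᶠ k in (U : Filter ι), q k < 1 := h.q01.mono fun k hk => hk.2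
  have hq0 : ∀ᶠ k in (U : Filter ι), 0 < q k := h.q01.mono fun k hk => hk.1
  have hql : Tendsto q U (𝓝[<] 1) := tendsto_nhdsWithin_iff.2 ⟨h.qlim, hq1⟩
  have hWB : ∀ᶠ k in (U : Filter ι), 0 < Wq d v Finset.univ (q k) :=
    hql.eventually (tsb_Wpos d hd1 v Finset.univ (by simp; omega))
  have hγ := tse_g_lim d hd1 v hv0 (d 0) (by omega) (U : Filter ι) q h.qlim hq1
  set S : ι → ℝ := sn d v ∅ R q M0 with hS
  set S0 : ι → ℝ := sn d v Finset.univ R0 q M0 with hS0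
  set γ : ι → ℝ := fun k => tse_g d v (d 0) (q k) with hγd
  set Q : ι → ℝ := fun n => ∑ m ∈ Finset.range (M0 n + 1), q n ^ m *
          ∑ l ∈ Finset.Icc 1 (R n).L, ((grN d v (R0 n) (η n) m l : ℝ) - (R n).fil m l) with hQ
  have hSp : ∀ᶠ k in (U : Filter ι), 0 < S k := h.spos
  have hcdl : Tendsto (fun k => (R k).cd v ∅ / S k) U (𝓝 v) := by
    have := h.cdlim
    simpa [Ind] using this
  have hgl : Tendsto (fun k => ((R k).g 0 : ℝ) / S k) U (𝓝 (d 0)) := h.glim 0 (Finset.mem_univ _)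
  -- the inequalities
  have i1 : ∀ᶠ k in (U : Filter ι), ((v : ℝ) - d 0) * (S0 k / S k) ≤
      (R0 k).cd v Finset.univ / S k := by
    filter_upwards [hN, hSp, hq0, hq1] with k hNk hk k0 k1
    rw [← mul_div_assoc]
    exact div_le_div_of_nonneg_right (ss0 d hd v hv (R k) (R0 k) (η k) hNk (q k) k0 k1 (M0 k)) hk.le
  have i2 : ∀ᶠ k in (U : Filter ι), (R0 k).cd v Finset.univ / S k ≤
      (R k).cd v ∅ / S k - (η k : ℝ) / S k := by
    filter_upwards [hN, hSp] with k hNk hk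
    rw [← sub_div]
    exact div_le_div_of_nonneg_right (cd_le d v (R k) (R0 k) (η k) hNk) hk.le
  have i3 : ∀ᶠ k in (U : Filter ι), ((R k).g 0 : ℝ) / S k ≤ (η k : ℝ) / S k := by
    filter_upwards [hN, hSp] with k hNk hk
    exact div_le_div_of_nonneg_right (by exact_mod_cast hNk.g_le) hk.le
  have i4 : ∀ᶠ k in (U : Filter ι), Q k / (S k * Wq d v ∅ (q k)) ≤
      (1 - d 0 * γ k) * (S0 k / S k) + γ k * ((η k : ℝ) / S k) - 1 := by
    filter_upwards [hN, hSp, hq0, hq1, hWB] with k hNk hk k0 k1 kW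
    have h1 := one_rec d hd v hv (R k) (R0 k) (η k) hNk (q k) k0 k1 (M0 k) kW
    have h2 := div_le_div_of_nonneg_right h1 hk.le
    have e1 : Q k / (S k * Wq d v ∅ (q k)) = Q k / Wq d v ∅ (q k) / S k := by
      rw [div_div, mul_comm]
    rw [e1]
    refine h2.trans (le_of_eq ?_)
    simp only [hγd, hS, hS0, sn]
    have hk' : (R k).s d v ∅ (q k) (M0 k) ≠ 0 := hk.ne'
    field_simp
  have n0 : ∀ᶠ k in (U : Filter ι), 0 ≤ S0 k / S k := by
    filter_upwards [hN, hSp, hq0, hWB] with k hNk hk k0 kW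
    exact div_nonneg (s0_nn d hd v hv (R k) (R0 k) (η k) hNk (q k) k0 (M0 k) kW) hk.le
  have n1 : ∀ᶠ k in (U : Filter ι), 0 ≤ (η k : ℝ) / S k := by
    filter_upwards [hSp] with k hk
    exact div_nonneg (Nat.cast_nonneg _) hk.le
  have n5 : ∀ᶠ k in (U : Filter ι), 0 ≤ Q k / (S k * Wq d v ∅ (q k)) := by
    filter_upwards [hN, hSp, hq0, hq1] with k hNk hk k0 k1
    exact div_nonneg (loss_nn d v (R k) (R0 k) (η k) hNk (q k) k0 (M0 k))
      (mul_nonneg hk.le (tse_Wpos d v hv0 (q k) k0 k1).le)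
  have bcd : ∀ᶠ k in (U : Filter ι), (R k).cd v ∅ / S k < v + 1 :=
    hcdl.eventually_lt_const (by linarith)
  -- the limits exist
  have hDvp : (1 : ℝ) ≤ (v : ℝ) - d 0 := by linarith
  obtain ⟨y, hy⟩ := tse_lim U (fun k => (η k : ℝ) / S k) (v + 1) (by
    filter_upwards [i1, i2, bcd, n0, n1] with k h1 h2 h3 h4 h5
    rw [abs_of_nonneg h5]
    have : 0 ≤ ((v : ℝ) - d 0) * (S0 k / S k) := mul_nonneg (by linarith) h4
    linarith)
  obtain ⟨x, hx⟩ := tse_lim U (fun k => S0 k / S k) (v + 1) (by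
    filter_upwards [i1, i2, bcd, n0, n1] with k h1 h2 h3 h4 h5
    rw [abs_of_nonneg h4]
    have : 1 * (S0 k / S k) ≤ ((v : ℝ) - d 0) * (S0 k / S k) :=
      mul_le_mul_of_nonneg_right hDvp h4
    linarith)
  obtain ⟨z, hz⟩ := tse_lim U (fun k => (R0 k).cd v Finset.univ / S k) (v + 1) (by
    filter_upwards [i1, i2, bcd, n0, n1] with k h1 h2 h3 h4 h5
    have : 0 ≤ ((v : ℝ) - d 0) * (S0 k / S k) := mul_nonneg (by linarith) h4
    rw [abs_of_nonneg (by linarith)]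
    linarith)
  have j1 : ((v : ℝ) - d 0) * x ≤ z := le_of_tendsto_of_tendsto (hx.const_mul _) hz i1
  have j2 : z ≤ v - y := le_of_tendsto_of_tendsto hz (hcdl.sub hy) i2
  have j3 : (d 0 : ℝ) ≤ y := le_of_tendsto_of_tendsto hgl hy i3
  have hr : Tendsto (fun k => (1 - d 0 * γ k) * (S0 k / S k) + γ k * ((η k : ℝ) / S k) - 1) U
      (𝓝 ((1 - d 0 * (1 / ((d 0 : ℝ) * v))) * x + 1 / ((d 0 : ℝ) * v) * y - 1)) :=
    (((tendsto_const_nhds.sub (hγ.const_mul _)).mul hx).add (hγ.mul hy)).sub tendsto_const_nhds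
  have j4 : 0 ≤ (1 - d 0 * (1 / ((d 0 : ℝ) * v))) * x + 1 / ((d 0 : ℝ) * v) * y - 1 :=
    ge_of_tendsto hr (by
      filter_upwards [i4, n5] with k h1 h2
      linarith)
  obtain ⟨rfl, rfl, rfl⟩ := alg2 hD2 hDv j1 j2 j3 j4
  have l5 : Tendsto (fun k => Q k / (S k * Wq d v ∅ (q k))) U (𝓝 0) := by
    have e0 : (1 - (d 0 : ℝ) * (1 / ((d 0 : ℝ) * v))) * 1 + 1 / ((d 0 : ℝ) * v) * d 0 - 1 = 0 := by
      field_simp
      ring
    rw [e0] at hr
    exact tendsto_of_tendsto_of_tendsto_of_le_of_le' tendsto_const_nhds hr n5 i4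
  -- conclusion
  have hS0p : ∀ᶠ k in (U : Filter ι), 0 < S0 k := by
    have h1 : ∀ᶠ k in (U : Filter ι), 0 < S0 k / S k := hx.eventually_const_lt one_pos
    filter_upwards [h1, hSp] with k h2 h3
    have := mul_pos h2 h3
    rwa [div_mul_cancel₀ _ h3.ne'] at this
  refine ⟨⟨hN.mono fun k hk => hk.of, ?_, h.q01, h.qlim, h.M0lim, hS0p, ?_, ?_, ?_⟩,
    hx, hy, l5⟩
  · filter_upwards [hN] with k hk i _
    rw [Subsingleton.elim i 0, hk.g_eq, hk.L_eq]
  · have h1 : Tendsto (fun k => (1 - q k) * ((R k).L : ℝ) / S k) U atTop := h.Llim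
    have h2 : Tendsto (fun k => S k / S0 k) U (𝓝 1) := by
      have h3 := hx.inv₀ one_ne_zero
      rw [inv_one] at h3
      refine h3.congr fun k => ?_
      rw [inv_div]
    have h3 := h1.atTop_mul_pos one_pos h2
    refine h3.congr' ?_
    filter_upwards [hN, hSp, hS0p] with k hNk h4 h5
    rw [hNk.L_eq]
    show (1 - q k) * ((R k).L : ℝ) / S k * (S k / S0 k) = (1 - q k) * ((R k).L : ℝ) / S0 k
    field_simp
  · have h1 := hz.div hx one_ne_zero
    rw [div_one] at h1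
    have h2 : Ind d v Finset.univ = (v : ℝ) - d 0 := by simp [Ind]
    rw [h2]
    refine h1.congr' ?_
    filter_upwards [hSp, hS0p] with k h2 h3
    show (R0 k).cd v Finset.univ / S k / (S0 k / S k) = (R0 k).cd v Finset.univ / S0 k
    field_simp
  · intro i hi
    simp at hi

end Pool.Agent.KSYP.EA

alias Pool.Agent.KSY.nc_lim := Pool.Agent.KSYP.EA.nc_lim_pr
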