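import Pool.Agent.Lib_helper80.KSY.Defs
import Pool.Agent.Lib_helper77.KSZ.XLAP

set_option autoImplicit false

namespace Pool.Agent.KSYP.EB

open Pool.Agent.KSY
open MvPolynomial Pool.Agent.KSS Pool.Agent.KSX Filter Topology

theorem eb_NN_univ (d : Fin 1 → ℕ) (v m : ℕ) :
    NN d v Finset.univ m = NN d v ∅ m - (if d 0 ≤ m then NN d v ∅ (m - d 0) else 0) := by
  unfold NN HS
  rw [Fin.prod_univ_one, Finset.prod_empty, one_mul, sub_mul, one_mul, map_sub,
    PowerSeries.coeff_X_pow_mul']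

theorem eb_filter (D m : ℕ) (hD : 1 ≤ D) :
    (Finset.range (m + 1)).filter (fun c => D * c ≤ m) = Finset.range (m / D + 1) := by
  ext c
  rw [Finset.mem_filter, Finset.mem_range, Finset.mem_range, Nat.lt_succ_iff, Nat.lt_succ_iff,
    Nat.le_div_iff_mul_le (by omega), mul_comm c D]
  constructor
  · exact fun h => h.2
  · intro h
    refine ⟨?_, h⟩
    calc c = 1 * c := (one_mul c).symm
      _ ≤ D * c := Nat.mul_le_mul_right c hD
      _ ≤ m := h

theorem eb_tele (F : ℕ → ℤ) (D : ℕ) (hD : 1 ≤ D) (m : ℕ) :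
    ∑ c ∈ (Finset.range (m + 1)).filter (fun c => D * c ≤ m),
      (F (m - D * c) - (if D ≤ m - D * c then F (m - D * c - D) else 0)) = F m := by
  rw [eb_filter D m hD]
  have h1 : ∀ c ∈ Finset.range (m / D + 1),
      (F (m - D * c) - (if D ≤ m - D * c then F (m - D * c - D) else 0)) =
      (if D * c ≤ m then F (m - D * c) else 0) -
        (if D * (c + 1) ≤ m then F (m - D * (c + 1)) else 0) := by
    intro c hc
    have h2 : D * c ≤ m := by
      rw [Finset.mem_range, Nat.lt_succ_iff, Nat.le_div_iff_mul_le (by omega)] at hc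
      rw [mul_comm]
      exact hc
    rw [if_pos h2]
    congr 1
    have h3 : D * (c + 1) = D * c + D := by ring
    rw [h3]
    by_cases h4 : D ≤ m - D * c
    · rw [if_pos h4, if_pos (by omega)]
      congr 1
      omega
    · rw [if_neg h4, if_neg (by omega)]
  rw [Finset.sum_congr rfl h1, Finset.sum_range_sub' (fun c => if D * c ≤ m then F (m - D * c)
    else 0)]
  have h5 : ¬ D * (m / D + 1) ≤ m := by
    have := Nat.lt_mul_div_succ m (by omega : 0 < D)
    omega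
  rw [if_neg h5]
  simp

theorem eb_gr (d : Fin 1 → ℕ) (hd : 1 ≤ d 0) (v : ℕ) (R0 : Rec 1) (η m l : ℕ) :
    NN d v ∅ m - grN d v R0 η m l =
      ∑ c ∈ (Finset.range (m + 1)).filter (fun c => d 0 * c ≤ m),
        (NN d v ∅ (m - d 0 * c) - (R0.fil (m - d 0 * c) (l - c * η) : ℤ)) := by
  have h1 := eb_tele (NN d v ∅) (d 0) hd m
  unfold grN
  rw [← h1, ← Finset.sum_sub_distrib]
  refine Finset.sum_congr rfl fun c _ => ?_
  rw [eb_NN_univ]
  ring

theorem eb_bounds (d : Fin 1 → ℕ) (hd : 1 ≤ d 0) (v : ℕ) (hv : 1 ≤ v) (R0 : Rec 1)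
    (hb : Bas d v R0) (hg : R0.g 0 = R0.L) (η m l : ℕ) (hl : l ≤ R0.L) :
    0 ≤ NN d v ∅ m - grN d v R0 η m l ∧ NN d v ∅ m - grN d v R0 η m l ≤ NN d v ∅ m := by
  rw [eb_gr d hd]
  have hgu : ∀ i ∈ (Finset.univ : Finset (Fin 1)), R0.g i = R0.L := by
    intro i _
    rw [Subsingleton.elim i 0]
    exact hg
  constructor
  · refine Finset.sum_nonneg fun c _ => ?_
    have := hb.le (m - d 0 * c) (l - c * η) (by omega)
    linarith
  · have h1 := eb_tele (NN d v ∅) (d 0) hd m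
    rw [← h1]
    refine Finset.sum_le_sum fun c _ => ?_
    have h2 := hb.ge Finset.univ (by simpa using hv) hgu (m - d 0 * c) (l - c * η) (by omega)
    rw [eb_NN_univ] at h2
    linarith

theorem eb_zero (d : Fin 1 → ℕ) (hd : 1 ≤ d 0) (v : ℕ) (R0 : Rec 1)
    (hb : Bas d v R0) (η m l : ℕ) (hl : l ≤ R0.L)
    (h : (l : ℝ) ≤ min (R0.c0 : ℝ) ((η : ℝ) / d 0) * m) :
    NN d v ∅ m - grN d v R0 η m l = 0 := by
  rw [eb_gr d hd]
  refine Finset.sum_eq_zero fun c hc => ?_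
  rw [Finset.mem_filter] at hc
  have hD : (0 : ℝ) < d 0 := by exact_mod_cast hd
  have h1 : l - c * η ≤ R0.c0 * (m - d 0 * c) := by
    rcases Nat.lt_or_ge (c * η) l with h2 | h2
    · have h3 : ((l - c * η : ℕ) : ℝ) ≤ ((R0.c0 * (m - d 0 * c) : ℕ) : ℝ) := by
        rw [Nat.cast_sub h2.le, Nat.cast_mul R0.c0, Nat.cast_sub hc.2]
        push_cast
        have h4 : min (R0.c0 : ℝ) ((η : ℝ) / d 0) ≤ (η : ℝ) / d 0 := min_le_right _ _
        have h5 : min (R0.c0 : ℝ) ((η : ℝ) / d 0) ≤ R0.c0 := min_le_left _ _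
        have h6 : min (R0.c0 : ℝ) ((η : ℝ) / d 0) * d 0 ≤ η := by
          rw [le_div_iff₀ hD] at h4
          exact h4
        have h7 : (0 : ℝ) ≤ (m : ℝ) - d 0 * c := by
          have : ((d 0 * c : ℕ) : ℝ) ≤ m := by exact_mod_cast hc.2
          push_cast at this
          linarith
        have h8 : min (R0.c0 : ℝ) ((η : ℝ) / d 0) * ((m : ℝ) - d 0 * c) ≤
            R0.c0 * ((m : ℝ) - d 0 * c) := mul_le_mul_of_nonneg_right h5 h7
        have h9 : (c : ℝ) * (min (R0.c0 : ℝ) ((η : ℝ) / d 0) * d 0) ≤ c * η :=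
          mul_le_mul_of_nonneg_left h6 (Nat.cast_nonneg c)
        nlinarith
      exact_mod_cast h3
    · rw [Nat.sub_eq_zero_of_le h2]
      exact Nat.zero_le _
  have h2 := hb.full (m - d 0 * c) (l - c * η) (by omega) h1
  rw [h2, sub_self]

theorem eb_sum (d : Fin 1 → ℕ) (hd : 1 ≤ d 0) (v : ℕ) (hv : 1 ≤ v) (R0 : Rec 1)
    (hb : Bas d v R0) (hg : R0.g 0 = R0.L) (η m L : ℕ) (hL : L ≤ R0.L) {θ : ℝ} (hθ0 : 0 < θ)
    (hθ1 : θ < 1) :
    ∑ l ∈ Finset.Icc 1 L, θ ^ l * ((NN d v ∅ m : ℝ) - grN d v R0 η m l) ≤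
      (NN d v ∅ m : ℝ) * ((θ ^ (min (R0.c0 : ℝ) ((η : ℝ) / d 0))) ^ m / (1 - θ)) := by
  obtain ⟨cs, hcs⟩ : ∃ cs : ℝ, cs = min (R0.c0 : ℝ) ((η : ℝ) / d 0) := ⟨_, rfl⟩
  have hcs0 : 0 ≤ cs := by
    rw [hcs]
    exact le_min (Nat.cast_nonneg _) (by positivity)
  have hNN : (0 : ℝ) ≤ NN d v ∅ m := by
    have h1 := hb.le m 0 (Nat.zero_le _)
    have : (0 : ℤ) ≤ NN d v ∅ m := le_trans (by positivity) h1
    exact_mod_cast this
  rw [← hcs]
  have h1θ : 0 < 1 - θ := by linarith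
  calc ∑ l ∈ Finset.Icc 1 L, θ ^ l * ((NN d v ∅ m : ℝ) - grN d v R0 η m l)
      ≤ ∑ l ∈ Finset.Icc 1 L, if ⌊cs * m⌋₊ < l then θ ^ l * (NN d v ∅ m : ℝ) else 0 := by
        refine Finset.sum_le_sum fun l hl => ?_
        rw [Finset.mem_Icc] at hl
        have hlR : l ≤ R0.L := hl.2.trans hL
        split_ifs with hc
        · apply mul_le_mul_of_nonneg_left _ (pow_pos hθ0 l).le
          have h2 := (eb_bounds d hd v hv R0 hb hg η m l hlR).2
          exact_mod_cast h2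
        · have h3 : (l : ℝ) ≤ cs * m :=
            (Nat.le_floor_iff (mul_nonneg hcs0 (Nat.cast_nonneg m))).1 (not_lt.1 hc)
          have h2 := eb_zero d hd v R0 hb η m l hlR (by rw [← hcs]; exact h3)
          have h4 : (NN d v ∅ m : ℝ) - grN d v R0 η m l = 0 := by exact_mod_cast h2
          rw [h4, mul_zero]
    _ = (NN d v ∅ m : ℝ) * ∑ l ∈ (Finset.Icc 1 L).filter (fun l => ⌊cs * m⌋₊ < l), θ ^ l := by
        rw [← Finset.sum_filter, Finset.mul_sum]
        exact Finset.sum_congr rfl fun l _ => mul_comm _ _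
    _ ≤ (NN d v ∅ m : ℝ) * (θ ^ (⌊cs * m⌋₊ + 1) / (1 - θ)) :=
        mul_le_mul_of_nonneg_left (ntx_geom_tail hθ0 hθ1 _ _) hNN
    _ ≤ (NN d v ∅ m : ℝ) * ((θ ^ cs) ^ m / (1 - θ)) := by
        apply mul_le_mul_of_nonneg_left _ hNN
        apply div_le_div_of_nonneg_right _ h1θ.le
        rw [← Real.rpow_natCast θ (⌊cs * m⌋₊ + 1), ← Real.rpow_mul_natCast hθ0.le]
        apply Real.rpow_le_rpow_of_exponent_ge hθ0 hθ1.le
        push_cast
        exact (Nat.lt_floor_add_one _).le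

theorem eb_point (d : Fin 1 → ℕ) (hd : 1 ≤ d 0) (n' : ℕ) (M0 : ℕ) (R R0 : Rec 1) (η : ℕ)
    (hN : NC d (n' + 1) R R0 η) (o : Option (Fin n') → ℕ)
    (ho : ∀ m ≤ M0, ∀ l ≤ R.L,
        (cnt (fun t : Option (Fin n') => t.elim (d 0) (fun _ => 1)) o m l : ℤ)
          + R.fil m l ≤ NN d (n' + 1) ∅ m) (q θ : ℝ) (hq0 : 0 < q) (hq1 : q < 1)
    (hθ0 : 0 < θ) (hθ1 : θ < 1) :
    ∏ t : Option (Fin n'), (1 - q ^ (t.elim (d 0) (fun _ => 1)) * θ ^ (o t))⁻¹
      - (√q) ^ M0 * ∏ t : Option (Fin n'), (1 - (√q) ^ (t.elim (d 0) (fun _ => 1)))⁻¹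
      - θ ^ R.L * ∏ t : Option (Fin n'), (1 - q ^ (t.elim (d 0) (fun _ => 1)))⁻¹
    ≤ (1 - θ) / θ * (∑ m ∈ Finset.range (M0 + 1), q ^ m *
          ∑ l ∈ Finset.Icc 1 R.L, ((grN d (n' + 1) R0 η m l : ℝ) - R.fil m l)) +
      θ⁻¹ * ((1 - q * θ ^ (min (R0.c0 : ℝ) ((η : ℝ) / d 0)))⁻¹) ^ (n' + 1) := by
  have hd1 : ∀ i, 1 ≤ d i := fun i => by rw [Subsingleton.elim i 0]; exact hd
  have hb : Bas d (n' + 1) R0 := bas_rec d hd1 (n' + 1) (by omega) R0 hN.of
  have hg0 : R0.g 0 = R0.L := by rw [hN.g_eq, hN.L_eq]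
  have hdeg : ∀ t : Option (Fin n'), 1 ≤ t.elim (d 0) (fun _ => 1) := by
    rintro (_ | t)
    · exact hd
    · exact le_rfl
  have h1 := cnt_lap (fun t : Option (Fin n') => t.elim (d 0) (fun _ => 1)) o hdeg q θ hq0 hq1
    hθ0 hθ1 M0 R.L
  refine h1.trans ?_
  obtain ⟨cs, hcs⟩ : ∃ cs : ℝ, cs = min (R0.c0 : ℝ) ((η : ℝ) / d 0) := ⟨_, rfl⟩
  have hcs0 : 0 ≤ cs := by
    rw [hcs]
    exact le_min (Nat.cast_nonneg _) (by positivity)
  rw [← hcs]
  have h1θ : 0 < 1 - θ := by linarith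
  have hr : 0 ≤ (1 - θ) / θ := div_nonneg h1θ.le hθ0.le
  have hNN : ∀ m, (0 : ℝ) ≤ NN d (n' + 1) ∅ m := by
    intro m
    have h1 := hb.le m 0 (Nat.zero_le _)
    have : (0 : ℤ) ≤ NN d (n' + 1) ∅ m := le_trans (by positivity) h1
    exact_mod_cast this
  have h2 : ∑ m ∈ Finset.range (M0 + 1), q ^ m * ∑ l ∈ Finset.Icc 1 R.L,
      θ ^ l * ((NN d (n' + 1) ∅ m : ℝ) - grN d (n' + 1) R0 η m l) ≤
      (1 - θ)⁻¹ * ((1 - q * θ ^ cs)⁻¹) ^ (n' + 1) := by
    have hx0 : 0 ≤ q * θ ^ cs := by positivity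
    have hx1 : q * θ ^ cs < 1 := by
      have : θ ^ cs ≤ 1 := Real.rpow_le_one hθ0.le hθ1.le hcs0
      nlinarith [Real.rpow_pos_of_pos hθ0 cs]
    have hser := ser_H d hd1 (n' + 1) ∅ (q * θ ^ cs) hx0 hx1
    have hHq : Hq d (n' + 1) ∅ (q * θ ^ cs) = ((1 - q * θ ^ cs)⁻¹) ^ (n' + 1) := by
      unfold Hq
      rw [Finset.prod_empty, one_div, inv_pow]
    rw [hHq] at hser
    have h3 : ∑ m ∈ Finset.range (M0 + 1), (NN d (n' + 1) ∅ m : ℝ) * (q * θ ^ cs) ^ m ≤
        ((1 - q * θ ^ cs)⁻¹) ^ (n' + 1) :=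
      sum_le_hasSum _ (fun m _ => mul_nonneg (hNN m) (by positivity)) hser
    refine le_trans ?_ (mul_le_mul_of_nonneg_left h3 (inv_nonneg.2 h1θ.le))
    rw [Finset.mul_sum]
    refine Finset.sum_le_sum fun m _ => ?_
    have h4 := eb_sum d hd (n' + 1) (by omega) R0 hb hg0 η m R.L (le_of_eq hN.L_eq.symm) hθ0 hθ1
    rw [← hcs] at h4
    calc q ^ m * ∑ l ∈ Finset.Icc 1 R.L, θ ^ l *
          ((NN d (n' + 1) ∅ m : ℝ) - grN d (n' + 1) R0 η m l)
        ≤ q ^ m * ((NN d (n' + 1) ∅ m : ℝ) * ((θ ^ cs) ^ m / (1 - θ))) :=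
          mul_le_mul_of_nonneg_left h4 (by positivity)
      _ = _ := by rw [mul_pow]; ring
  have h3 : ∑ m ∈ Finset.range (M0 + 1), q ^ m * ∑ l ∈ Finset.Icc 1 R.L,
      θ ^ l * (cnt (fun t : Option (Fin n') => t.elim (d 0) (fun _ => 1)) o m l : ℝ) ≤
      (∑ m ∈ Finset.range (M0 + 1), q ^ m *
          ∑ l ∈ Finset.Icc 1 R.L, ((grN d (n' + 1) R0 η m l : ℝ) - R.fil m l)) +
      ∑ m ∈ Finset.range (M0 + 1), q ^ m * ∑ l ∈ Finset.Icc 1 R.L,
        θ ^ l * ((NN d (n' + 1) ∅ m : ℝ) - grN d (n' + 1) R0 η m l) := by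
    rw [← Finset.sum_add_distrib]
    refine Finset.sum_le_sum fun m hm => ?_
    rw [← mul_add, ← Finset.sum_add_distrib]
    apply mul_le_mul_of_nonneg_left _ (pow_nonneg hq0.le m)
    refine Finset.sum_le_sum fun l hl => ?_
    rw [Finset.mem_range] at hm
    rw [Finset.mem_Icc] at hl
    have h4 : (cnt (fun t : Option (Fin n') => t.elim (d 0) (fun _ => 1)) o m l : ℝ) +
        R.fil m l ≤ (NN d (n' + 1) ∅ m : ℝ) := by
      exact_mod_cast ho m (by omega) l hl.2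
    have h5 : (R.fil m l : ℝ) ≤ grN d (n' + 1) R0 η m l := by
      exact_mod_cast hN.fil_le m l hl.2
    have h6 : 0 ≤ θ ^ l := pow_nonneg hθ0.le l
    have h7 : θ ^ l ≤ 1 := pow_le_one₀ hθ0.le hθ1.le
    have h8 := mul_le_mul_of_nonneg_left h4 h6
    have h9 : θ ^ l * ((grN d (n' + 1) R0 η m l : ℝ) - R.fil m l) ≤
        1 * ((grN d (n' + 1) R0 η m l : ℝ) - R.fil m l) :=
      mul_le_mul_of_nonneg_right h7 (by linarith)
    nlinarith
  refine (mul_le_mul_of_nonneg_left (h3.trans (add_le_add_right h2 _)) hr).trans ?_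
  rw [mul_add]
  apply add_le_add_right
  apply le_of_eq
  rw [← mul_assoc]
  congr 1
  field_simp

/-- (EB) the limit of the Laplace inequality -/
theorem p0_lap_pr (d : Fin 1 → ℕ) (hd : 2 ≤ d 0) (n' : ℕ) (hn' : 1 ≤ n') {ι : Type}
    (U : Ultrafilter ι) (R : ι → Rec 1) (q : ι → ℝ) (M0 : ι → ℕ)
    (h : NE d (n' + 1) ∅ Finset.univ U R q M0) (R0 : ι → Rec 1) (η : ι → ℕ)
    (hN : ∀ᶠ n in U, NC d (n' + 1) (R n) (R0 n) (η n))
    (hη : Tendsto (fun n => (η n : ℝ) / sn d (n' + 1) ∅ R q M0 n) U (𝓝 (d 0)))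
    (hc : Tendsto (fun n => ((R0 n).c0 : ℝ) / sn d (n' + 1) ∅ R q M0 n) U (𝓝 1))
    (hloss : Tendsto (fun n => (∑ m ∈ Finset.range (M0 n + 1), q n ^ m *
          ∑ l ∈ Finset.Icc 1 (R n).L, ((grN d (n' + 1) (R0 n) (η n) m l : ℝ) - (R n).fil m l))
          / (sn d (n' + 1) ∅ R q M0 n * Wq d (n' + 1) ∅ (q n))) U (𝓝 0))
    (o : ι → Option (Fin n') → ℕ) (oh : Option (Fin n') → ℝ)
    (ho : ∀ᶠ n in U, ∀ m ≤ M0 n, ∀ l ≤ (R n).L,
        (cnt (fun t : Option (Fin n') => t.elim (d 0) (fun _ => 1)) (o n) m l : ℤ)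
          + (R n).fil m l ≤ NN d (n' + 1) ∅ m)
    (hoh : ∀ t, Tendsto (fun n => (o n t : ℝ) / sn d (n' + 1) ∅ R q M0 n) U (𝓝 (oh t)))
    (lam : ℝ) (hlam : 0 < lam) :
    (1 + lam) ^ (n' + 1) ≤ (d 0 * lam + oh none) * ∏ i, (lam + oh (some i)) := by
  classical
  have hd1 : ∀ i, 1 ≤ d i := fun i => by rw [Subsingleton.elim i 0]; omega
  obtain ⟨s, hs⟩ : ∃ s : ι → ℝ, s = fun n => sn d (n' + 1) ∅ R q M0 n := ⟨_, rfl⟩
  have hsn : ∀ n, sn d (n' + 1) ∅ R q M0 n = s n := fun n => by rw [hs]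
  have hspos : ∀ᶠ n in (U : Filter ι), 0 < s n := by simpa only [hsn] using h.spos
  have hLl := h.Llim
  simp only [hsn] at hLl hc hη hoh hloss
  obtain ⟨t, htd⟩ : ∃ t : ι → ℝ, t = fun n => -Real.log (q n) := ⟨_, rfl⟩
  have htn : ∀ n, t n = -Real.log (q n) := fun n => by rw [htd]
  have ht0 : Tendsto t U (𝓝 0) := by
    have h1 := (Real.continuousAt_log one_ne_zero).tendsto.comp h.qlim
    rw [Real.log_one] at h1
    have h2 := h1.neg
    rw [neg_zero] at h2
    rw [htd]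
    exact h2
  have htpos : ∀ᶠ n in (U : Filter ι), 0 < t n := by
    filter_upwards [h.q01] with n hn
    rw [htn]
    have := Real.log_neg hn.1 hn.2
    linarith
  have hne : ∀ᶠ n in (U : Filter ι), t n ≠ 0 := htpos.mono (fun n hn => hn.ne')
  have hqt : ∀ᶠ n in (U : Filter ι), q n = Real.exp (-t n) := by
    filter_upwards [h.q01] with n hn
    rw [htn, neg_neg, Real.exp_log hn.1]
  have htge : ∀ᶠ n in (U : Filter ι), 1 - q n ≤ t n := by
    filter_upwards [h.q01] with n hn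
    rw [htn]
    have := Real.log_le_sub_one_of_pos hn.1
    linarith
  obtain ⟨θ, hθd⟩ : ∃ θ : ι → ℝ, θ = fun n => Real.exp (-(t n / (lam * s n))) := ⟨_, rfl⟩
  have hθ : ∀ n, θ n = Real.exp (-(t n / (lam * s n))) := fun n => by rw [hθd]
  have hθ0 : ∀ n, 0 < θ n := fun n => by rw [hθ]; exact Real.exp_pos _
  have hθ1 : ∀ᶠ n in (U : Filter ι), θ n < 1 := by
    filter_upwards [htpos, hspos] with n h1 h2
    rw [hθ, Real.exp_lt_one_iff]
    have : 0 < t n / (lam * s n) := by positivity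
    linarith
  have hdj : (0 : ℝ) < d 0 := by exact_mod_cast (hd1 0)
  have hslow : ∀ᶠ n in (U : Filter ι), 1 / (2 * (d 0 : ℝ)) ≤ s n := by
    have h1 := hη.eventually (lt_mem_nhds hdj)
    have h2 := hη.eventually (gt_mem_nhds (show (d 0 : ℝ) < 2 * d 0 by linarith))
    filter_upwards [h1, h2, hspos] with n h3 h4 h5
    have h6 : 0 < (η n : ℝ) := by
      by_contra h7
      push Not at h7
      have := div_nonpos_of_nonpos_of_nonneg h7 h5.le
      linarith
    have h7 : (1 : ℝ) ≤ (η n : ℝ) := by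
      have h9 : 0 < η n := by exact_mod_cast h6
      exact_mod_cast h9
    rw [div_lt_iff₀ h5] at h4
    rw [div_le_iff₀ (by positivity)]
    linarith
  have hr : Tendsto (fun n => t n / s n) U (𝓝 0) := by
    have h1 : Tendsto (fun n => t n * (2 * (d 0 : ℝ))) U (𝓝 0) := by
      simpa using ht0.mul_const (2 * (d 0 : ℝ))
    apply squeeze_zero' _ _ h1
    · filter_upwards [htpos, hspos] with n h2 h3
      positivity
    · filter_upwards [htpos, hspos, hslow] with n h2 h3 h4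
      rw [div_le_iff₀ h3]
      rw [div_le_iff₀ (by positivity)] at h4
      nlinarith
  have hr0 : ∀ᶠ n in (U : Filter ι), t n / s n ≠ 0 := by
    filter_upwards [htpos, hspos] with n h2 h3
    positivity
  have hθlim : Tendsto θ U (𝓝 1) := by
    have h1 : Tendsto (fun n => -(t n / s n / lam)) U (𝓝 0) := by
      simpa using (hr.div_const lam).neg
    have h2 := (Real.continuous_exp.tendsto 0).comp h1
    rw [Real.exp_zero] at h2
    apply h2.congr
    intro n
    simp only [Function.comp]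
    rw [hθ]
    congr 1
    ring
  have htL : Tendsto (fun n => t n * ((R n).L : ℝ) / s n) U atTop := by
    apply tendsto_atTop_mono' _ _ hLl
    filter_upwards [htge, hspos] with n h1 h2
    apply div_le_div_of_nonneg_right _ h2.le
    exact mul_le_mul_of_nonneg_right h1 (Nat.cast_nonneg _)
  have htM : Tendsto (fun n => t n * (M0 n : ℝ)) U atTop := by
    apply tendsto_atTop_mono' _ _ h.M0lim
    filter_upwards [htge] with n h1
    exact mul_le_mul_of_nonneg_right h1 (Nat.cast_nonneg _)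
  have hθL : Tendsto (fun n => θ n ^ (R n).L) U (𝓝 0) := by
    have h1 : Tendsto (fun n => -(t n * ((R n).L : ℝ) / s n / lam)) U atBot :=
      tendsto_neg_atTop_atBot.comp (htL.atTop_div_const hlam)
    have h2 := Real.tendsto_exp_atBot.comp h1
    apply h2.congr
    intro n
    simp only [Function.comp]
    rw [hθ, ← Real.exp_nat_mul]
    congr 1
    ring
  have hsq : ∀ᶠ n in (U : Filter ι), √(q n) = Real.exp (-(t n / 2)) := by
    filter_upwards [hqt] with n hn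
    rw [hn, ← Real.exp_half]
    congr 1
    ring
  have hqM : Tendsto (fun n => (√(q n)) ^ (M0 n)) U (𝓝 0) := by
    have h1 : Tendsto (fun n => -(t n * (M0 n : ℝ) / 2)) U atBot :=
      tendsto_neg_atTop_atBot.comp (htM.atTop_div_const two_pos)
    have h2 := Real.tendsto_exp_atBot.comp h1
    apply h2.congr'
    filter_upwards [hsq] with n hn
    simp only [Function.comp]
    rw [hn, ← Real.exp_nat_mul]
    congr 1
    ring
  obtain ⟨K, hK⟩ : ∃ K, K = Fintype.card (Option (Fin n')) := ⟨_, rfl⟩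
  have hK1 : K = n' + 1 := by
    rw [hK]
    simp
  have hoh0 : ∀ x, 0 ≤ oh x := by
    intro x
    apply ge_of_tendsto (hoh x)
    filter_upwards [hspos] with n hn
    positivity
  obtain ⟨dg, hdg⟩ : ∃ dg : Option (Fin n') → ℕ, dg = fun x => x.elim (d 0) (fun _ => 1) :=
    ⟨_, rfl⟩
  have hdegR : ∀ x, (1 : ℝ) ≤ dg x := by
    intro x
    rw [hdg]
    rcases x with _ | x
    · exact_mod_cast (show 1 ≤ d 0 by omega)
    · simp
  have hφ : ∀ x, 0 < (dg x : ℝ) + oh x / lam := by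
    intro x
    have h1 := hdegR x
    have h2 : 0 ≤ oh x / lam := div_nonneg (hoh0 x) hlam.le
    linarith
  have T1 := lap_inv (U := (U : Filter ι)) hne (fun x => (hφ x).ne')
    (fun x => lap_fac ht0 hne hqt hθ (dg x) (hoh x) (lam := lam))
  have T2 : Tendsto (fun n => t n ^ K * ((√(q n)) ^ (M0 n) *
      ∏ x, (1 - (√(q n)) ^ (dg x))⁻¹)) U (𝓝 0) := by
    have h1 := lap_inv (U := (U : Filter ι)) (t := t) hne
      (f := fun n x => 1 - (√(q n)) ^ (dg x))
      (φ := fun x => (dg x : ℝ) / 2)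
      (fun x => by have := hdegR x; positivity) (by
        intro x
        have h2 := lap_slope ht0 hne (tendsto_const_nhds (f := (U : Filter ι))
          (x := (dg x : ℝ) / 2))
        apply h2.congr'
        filter_upwards [hsq] with n hn
        rw [hn, ← Real.exp_nat_mul]
        congr 3
        ring)
    have h3 := hqM.mul h1
    rw [zero_mul] at h3
    apply h3.congr
    intro n
    rw [hK]
    ring
  have T3 : Tendsto (fun n => t n ^ K * (θ n ^ (R n).L *
      ∏ x, (1 - q n ^ (dg x))⁻¹)) U (𝓝 0) := by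
    have h1 := lap_inv (U := (U : Filter ι)) (t := t) hne
      (f := fun n x => 1 - q n ^ (dg x))
      (φ := fun x => (dg x : ℝ))
      (fun x => by have := hdegR x; positivity) (by
        intro x
        have h2 := lap_slope ht0 hne (tendsto_const_nhds (f := (U : Filter ι))
          (x := (dg x : ℝ)))
        apply h2.congr'
        filter_upwards [hqt] with n hn
        rw [hn, ← Real.exp_nat_mul]
        congr 3
        ring)
    have h3 := hθL.mul h1
    rw [zero_mul] at h3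
    apply h3.congr
    intro n
    rw [hK]
    ring
  -- T4
  have hWl : Tendsto (fun n => t n ^ (K + 1) * Wq d (n' + 1) ∅ (q n)) U
      (𝓝 (((n' + 1 : ℕ) : ℝ))) := by
    have h1 : Tendsto q U (𝓝[<] 1) := by
      rw [tendsto_nhdsWithin_iff]
      exact ⟨h.qlim, h.q01.mono (fun n hn => hn.2)⟩
    have h2 := (asy_W d hd1 (n' + 1) ∅ (by simp)).comp h1
    rw [Finset.card_empty, Nat.sub_zero, Finset.prod_empty, mul_one, Nat.cast_zero, sub_zero] at h2
    have h3 : Tendsto (fun n => (1 - q n) / t n) U (𝓝 1) := by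
      have h4 := lap_slope ht0 hne (tendsto_const_nhds (f := (U : Filter ι)) (x := (1 : ℝ)))
      apply h4.congr'
      filter_upwards [hqt] with n hn
      rw [mul_one, ← hn]
    have h5 := h2.div (h3.pow (K + 1)) (by norm_num)
    rw [one_pow, div_one] at h5
    apply h5.congr'
    filter_upwards [hne, h.q01] with n hn hq
    simp only [Function.comp, Pi.div_apply]
    have h6 : 1 - q n ≠ 0 := by linarith [hq.2]
    rw [div_pow, hK1]
    field_simp
  have hWpos : (0 : ℝ) < ((n' + 1 : ℕ) : ℝ) := by positivity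
  have hWne : ∀ᶠ n in (U : Filter ι), Wq d (n' + 1) ∅ (q n) ≠ 0 := by
    filter_upwards [hWl.eventually (lt_mem_nhds hWpos)] with n hn h0
    rw [h0, mul_zero] at hn
    exact lt_irrefl _ hn
  have hθr : Tendsto (fun n => (1 - θ n) / (t n / s n)) U (𝓝 (1 / lam)) := by
    have h4 := lap_slope hr hr0 (tendsto_const_nhds (f := (U : Filter ι)) (x := 1 / lam))
    apply h4.congr
    intro n
    rw [hθ]
    congr 3
    ring
  have T4 : Tendsto (fun n => t n ^ K * ((1 - θ n) / θ n *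
      (∑ m ∈ Finset.range (M0 n + 1), q n ^ m *
          ∑ l ∈ Finset.Icc 1 (R n).L,
            ((grN d (n' + 1) (R0 n) (η n) m l : ℝ) - (R n).fil m l)))) U (𝓝 0) := by
    have h1 := ((hloss.mul hθr).mul hWl).mul (hθlim.inv₀ one_ne_zero)
    rw [zero_mul, zero_mul, zero_mul] at h1
    apply h1.congr'
    filter_upwards [hne, hspos, hWne] with n h2 h3 h4
    have h5 := (hθ0 n).ne'
    have h6 := h3.ne'
    rw [pow_succ]
    field_simp
  -- T5
  have hcs : Tendsto (fun n => min ((R0 n).c0 : ℝ) ((η n : ℝ) / d 0) / s n) U (𝓝 1) := by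
    have h1 : Tendsto (fun n => (η n : ℝ) / s n / d 0) U (𝓝 1) := by
      have := hη.div_const (d 0 : ℝ)
      rwa [div_self hdj.ne'] at this
    have h2 := hc.min h1
    rw [min_self] at h2
    apply h2.congr'
    filter_upwards [hspos] with n hn
    rw [div_right_comm, min_div_div_right hn.le]
  have hu : 0 < 1 + 1 / lam := by positivity
  have T5 : Tendsto (fun n => t n ^ K * ((θ n)⁻¹ *
      ((1 - q n * θ n ^ (min ((R0 n).c0 : ℝ) ((η n : ℝ) / d 0)))⁻¹) ^ (n' + 1))) U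
      (𝓝 (((1 + 1 / lam)⁻¹) ^ (n' + 1))) := by
    have h1 := lap_slope ht0 hne ((hcs.div_const lam).const_add 1)
    have h2 : Tendsto (fun n => (1 - q n * θ n ^ (min ((R0 n).c0 : ℝ) ((η n : ℝ) / d 0))) / t n) U
        (𝓝 (1 + 1 / lam)) := by
      apply h1.congr'
      filter_upwards [hqt, hspos] with n hn hsn'
      congr 2
      rw [hn, hθ, ← Real.exp_mul, ← Real.exp_add]
      congr 1
      field_simp
      ring
    have h3 := ((h2.inv₀ hu.ne').pow (n' + 1)).mul (hθlim.inv₀ one_ne_zero)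
    rw [inv_one, mul_one] at h3
    apply h3.congr'
    filter_upwards [hne] with n hn
    rw [inv_div, hK1, div_eq_mul_inv, mul_pow]
    ring
  have hTL := (T1.sub T2).sub T3
  have hTR := T4.add T5
  rw [← hK] at hTL
  have hfin := le_of_tendsto_of_tendsto hTL hTR (by
    filter_upwards [hN, ho, h.q01, hθ1, htpos] with n h1 h3 h4 h5 h7
    have h8 := eb_point d (hd1 0) n' (M0 n) (R n) (R0 n) (η n) h1 (o n) h3 (q n) (θ n) h4.1 h4.2
      (hθ0 n) h5
    have h9 := mul_le_mul_of_nonneg_left h8 (pow_nonneg h7.le K)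
    rw [mul_add, mul_sub, mul_sub] at h9
    rw [hdg]
    exact h9)
  rw [sub_zero, sub_zero, zero_add] at hfin
  -- final algebra
  have hΦ : 0 < ∏ x, ((dg x : ℝ) + oh x / lam) := Finset.prod_pos (fun x _ => hφ x)
  rw [Finset.prod_inv_distrib, inv_pow] at hfin
  have hfin2 : (1 + 1 / lam) ^ (n' + 1) ≤ ∏ x, ((dg x : ℝ) + oh x / lam) :=
    (inv_le_inv₀ hΦ (by positivity)).1 hfin
  have hfin3 := mul_le_mul_of_nonneg_left hfin2 (pow_nonneg hlam.le (n' + 1))
  have L1 : lam ^ (n' + 1) * (1 + 1 / lam) ^ (n' + 1) = (1 + lam) ^ (n' + 1) := by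
    rw [← mul_pow]
    congr 1
    field_simp
    ring
  have L2 : lam ^ (n' + 1) * ∏ x, ((dg x : ℝ) + oh x / lam) =
      (d 0 * lam + oh none) * ∏ i, (lam + oh (some i)) := by
    rw [Fintype.prod_option]
    have e1 : ∀ i : Fin n', lam + oh (some i) = lam * ((dg (some i) : ℝ) + oh (some i) / lam) := by
      intro i
      rw [hdg]
      simp only [Option.elim_some, Nat.cast_one]
      field_simp
    have e2 : (d 0 : ℝ) * lam + oh none = lam * ((dg none : ℝ) + oh none / lam) := by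
      rw [hdg]
      simp only [Option.elim_none]
      field_simp
    rw [Finset.prod_congr rfl (fun i _ => e1 i), Finset.prod_mul_distrib, Finset.prod_const,
      Finset.card_univ, Fintype.card_fin, e2]
    ring
  rw [L1, L2] at hfin3
  exact hfin3


end Pool.Agent.KSYP.EB

alias Pool.Agent.KSY.p0_lap := Pool.Agent.KSYP.EB.p0_lap_pr
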