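import Pool.Agent.Lib_helper80.KSY.Defs
import Pool.Agent.Lib_helper77.KSZ.XSHL
import Pool.Agent.Lib_helper77.KSZ.XQQ
import Pool.Agent.Lib_helper80.KSYF.BA
import Pool.Agent.Lib_helper80.KSYF.BB
import Pool.Agent.Lib_helper80.KSYF.CH
import Pool.Agent.Lib_helper80.KSYF.EA
import Pool.Agent.Lib_helper80.KSYF.EB

/-!
# KSY, block EC: more variables than the degree
-/

set_option autoImplicit false

namespace Pool.Agent.KSYP.EC

open MvPolynomial Pool.Agent.KSS Pool.Agent.KSX Pool.Agent.KSY Filter Topology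

/-- (EC) more variables than the degree -/
theorem p0_big_pr (d : Fin 1 → ℕ) (hd : 3 ≤ d 0) (v : ℕ) (hv : d 0 < v)
    (hP : Pst d v Finset.univ ∅) : Pst d v ∅ Finset.univ := by
  intro ι U R q M0 h
  by_contra hnot
  have hd2 : ∀ i, 2 ≤ d i := fun i => by
    rw [Subsingleton.elim i 0]
    omega
  obtain ⟨R2, h2, h02⟩ := shift_lim_pr d hd2 v ∅ Finset.univ (Finset.disjoint_empty_left _)
    (by rw [Finset.sum_empty]; omega) U R q M0 h hnot
  clear hnot h R
  obtain ⟨n', rfl⟩ : ∃ n', v = n' + 1 := ⟨v - 1, by omega⟩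
  set s : ι → ℝ := sn d (n' + 1) ∅ R2 q M0 with hs
  have hspos : ∀ᶠ n in (U : Filter ι), 0 < s n := h2.spos
  have hLpos : ∀ᶠ n in (U : Filter ι), 0 < (R2 n).L := by
    filter_upwards [h2.Llim.eventually_gt_atTop 0] with n h1
    by_contra h3
    have : (R2 n).L = 0 := by omega
    rw [this] at h1
    simp at h1
  have hg := h2.glim 0 (Finset.mem_univ 0)
  have hgpos : ∀ᶠ n in (U : Filter ι), 0 < (R2 n).g 0 := by
    have h3 : (0 : ℝ) < d 0 := by exact_mod_cast (by omega : 0 < d 0)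
    filter_upwards [hg.eventually_const_lt h3] with n h4
    by_contra h5
    have : (R2 n).g 0 = 0 := by omega
    rw [this] at h4
    simp at h4
  -- normal cone
  have hex : ∀ᶠ n in (U : Filter ι), ∃ R0 : Rec 1, ∃ η : ℕ, NC d (n' + 1) (R2 n) R0 η := by
    filter_upwards [h2.of] with n h1
    exact nc_rec d (by omega) (n' + 1) (R2 n) h1
  obtain ⟨R0, hR0⟩ := hex.choice
  obtain ⟨η, hN⟩ := hR0.choice
  -- local coordinates
  have hex2 : ∀ᶠ n in (U : Filter ι), ∃ o : Option (Fin n') → ℕ,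
      (∀ m ≤ M0 n, ∀ l ≤ (R2 n).L,
        (cnt (fun t : Option (Fin n') => t.elim (d 0) (fun _ => 1)) o m l : ℤ) + (R2 n).fil m l
          ≤ NN d (n' + 1) ∅ m) ∧
      ∑ t, o t + (R2 n).τ ≤ (n' + 1) * (R2 n).L ∧ (R2 n).g 0 ≤ o none := by
    filter_upwards [h2.of, hLpos, h02, hgpos] with n h1 h3 h4 h5
    exact cnt_rec d (by omega) n' (by omega) (M0 n) (R2 n) h1 h3 h4 h5
  obtain ⟨o, ho⟩ := hex2.choice
  obtain ⟨k1, k2, k3, k4⟩ := nc_lim d (by omega) (n' + 1) hv U R2 q M0 h2 R0 η hN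
  have hc : Tendsto (fun n => ((R0 n).c0 : ℝ) / s n) U (𝓝 1) := by
    have h1 := (hP ι U R0 q M0 k1).mul k2
    rw [mul_one] at h1
    refine h1.congr' ?_
    filter_upwards [hspos, k1.spos] with n a1 a2
    rw [div_mul_div_cancel₀ a2.ne']
  -- sums of the orders
  have hsumle : ∀ᶠ n in (U : Filter ι), (∑ t, (o n t : ℝ)) / s n ≤ (R2 n).cd (n' + 1) ∅ / s n := by
    filter_upwards [ho, hspos] with n a1 a2
    apply div_le_div_of_nonneg_right _ a2.le
    have a3 := a1.2.1
    have a4 : ((∑ t, o n t + (R2 n).τ : ℕ) : ℝ) ≤ (((n' + 1) * (R2 n).L : ℕ) : ℝ) := by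
      exact_mod_cast a3
    push_cast at a4
    unfold Rec.cd
    simp only [Finset.card_empty, Nat.cast_zero, sub_zero]
    push_cast
    linarith
  have hInd : Ind d (n' + 1) ∅ = (n' : ℝ) + 1 := by
    unfold Ind
    simp
  have hcd := h2.cdlim
  rw [hInd] at hcd
  have hlo : ∀ t, ∃ x, Tendsto (fun n => (o n t : ℝ) / s n) U (𝓝 x) := by
    intro t
    refine qq_lim (a := 0) (b := (n' : ℝ) + 2) ?_
    filter_upwards [hsumle, hcd.eventually_lt_const (show (n' : ℝ) + 1 < n' + 2 by linarith),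
      hspos] with n a1 a2 a3
    refine ⟨by positivity, le_trans ?_ (a1.trans a2.le)⟩
    apply div_le_div_of_nonneg_right _ a3.le
    exact Finset.single_le_sum (f := fun t => (o n t : ℝ)) (fun i _ => Nat.cast_nonneg _)
      (Finset.mem_univ t)
  choose oh hoh using hlo
  have hoh0 : ∀ t, 0 ≤ oh t := by
    intro t
    refine ge_of_tendsto (hoh t) ?_
    filter_upwards [hspos] with n a
    positivity
  have hγ : (d 0 : ℝ) ≤ oh none := by
    refine le_of_tendsto_of_tendsto hg (hoh none) ?_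
    filter_upwards [ho, hspos] with n a1 a2
    apply div_le_div_of_nonneg_right _ a2.le
    exact_mod_cast a1.2.2
  have hsum : oh none + ∑ i, oh (some i) ≤ (n' : ℝ) + 1 := by
    rw [← Fintype.sum_option oh]
    have h1 : Tendsto (fun n => ∑ t, (o n t : ℝ) / s n) U (𝓝 (∑ t, oh t)) :=
      tendsto_finsetSum _ (fun t _ => hoh t)
    refine le_of_tendsto_of_tendsto h1 hcd ?_
    filter_upwards [hsumle] with n a1
    rw [← Finset.sum_div]
    exact a1
  exact num_zero (d 0) n' (by omega) (by omega) (oh none) (fun i => oh (some i)) hγ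
    (fun i => hoh0 _) hsum fun lam hlam =>
      p0_lap d (by omega) n' (by omega) U R2 q M0 h2 R0 η hN k3 hc k4 o oh
        (ho.mono fun n hn => hn.1) hoh lam hlam

end Pool.Agent.KSYP.EC

alias Pool.Agent.KSY.p0_big := Pool.Agent.KSYP.EC.p0_big_pr
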