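import Pool.Agent.Lib_helper80.KSY.Defs
import Pool.Agent.Lib_helper77.KSZ.XSER
import Pool.Agent.Lib_helper77.KSZ.XBAS
import Pool.Agent.Lib_helper77.KSZ.XLCR
import Pool.Agent.Lib_helper77.KSZ.XASY
import Pool.Agent.Lib_helper77.KSZ.XSHL
import Pool.Agent.Lib_helper80.KSYF.BG

/-!
# KSY block ED: the sum of the dimensions from the linear bound; as many variables as the degree
-/

set_option autoImplicit false

namespace Pool.Agent.KSYP.ED

open MvPolynomial Pool.Agent.KSS Pool.Agent.KSX Pool.Agent.KSY Filter Topology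

/-- sums over blocks of length `g` -/
theorem sum_blocks (g K : ℕ) (hg : 0 < g) (F : ℕ → ℝ) :
    ∑ j ∈ Finset.range (g * K), F (j / g) = g * ∑ β ∈ Finset.range K, F β := by
  induction K with
  | zero => simp
  | succ K ih =>
    rw [Nat.mul_succ, Finset.sum_range_add, ih, Finset.sum_range_succ, mul_add]
    congr 1
    have : ∀ i ∈ Finset.range g, F ((g * K + i) / g) = F K := by
      intro i hi
      have hi' := Finset.mem_range.1 hi
      congr 1
      rw [Nat.mul_add_div hg, Nat.div_eq_of_lt hi', add_zero]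
    rw [Finset.sum_congr rfl this, Finset.sum_const, Finset.card_range, nsmul_eq_mul]

/-- the bound of the inner sum -/
theorem inner_le (L A g m D : ℕ) (hg : 0 < g) (hD : 1 ≤ D) (N : ℝ) (hN : 0 ≤ N) (fl : ℕ → ℝ)
    (f : ℕ → ℝ) (hf : ∀ b, 0 ≤ f b) (hf0 : ∀ b, m < b * D → f b = 0)
    (h1 : ∀ l ∈ Finset.Icc 1 L, l ≤ A → fl l ≤ N)
    (h2 : ∀ l ∈ Finset.Icc 1 L, ∀ β, β * g + A < l → fl l ≤ f (β + 1)) :
    ∑ l ∈ Finset.Icc 1 L, fl l ≤ A * N + g * ∑ b ∈ Finset.Icc 1 m, f b := by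
  have e1 : ∑ l ∈ Finset.Icc 1 L, fl l ≤ ∑ l ∈ Finset.Icc 1 L,
      ((if l ≤ A then N else 0) + (if A < l then f ((l - A - 1) / g + 1) else 0)) := by
    refine Finset.sum_le_sum fun l hl => ?_
    by_cases hA : l ≤ A
    · rw [if_pos hA, if_neg (not_lt.mpr hA), add_zero]
      exact h1 l hl hA
    · rw [if_neg hA, if_pos (not_le.mp hA), zero_add]
      refine h2 l hl _ ?_
      have := Nat.div_mul_le_self (l - A - 1) g
      omega
  refine e1.trans ?_
  rw [Finset.sum_add_distrib]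
  refine add_le_add ?_ ?_
  · rw [← Finset.sum_filter, Finset.sum_const, nsmul_eq_mul]
    refine mul_le_mul_of_nonneg_right ?_ hN
    have : (Finset.filter (fun l => l ≤ A) (Finset.Icc 1 L)).card ≤ (Finset.Icc 1 A).card := by
      refine Finset.card_le_card fun l hl => ?_
      rw [Finset.mem_filter, Finset.mem_Icc] at hl
      rw [Finset.mem_Icc]
      exact ⟨hl.1.1, hl.2⟩
    rw [Nat.card_Icc] at this
    exact_mod_cast this
  · have e2 : ∑ l ∈ Finset.Icc 1 L, (if A < l then f ((l - A - 1) / g + 1) else 0) ≤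
        ∑ j ∈ Finset.range (g * (L + m)), f (j / g + 1) := by
      rw [← Finset.sum_filter]
      have e3 : ∑ l ∈ Finset.filter (fun l => A < l) (Finset.Icc 1 L), f ((l - A - 1) / g + 1) =
          ∑ j ∈ (Finset.filter (fun l => A < l) (Finset.Icc 1 L)).image (fun l => l - A - 1),
            f (j / g + 1) := by
        rw [Finset.sum_image]
        intro x hx y hy hxy
        simp only [Finset.coe_filter, Finset.mem_Icc, Set.mem_ofPred_eq] at hx hy
        simp only at hxy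
        omega
      rw [e3]
      refine Finset.sum_le_sum_of_subset_of_nonneg ?_ fun j _ _ => hf _
      intro j hj
      rw [Finset.mem_image] at hj
      obtain ⟨l, hl, rfl⟩ := hj
      rw [Finset.mem_filter, Finset.mem_Icc] at hl
      rw [Finset.mem_range]
      have : L + m ≤ g * (L + m) := Nat.le_mul_of_pos_left _ hg
      omega
    refine e2.trans ?_
    rw [sum_blocks g (L + m) hg (fun β => f (β + 1))]
    refine mul_le_mul_of_nonneg_left (le_of_eq ?_) (Nat.cast_nonneg g)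
    rw [Finset.range_eq_Ico, Finset.sum_Ico_add' f 0 (L + m) 1]
    symm
    refine Finset.sum_subset ?_ ?_
    · intro b hb
      rw [Finset.mem_Icc] at hb
      rw [Finset.mem_Ico]
      omega
    · intro b hb hb'
      rw [Finset.mem_Ico] at hb
      rw [Finset.mem_Icc] at hb'
      apply hf0
      have : m < b := by omega
      calc m < b := this
        _ ≤ b * D := Nat.le_mul_of_pos_right _ hD

/-- (ED) the sum of the dimensions from the linear bound -/
theorem izumi_lam_pr (d : Fin 1 → ℕ) (hd : 2 ≤ d 0) (n : ℕ) (hn : 2 ≤ n) (R : Rec 1)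
    (hR : R.Of d (n + 1)) (h0 : R.c0 = 0) (hg0 : 0 < R.g 0) (hgL : R.g 0 < R.L) (q : ℝ)
    (hq0 : 0 < q) (hq1 : q < 1) (M0 : ℕ) :
    R.Lam d (n + 1) ∅ q M0 ≤ d 0 * n * (((n : ℝ) + 1) * R.L - R.τ - R.g 0) * Wq d (n + 1) ∅ q
      + R.g 0 * (q ^ (d 0) / (1 - q ^ (d 0))) * Hq d (n + 1) ∅ q := by
  have hd' : ∀ i, 1 ≤ d i := fun i => by rw [Subsingleton.elim i 0]; omega
  have hd2 : ∀ i, 2 ≤ d i := fun i => by rw [Subsingleton.elim i 0]; omega
  have hlc := (lc_rec_pr d hd2 (n + 1) (by omega) Finset.univ R hR (by omega) h0 (fun i _ => by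
    rw [Subsingleton.elim i 0]; exact hg0)).1
  rw [Fin.sum_univ_one] at hlc
  obtain ⟨c, hc⟩ : ∃ c : ℕ, R.g 0 + R.τ + c = (n + 1) * R.L :=
    ⟨(n + 1) * R.L - (R.g 0 + R.τ), by omega⟩
  have hcR : ((n : ℝ) + 1) * R.L - R.τ - R.g 0 = c := by
    have : ((R.g 0 : ℝ) + R.τ + c) = ((n : ℝ) + 1) * R.L := by exact_mod_cast hc
    linarith
  have hcZ : ((n : ℤ) + 1) * R.L - R.τ - R.g 0 = c := by
    have : ((R.g 0 : ℤ) + R.τ + c) = ((n : ℤ) + 1) * R.L := by exact_mod_cast hc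
    linarith
  have hbas := bas_rec_pr d hd' (n + 1) (by omega) R hR
  have hNN : ∀ m, 0 ≤ NN d (n + 1) ∅ m := fun m =>
    nb_nonneg d hd' (n + 1) ∅ (by simp) m
  have hinner : ∀ m, ∑ l ∈ Finset.Icc 1 R.L, (R.fil m l : ℝ) ≤
      (d 0 * m * n * c : ℕ) * (NN d (n + 1) ∅ m : ℝ) +
        R.g 0 * (HSum d (n + 1) ∅ (d 0) m : ℝ) := by
    intro m
    have h1 := inner_le R.L (d 0 * m * n * c) (R.g 0) m (d 0) hg0 (by omega)
      (NN d (n + 1) ∅ m : ℝ) (by exact_mod_cast hNN m) (fun l => (R.fil m l : ℝ))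
      (fun b => ((if b * d 0 ≤ m then NN d (n + 1) ∅ (m - b * d 0) else 0 : ℤ) : ℝ))
      (fun b => by
        by_cases hb : b * d 0 ≤ m
        · simp only [if_pos hb]; exact_mod_cast hNN _
        · simp only [if_neg hb]; simp)
      (fun b hb => by
        simp only [if_neg (not_le.mpr hb)]; simp)
      (fun l hl _ => by
        have := hbas.le m l (Finset.mem_Icc.1 hl).2
        exact_mod_cast this)
      (fun l hl β hβ => by
        have h2 := izumi_rec d hd n hn R hR h0 hg0 hgL m l β (Finset.mem_Icc.1 hl).2 (by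
          rw [hcZ]
          exact_mod_cast hβ)
        rw [mul_comm (d 0) (β + 1)] at h2
        exact_mod_cast h2)
    refine h1.trans (le_of_eq ?_)
    unfold HSum
    push_cast
    rfl
  rw [hcR]
  have hLam : R.Lam d (n + 1) ∅ q M0 =
      ∑ m ∈ Finset.range (M0 + 1), q ^ m * ∑ l ∈ Finset.Icc 1 R.L, (R.fil m l : ℝ) := by
    unfold Rec.Lam Rec.sig
    refine Finset.sum_congr rfl fun m _ => ?_
    congr 1
    refine Finset.sum_congr rfl fun l _ => ?_
    ring
  rw [hLam]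
  have hW := ser_W_pr d hd' (n + 1) ∅ q hq0.le hq1
  have hG := ser_G_pr d hd' (n + 1) ∅ (d 0) (by omega) q hq0.le hq1
  have hWs : ∑ m ∈ Finset.range (M0 + 1), (m : ℝ) * (NN d (n + 1) ∅ m : ℝ) * q ^ m ≤
      Wq d (n + 1) ∅ q := by
    refine sum_le_hasSum _ (fun m _ => ?_) hW
    have : (0 : ℝ) ≤ NN d (n + 1) ∅ m := by exact_mod_cast hNN m
    positivity
  have hGs : ∑ m ∈ Finset.range (M0 + 1), (HSum d (n + 1) ∅ (d 0) m : ℝ) * q ^ m ≤
      q ^ (d 0) / (1 - q ^ (d 0)) * Hq d (n + 1) ∅ q := by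
    refine sum_le_hasSum _ (fun m _ => ?_) hG
    have : (0 : ℝ) ≤ HSum d (n + 1) ∅ (d 0) m := by
      have h2 : 0 ≤ HSum d (n + 1) ∅ (d 0) m := by
        unfold HSum
        refine Finset.sum_nonneg fun b _ => ?_
        split_ifs
        · exact hNN _
        · exact le_refl _
      exact_mod_cast h2
    positivity
  calc ∑ m ∈ Finset.range (M0 + 1), q ^ m * ∑ l ∈ Finset.Icc 1 R.L, (R.fil m l : ℝ)
      ≤ ∑ m ∈ Finset.range (M0 + 1), q ^ m * ((d 0 * m * n * c : ℕ) * (NN d (n + 1) ∅ m : ℝ) +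
        R.g 0 * (HSum d (n + 1) ∅ (d 0) m : ℝ)) :=
        Finset.sum_le_sum fun m _ => mul_le_mul_of_nonneg_left (hinner m) (by positivity)
    _ = d 0 * n * c * ∑ m ∈ Finset.range (M0 + 1), (m : ℝ) * (NN d (n + 1) ∅ m : ℝ) * q ^ m +
        R.g 0 * ∑ m ∈ Finset.range (M0 + 1), (HSum d (n + 1) ∅ (d 0) m : ℝ) * q ^ m := by
        rw [Finset.mul_sum, Finset.mul_sum, ← Finset.sum_add_distrib]
        refine Finset.sum_congr rfl fun m _ => ?_
        push_cast
        ring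
    _ ≤ d 0 * n * c * Wq d (n + 1) ∅ q +
        R.g 0 * (q ^ (d 0) / (1 - q ^ (d 0)) * Hq d (n + 1) ∅ q) :=
        add_le_add (mul_le_mul_of_nonneg_left hWs (by positivity))
          (mul_le_mul_of_nonneg_left hGs (by positivity))
    _ = _ := by ring

theorem p0_contra (d : Fin 1 → ℕ) (n : ℕ) (hn : 2 ≤ n) (hv : d 0 = n + 1)
    {ι : Type} (U : Ultrafilter ι) (R : ι → Rec 1) (q : ι → ℝ) (M0 : ι → ℕ)
    (h : NE d (n + 1) ∅ Finset.univ U R q M0) (h0 : ∀ᶠ k in U, (R k).c0 = 0) : False := by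
  have hd : 2 ≤ d 0 := by omega
  have hd' : ∀ i, 1 ≤ d i := fun i => by rw [Subsingleton.elim i 0]; omega
  have hD : (d 0 : ℝ) = n + 1 := by rw [hv]; push_cast; ring
  have hn' : (2 : ℝ) ≤ n := by exact_mod_cast hn
  obtain ⟨s, hsdef⟩ : ∃ s : ι → ℝ, s = fun k => sn d (n + 1) ∅ R q M0 k := ⟨_, rfl⟩
  have hsn : ∀ k, sn d (n + 1) ∅ R q M0 k = s k := fun k => by rw [hsdef]
  have hq := h.q01
  have hql := h.qlim
  have hs : ∀ᶠ k in U, 0 < s k := by
    filter_upwards [h.spos] with k hk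
    rwa [hsn] at hk
  have hcd : Tendsto (fun k => (R k).cd (n + 1) ∅ / s k) U (𝓝 (n + 1)) := by
    have h1 := h.cdlim
    simp only [hsn] at h1
    have h2 : Ind d (n + 1) ∅ = n + 1 := by
      unfold Ind
      rw [Finset.sum_empty]
      push_cast
      ring
    rwa [h2] at h1
  have hg : Tendsto (fun k => ((R k).g 0 : ℝ) / s k) U (𝓝 (n + 1)) := by
    have h1 := h.glim 0 (Finset.mem_univ 0)
    simp only [hsn] at h1
    rwa [hD] at h1
  have hg0 : ∀ᶠ k in U, 0 < (R k).g 0 := by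
    have h1 : ∀ᶠ k in U, (0 : ℝ) < ((R k).g 0 : ℝ) / s k :=
      hg.eventually_const_lt (by linarith)
    filter_upwards [h1, hs] with k g1 g2
    have g3 : (0 : ℝ) < (R k).g 0 := by
      rcases (div_pos_iff.1 g1) with g | g
      · exact g.1
      · linarith [g.2]
    exact_mod_cast g3
  have hgL : ∀ᶠ k in U, (R k).g 0 < (R k).L := by
    have h1 := h.Llim
    simp only [hsn] at h1
    have h2 : ∀ᶠ k in U, ((n : ℝ) + 2) < (1 - q k) * ((R k).L : ℝ) / s k :=
      h1.eventually_gt_atTop _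
    have h3 : ∀ᶠ k in U, ((R k).g 0 : ℝ) / s k < (n : ℝ) + 2 :=
      hg.eventually_lt_const (by linarith)
    filter_upwards [h2, h3, hs, hq] with k g2 g3 g4 g5
    have g6 : ((R k).g 0 : ℝ) / s k < (R k).L / s k := by
      refine g3.trans (g2.trans_le ?_)
      refine div_le_div_of_nonneg_right ?_ g4.le
      have : (0 : ℝ) ≤ (R k).L := Nat.cast_nonneg _
      nlinarith [g5.1]
    rw [div_lt_div_iff_of_pos_right g4] at g6
    exact_mod_cast g6
  have hql' : Tendsto q U (𝓝[<] 1) :=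
    tendsto_nhdsWithin_iff.2 ⟨hql, hq.mono fun k hk => hk.2⟩
  have hasy := (asy_G_pr d hd' (n + 1) ∅ (by simp) (d 0) (by omega)).comp hql'
  have hlim : Tendsto (fun k => (d 0 : ℝ) * n * ((R k).cd (n + 1) ∅ / s k - ((R k).g 0 : ℝ) / s k)
      + ((R k).g 0 : ℝ) / s k * ((fun q : ℝ => q ^ (d 0) / (1 - q ^ (d 0)) * Hq d (n + 1) ∅ q /
        Wq d (n + 1) ∅ q) ∘ q) k) U
      (𝓝 ((d 0 : ℝ) * n * ((n + 1) - (n + 1)) + (n + 1) *
        (1 / ((d 0 : ℕ) * (((n + 1 : ℕ) : ℝ) - (∅ : Finset (Fin 1)).card))))) :=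
    ((tendsto_const_nhds.mul (hcd.sub hg))).add (hg.mul hasy)
  have hval : ((d 0 : ℝ) * n * ((n + 1) - (n + 1)) + (n + 1) *
        (1 / ((d 0 : ℕ) * (((n + 1 : ℕ) : ℝ) - (∅ : Finset (Fin 1)).card)))) =
      1 / ((n : ℝ) + 1) := by
    rw [hD]
    push_cast
    rw [Finset.card_empty]
    push_cast
    have : (n : ℝ) + 1 ≠ 0 := by positivity
    field_simp
    ring
  rw [hval] at hlim
  have hge : ∀ᶠ k in U, (1 : ℝ) ≤ (d 0 : ℝ) * n * ((R k).cd (n + 1) ∅ / s k -
      ((R k).g 0 : ℝ) / s k)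
      + ((R k).g 0 : ℝ) / s k * ((fun q : ℝ => q ^ (d 0) / (1 - q ^ (d 0)) * Hq d (n + 1) ∅ q /
        Wq d (n + 1) ∅ q) ∘ q) k := by
    filter_upwards [hs, hq, hg0, hgL, h0, h.of] with k g1 g2 g3 g4 g5 g6
    have A := izumi_lam_pr d hd n hn (R k) g6 g5 g3 g4 (q k) g2.1 g2.2 (M0 k)
    have hq0 := g2.1
    have h1q : 0 < 1 - q k := by linarith [g2.2]
    have hW : 0 < Wq d (n + 1) ∅ (q k) := by
      unfold Wq Hq
      rw [Finset.prod_empty, Finset.sum_empty]
      have : (0 : ℝ) < ((n + 1 : ℕ) : ℝ) := by positivity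
      have h2 : 0 < ((n + 1 : ℕ) : ℝ) * q k / (1 - q k) := by positivity
      have h3 : (0 : ℝ) < 1 / (1 - q k) ^ (n + 1) := by positivity
      rw [sub_zero]
      exact mul_pos h3 h2
    have hL : (R k).Lam d (n + 1) ∅ (q k) (M0 k) = s k * Wq d (n + 1) ∅ (q k) := by
      rw [← hsn k]
      unfold sn Rec.s
      rw [div_mul_cancel₀ _ hW.ne']
    rw [hL] at A
    have hcdk : (R k).cd (n + 1) ∅ = ((n : ℝ) + 1) * (R k).L - (R k).τ := by
      unfold Rec.cd
      rw [Finset.card_empty]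
      push_cast
      ring
    have e : (d 0 : ℝ) * n * ((R k).cd (n + 1) ∅ / s k - ((R k).g 0 : ℝ) / s k)
        + ((R k).g 0 : ℝ) / s k * ((fun q : ℝ => q ^ (d 0) / (1 - q ^ (d 0)) *
          Hq d (n + 1) ∅ q / Wq d (n + 1) ∅ q) ∘ q) k =
        (d 0 * n * (((n : ℝ) + 1) * (R k).L - (R k).τ - (R k).g 0) * Wq d (n + 1) ∅ (q k)
      + (R k).g 0 * ((q k) ^ (d 0) / (1 - (q k) ^ (d 0))) * Hq d (n + 1) ∅ (q k)) /
        (s k * Wq d (n + 1) ∅ (q k)) := by
      rw [hcdk]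
      simp only [Function.comp_apply]
      field_simp
    rw [e, le_div_iff₀ (mul_pos g1 hW), one_mul]
    exact A
  have h1 := ge_of_tendsto hlim hge
  have h2 : 1 / ((n : ℝ) + 1) < 1 := by
    rw [div_lt_one (by linarith)]
    linarith
  linarith

/-- (ED) as many variables as the degree -/
theorem p0_eq_pr (d : Fin 1 → ℕ) (hd : 3 ≤ d 0) : Pst d (d 0) ∅ Finset.univ := by
  intro ι U R q M0 h
  by_contra hnot
  obtain ⟨R2, h2, h3⟩ := shift_lim_pr d (fun i => by rw [Subsingleton.elim i 0]; omega) (d 0) ∅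
    Finset.univ (Finset.disjoint_empty_left _) (by simp; omega) U R q M0 h hnot
  obtain ⟨n, hn⟩ : ∃ n, d 0 = n + 1 := ⟨d 0 - 1, by omega⟩
  exact p0_contra d n (by omega) hn U R2 q M0 (by rw [← hn]; exact h2) h3


end Pool.Agent.KSYP.ED

alias Pool.Agent.KSY.izumi_lam := Pool.Agent.KSYP.ED.izumi_lam_pr

alias Pool.Agent.KSY.p0_eq := Pool.Agent.KSYP.ED.p0_eq_pr
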