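import Pool.Agent.Lib_helper80.KSY.Defs
import Pool.Agent.Lib_helper77.KSZ.XSHL
import Pool.Agent.Lib_helper77.KSZ.XQLC
import Pool.Agent.Lib_helper80.KSYF.DG
import Pool.Agent.Lib_helper80.KSYF.EC
import Pool.Agent.Lib_helper80.KSYF.ED

set_option autoImplicit false

namespace Pool.Agent.KSYP.EE

open MvPolynomial Pool.Agent.KSS Pool.Agent.KSX Filter Topology
open Pool.Agent.KSY

theorem pst_single_pr (d : Fin 1 → ℕ) (hd : 3 ≤ d 0) (v : ℕ) (hv : d 0 < v) :
    Pst d v Finset.univ ∅ := by
  have hd2 : ∀ i, 2 ≤ d i := by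
    intro i
    rw [Subsingleton.elim i 0]
    omega
  -- `P1(v)` from `P0(v - D)`
  have key1 : ∀ v, d 0 < v → Pst d (v - d 0) ∅ Finset.univ → Pst d v Finset.univ ∅ := by
    intro v hv hP0
    intro ι U R q M0 h
    by_contra hnot
    obtain ⟨R2, hR2, h0⟩ := Pool.Agent.KSX.shift_lim_pr d hd2 v Finset.univ ∅
      (Finset.disjoint_empty_right _) (by simpa using hv) U R q M0 h hnot
    exact p1_contra d hd v hv hP0 U R2 q M0 hR2 h0
  -- `P0(v)` for all `v ≥ 1`
  have key0 : ∀ v, 1 ≤ v → Pst d v ∅ Finset.univ := by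
    intro v
    induction v using Nat.strong_induction_on with
    | _ v ih =>
      intro hv1
      rcases lt_trichotomy v (d 0) with hlt | heq | hgt
      · intro ι U R q M0 h
        by_contra hnot
        obtain ⟨R2, hR2, h0⟩ := Pool.Agent.KSX.shift_lim_pr d hd2 v ∅ Finset.univ
          (Finset.disjoint_empty_left _) (by simpa using Nat.lt_of_lt_of_le Nat.zero_lt_one hv1) U R q M0 h hnot
        exact Pool.Agent.KSX.lc_contra_pr d hd2 v ∅ Finset.univ
          (Finset.disjoint_empty_left _) (by simpa using Nat.lt_of_lt_of_le Nat.zero_lt_one hv1)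
          (by simpa using hlt) U R2 q M0 hR2 h0
      · rw [heq]
        exact p0_eq d hd
      · exact p0_big d hd v hgt (key1 v hgt (ih (v - d 0) (by omega) (by omega)))
  exact key1 v hv (key0 (v - d 0) (by omega))

end Pool.Agent.KSYP.EE

alias Pool.Agent.KSY.pst_single := Pool.Agent.KSYP.EE.pst_single_pr
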