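import Pool.Agent.Lib_helper80.KSYF.EE
import Pool.Agent.Lib_helper77.OPF.UMAIN
import Pool.Agent.Lib_helper77.KSZ.Lin

/-!
# All multidegrees of Q1: `k + 2 ≤ ∑ d_i ≤ n + k`
-/

set_option autoImplicit false

namespace Pool.Agent.KSY

open MvPolynomial Pool.Agent.KSS Pool.Agent.KSX Filter Topology

/-- relative strictness for all multidegrees `d_i ≥ 1` with `p + 2 ≤ ∑ d_i` -/
theorem pst_every {p : ℕ} : ∀ (d : Fin p → ℕ) (_ : ∀ i, 1 ≤ d i) (v : ℕ)
    (_ : ∑ i, d i < v) (_ : p + 2 ≤ ∑ i, d i), Pst d v Finset.univ ∅ := by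
  induction p with
  | zero =>
    intro d _ v _ h2
    simp at h2
  | succ p ih =>
    intro d hd v hv h2
    by_cases hall : ∀ i, 2 ≤ d i
    · rcases Nat.eq_zero_or_pos p with rfl | hp
      · have hs : ∑ i, d i = d 0 := Fin.sum_univ_one d
        rw [hs] at hv h2
        exact pst_single d (by omega) v hv
      · refine pst_all d hall v Finset.univ ∅ (by simp) (by simpa using hv) (Or.inl ⟨?_, rfl⟩)
        rw [Finset.card_univ, Fintype.card_fin]
        omega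
    · push Not at hall
      obtain ⟨j, hj⟩ := hall
      have hj1 : d j = 1 := le_antisymm (by omega) (hd j)
      obtain ⟨v', rfl⟩ : ∃ v', v = v' + 1 := ⟨v - 1, by omega⟩
      rw [Fin.sum_univ_succAbove d j, hj1] at hv h2
      exact lin_pst (by omega) d j hj1
        (ih (fun i => d (j.succAbove i)) (fun i => hd _) v' (by omega) (by omega))

end Pool.Agent.KSY

namespace Pool.Agent.OPN

open MvPolynomial Pool.Agent.KSS Pool.Agent.KSX Filter Topology
open scoped ENNReal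

/-- uniform K-stability on a Zariski open set, all multidegrees `d_i ≥ 1` with
`k + 2 ≤ ∑ d_i ≤ n + k` -/
theorem opn_every (n k : ℕ) (d : Fin k → ℕ) (hd : ∀ i, 1 ≤ d i)
    (h2 : k + 2 ≤ ∑ i, d i) (hF : ∑ i, d i ≤ n + k) :
    ∃ H : MvPolynomial (CI d (n + k + 1)) ℤ, H ≠ 0 ∧ ∃ ε : ℝ, 0 < ε ∧
      ∀ f : Fin k → MvPolynomial (Fin (n + k + 1)) ℂ, (∀ i, (f i).IsHomogeneous (d i)) →
        Hv (d := d) H f ≠ 0 → SmoothCI f ∧ ∀ E : DivisorOver f n,
          ENNReal.ofReal (1 + ε) * ExpVan d E ≤ (E.A : ℝ≥0∞) := by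
  classical
  obtain ⟨g, hg0, hg, H0, hH0, hT1⟩ := t1_main n k d hd hF
  obtain ⟨Hg, hHg0, hHg⟩ := OPT.good_open (v := n + k + 1) d hd (by omega)
  obtain ⟨Hs, hHs0, hHs⟩ := exists_seq (CI d (n + k + 1))
  have hP : Pst d (n + k + 1) Finset.univ ∅ :=
    Pool.Agent.KSY.pst_every d hd (n + k + 1) (by omega) h2
  by_contra hcon
  push Not at hcon
  have hstep : ∀ i : ℕ, ∃ V : Viol n k, V.Ok d g i i (1 / ((i : ℝ) + 1)) ∧
      Hv (d := d) (Hs i) V.f ≠ 0 := by
    intro i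
    obtain ⟨f, hf, hHf, hbad⟩ := hcon (Hs i * H0 * Hg)
      (mul_ne_zero (mul_ne_zero (hHs0 i) hH0) hHg0) (1 / ((i : ℝ) + 1)) (by positivity)
    have h3 : Hv (d := d) (Hs i) f ≠ 0 ∧ Hv (d := d) H0 f ≠ 0 ∧ Hv (d := d) Hg f ≠ 0 := by
      unfold Hv at hHf ⊢
      rw [map_mul, map_mul] at hHf
      exact ⟨left_ne_zero_of_mul (left_ne_zero_of_mul hHf),
        right_ne_zero_of_mul (left_ne_zero_of_mul hHf), right_ne_zero_of_mul hHf⟩
    have hgood : OPT.Good d f := hHg ℂ f hf h3.2.2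
    obtain ⟨E, hE⟩ := hbad (umain_smooth d f hgood)
    exact hT1 f hf h3.2.1 E _ (by positivity) hE (Hs i) h3.1 i i
  choose V hV hVH using hstep
  set U : Ultrafilter ℕ := Filter.hyperfilter ℕ with hU
  have hUle : (U : Filter ℕ) ≤ atTop := by
    rw [hU, ← Nat.cofinite_eq_atTop]
    exact Filter.hyperfilter_le_cofinite
  refine fin_contra d hd hF hP g hg0 hg fun M0 T η hη hη1 => ?_
  refine level_rec d hd hF g U hUle V hV ?_ M0 T η hη hη1
  intro H hH
  obtain ⟨N, hN⟩ := hHs H hH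
  have h3 : ∀ᶠ i in (atTop : Filter ℕ), Hv (d := d) H (V i).f ≠ 0 := by
    filter_upwards [eventually_ge_atTop N] with i hi
    intro h0
    apply hVH i
    obtain ⟨Q, hQ⟩ := hN i hi
    unfold Hv at h0 ⊢
    rw [hQ, map_mul, h0, zero_mul]
  exact h3.filter_mono hUle

end Pool.Agent.OPN
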